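import Mathlib

/-!
# Half-trees

`half T v w` : the vertices on the side of `v` when the edge `v w` is removed.
-/

set_option autoImplicit false

namespace Singer

namespace HT

variable {V : Type*} (T : SimpleGraph V)

/-- the half-tree of the oriented edge `v w`: the vertices on the side of `v` -/
def half (v w : V) : Set V := {u | (T.deleteEdges {s(v, w)}).Reachable v u}

variable {T}

lemma mem_half_self (v w : V) : v ∈ half T v w := SimpleGraph.Reachable.refl _

lemma notMem_half (hT : T.IsTree) {v w : V} (h : T.Adj v w) : w ∉ half T v w := by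
  have h1 := SimpleGraph.isAcyclic_iff_forall_adj_isBridge.1 hT.isAcyclic h
  rw [SimpleGraph.isBridge_iff] at h1
  exact h1

lemma half_step {v w a b : V} (h : T.Adj a b) (hne : s(a, b) ≠ s(v, w)) : a ∈ half T v w ↔ b ∈ half T v w := by
  have h1 : (T.deleteEdges {s(v, w)}).Adj a b := by
    rw [SimpleGraph.deleteEdges_adj]
    exact ⟨h, hne⟩
  exact ⟨fun h2 => SimpleGraph.Reachable.trans h2 h1.reachable,
    fun h2 => SimpleGraph.Reachable.trans h2 h1.symm.reachable⟩

/-- along an edge which is not `v w` or `w v` one stays in the half-tree -/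
lemma half_step' {v w a b : V} (h : T.Adj a b) (h1 : ¬ (a = v ∧ b = w)) (h2 : ¬ (a = w ∧ b = v)) :
    a ∈ half T v w ↔ b ∈ half T v w := by
  refine half_step h fun h3 => ?_
  rw [Sym2.eq_iff] at h3
  rcases h3 with h3 | h3
  · exact h1 h3
  · exact h2 h3

lemma half_or (hT : T.IsTree) (v w u : V) : u ∈ half T v w ∨ u ∈ half T w v := by
  obtain ⟨p⟩ := hT.connected.preconnected v u
  suffices h : ∀ (a u : V) (p : T.Walk a u), (a ∈ half T v w ∨ a ∈ half T w v) →
      (u ∈ half T v w ∨ u ∈ half T w v) from h v u p (Or.inl (mem_half_self v w))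
  intro a u p
  induction p with
  | nil => exact id
  | @cons a b c hab p ih =>
    intro ha
    apply ih
    by_cases h1 : a = v ∧ b = w
    · right
      rw [h1.2]
      exact mem_half_self w v
    · by_cases h2 : a = w ∧ b = v
      · left
        rw [h2.2]
        exact mem_half_self v w
      · rcases ha with ha | ha
        · exact Or.inl ((half_step' hab h1 h2).1 ha)
        · exact Or.inr ((half_step' hab (fun h => h2 h) (fun h => h1 h)).1 ha)

lemma half_iff (hT : T.IsTree) {v w : V} (h : T.Adj v w) (u : V) : u ∈ half T v w ↔ u ∉ half T w v := by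
  constructor
  · intro h1 h2
    have h3 : (T.deleteEdges {s(v, w)}).Reachable w u := by
      have h4 : s(w, v) = s(v, w) := Sym2.eq_swap
      have h5 : (T.deleteEdges {s(w, v)}).Reachable w u := h2
      rwa [h4] at h5
    exact notMem_half hT h (SimpleGraph.Reachable.trans h1 h3.symm)
  · intro h1
    exact (half_or hT v w u).resolve_right h1

section action
variable {Γ : Type*} [Group Γ] [MulAction Γ V]

/-- the action preserves adjacency -/
def Acts (Γ : Type*) [Group Γ] {V : Type*} [MulAction Γ V] (T : SimpleGraph V) : Prop :=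
  ∀ (g : Γ) (v w : V), T.Adj v w → T.Adj (g • v) (g • w)

lemma Acts.iff (hact : Acts Γ T) (g : Γ) (v w : V) : T.Adj (g • v) (g • w) ↔ T.Adj v w := by
  refine ⟨fun h => ?_, hact g v w⟩
  have := hact g⁻¹ _ _ h
  rwa [inv_smul_smul, inv_smul_smul] at this

lemma Acts.half_of (hact : Acts Γ T) (g : Γ) {v w u : V} (h : u ∈ half T v w) : g • u ∈ half T (g • v) (g • w) := by
  obtain ⟨p⟩ := h
  suffices h : ∀ (a u : V) (p : (T.deleteEdges {s(v, w)}).Walk a u),
      (T.deleteEdges {s(g • v, g • w)}).Reachable (g • a) (g • u) from h v u p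
  intro a u p
  induction p with
  | nil => exact SimpleGraph.Reachable.refl _
  | @cons a b c hab p ih =>
    refine SimpleGraph.Reachable.trans (SimpleGraph.Adj.reachable ?_) ih
    rw [SimpleGraph.deleteEdges_adj] at hab ⊢
    refine ⟨hact g _ _ hab.1, fun h => hab.2 ?_⟩
    have h2 : s(g • a, g • b) = s(g • v, g • w) := h
    rw [Sym2.eq_iff] at h2
    show s(a, b) = s(v, w)
    rw [Sym2.eq_iff]
    rcases h2 with ⟨h2, h3⟩ | ⟨h2, h3⟩
    · exact Or.inl ⟨MulAction.injective g h2, MulAction.injective g h3⟩
    · exact Or.inr ⟨MulAction.injective g h2, MulAction.injective g h3⟩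

lemma Acts.half_iff (hact : Acts Γ T) (g : Γ) {v w u : V} : g • u ∈ half T (g • v) (g • w) ↔ u ∈ half T v w := by
  refine ⟨fun h => ?_, hact.half_of g⟩
  have := hact.half_of g⁻¹ h
  rwa [inv_smul_smul, inv_smul_smul, inv_smul_smul] at this

end action

end HT

end Singer
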