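import Pool.Agent.Singer.Gen.Defs

/-!
# Singer, general gluing theorem: the Betti numbers of mapping cones

* `vdim_pr`, `vdim_ker_pr`: dimensions of direct sums and of fibre products;
* `HC.vdim_B`, `HC.h_nonneg`, `HC.h_eq_zero_iff`, `HC.mem_Z_prod`, `HC.mem_B_prod`, `HC.h_prod`;
* `HMap.h_cone_zero`, `HMap.h_cone_succ`: the long exact sequence of the mapping cone.
-/

set_option autoImplicit false
set_option linter.unusedSectionVars false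
set_option linter.unusedVariables false

open scoped ComplexConjugate InnerProductSpace
open Filter Topology

namespace Singer

/-! ### Direct sums -/

section sums
variable {Γ : Type*} [Group Γ] {ι κ μ : Type*}

lemma inner_sum (f h : E Γ (ι ⊕ κ)) : ⟪f, h⟫_ℂ = ⟪fs f, fs h⟫_ℂ + ⟪sn f, sn h⟫_ℂ := by
  have h1 := (summable_inner' (fs f) (fs h)).hasSum
  have h2 := (summable_inner' (sn f) (sn h)).hasSum
  have h3 : HasSum (fun x : (Γ × ι) ⊕ (Γ × κ) =>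
      conj (f ((Equiv.prodSumDistrib Γ ι κ).symm x)) * h ((Equiv.prodSumDistrib Γ ι κ).symm x))
      (⟪fs f, fs h⟫_ℂ + ⟪sn f, sn h⟫_ℂ) := by
    rw [inner_eq, inner_eq]
    refine HasSum.sum ?_ ?_
    · exact h1
    · exact h2
  have h4 := ((Equiv.prodSumDistrib Γ ι κ).symm.hasSum_iff
    (f := fun x : Γ × (ι ⊕ κ) => conj (f x) * h x)).1 h3
  rw [inner_eq f h]
  exact h4.tsum_eq

lemma norm_il (f : E Γ ι) : ‖(il f : E Γ (ι ⊕ κ))‖ = ‖f‖ := norm_push _ inl_inj f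

lemma norm_ir (f : E Γ κ) : ‖(ir f : E Γ (ι ⊕ κ))‖ = ‖f‖ := norm_push _ inr_inj f

lemma il_mem_pr {V : Submodule ℂ (E Γ ι)} {W : Submodule ℂ (E Γ κ)} {f : E Γ ι} (h : f ∈ V) : il f ∈ pr V W := by
  refine mem_pr.2 ⟨?_, ?_⟩
  · rwa [fs_il]
  · rw [sn_il]
    exact W.zero_mem

lemma ir_mem_pr {V : Submodule ℂ (E Γ ι)} {W : Submodule ℂ (E Γ κ)} {f : E Γ κ} (h : f ∈ W) : ir f ∈ pr V W := by
  refine mem_pr.2 ⟨?_, ?_⟩
  · rw [fs_ir]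
    exact V.zero_mem
  · rwa [sn_ir]

lemma map_closure_le {T : E Γ ι →L[ℂ] E Γ κ} {V : Submodule ℂ (E Γ ι)} {W : Submodule ℂ (E Γ κ)}
    (h : ∀ f ∈ V, T f ∈ W) {f : E Γ ι} (hf : f ∈ V.topologicalClosure) : T f ∈ W.topologicalClosure := by
  have h1 : T f ∈ _root_.closure ((T : E Γ ι → E Γ κ) '' (V : Set (E Γ ι))) :=
    image_closure_subset_closure_image T.continuous ⟨f, hf, rfl⟩
  refine closure_mono ?_ h1
  rintro _ ⟨x, hx, rfl⟩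
  exact h x hx

lemma prj_pr (V : Submodule ℂ (E Γ ι)) (W : Submodule ℂ (E Γ κ)) (f : E Γ (ι ⊕ κ)) :
    prj (pr V W) f = il (prj V (fs f)) + ir (prj W (sn f)) := by
  refine prj_unique (Submodule.add_mem _ ?_ ?_) ?_
  · exact map_closure_le (fun g hg => il_mem_pr hg) (prj_mem V (fs f))
  · exact map_closure_le (fun g hg => ir_mem_pr hg) (prj_mem W (sn f))
  · rw [Submodule.mem_orthogonal]
    intro u hu
    have hu' := mem_pr.1 hu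
    rw [inner_sum]
    have h1 : fs (f - (il (prj V (fs f)) + ir (prj W (sn f)))) = fs f - prj V (fs f) := by
      rw [map_sub, map_add, fs_il, fs_ir, add_zero]
    have h2 : sn (f - (il (prj V (fs f)) + ir (prj W (sn f)))) = sn f - prj W (sn f) := by
      rw [map_sub, map_add, sn_il, sn_ir, zero_add]
    rw [h1, h2, (Submodule.mem_orthogonal _ _).1 (sub_prj_mem V (fs f)) _ hu'.1,
      (Submodule.mem_orthogonal _ _).1 (sub_prj_mem W (sn f)) _ hu'.2, add_zero]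

variable [Fintype ι] [Fintype κ] [Fintype μ]

lemma vdim_pr (V : Submodule ℂ (E Γ ι)) (W : Submodule ℂ (E Γ κ)) : vdim (pr V W) = vdim V + vdim W := by
  classical
  unfold vdim
  rw [Fintype.sum_sum_type]
  congr 1
  · refine Finset.sum_congr rfl fun i _ => ?_
    have h1 : fs (del (1 : Γ) (Sum.inl i : ι ⊕ κ)) = del 1 i := by
      ext ⟨g, j⟩
      simp [del, lp.single_apply, Pi.single_apply]
    have h2 : sn (del (1 : Γ) (Sum.inl i : ι ⊕ κ)) = 0 := by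
      ext ⟨g, j⟩
      simp [del, lp.single_apply]
    rw [prj_pr, h1, h2, map_zero, map_zero, add_zero, norm_il]
  · refine Finset.sum_congr rfl fun k _ => ?_
    have h1 : fs (del (1 : Γ) (Sum.inr k : ι ⊕ κ)) = 0 := by
      ext ⟨g, j⟩
      simp [del, lp.single_apply]
    have h2 : sn (del (1 : Γ) (Sum.inr k : ι ⊕ κ)) = del 1 k := by
      ext ⟨g, j⟩
      simp [del, lp.single_apply, Pi.single_apply]
    rw [prj_pr, h1, h2, map_zero, map_zero, zero_add, norm_ir]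

/-- the dimension of a preimage of a closed submodule -/
lemma vdim_comap_add {T : E Γ ι →L[ℂ] E Γ κ} (hT : Equi T) {Q : Submodule ℂ (E Γ ι)} (hQ : Mdl Q)
    {B : Submodule ℂ (E Γ κ)} (hB : Mdl B) :
    vdim (Q ⊓ B.comap (T : E Γ ι →ₗ[ℂ] E Γ κ)) + vdim (B ⊔ Q.map (T : E Γ ι →ₗ[ℂ] E Γ κ)) = vdim Q + vdim B := by
  have hmem : ∀ f, prj B f ∈ B := fun f => by
    have := prj_mem B f
    rwa [IsClosed.submodule_topologicalClosure_eq hB.cl] at this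
  set S : E Γ κ →L[ℂ] E Γ κ := 1 - prj B with hSdef
  have hS : Equi S := equi_one.sub (equi_prj hB.inv)
  have h1 := vdim_map_add (hS.comp hT) hQ.inv hQ.cl
  have h2 : Q ⊓ LinearMap.ker ((S.comp T : E Γ ι →L[ℂ] E Γ κ) : E Γ ι →ₗ[ℂ] E Γ κ) =
      Q ⊓ B.comap (T : E Γ ι →ₗ[ℂ] E Γ κ) := by
    congr 1
    ext x
    constructor
    · intro hx
      have hx' : T x - prj B (T x) = 0 := hx
      rw [sub_eq_zero] at hx'
      show T x ∈ B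
      rw [hx']
      exact hmem _
    · intro hx
      have hx' : T x ∈ B := hx
      show T x - prj B (T x) = 0
      rw [prj_eq_of_mem (B.le_topologicalClosure hx'), sub_self]
  have h3 : B ⊔ Q.map (T : E Γ ι →ₗ[ℂ] E Γ κ) =
      Q.map ((S.comp T : E Γ ι →L[ℂ] E Γ κ) : E Γ ι →ₗ[ℂ] E Γ κ) ⊔ B := by
    refine le_antisymm (sup_le le_sup_right ?_) (sup_le ?_ le_sup_left)
    · rintro _ ⟨x, hx, rfl⟩
      have h4 : T x = (T x - prj B (T x)) + prj B (T x) := by abel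
      show T x ∈ _
      rw [h4]
      exact Submodule.add_mem_sup ⟨x, hx, rfl⟩ (hmem _)
    · rintro _ ⟨x, hx, rfl⟩
      show T x - prj B (T x) ∈ _
      exact Submodule.sub_mem _ (Submodule.mem_sup_right ⟨x, hx, rfl⟩) (Submodule.mem_sup_left (hmem _))
  have h5 : Q.map ((S.comp T : E Γ ι →L[ℂ] E Γ κ) : E Γ ι →ₗ[ℂ] E Γ κ) ≤ Bᗮ := by
    rintro _ ⟨x, hx, rfl⟩
    exact sub_prj_mem B (T x)
  rw [h2] at h1
  rw [h3, vdim_sup_of_le_orthogonal h5]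
  linarith

lemma closure_sup_left (A B : Submodule ℂ (E Γ κ)) :
    (A.topologicalClosure ⊔ B).topologicalClosure = (A ⊔ B).topologicalClosure := by
  refine le_antisymm ?_ ?_
  · refine Submodule.topologicalClosure_minimal _ (sup_le ?_ ?_) (Submodule.isClosed_topologicalClosure _)
    · exact Submodule.topologicalClosure_mono le_sup_left
    · exact le_sup_right.trans (Submodule.le_topologicalClosure _)
  · exact Submodule.topologicalClosure_mono (sup_le_sup_right (Submodule.le_topologicalClosure _) _)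

/-- the dimension of the kernel of `(y, x) ↦ T₁ y + T₂ x` -/
lemma vdim_ker_pr {T₁ : E Γ ι →L[ℂ] E Γ μ} {T₂ : E Γ κ →L[ℂ] E Γ μ} (h₁ : Equi T₁) (h₂ : Equi T₂)
    {P : Submodule ℂ (E Γ ι)} {Q : Submodule ℂ (E Γ κ)} (hP : Mdl P) (hQ : Mdl Q) :
    vdim (pr P Q ⊓ LinearMap.ker ((T₁.comp fs + T₂.comp sn : E Γ (ι ⊕ κ) →L[ℂ] E Γ μ) : E Γ (ι ⊕ κ) →ₗ[ℂ] E Γ μ)) =
      vdim (P ⊓ LinearMap.ker (T₁ : E Γ ι →ₗ[ℂ] E Γ μ)) +
      vdim (Q ⊓ ((P.map (T₁ : E Γ ι →ₗ[ℂ] E Γ μ)).topologicalClosure).comap (T₂ : E Γ κ →ₗ[ℂ] E Γ μ)) := by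
  have hT : Equi (T₁.comp fs + T₂.comp sn : E Γ (ι ⊕ κ) →L[ℂ] E Γ μ) := (h₁.comp equi_fs).add (h₂.comp equi_sn)
  have h3 := vdim_map_add hT (hP.pr hQ).inv (hP.pr hQ).cl
  have h4 := vdim_map_add h₁ hP.inv hP.cl
  have hB : Mdl (P.map (T₁ : E Γ ι →ₗ[ℂ] E Γ μ)).topologicalClosure := Mdl.closure (hP.inv.map h₁)
  have h5 := vdim_comap_add h₂ hQ hB
  have h6 : (pr P Q).map ((T₁.comp fs + T₂.comp sn : E Γ (ι ⊕ κ) →L[ℂ] E Γ μ) : E Γ (ι ⊕ κ) →ₗ[ℂ] E Γ μ) =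
      P.map (T₁ : E Γ ι →ₗ[ℂ] E Γ μ) ⊔ Q.map (T₂ : E Γ κ →ₗ[ℂ] E Γ μ) := by
    refine le_antisymm ?_ (sup_le ?_ ?_)
    · rintro _ ⟨f, hf, rfl⟩
      exact Submodule.add_mem_sup ⟨fs f, (mem_pr.1 hf).1, rfl⟩ ⟨sn f, (mem_pr.1 hf).2, rfl⟩
    · rintro _ ⟨f, hf, rfl⟩
      refine ⟨il f, il_mem_pr hf, ?_⟩
      show T₁ (fs (il f)) + T₂ (sn (il f)) = T₁ f
      rw [fs_il, sn_il, map_zero, add_zero]
    · rintro _ ⟨f, hf, rfl⟩
      refine ⟨ir f, ir_mem_pr hf, ?_⟩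
      show T₁ (fs (ir f)) + T₂ (sn (ir f)) = T₂ f
      rw [fs_ir, sn_ir, map_zero, zero_add]
  rw [h6, ← vdim_closure, ← closure_sup_left, vdim_closure, vdim_pr] at h3
  rw [vdim_closure] at h5
  linarith

end sums

/-! ### Complexes -/

namespace HC
variable {Γ : Type*} [Group Γ] (X Y : HC Γ)

lemma Z_mdl : ∀ i, Mdl (X.Z i)
  | 0 => X.mdl 0
  | i + 1 => (X.mdl (i + 1)).inf (mdl_ker (X.equi i))

lemma B_mdl (i : ℕ) : Mdl (X.B i) := Mdl.closure ((X.mdl (i + 1)).inv.map (X.equi i))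

lemma Z_le : ∀ i, X.Z i ≤ X.P i
  | 0 => le_rfl
  | i + 1 => inf_le_left

lemma d_mem_Z : ∀ i, ∀ f ∈ X.P (i + 1), X.d i f ∈ X.Z i
  | 0, f, hf => X.maps 0 f hf
  | i + 1, f, hf => ⟨X.maps (i + 1) f hf, X.dd i f hf⟩

lemma d_mem_B (i : ℕ) {f : E Γ (X.ι (i + 1))} (hf : f ∈ X.P (i + 1)) : X.d i f ∈ X.B i :=
  Submodule.le_topologicalClosure _ ⟨f, hf, rfl⟩

lemma B_le_Z (i : ℕ) : X.B i ≤ X.Z i := by
  refine Submodule.topologicalClosure_minimal _ ?_ (X.Z_mdl i).cl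
  rintro _ ⟨f, hf, rfl⟩
  exact X.d_mem_Z i f hf

lemma B_le_P (i : ℕ) : X.B i ≤ X.P i := (X.B_le_Z i).trans (X.Z_le i)

/-- rank-nullity for the boundary operators -/
lemma vdim_B (i : ℕ) : vdim (X.B i) + vdim (X.Z (i + 1)) = vdim (X.P (i + 1)) := by
  rw [B, vdim_closure]
  exact vdim_map_add (X.equi i) (X.mdl (i + 1)).inv (X.mdl (i + 1)).cl

lemma h_nonneg (i : ℕ) : 0 ≤ X.h i := by
  have := vdim_mono (X.B_le_Z i)
  unfold h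
  linarith

lemma h_eq_zero_iff (i : ℕ) : X.h i = 0 ↔ X.Z i ≤ X.B i := by
  constructor
  · intro h0
    unfold h at h0
    exact (eq_of_vdim_le (X.B_mdl i).inv (X.Z_mdl i).inv (X.B_mdl i).cl (X.B_le_Z i) (by linarith)).ge
  · intro h0
    unfold h
    rw [le_antisymm h0 (X.B_le_Z i), sub_self]

lemma B_eq_Z {i : ℕ} (h0 : X.h i = 0) : X.B i = X.Z i := le_antisymm (X.B_le_Z i) ((X.h_eq_zero_iff i).1 h0)

lemma mem_Z_prod : ∀ (i : ℕ) {f : E Γ (X.ι i ⊕ Y.ι i)}, f ∈ (X.prod Y).Z i ↔ fs f ∈ X.Z i ∧ sn f ∈ Y.Z i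
  | 0, f => Iff.rfl
  | i + 1, f => by
    constructor
    · rintro ⟨h1, h2⟩
      have h2' : il (X.d i (fs f)) + ir (Y.d i (sn f)) = 0 := h2
      refine ⟨⟨h1.1, ?_⟩, ⟨h1.2, ?_⟩⟩
      · have := congrArg fs h2'
        rwa [map_add, fs_il, fs_ir, add_zero, map_zero] at this
      · have := congrArg sn h2'
        rwa [map_add, sn_il, sn_ir, zero_add, map_zero] at this
    · rintro ⟨⟨h1, h2⟩, ⟨h3, h4⟩⟩
      refine ⟨⟨h1, h3⟩, ?_⟩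
      show il (X.d i (fs f)) + ir (Y.d i (sn f)) = 0
      rw [show X.d i (fs f) = 0 from h2, show Y.d i (sn f) = 0 from h4, map_zero, map_zero, add_zero]

lemma prod_d (i : ℕ) (f : E Γ (X.ι (i + 1) ⊕ Y.ι (i + 1))) :
    (X.prod Y).d i f = il (X.d i (fs f)) + ir (Y.d i (sn f)) := rfl

lemma fs_prod_d (i : ℕ) (f : E Γ (X.ι (i + 1) ⊕ Y.ι (i + 1))) :
    fs ((X.prod Y).d i f : E Γ (X.ι i ⊕ Y.ι i)) = X.d i (fs f) := by
  rw [prod_d]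
  exact (by rw [map_add, fs_il, fs_ir, add_zero] :
    fs (il (X.d i (fs f)) + ir (Y.d i (sn f)) : E Γ (X.ι i ⊕ Y.ι i)) = X.d i (fs f))

lemma sn_prod_d (i : ℕ) (f : E Γ (X.ι (i + 1) ⊕ Y.ι (i + 1))) :
    sn ((X.prod Y).d i f : E Γ (X.ι i ⊕ Y.ι i)) = Y.d i (sn f) := by
  rw [prod_d]
  exact (by rw [map_add, sn_il, sn_ir, zero_add] :
    sn (il (X.d i (fs f)) + ir (Y.d i (sn f)) : E Γ (X.ι i ⊕ Y.ι i)) = Y.d i (sn f))

lemma B_prod (i : ℕ) : (X.prod Y).B i = (pr (X.B i) (Y.B i) : Submodule ℂ (E Γ (X.ι i ⊕ Y.ι i))) := by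
  refine le_antisymm ?_ ?_
  · refine Submodule.topologicalClosure_minimal _ ?_ ((X.B_mdl i).pr (Y.B_mdl i)).cl
    rintro _ ⟨f, hf, rfl⟩
    refine mem_pr.2 ⟨?_, ?_⟩
    · exact (X.fs_prod_d Y i f).symm.subst (motive := fun z => z ∈ X.B i) (X.d_mem_B i (mem_pr.1 hf).1)
    · exact (X.sn_prod_d Y i f).symm.subst (motive := fun z => z ∈ Y.B i) (Y.d_mem_B i (mem_pr.1 hf).2)
  · intro f hf
    have h1 : il (fs f) + ir (sn f) = f := il_fs_add_ir_sn f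
    rw [← h1]
    refine Submodule.add_mem _ ?_ ?_
    · refine map_closure_le (T := (il : E Γ (X.ι i) →L[ℂ] E Γ (X.ι i ⊕ Y.ι i))) ?_ (mem_pr.1 hf).1
      rintro _ ⟨g, hg, rfl⟩
      refine ⟨(il g : E Γ (X.ι (i + 1) ⊕ Y.ι (i + 1))), il_mem_pr hg, ?_⟩
      show (il (X.d i (fs (il g : E Γ (X.ι (i + 1) ⊕ Y.ι (i + 1))))) +
        ir (Y.d i (sn (il g : E Γ (X.ι (i + 1) ⊕ Y.ι (i + 1))))) : E Γ (X.ι i ⊕ Y.ι i)) = il (X.d i g)
      rw [fs_il, sn_il, map_zero, map_zero, add_zero]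
    · refine map_closure_le (T := (ir : E Γ (Y.ι i) →L[ℂ] E Γ (X.ι i ⊕ Y.ι i))) ?_ (mem_pr.1 hf).2
      rintro _ ⟨g, hg, rfl⟩
      refine ⟨(ir g : E Γ (X.ι (i + 1) ⊕ Y.ι (i + 1))), ir_mem_pr hg, ?_⟩
      show (il (X.d i (fs (ir g : E Γ (X.ι (i + 1) ⊕ Y.ι (i + 1))))) +
        ir (Y.d i (sn (ir g : E Γ (X.ι (i + 1) ⊕ Y.ι (i + 1))))) : E Γ (X.ι i ⊕ Y.ι i)) = ir (Y.d i g)
      rw [fs_ir, sn_ir, map_zero, map_zero, zero_add]

lemma Z_prod (i : ℕ) : (X.prod Y).Z i = (pr (X.Z i) (Y.Z i) : Submodule ℂ (E Γ (X.ι i ⊕ Y.ι i))) := by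
  ext f
  exact X.mem_Z_prod Y i

lemma mem_B_prod (i : ℕ) {f : E Γ (X.ι i ⊕ Y.ι i)} : f ∈ (X.prod Y).B i ↔ fs f ∈ X.B i ∧ sn f ∈ Y.B i := by
  rw [B_prod]
  exact Iff.rfl

lemma h_prod (i : ℕ) : (X.prod Y).h i = X.h i + Y.h i := by
  have h1 : vdim ((X.prod Y).Z i) = vdim (X.Z i) + vdim (Y.Z i) := by
    rw [Z_prod]
    exact vdim_pr (X.Z i) (Y.Z i)
  have h2 : vdim ((X.prod Y).B i) = vdim (X.B i) + vdim (Y.B i) := by
    rw [B_prod]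
    exact vdim_pr (X.B i) (Y.B i)
  unfold h
  rw [h1, h2]
  ring

end HC

/-! ### The mapping cone -/

namespace HMap
variable {Γ : Type*} [Group Γ] {X Y : HC Γ} (φ : HMap X Y)

lemma map_Z : ∀ i, ∀ x ∈ X.Z i, φ.f i x ∈ Y.Z i
  | 0, x, hx => φ.maps 0 x hx
  | i + 1, x, hx => by
    refine ⟨φ.maps (i + 1) x hx.1, ?_⟩
    show Y.d i (φ.f (i + 1) x) = 0
    rw [← φ.comm i x hx.1, show X.d i x = 0 from hx.2, map_zero]

lemma map_B (i : ℕ) {x : E Γ (X.ι i)} (hx : x ∈ X.B i) : φ.f i x ∈ Y.B i := by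
  refine map_closure_le ?_ hx
  rintro _ ⟨g, hg, rfl⟩
  exact ⟨φ.f (i + 1) g, φ.maps (i + 1) g hg, (φ.comm i g hg).symm⟩

lemma K_mdl (i : ℕ) : Mdl (φ.K i) :=
  (X.Z_mdl i).inf ⟨(Y.B_mdl i).inv.comap (φ.equi i), (Y.B_mdl i).cl.preimage (φ.f i).continuous⟩

lemma K_le_Z (i : ℕ) : φ.K i ≤ X.Z i := inf_le_left

lemma B_le_K (i : ℕ) : X.B i ≤ φ.K i := le_inf (X.B_le_Z i) fun _ hx => φ.map_B i hx

lemma kap_nonneg (i : ℕ) : 0 ≤ φ.kap i := by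
  have := vdim_mono (φ.B_le_K i)
  unfold kap
  linarith

lemma kap_le (i : ℕ) : φ.kap i ≤ X.h i := by
  have := vdim_mono (φ.K_le_Z i)
  unfold kap HC.h
  linarith

lemma kap_eq_zero_iff (i : ℕ) : φ.kap i = 0 ↔ φ.K i ≤ X.B i := by
  constructor
  · intro h0
    unfold kap at h0
    exact (eq_of_vdim_le (X.B_mdl i).inv (φ.K_mdl i).inv (X.B_mdl i).cl (φ.B_le_K i) (by linarith)).ge
  · intro h0
    unfold kap
    rw [le_antisymm h0 (φ.B_le_K i), sub_self]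

/-- `dim coker (H_i(X) → H_i(Y)) ≥ 0` -/
lemma coker_nonneg (i : ℕ) : 0 ≤ φ.kap i + Y.h i - X.h i := by
  have h1 := vdim_comap_add (φ.equi i) (X.Z_mdl i) (Y.B_mdl i)
  have h2 : vdim (Y.B i ⊔ (X.Z i).map (φ.f i : E Γ (X.ι i) →ₗ[ℂ] E Γ (Y.ι i))) ≤ vdim (Y.Z i) := by
    refine vdim_mono (sup_le (Y.B_le_Z i) ?_)
    rintro _ ⟨x, hx, rfl⟩
    exact φ.map_Z i x hx
  have h3 : vdim (φ.K i) = vdim (X.Z i ⊓ (Y.B i).comap (φ.f i : E Γ (X.ι i) →ₗ[ℂ] E Γ (Y.ι i))) := rfl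
  unfold kap HC.h
  linarith

lemma cd_eq_zero_iff (i : ℕ) (f : E Γ (Y.ι (i + 2) ⊕ X.ι (i + 1))) :
    φ.cd i f = 0 ↔ Y.d (i + 1) (fs f) + φ.f (i + 1) (sn f) = 0 ∧ X.d i (sn f) = 0 := by
  constructor
  · intro h2'
    have h3 := congrArg fs h2'
    have h4 := congrArg sn h2'
    rw [fs_cd, map_zero] at h3
    rw [sn_cd, map_zero, neg_eq_zero] at h4
    exact ⟨h3, h4⟩
  · rintro ⟨h3, h4⟩
    refine sum_ext ?_ ?_
    · rw [fs_cd, map_zero]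
      exact h3
    · rw [sn_cd, map_zero, neg_eq_zero]
      exact h4

/-- the cycles of the mapping cone -/
lemma cone_Z_succ : ∀ i, φ.cone.Z (i + 1) = (pr (Y.P (i + 1)) (X.Z i) ⊓
    LinearMap.ker (((Y.d i).comp fs + (φ.f i).comp sn : E Γ (Y.ι (i + 1) ⊕ X.ι i) →L[ℂ] E Γ (Y.ι i)) :
      E Γ (Y.ι (i + 1) ⊕ X.ι i) →ₗ[ℂ] E Γ (Y.ι i)) : Submodule ℂ (E Γ (Y.ι (i + 1) ⊕ X.ι i)))
  | 0 => rfl
  | i + 1 => by
    ext f
    constructor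
    · rintro ⟨h1, h2⟩
      have h3 := (φ.cd_eq_zero_iff i f).1 h2
      exact ⟨⟨h1.1, ⟨h1.2, h3.2⟩⟩, h3.1⟩
    · rintro ⟨⟨h1, ⟨h2, h3⟩⟩, h4⟩
      exact ⟨⟨h1, h2⟩, (φ.cd_eq_zero_iff i f).2 ⟨h4, h3⟩⟩

lemma vdim_cone_Z (i : ℕ) : vdim (φ.cone.Z (i + 1)) = vdim (Y.Z (i + 1)) + vdim (φ.K i) := by
  rw [cone_Z_succ]
  exact vdim_ker_pr (Y.equi i) (φ.equi i) (Y.mdl (i + 1)) (X.Z_mdl i)

lemma vdim_cone_P (i : ℕ) : vdim (φ.cone.P (i + 1)) = vdim (Y.P (i + 1)) + vdim (X.P i) :=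
  vdim_pr (Y.P (i + 1)) (X.P i)

theorem h_cone_zero : φ.cone.h 0 = Y.h 0 - X.h 0 + φ.kap 0 := by
  have h1 := φ.cone.vdim_B 0
  have h2 := φ.vdim_cone_Z 0
  have h3 := φ.vdim_cone_P 0
  have h4 := Y.vdim_B 0
  have h5 := X.vdim_B 0
  have h6 : vdim (φ.cone.Z 0) = vdim (Y.Z 0) := rfl
  have h7 : vdim (X.Z 0) = vdim (X.P 0) := rfl
  unfold kap HC.h
  linarith

theorem h_cone_succ (i : ℕ) : φ.cone.h (i + 1) = φ.kap i + Y.h (i + 1) - X.h (i + 1) + φ.kap (i + 1) := by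
  have h1 := φ.cone.vdim_B (i + 1)
  have h2 := φ.vdim_cone_Z i
  have h2' := φ.vdim_cone_Z (i + 1)
  have h3 := φ.vdim_cone_P (i + 1)
  have h4 := Y.vdim_B (i + 1)
  have h5 := X.vdim_B i
  unfold kap HC.h
  linarith

end HMap

end Singer
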