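import Pool.Agent.Singer.Gen.Defs
import Pool.Agent.Singer.Compare
import Pool.Agent.Singer.IndG

/-!
# Singer, general gluing theorem: induction of complexes

* `indOp j hj T`: the operator over `Γ` induced from a finite matrix over `H`, `j : H →* Γ` injective;
* `PreRes.ind j hj R`: the induced complex; `PreRes.toHC`;
* `ind_Z`, `ind_B`, `ind_h`: cycles, boundaries and Betti numbers of the induced complex.
-/

set_option autoImplicit false
set_option linter.unusedSectionVars false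
set_option linter.unusedVariables false

open scoped ComplexConjugate InnerProductSpace
open Filter Topology

namespace Singer

universe u

section ops
variable {H Γ K : Type*} [Group H] [Group Γ] [Group K] {ι κ μ : Type*}

/-- the operator induced from a matrix -/
noncomputable def indOp [Fintype ι] (j : H →* Γ) {T : E H ι →L[ℂ] E H κ} (hT : Mat T) : E Γ ι →L[ℂ] E Γ κ :=
  ∑ i : ι, ∑ x ∈ (hT.fin i).toFinset, (T (del 1 i)) x • (rt (j x.1⁻¹)).comp (col i x.2)

lemma mat_indOp [Fintype ι] (j : H →* Γ) {T : E H ι →L[ℂ] E H κ} (hT : Mat T) : Mat (indOp j hT) :=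
  Mat.sum fun i _ => Mat.sum fun x _ => ((mat_rt _).comp (mat_col _ _)).smul _

lemma mat_expand [Fintype ι] {T : E H ι →L[ℂ] E H κ} (hT : Mat T) :
    T = ∑ i : ι, ∑ x ∈ (hT.fin i).toFinset, (T (del 1 i)) x • (rt x.1⁻¹).comp (col i x.2) := by
  classical
  refine equi_ext hT.equi (Mat.sum fun i _ => Mat.sum fun x _ => ((mat_rt _).comp (mat_col _ _)).smul _).equi fun i => ?_
  rw [sum_apply, Finset.sum_eq_single_of_mem i (Finset.mem_univ i)]
  · rw [sum_apply]
    conv_lhs => rw [(hT.fin i).eq_sum]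
    refine Finset.sum_congr rfl fun x _ => ?_
    rw [smul_apply, ContinuousLinearMap.comp_apply, col_del_self, rt_del]
    simp
  · intro i' _ hi'
    rw [sum_apply]
    refine Finset.sum_eq_zero fun x _ => ?_
    rw [smul_apply, ContinuousLinearMap.comp_apply, col_del_ne hi'.symm, map_zero, smul_zero]

theorem indRel_indOp [Fintype ι] (j : H →* Γ) (hj : Function.Injective j) {T : E H ι →L[ℂ] E H κ} (hT : Mat T) :
    IndRel j hj T (indOp j hT) := by
  have h1 : IndRel j hj (∑ i : ι, ∑ x ∈ (hT.fin i).toFinset, (T (del 1 i)) x • (rt x.1⁻¹).comp (col i x.2))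
      (indOp j hT) :=
    IndRel.sum fun i _ => IndRel.sum fun x _ => ((IndRel.rt _).comp (IndRel.col _ _)).smul _
  rwa [← mat_expand hT] at h1

lemma indOp_del [Fintype ι] (j : H →* Γ) (hj : Function.Injective j) {T : E H ι →L[ℂ] E H κ} (hT : Mat T) (i : ι) :
    indOp j hT (del 1 i) = icj j hj (T (del 1 i)) := by
  have h1 : (del (1 : Γ) i) = icj j hj (del (1 : H) i) := by
    have := del_eq_icj j hj (1 : H) i
    rwa [map_one] at this
  rw [h1, (indRel_indOp j hj hT).icj]

/-- uniqueness -/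
lemma indOp_unique [Fintype ι] {j : H →* Γ} {hj : Function.Injective j} {T : E H ι →L[ℂ] E H κ} (hT : Mat T)
    {T' : E Γ ι →L[ℂ] E Γ κ} (h : IndRel j hj T T') : T' = indOp j hT := by
  refine equi_ext h.equi' (mat_indOp j hT).equi fun i => ?_
  rw [indOp_del j hj hT]
  have h1 : (del (1 : Γ) i) = icj j hj (del (1 : H) i) := by
    have := del_eq_icj j hj (1 : H) i
    rwa [map_one] at this
  rw [h1, h.icj]

lemma icj_icj (j : H →* Γ) (hj : Function.Injective j) (k : Γ →* K) (hk : Function.Injective k) (u : E H ι) :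
    icj k hk (icj j hj u) = icj (k.comp j) (hk.comp hj) u := by
  ext x
  obtain ⟨g, i⟩ := x
  by_cases hg : g ∈ (k.comp j).range
  · obtain ⟨h, rfl⟩ := hg
    rw [icj_apply (k.comp j) (hk.comp hj)]
    exact (icj_apply k hk _ (j h) i).trans (icj_apply j hj u h i)
  · rw [icj_apply_notMem (k.comp j) (hk.comp hj) _ hg]
    by_cases hg2 : g ∈ k.range
    · obtain ⟨y, rfl⟩ := hg2
      rw [icj_apply]
      apply icj_apply_notMem
      rintro ⟨h, rfl⟩
      exact hg ⟨h, rfl⟩
    · rw [icj_apply_notMem k hk _ hg2]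

lemma rsj_rsj (j : H →* Γ) (hj : Function.Injective j) (k : Γ →* K) (hk : Function.Injective k) (f : E K ι) :
    rsj j hj (rsj k hk f) = rsj (k.comp j) (hk.comp hj) f := by
  ext x
  simp

/-- transitivity of induction -/
theorem ind_ind (j : H →* Γ) (hj : Function.Injective j) (k : Γ →* K) (hk : Function.Injective k)
    (V : Submodule ℂ (E H ι)) : ind k hk (ind j hj V) = ind (k.comp j) (hk.comp hj) V := by
  ext f
  rw [mem_ind, mem_ind]
  constructor
  · intro h g
    have h1 := (mem_ind.1 (h g)) 1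
    rwa [lam_one, rsj_rsj] at h1
  · intro h g
    rw [mem_ind]
    intro g'
    rw [← rsj_lam k hk, rsj_rsj, lam_lam]
    exact h _

theorem indOp_indOp [Fintype ι] (j : H →* Γ) (hj : Function.Injective j) (k : Γ →* K) (hk : Function.Injective k)
    {T : E H ι →L[ℂ] E H κ} (hT : Mat T) : indOp k (mat_indOp j hT) = indOp (k.comp j) hT := by
  refine equi_ext (mat_indOp k _).equi (mat_indOp _ hT).equi fun i => ?_
  rw [indOp_del k hk, indOp_del j hj, indOp_del (k.comp j) (hk.comp hj), icj_icj]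

lemma indOp_comp [Fintype ι] [Fintype κ] (j : H →* Γ) (hj : Function.Injective j) {S : E H κ →L[ℂ] E H μ}
    (hS : Mat S) {T : E H ι →L[ℂ] E H κ} (hT : Mat T) : (indOp j hS).comp (indOp j hT) = indOp j (hS.comp hT) :=
  indOp_unique (hj := hj) (hS.comp hT) ((indRel_indOp j hj hS).comp (indRel_indOp j hj hT))

lemma indOp_add [Fintype ι] (j : H →* Γ) (hj : Function.Injective j) {S T : E H ι →L[ℂ] E H κ} (hS : Mat S)
    (hT : Mat T) : indOp j hS + indOp j hT = indOp j (hS.add hT) :=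
  indOp_unique (hj := hj) (hS.add hT) ((indRel_indOp j hj hS).add (indRel_indOp j hj hT))

lemma indOp_sub [Fintype ι] (j : H →* Γ) (hj : Function.Injective j) {S T : E H ι →L[ℂ] E H κ} (hS : Mat S)
    (hT : Mat T) : indOp j hS - indOp j hT = indOp j (hS.sub hT) :=
  indOp_unique (hj := hj) (hS.sub hT) ((indRel_indOp j hj hS).sub (indRel_indOp j hj hT))

lemma indOp_one [Fintype ι] (j : H →* Γ) (hj : Function.Injective j) :
    indOp j (Mat.one : Mat (1 : E H ι →L[ℂ] E H ι)) = 1 := (indOp_unique (hj := hj) Mat.one IndRel.one).symm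

/-- induced operators commute with cutting by unions of cosets -/
lemma indOp_cut [Fintype ι] (j : H →* Γ) {T : E H ι →L[ℂ] E H κ} (hT : Mat T) {S : Set Γ}
    (hS : ∀ g ∈ S, ∀ h : H, g * j h ∈ S) (f : E Γ ι) : indOp j hT (cut S f) = cut S (indOp j hT f) := by
  classical
  have h1 : ∀ (a : H) (i : ι) (k : κ), rt (j a) (col i k (cut S f)) = cut S (rt (j a) (col i k f)) := by
    intro a i k
    ext x
    rw [rt_apply, col_apply, cut_apply, cut_apply, rt_apply, col_apply]
    have h2 : x.1 * j a ∈ S ↔ x.1 ∈ S := by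
      constructor
      · intro h
        have := hS _ h a⁻¹
        rwa [map_inv, mul_inv_cancel_right] at this
      · intro h
        exact hS _ h a
    simp only [h2]
    split_ifs <;> rfl
  unfold indOp
  rw [sum_apply, sum_apply, map_sum]
  refine Finset.sum_congr rfl fun i _ => ?_
  rw [sum_apply, sum_apply, map_sum]
  refine Finset.sum_congr rfl fun x _ => ?_
  rw [smul_apply, smul_apply, map_smul]
  congr 1
  exact h1 _ _ _

/-! ### finite support -/

lemma fs_icj (j : H →* Γ) (hj : Function.Injective j) {u : E H ι} (hu : FS u) : FS (icj j hj u) := by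
  rw [hu.eq_sum, map_sum]
  refine FS.sum fun x _ => ?_
  rw [map_smul, ← del_eq_icj]
  exact (fs_del _ _).smul _

lemma fs_of_icj (j : H →* Γ) (hj : Function.Injective j) {u : E H ι} (hu : FS (icj j hj u)) : FS u := by
  have h1 : {x : H × ι | u x ≠ 0} = (fun x : H × ι => (j x.1, x.2)) ⁻¹' {y | icj j hj u y ≠ 0} := by
    ext ⟨h, i⟩
    simp
  unfold FS
  rw [h1]
  exact hu.preimage (ij_inj j hj).injOn

lemma fs_rsj (j : H →* Γ) (hj : Function.Injective j) {f : E Γ ι} (hf : FS f) : FS (rsj j hj f) := by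
  have h1 : {x : H × ι | rsj j hj f x ≠ 0} = (fun x : H × ι => (j x.1, x.2)) ⁻¹' {y | f y ≠ 0} := by
    ext ⟨h, i⟩
    simp
  unfold FS
  rw [h1]
  exact hf.preimage (ij_inj j hj).injOn

lemma eps_del (w : ι → ℂ) (g : Γ) (i : ι) : eps w (del g i : E Γ ι) = w i := by
  unfold eps
  rw [finsum_eq_single _ (g, i)]
  · rw [del_apply_self, mul_one]
  · intro x hx
    rw [del_apply_ne hx, mul_zero]

lemma eps_icj (j : H →* Γ) (hj : Function.Injective j) (w : ι → ℂ) {u : E H ι} (hu : FS u) :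
    eps w (icj j hj u) = eps w u := by
  have h1 : ∀ x ∈ hu.toFinset, FS (u x • del x.1 x.2 : E H ι) := fun x _ => (fs_del _ _).smul _
  conv_lhs => rw [hu.eq_sum, map_sum, eps_sum w fun x hx => fs_icj j hj (h1 x hx)]
  conv_rhs => rw [hu.eq_sum, eps_sum w h1]
  refine Finset.sum_congr rfl fun x _ => ?_
  rw [map_smul, ← del_eq_icj, eps_smul w _ (fs_del _ _), eps_smul w _ (fs_del _ _), eps_del, eps_del]

end ops

/-! ### complexes -/

namespace PreRes
variable {H Γ K : Type*} [Group H] [Group Γ] [Group K]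

lemma mdl_P (R : PreRes.{u} Γ) (i : ℕ) : Mdl (R.P i) := ⟨R.inv_P i, R.isClosed_P i⟩

/-- the Hilbert complex -/
noncomputable def toHC (R : PreRes.{0} Γ) : HC Γ where
  ι := R.ι
  fin := R.ft
  P := R.P
  mdl := R.mdl_P
  d := R.d
  equi i := (R.mat_d i).equi
  maps := R.d_mem
  dd := R.d_d

lemma toHC_Z (R : PreRes.{0} Γ) (i : ℕ) : R.toHC.Z i = R.Z i := by
  cases i <;> rfl

lemma toHC_B (R : PreRes.{0} Γ) (i : ℕ) : R.toHC.B i = R.B i := rfl

/-- the induced complex -/
noncomputable def ind (j : H →* Γ) (hj : Function.Injective j) (R : PreRes.{u} H) : PreRes.{u} Γ where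
  ι := R.ι
  ft := R.ft
  P i := Singer.ind j hj (R.P i)
  e i := indOp j (R.mat_e i)
  d i := indOp j (R.mat_d i)
  w := R.w
  mat_e i := mat_indOp j (R.mat_e i)
  mat_d i := mat_indOp j (R.mat_d i)
  e_mem i f := by
    rw [mem_ind]
    intro g
    rw [(indRel_indOp j hj (R.mat_e i)).rsj_lam]
    exact R.e_mem i _
  e_eq i f hf := by
    rw [← sub_eq_zero]
    refine eq_zero_of_rsj (j := j) (hj := hj) fun g => ?_
    rw [map_sub, map_sub, (indRel_indOp j hj (R.mat_e i)).rsj_lam, R.e_eq i _ (mem_ind.1 hf g), sub_self]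
  d_mem i f hf := by
    rw [mem_ind]
    intro g
    rw [(indRel_indOp j hj (R.mat_d i)).rsj_lam]
    exact R.d_mem i _ (mem_ind.1 hf g)
  d_d i f hf := by
    refine eq_zero_of_rsj (j := j) (hj := hj) fun g => ?_
    rw [(indRel_indOp j hj (R.mat_d i)).rsj_lam, (indRel_indOp j hj (R.mat_d (i + 1))).rsj_lam]
    exact R.d_d i _ (mem_ind.1 hf g)
  eps_d f hf hfs := by
    have he : indOp j (R.mat_e 1) f = f := by
      rw [← sub_eq_zero]
      refine eq_zero_of_rsj (j := j) (hj := hj) fun g => ?_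
      rw [map_sub, map_sub, (indRel_indOp j hj (R.mat_e 1)).rsj_lam, R.e_eq 1 _ (mem_ind.1 hf g), sub_self]
    have h1 := eps_mat (w := 0) (w' := R.w) (e := 0) ((mat_indOp j (R.mat_d 0)).comp (mat_indOp j (R.mat_e 1)))
      Mat.zero (fun i => ?_) hfs
    · rw [ContinuousLinearMap.comp_apply, he] at h1
      rw [h1]
      exact eps_zero _
    · rw [ContinuousLinearMap.comp_apply, indOp_del j hj, (indRel_indOp j hj (R.mat_d 0)).icj,
        eps_icj j hj _ ((R.mat_d 0).fs ((R.mat_e 1).fin i)), R.eps_d _ (R.e_mem 1 _) ((R.mat_e 1).fin i)]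
      exact (eps_zero _).symm

variable (j : H →* Γ) (hj : Function.Injective j) (R : PreRes.{u} H)

lemma ind_Z (i : ℕ) : (R.ind j hj).Z i = Singer.ind j hj (R.Z i) := by
  cases i with
  | zero => rfl
  | succ i =>
    show Singer.ind j hj (R.P (i + 1)) ⊓ LinearMap.ker (indOp j (R.mat_d i)).toLinearMap = _
    rw [← (indRel_indOp j hj (R.mat_d i)).ker, ← ind_inf]
    rfl

lemma ind_B (i : ℕ) : (R.ind j hj).B i = Singer.ind j hj (R.B i) :=
  ((indRel_indOp j hj (R.mat_d i)).map (R.inv_P (i + 1))).symm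

lemma inv_Z (R : PreRes.{u} Γ) (i : ℕ) : Inv (R.Z i) := by
  cases i with
  | zero => exact R.inv_P 0
  | succ i => exact (R.inv_P (i + 1)).inf (inv_ker (R.mat_d i).equi)

lemma isClosed_Z (R : PreRes.{u} Γ) (i : ℕ) : IsClosed (R.Z i : Set (E Γ (R.ι i))) := by
  cases i with
  | zero => exact R.isClosed_P 0
  | succ i => exact (R.isClosed_P (i + 1)).inter (ContinuousLinearMap.isClosed_ker (R.d i))

lemma inv_B (R : PreRes.{u} Γ) (i : ℕ) : Inv (R.B i) := ((R.inv_P (i + 1)).map (R.mat_d i).equi).closure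

lemma isClosed_B (R : PreRes.{u} Γ) (i : ℕ) : IsClosed (R.B i : Set (E Γ (R.ι i))) :=
  Submodule.isClosed_topologicalClosure _

lemma mdl_Z (R : PreRes.{u} Γ) (i : ℕ) : Mdl (R.Z i) := ⟨R.inv_Z i, R.isClosed_Z i⟩

lemma mdl_B (R : PreRes.{u} Γ) (i : ℕ) : Mdl (R.B i) := ⟨R.inv_B i, R.isClosed_B i⟩

lemma vdim_ind_Z (i : ℕ) : vdim ((R.ind j hj).Z i) = vdim (R.Z i) := by
  rw [ind_Z]
  exact vdim_ind (R.inv_Z i) (R.isClosed_Z i)

lemma vdim_ind_B (i : ℕ) : vdim ((R.ind j hj).B i) = vdim (R.B i) := by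
  rw [ind_B]
  exact vdim_ind (R.inv_B i) (R.isClosed_B i)

/-- Betti numbers of the induced complex -/
theorem ind_h (R : PreRes.{0} H) (i : ℕ) : (R.ind j hj).toHC.h i = R.toHC.h i := by
  unfold HC.h
  rw [toHC_Z, toHC_Z, toHC_B, toHC_B]
  exact congrArg₂ (· - ·) (vdim_ind_Z j hj R i) (vdim_ind_B j hj R i)

/-- cycles are boundaries for the induced complex iff they are for the complex -/
theorem ind_vanish (i : ℕ) : (R.ind j hj).Z i ≤ (R.ind j hj).B i ↔ R.Z i ≤ R.B i := by
  rw [ind_Z, ind_B]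
  exact ind_le_ind (R.inv_Z i) (R.inv_B i)

/-- transitivity of induction -/
theorem ind_ind (k : Γ →* K) (hk : Function.Injective k) :
    (R.ind j hj).ind k hk = R.ind (k.comp j) (hk.comp hj) := by
  unfold ind
  congr 1
  · funext i
    exact Singer.ind_ind j hj k hk (R.P i)
  · funext i
    exact indOp_indOp j hj k hk (R.mat_e i)
  · funext i
    exact indOp_indOp j hj k hk (R.mat_d i)

end PreRes

/-- augmented chain maps given by finite matrices -/
structure PreMap {Γ : Type*} [Group Γ] (R R' : PreRes.{0} Γ) extends HMap R.toHC R'.toHC where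
  mat : ∀ i, Mat (f i)
  aug : ∀ x ∈ R.P 0, FS x → eps R'.w (f 0 x) = eps R.w x

section premap
variable {C A Γ : Type*} [Group C] [Group A] [Group Γ]

theorem exists_premap (R : PreRes.{0} Γ) (R' : Res.{0} Γ) : Nonempty (PreMap R R'.toPreRes) := by
  obtain ⟨φ, h1, h2, h3, h4⟩ := Res.exists_chain R R'
  exact ⟨{ f := φ, equi := fun i => (h1 i).equi, maps := fun i x _ => h2 i x, comm := fun i x hx => (h3 i x hx).symm,
           mat := h1, aug := h4 }⟩

lemma ind_maps {ι κ : Type*} [Fintype ι] {φ : C →* A} {hφ : Function.Injective φ} {j : A →* Γ}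
    {hj : Function.Injective j} {base : C →* Γ} {hbase : Function.Injective base} (hb : j.comp φ = base)
    {V : Submodule ℂ (E C ι)} {W : Submodule ℂ (E A κ)} {T : E A ι →L[ℂ] E A κ} (hT : Mat T)
    (h : ∀ x ∈ ind φ hφ V, T x ∈ W) {x : E Γ ι} (hx : x ∈ ind base hbase V) : indOp j hT x ∈ ind j hj W := by
  subst hb
  rw [← ind_ind φ hφ j hj] at hx
  rw [mem_ind]
  intro g
  rw [(indRel_indOp j hj hT).rsj_lam]
  exact h _ (mem_ind.1 hx g)

lemma ind_comm {ι κ ι' κ' : Type*} [Fintype ι] [Fintype κ] [Fintype ι'] [Fintype κ'] {φ : C →* A}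
    {hφ : Function.Injective φ} {j : A →* Γ}
    {hj : Function.Injective j} {base : C →* Γ} {hbase : Function.Injective base} (hb : j.comp φ = base)
    {V : Submodule ℂ (E C ι)} {dC : E C ι →L[ℂ] E C ι'} (hdC : Mat dC) {dA : E A κ →L[ℂ] E A κ'} (hdA : Mat dA)
    {T : E A ι →L[ℂ] E A κ} (hT : Mat T) {T' : E A ι' →L[ℂ] E A κ'} (hT' : Mat T')
    (h : ∀ x ∈ ind φ hφ V, T' (indOp φ hdC x) = dA (T x)) {x : E Γ ι} (hx : x ∈ ind base hbase V) :
    indOp j hT' (indOp base hdC x) = indOp j hdA (indOp j hT x) := by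
  subst hb
  rw [← ind_ind φ hφ j hj] at hx
  rw [← indOp_indOp φ hφ j hj hdC, ← sub_eq_zero]
  refine eq_zero_of_rsj (j := j) (hj := hj) fun g => ?_
  rw [map_sub, map_sub, (indRel_indOp j hj hT').rsj_lam,
    (indRel_indOp j hj (mat_indOp φ hdC)).rsj_lam, (indRel_indOp j hj hdA).rsj_lam,
    (indRel_indOp j hj hT).rsj_lam, sub_eq_zero]
  exact h _ (mem_ind.1 hx g)

lemma ind_aug {ι κ : Type*} [Fintype ι] [Fintype κ] {φ : C →* A}
    {hφ : Function.Injective φ} {j : A →* Γ}
    (hj : Function.Injective j) {base : C →* Γ} (hbase : Function.Injective base) (hb : j.comp φ = base)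
    {V : Submodule ℂ (E C ι)} (hV : Inv V) {e : E C ι →L[ℂ] E C ι} (he : Mat e) (heV : ∀ x, e x ∈ V)
    {T : E A ι →L[ℂ] E A κ} (hT : Mat T) {w : ι → ℂ} {w' : κ → ℂ}
    (h : ∀ x ∈ ind φ hφ V, FS x → eps w' (T x) = eps w x) {x : E Γ ι} (hx : indOp base he x = x) (hfs : FS x) :
    eps w' (indOp j hT x) = eps w x := by
  subst hb
  have h1 := eps_mat (w := w) (w' := w') ((mat_indOp j hT).comp (mat_indOp (j.comp φ) he))
    (mat_indOp (j.comp φ) he) (fun i => ?_) hfs
  · rw [ContinuousLinearMap.comp_apply, hx] at h1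
    exact h1
  · rw [ContinuousLinearMap.comp_apply, indOp_del (j.comp φ) hbase, ← icj_icj φ hφ j hj,
      (indRel_indOp j hj hT).icj]
    have hu : FS (icj φ hφ (e (del 1 i))) := fs_icj φ hφ (he.fin i)
    rw [eps_icj j hj _ (hT.fs hu), eps_icj j hj _ hu]
    refine h _ ?_ hu
    rw [icj_mem_ind hV]
    exact heV _

/-- induction of a chain map `Ind_C^A RC → RA` to `Γ` -/
noncomputable def PreMap.ind {φ : C →* A} {hφ : Function.Injective φ} {RC : PreRes.{0} C} {RA : PreRes.{0} A}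
    (F : PreMap (RC.ind φ hφ) RA) (j : A →* Γ) (hj : Function.Injective j) (base : C →* Γ)
    (hbase : Function.Injective base) (hb : j.comp φ = base) : PreMap (RC.ind base hbase) (RA.ind j hj) where
  f i := indOp (ι := RC.ι i) (κ := RA.ι i) j (F.mat i)
  equi i := (mat_indOp j (F.mat i)).equi
  maps i x hx := ind_maps (ι := RC.ι i) (κ := RA.ι i) hb (F.mat i) (F.maps i) hx
  comm i x hx := ind_comm (ι := RC.ι (i + 1)) (κ := RA.ι (i + 1)) (ι' := RC.ι i) (κ' := RA.ι i) (hj := hj) hb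
    (RC.mat_d i) (RA.mat_d i) (F.mat (i + 1)) (F.mat i) (F.comm i) hx
  mat i := mat_indOp j (F.mat i)
  aug x hx hfs := ind_aug (ι := RC.ι 0) (κ := RA.ι 0) hj hbase hb (RC.inv_P 0) (RC.mat_e 0) (RC.e_mem 0) (F.mat 0)
    F.aug ((RC.ind base hbase).e_eq 0 x hx) hfs

@[simp] lemma PreMap.ind_f {φ : C →* A} {hφ : Function.Injective φ} {RC : PreRes.{0} C} {RA : PreRes.{0} A}
    (F : PreMap (RC.ind φ hφ) RA) (j : A →* Γ) (hj : Function.Injective j) (base : C →* Γ)
    (hbase : Function.Injective base) (hb : j.comp φ = base) (i : ℕ) :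
    (F.ind j hj base hbase hb).f i = indOp (ι := RC.ι i) (κ := RA.ι i) j (F.mat i) := rfl

end premap

end Singer
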