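import Mathlib

/-!
# The mirrored group of a vertex

`MirrorGroup Γ T v`: the group with the generators `g` (in the stabilizer of `v`) and `r w` (`w` a neighbour of `v`) and
with the relations of the stabilizer, `r w * r w = 1` and `g * r w * g⁻¹ = r (g • w)`; this is the semidirect product of
the free product of groups of order two indexed by the neighbours of `v` with the stabilizer of `v`.
-/

set_option autoImplicit false

namespace Singer

/-- the relations of the mirrored group -/
def mirrorRel {Γ V : Type*} [Group Γ] [MulAction Γ V] (T : SimpleGraph V) (v : V) :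
    Set (FreeGroup (MulAction.stabilizer Γ v ⊕ T.neighborSet v)) :=
  {w | (∃ g h, w = FreeGroup.of (Sum.inl g) * FreeGroup.of (Sum.inl h) * (FreeGroup.of (Sum.inl (g * h)))⁻¹) ∨
    (∃ x, w = FreeGroup.of (Sum.inr x) * FreeGroup.of (Sum.inr x)) ∨
    ∃ (g : MulAction.stabilizer Γ v) (x y : T.neighborSet v), g • (x : V) = y ∧
      w = FreeGroup.of (Sum.inl g) * FreeGroup.of (Sum.inr x) * (FreeGroup.of (Sum.inl g))⁻¹ *
        (FreeGroup.of (Sum.inr y))⁻¹}

/-- the mirrored group of the vertex `v` -/
abbrev MirrorGroup (Γ : Type*) {V : Type*} [Group Γ] [MulAction Γ V] (T : SimpleGraph V) (v : V) : Type _ :=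
  PresentedGroup (mirrorRel (Γ := Γ) T v)

end Singer
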