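import Pool.Agent.Singer.Gen.Pre

/-!
# Singer, general gluing theorem: the cosetwise augmentation

`cosAug K w f : Γ ⧸ K →₀ ℂ` = the sums of `w x.2 * f x` over the cosets `g K`.
For a resolution `R` of `H` and `j : H →* Γ` injective the finitely supported part of `R.ind j hj` is exact in positive
degrees, and its homology in degree `0` is `ℂ[Γ ⧸ j(H)]` through `cosAug`.
-/

set_option autoImplicit false
set_option linter.unusedSectionVars false
set_option linter.unusedVariables false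

open scoped ComplexConjugate InnerProductSpace
open Filter Topology

namespace Singer

section cosaug
variable {H Γ : Type*} [Group H] [Group Γ] {ι κ : Type*}

/-- cosetwise augmentation -/
noncomputable def cosAug (K : Subgroup Γ) (w : ι → ℂ) (f : E Γ ι) : (Γ ⧸ K) →₀ ℂ :=
  ∑ᶠ x : Γ × ι, Finsupp.single (QuotientGroup.mk x.1 : Γ ⧸ K) (w x.2 * f x)

lemma cosAug_supp (K : Subgroup Γ) (w : ι → ℂ) {f : E Γ ι} (hf : FS f) :
    (Function.support fun x : Γ × ι =>
      (Finsupp.single (QuotientGroup.mk x.1 : Γ ⧸ K) (w x.2 * f x) : (Γ ⧸ K) →₀ ℂ)).Finite := by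
  refine hf.subset fun x hx h => hx ?_
  show Finsupp.single _ (w x.2 * f x) = 0
  rw [h, mul_zero, Finsupp.single_zero]

lemma cosAug_add (K : Subgroup Γ) (w : ι → ℂ) {f g : E Γ ι} (hf : FS f) (hg : FS g) :
    cosAug K w (f + g) = cosAug K w f + cosAug K w g := by
  unfold cosAug
  rw [← finsum_add_distrib (cosAug_supp K w hf) (cosAug_supp K w hg)]
  congr 1
  funext x
  rw [lp.coeFn_add, Pi.add_apply, mul_add, Finsupp.single_add]

lemma cosAug_smul (K : Subgroup Γ) (w : ι → ℂ) (c : ℂ) {f : E Γ ι} (hf : FS f) :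
    cosAug K w (c • f) = c • cosAug K w f := by
  unfold cosAug
  rw [smul_finsum' c (cosAug_supp K w hf)]
  congr 1
  funext x
  rw [lp.coeFn_smul, Pi.smul_apply, smul_eq_mul, Finsupp.smul_single, smul_eq_mul]
  congr 1
  ring

lemma cosAug_zero (K : Subgroup Γ) (w : ι → ℂ) : cosAug K w (0 : E Γ ι) = 0 := by
  have := cosAug_smul K w 0 (FS.zero : FS (0 : E Γ ι))
  simpa using this

lemma cosAug_neg (K : Subgroup Γ) (w : ι → ℂ) {f : E Γ ι} (hf : FS f) :
    cosAug K w (-f) = -cosAug K w f := by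
  have := cosAug_smul K w (-1) hf
  rwa [neg_one_smul, neg_one_smul] at this

lemma cosAug_sub (K : Subgroup Γ) (w : ι → ℂ) {f g : E Γ ι} (hf : FS f) (hg : FS g) :
    cosAug K w (f - g) = cosAug K w f - cosAug K w g := by
  rw [sub_eq_add_neg, cosAug_add K w hf hg.neg, cosAug_neg K w hg, sub_eq_add_neg]

lemma cosAug_sum (K : Subgroup Γ) (w : ι → ℂ) {α : Type*} {s : Finset α} {f : α → E Γ ι} (h : ∀ a ∈ s, FS (f a)) :
    cosAug K w (∑ a ∈ s, f a) = ∑ a ∈ s, cosAug K w (f a) := by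
  classical
  induction s using Finset.induction_on with
  | empty => simpa using cosAug_zero K w
  | insert a s ha ih =>
    rw [Finset.sum_insert ha, Finset.sum_insert ha, cosAug_add K w (h a (Finset.mem_insert_self _ _))
      (FS.sum fun b hb => h b (Finset.mem_insert_of_mem hb)), ih fun b hb => h b (Finset.mem_insert_of_mem hb)]

lemma cosAug_del (K : Subgroup Γ) (w : ι → ℂ) (g : Γ) (i : ι) :
    cosAug K w (del g i : E Γ ι) = Finsupp.single (QuotientGroup.mk g : Γ ⧸ K) (w i) := by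
  unfold cosAug
  rw [finsum_eq_single _ (g, i)]
  · rw [del_apply_self, mul_one]
  · intro x hx
    rw [del_apply_ne hx, mul_zero, Finsupp.single_zero]

/-- the total sum -/
lemma cosAug_total (K : Subgroup Γ) (w : ι → ℂ) {f : E Γ ι} (hf : FS f) :
    ((cosAug K w f).sum fun _ c => c) = eps w f := by
  have h1 : ∀ ξ : (Γ ⧸ K) →₀ ℂ, (ξ.sum fun _ c => c) =
      Finsupp.liftAddHom (fun _ : Γ ⧸ K => AddMonoidHom.id ℂ) ξ := fun ξ => rfl
  rw [h1]
  unfold cosAug eps
  rw [AddMonoidHom.map_finsum _ (cosAug_supp K w hf)]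
  congr 1
  funext x
  rw [Finsupp.liftAddHom_apply_single]
  rfl

/-- a function on one coset -/
lemma cosAug_lam_icj {j : H →* Γ} {hj : Function.Injective j} (w : ι → ℂ) (g : Γ) {u : E H ι} (hu : FS u) :
    cosAug j.range w (lam g (icj j hj u)) = Finsupp.single (QuotientGroup.mk g : Γ ⧸ j.range) (eps w u) := by
  have h1 : ∀ x ∈ hu.toFinset, FS (u x • del x.1 x.2 : E H ι) := fun x _ => (fs_del _ _).smul _
  conv_lhs => rw [hu.eq_sum, map_sum, map_sum, cosAug_sum _ _ fun x hx => fs_lam _ (fs_icj j hj (h1 x hx))]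
  conv_rhs => rw [hu.eq_sum, eps_sum w h1, Finsupp.single_finsetSum]
  refine Finset.sum_congr rfl fun x _ => ?_
  rw [map_smul, map_smul, ← del_eq_icj, lam_del, cosAug_smul _ _ _ (fs_del _ _), cosAug_del,
    eps_smul w _ (fs_del _ _), eps_del, Finsupp.smul_single, smul_eq_mul]
  congr 1
  rw [QuotientGroup.eq]
  refine ⟨x.1⁻¹, ?_⟩
  rw [map_inv]
  group

/-- decomposition of a finitely supported function into pieces on cosets -/
lemma exists_pieces {j : H →* Γ} {hj : Function.Injective j} {f : E Γ ι} (hf : FS f) :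
    ∃ s : Finset Γ, (∀ g ∈ s, ∀ g' ∈ s, (QuotientGroup.mk g : Γ ⧸ j.range) = QuotientGroup.mk g' → g = g') ∧
      f = ∑ g ∈ s, lam g (icj j hj (rsj j hj (lam g⁻¹ f))) := by
  classical
  let S : Finset (Γ ⧸ j.range) := hf.toFinset.image fun x => (QuotientGroup.mk x.1 : Γ ⧸ j.range)
  refine ⟨S.image Quotient.out, ?_, ?_⟩
  · intro g hg g' hg' h
    obtain ⟨q, _, rfl⟩ := Finset.mem_image.1 hg
    obtain ⟨q', _, rfl⟩ := Finset.mem_image.1 hg'
    rw [QuotientGroup.out_eq', QuotientGroup.out_eq'] at h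
    rw [h]
  · ext x
    rw [lp.coeFn_sum, Finset.sum_apply]
    have hterm : ∀ g : Γ, (lam g (icj j hj (rsj j hj (lam g⁻¹ f))) : E Γ ι) x =
        if (QuotientGroup.mk g : Γ ⧸ j.range) = QuotientGroup.mk x.1 then f x else 0 := by
      intro g
      rw [icj_rsj, lam_apply, cut_apply]
      have h2 : ((g⁻¹ * x.1, x.2) : Γ × ι).1 ∈ (j.range : Set Γ) ↔
          (QuotientGroup.mk g : Γ ⧸ j.range) = QuotientGroup.mk x.1 := by
        rw [QuotientGroup.eq]
        rfl
      simp only [h2]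
      congr 1
      rw [lam_apply]
      simp
    simp only [hterm]
    by_cases hx : f x = 0
    · rw [hx]
      symm
      exact Finset.sum_eq_zero fun g _ => by split_ifs <;> rfl
    · have hmem : (QuotientGroup.mk x.1 : Γ ⧸ j.range).out ∈ S.image Quotient.out :=
        Finset.mem_image_of_mem _ (Finset.mem_image_of_mem (fun x : Γ × ι => (QuotientGroup.mk x.1 : Γ ⧸ j.range))
          (hf.mem_toFinset.2 hx))
      rw [Finset.sum_eq_single_of_mem _ hmem, if_pos (QuotientGroup.out_eq' _)]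
      intro g hg hne
      rw [if_neg]
      intro h
      apply hne
      obtain ⟨q, _, rfl⟩ := Finset.mem_image.1 hg
      rw [QuotientGroup.out_eq'] at h
      rw [h]

/-- the same with the pieces in an induced module -/
lemma exists_pieces_mem {j : H →* Γ} {hj : Function.Injective j} {V : Submodule ℂ (E H ι)} {f : E Γ ι}
    (hf : FS f) (hV : f ∈ ind j hj V) :
    ∃ (s : Finset Γ) (u : Γ → E H ι),
      (∀ g ∈ s, ∀ g' ∈ s, (QuotientGroup.mk g : Γ ⧸ j.range) = QuotientGroup.mk g' → g = g') ∧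
      (∀ g, FS (u g)) ∧ (∀ g, u g ∈ V) ∧ (∀ g, u g = rsj j hj (lam g⁻¹ f)) ∧ f = ∑ g ∈ s, lam g (icj j hj (u g)) := by
  obtain ⟨s, h1, h2⟩ := exists_pieces (j := j) (hj := hj) hf
  exact ⟨s, fun g => rsj j hj (lam g⁻¹ f), h1, fun g => fs_rsj j hj (fs_lam _ hf), fun g => mem_ind.1 hV _,
    fun g => rfl, h2⟩

end cosaug

namespace PreRes
variable {H Γ : Type*} [Group H] [Group Γ]

/-- exactness of the finitely supported part in positive degrees -/
def Ex (X : PreRes.{0} Γ) : Prop :=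
  ∀ i, ∀ x ∈ X.P (i + 1), FS x → X.d i x = 0 → ∃ y ∈ X.P (i + 2), FS y ∧ X.d (i + 1) y = x

lemma ex_of_res (R : Res.{0} Γ) : R.toPreRes.Ex := R.ex_succ

variable (j : H →* Γ) (hj : Function.Injective j)

/-- from preimages of the pieces to a preimage -/
lemma ind_lift {ι κ : Type*} [Fintype ι] {V : Submodule ℂ (E H ι)} (hV : Inv V) {T : E H ι →L[ℂ] E H κ} (hT : Mat T)
    {s : Finset Γ} {u : Γ → E H κ} (h : ∀ g ∈ s, ∃ v ∈ V, FS v ∧ T v = u g) :
    ∃ y ∈ Singer.ind j hj V, FS y ∧ indOp j hT y = ∑ g ∈ s, lam g (icj j hj (u g)) := by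
  classical
  choose! v hv1 hv2 hv3 using h
  refine ⟨∑ g ∈ s, lam g (icj j hj (v g)), ?_, ?_, ?_⟩
  · exact Submodule.sum_mem _ fun g hg => inv_ind V g _ ((icj_mem_ind hV).2 (hv1 g hg))
  · exact FS.sum fun g hg => fs_lam _ (fs_icj j hj (hv2 g hg))
  · rw [map_sum]
    refine Finset.sum_congr rfl fun g hg => ?_
    rw [(mat_indOp j hT).equi, (indRel_indOp j hj hT).icj, hv3 g hg]

/-- induced resolutions are exact in positive degrees -/
theorem ind_ex (R : Res.{0} H) : (R.toPreRes.ind j hj).Ex := by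
  intro i x hx hf hd
  obtain ⟨s, u, -, h2, h3, h4, h5⟩ := exists_pieces_mem (j := j) (hj := hj) (V := R.P (i + 1)) hf hx
  have h6 : ∀ g ∈ s, ∃ v ∈ R.P (i + 2), FS v ∧ R.d (i + 1) v = u g := by
    intro g _
    refine R.ex_succ i (u g) (h3 g) (h2 g) ?_
    rw [h4, ← (indRel_indOp j hj (R.mat_d i)).rsj_lam]
    have hd' : indOp j (R.mat_d i) x = 0 := hd
    rw [hd', map_zero, map_zero]
  obtain ⟨y, hy1, hy2, hy3⟩ := ind_lift j hj (R.inv_P (i + 2)) (R.mat_d (i + 1)) h6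
  exact ⟨y, hy1, hy2, hy3.trans h5.symm⟩

/-- in degree `0` -/
theorem ind_ex_zero (R : Res.{0} H) {x : E Γ (R.ι 0)} (hx : x ∈ (R.toPreRes.ind j hj).P 0) (hf : FS x)
    (h0 : cosAug j.range R.w x = 0) :
    ∃ y ∈ (R.toPreRes.ind j hj).P 1, FS y ∧ (R.toPreRes.ind j hj).d 0 y = x := by
  classical
  obtain ⟨s, u, h1, h2, h3, h4, h5⟩ := exists_pieces_mem (j := j) (hj := hj) (V := R.P 0) hf hx
  have h6 : ∑ g ∈ s, (Finsupp.single (QuotientGroup.mk g : Γ ⧸ j.range) (eps R.w (u g)) : (Γ ⧸ j.range) →₀ ℂ) = 0 := by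
    rw [← h0]
    conv_rhs => rw [h5, cosAug_sum _ _ fun g _ => fs_lam _ (fs_icj j hj (h2 g))]
    exact Finset.sum_congr rfl fun g _ => (cosAug_lam_icj _ _ (h2 g)).symm
  have h7 : ∀ g ∈ s, eps R.w (u g) = 0 := by
    intro g hg
    have h8 := congrArg (fun ξ : (Γ ⧸ j.range) →₀ ℂ => ξ (QuotientGroup.mk g)) h6
    simp only [Finsupp.coe_finsetSum, Finset.sum_apply, Finsupp.coe_zero, Pi.zero_apply] at h8
    rw [Finset.sum_eq_single_of_mem g hg, Finsupp.single_eq_same] at h8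
    · exact h8
    · intro g' hg' hne
      rw [Finsupp.single_eq_of_ne]
      intro h9
      first
        | exact hne (h1 g' hg' g hg h9)
        | exact hne (h1 g' hg' g hg h9.symm)
  have h8 : ∀ g ∈ s, ∃ v ∈ R.P 1, FS v ∧ R.d 0 v = u g := fun g hg => R.ex_zero (u g) (h3 g) (h2 g) (h7 g hg)
  obtain ⟨y, hy1, hy2, hy3⟩ := ind_lift j hj (R.inv_P 1) (R.mat_d 0) h8
  exact ⟨y, hy1, hy2, hy3.trans h5.symm⟩

theorem cosAug_d (R : PreRes.{0} H) {y : E Γ (R.ι 1)} (hy : y ∈ (R.ind j hj).P 1) (hf : FS y) :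
    cosAug j.range R.w ((R.ind j hj).d 0 y) = 0 := by
  classical
  obtain ⟨s, u, h1, h2, h3, h4, h5⟩ := exists_pieces_mem (j := j) (hj := hj) (V := R.P 1) hf hy
  have h6 : (R.ind j hj).d 0 y = ∑ g ∈ s, lam g (icj j hj (R.d 0 (u g))) := by
    show indOp j (R.mat_d 0) y = _
    conv_lhs => rw [h5, map_sum]
    refine Finset.sum_congr rfl fun g _ => ?_
    rw [(mat_indOp j (R.mat_d 0)).equi, (indRel_indOp j hj (R.mat_d 0)).icj]
  rw [h6, cosAug_sum _ _ fun g _ => fs_lam _ (fs_icj j hj ((R.mat_d 0).fs (h2 g)))]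
  refine Finset.sum_eq_zero fun g _ => ?_
  rw [cosAug_lam_icj _ _ ((R.mat_d 0).fs (h2 g)), R.eps_d _ (h3 g) (h2 g), Finsupp.single_zero]

/-- every finitely supported function on the cosets is a cosetwise augmentation -/
lemma exists_cosAug {ι : Type*} {V : Submodule ℂ (E H ι)} (hV : Inv V) (w : ι → ℂ) {f : E H ι} (hf1 : f ∈ V)
    (hf2 : FS f) (hf3 : eps w f = 1) (ξ : (Γ ⧸ j.range) →₀ ℂ) :
    ∃ x ∈ Singer.ind j hj V, FS x ∧ cosAug j.range w x = ξ := by
  classical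
  have hfs : ∀ q : Γ ⧸ j.range, FS (ξ q • lam q.out (icj j hj f) : E Γ ι) := fun q =>
    (fs_lam _ (fs_icj j hj hf2)).smul _
  refine ⟨∑ q ∈ ξ.support, ξ q • lam q.out (icj j hj f), ?_, ?_, ?_⟩
  · exact Submodule.sum_mem _ fun q _ => Submodule.smul_mem _ _ (inv_ind V _ _ ((icj_mem_ind hV).2 hf1))
  · exact FS.sum fun q _ => hfs q
  · rw [cosAug_sum _ _ fun q _ => hfs q]
    conv_rhs => rw [← Finsupp.sum_single ξ, Finsupp.sum]
    refine Finset.sum_congr rfl fun q _ => ?_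
    rw [cosAug_smul _ _ _ (fs_lam _ (fs_icj j hj hf2)), cosAug_lam_icj _ _ hf2, hf3, Finsupp.smul_single,
      smul_eq_mul, mul_one, QuotientGroup.out_eq']

theorem cosAug_surj (R : Res.{0} H) (ξ : (Γ ⧸ j.range) →₀ ℂ) :
    ∃ x ∈ (R.toPreRes.ind j hj).P 0, FS x ∧ cosAug j.range R.w x = ξ := by
  obtain ⟨f, hf1, hf2, hf3⟩ := R.surj
  exact exists_cosAug j hj (R.inv_P 0) R.w hf1 hf2 hf3 ξ

end PreRes

/-- induced operators and the augmentations -/
theorem cosAug_indOp {C A Γ : Type*} [Group C] [Group A] [Group Γ] {ι κ : Type*} [Fintype ι] {φ : C →* A}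
    {hφ : Function.Injective φ} {V : Submodule ℂ (E C ι)} (hV : Inv V) {T : E A ι →L[ℂ] E A κ} (hT : Mat T)
    {w : ι → ℂ} {w' : κ → ℂ} (haug : ∀ x ∈ ind φ hφ V, FS x → eps w' (T x) = eps w x)
    (j : A →* Γ) (hj : Function.Injective j)
    (c : C →* Γ) (hc : Function.Injective c) (e : j.comp φ = c) (hle : c.range ≤ j.range)
    {x : E Γ ι} (hx : x ∈ ind c hc V) (hf : FS x) :
    cosAug j.range w' (indOp j hT x) = (cosAug c.range w x).mapDomain (Subgroup.quotientMapOfLE hle) := by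
  classical
  subst e
  obtain ⟨s, u, h1, h2, h3, h4, h5⟩ := exists_pieces_mem (j := j.comp φ) (hj := hc) (V := V) hf hx
  have hv : ∀ g, FS (icj φ hφ (u g)) := fun g => fs_icj φ hφ (h2 g)
  have h6 : indOp j hT x = ∑ g ∈ s, lam g (icj j hj (T (icj φ hφ (u g)))) := by
    conv_lhs => rw [h5, map_sum]
    refine Finset.sum_congr rfl fun g _ => ?_
    rw [(mat_indOp j hT).equi, ← icj_icj φ hφ j hj, (indRel_indOp j hj hT).icj]
  rw [h6, cosAug_sum _ _ fun g _ => fs_lam _ (fs_icj j hj (hT.fs (hv g)))]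
  conv_rhs => rw [h5, cosAug_sum _ _ fun g _ => fs_lam _ (fs_icj (j.comp φ) hc (h2 g)), Finsupp.mapDomain_finsetSum]
  refine Finset.sum_congr rfl fun g _ => ?_
  rw [cosAug_lam_icj _ _ (hT.fs (hv g)), cosAug_lam_icj _ _ (h2 g), Finsupp.mapDomain_single,
    haug _ ((icj_mem_ind hV).2 (h3 g)) (hv g), eps_icj φ hφ _ (h2 g)]
  rfl

/-- the induced chain maps and the augmentations -/
theorem PreMap.cosAug_ind {C A Γ : Type*} [Group C] [Group A] [Group Γ] {φ : C →* A} {hφ : Function.Injective φ}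
    {RC : PreRes.{0} C} {RA : PreRes.{0} A} (F : PreMap (RC.ind φ hφ) RA) (j : A →* Γ) (hj : Function.Injective j)
    (c : C →* Γ) (hc : Function.Injective c) (e : j.comp φ = c) (hle : c.range ≤ j.range)
    {x : E Γ (RC.ι 0)} (hx : x ∈ (RC.ind c hc).P 0) (hf : FS x) :
    cosAug j.range RA.w ((F.ind j hj c hc e).f 0 x) =
      (cosAug c.range RC.w x).mapDomain (Subgroup.quotientMapOfLE hle) :=
  cosAug_indOp (ι := RC.ι 0) (κ := RA.ι 0) (V := RC.P 0) (RC.inv_P 0) (F.mat 0) F.aug j hj c hc e hle hx hf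

end Singer
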