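import Pool.Agent.Singer.Gen.PreConeA
import Pool.Agent.Singer.Gen.CosAug

/-!
# Singer, groups acting on trees: right translations, antisymmetric parts

`c x * s = s * c' x`: right translation by `s` maps the modules induced along `c` onto those induced along `c'`.
`PreRes.asy X r`: the part of `X` on which right translation by the involution `r` is `-1`.
-/

set_option autoImplicit false
set_option linter.unusedSectionVars false
set_option linter.unusedVariables false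

open scoped ComplexConjugate InnerProductSpace
open Filter Topology

namespace Singer

/-- the map `g K ↦ g s K'` -/
def cosMul {Γ : Type*} [Group Γ] {K K' : Subgroup Γ} {s : Γ} (h : ∀ x ∈ K, s⁻¹ * x * s ∈ K') : Γ ⧸ K → Γ ⧸ K' :=
  Quotient.map' (fun g => g * s) fun a b hab => by
    rw [QuotientGroup.leftRel_apply] at hab ⊢
    have e : (a * s)⁻¹ * (b * s) = s⁻¹ * (a⁻¹ * b) * s := by group
    rw [e]
    exact h _ hab

lemma cosMul_mk {Γ : Type*} [Group Γ] {K K' : Subgroup Γ} {s : Γ} (h : ∀ x ∈ K, s⁻¹ * x * s ∈ K') (g : Γ) :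
    cosMul h (QuotientGroup.mk g) = QuotientGroup.mk (g * s) := rfl

section tr
variable {H Γ : Type*} [Group H] [Group Γ] {ι κ : Type*} {c c' : H →* Γ} {hc : Function.Injective c}
  {hc' : Function.Injective c'} {s : Γ}

lemma rsj_lam_rt (hs : ∀ x, c x * s = s * c' x) (g : Γ) (f : E Γ ι) :
    rsj c' hc' (lam g (rt s⁻¹ f)) = rsj c hc (lam (s * g) f) := by
  ext x
  rw [rsj_apply, rsj_apply, lam_apply, lam_apply, rt_apply]
  have e : g⁻¹ * c' x.1 * s⁻¹ = (s * g)⁻¹ * c x.1 := by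
    have h1 : c x.1 = s * c' x.1 * s⁻¹ := by
      rw [← hs x.1]
      group
    rw [h1]
    group
  exact congrArg (fun t : Γ => f (t, x.2)) e

theorem rt_mem_ind_iff (hs : ∀ x, c x * s = s * c' x) {V : Submodule ℂ (E H ι)} {f : E Γ ι} :
    rt s⁻¹ f ∈ ind c' hc' V ↔ f ∈ ind c hc V := by
  rw [mem_ind, mem_ind]
  constructor
  · intro h g
    have h1 := h (s⁻¹ * g)
    rw [rsj_lam_rt (hc := hc) hs] at h1
    rwa [mul_inv_cancel_left] at h1
  · intro h g
    rw [rsj_lam_rt (hc := hc) hs]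
    exact h _

lemma rt_indOp [Fintype ι] (hs : ∀ x, c x * s = s * c' x) {T : E H ι →L[ℂ] E H κ} (hT : Mat T) (f : E Γ ι) :
    rt s⁻¹ (indOp c hT f) = indOp c' hT (rt s⁻¹ f) := by
  have hcol : ∀ (a : Γ) (i : ι) (k : κ), col i k (rt a f) = rt a (col i k f) := by
    classical
    intro a i k
    ext x
    rw [rt_apply, col_apply, col_apply, rt_apply]
  have hinv : ∀ x : H, s⁻¹ * c x = c' x * s⁻¹ := by
    intro x
    have h1 : c x = s * c' x * s⁻¹ := by
      rw [← hs x]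
      group
    rw [h1]
    group
  unfold indOp
  rw [sum_apply, sum_apply, map_sum]
  refine Finset.sum_congr rfl fun i _ => ?_
  rw [sum_apply, sum_apply, map_sum]
  refine Finset.sum_congr rfl fun x _ => ?_
  rw [smul_apply, smul_apply, map_smul]
  congr 1
  show rt s⁻¹ (rt (c x.1⁻¹) (col i x.2 f)) = rt (c' x.1⁻¹) (col i x.2 (rt s⁻¹ f))
  rw [hcol, rt_rt, rt_rt, hinv]

lemma FS.rt {f : E Γ ι} (t : Γ) (hf : FS f) : FS (Singer.rt t f) := (mat_rt t).fs hf

lemma eps_rt (w : ι → ℂ) (t : Γ) {f : E Γ ι} (hf : FS f) : eps w (rt t f) = eps w f := by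
  unfold eps
  rw [← finsum_comp_equiv ((Equiv.mulRight t).prodCongr (Equiv.refl ι) : Γ × ι ≃ Γ × ι)
    (f := fun x : Γ × ι => w x.2 * f x)]
  congr 1

/-- the augmentations over the cosets -/
lemma cosAug_rt {K K' : Subgroup Γ} (h : ∀ x ∈ K, s⁻¹ * x * s ∈ K') (w : ι → ℂ) {f : E Γ ι} (hf : FS f) :
    cosAug K' w (rt s⁻¹ f) = (cosAug K w f).mapDomain (cosMul h) := by
  have h1 : ∀ x ∈ hf.toFinset, FS (f x • del x.1 x.2 : E Γ ι) := fun x _ => (fs_del _ _).smul _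
  conv_lhs => rw [hf.eq_sum, map_sum, cosAug_sum _ _ fun x hx => (h1 x hx).rt _]
  conv_rhs => rw [hf.eq_sum, cosAug_sum _ _ h1, Finsupp.mapDomain_finsetSum]
  refine Finset.sum_congr rfl fun x _ => ?_
  rw [map_smul, rt_del, inv_inv, cosAug_smul _ _ _ (fs_del _ _), cosAug_smul _ _ _ (fs_del _ _), cosAug_del,
    cosAug_del, Finsupp.mapDomain_smul, Finsupp.mapDomain_single, cosMul_mk]

end tr

/-- right translation as a chain map -/
noncomputable def PreRes.tr {H Γ : Type*} [Group H] [Group Γ] (R : PreRes.{0} H) (c c' : H →* Γ)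
    (hc : Function.Injective c) (hc' : Function.Injective c') (s : Γ) (hs : ∀ x, c x * s = s * c' x) :
    PreMap (R.ind c hc) (R.ind c' hc') where
  f i := (rt s⁻¹ : E Γ (R.ι i) →L[ℂ] E Γ (R.ι i))
  equi i := equi_rt s⁻¹
  maps i x hx := (rt_mem_ind_iff hs).2 hx
  comm i x hx := rt_indOp hs (R.mat_d i) x
  mat i := mat_rt s⁻¹
  aug x hx hfs := eps_rt R.w s⁻¹ hfs

/-- composition of chain maps -/
noncomputable def PreMap.cmp {Γ : Type*} [Group Γ] {X Y Z : PreRes.{0} Γ} (G : PreMap Y Z) (F : PreMap X Y) :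
    PreMap X Z where
  f i := (G.f i).comp (F.f i)
  equi i := (G.equi i).comp (F.equi i)
  maps i x hx := G.maps i _ (F.maps i x hx)
  comm i x hx := by
    show G.f i (F.f i (X.toHC.d i x)) = Z.toHC.d i (G.f (i + 1) (F.f (i + 1) x))
    rw [F.comm i x hx, G.comm i _ (F.maps (i + 1) x hx)]
  mat i := (G.mat i).comp (F.mat i)
  aug x hx hfs := (G.aug _ (F.maps 0 x hx) ((F.mat 0).fs hfs)).trans (F.aug x hx hfs)

section asy
variable {Γ : Type*} [Group Γ] {ι : Type*}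

/-- the antisymmetric part of a submodule under right translation by `r` -/
noncomputable def anti (r : Γ) (W : Submodule ℂ (E Γ ι)) : Submodule ℂ (E Γ ι) :=
  W ⊓ LinearMap.ker ((1 + rt r : E Γ ι →L[ℂ] E Γ ι) : E Γ ι →ₗ[ℂ] E Γ ι)

lemma mem_anti {r : Γ} {W : Submodule ℂ (E Γ ι)} {f : E Γ ι} : f ∈ anti r W ↔ f ∈ W ∧ rt r f = -f := by
  have h1 : f ∈ LinearMap.ker ((1 + rt r : E Γ ι →L[ℂ] E Γ ι) : E Γ ι →ₗ[ℂ] E Γ ι) ↔ f + rt r f = 0 := Iff.rfl
  unfold anti
  rw [Submodule.mem_inf, h1, add_eq_zero_iff_neg_eq]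
  constructor
  · rintro ⟨h2, h3⟩
    exact ⟨h2, h3.symm⟩
  · rintro ⟨h2, h3⟩
    exact ⟨h2, h3.symm⟩

lemma Mdl.anti {W : Submodule ℂ (E Γ ι)} (hW : Mdl W) (r : Γ) : Mdl (Singer.anti r W) :=
  hW.inf (mdl_ker (equi_one.add (equi_rt r)))

/-- the antisymmetrisation of an element -/
lemma half_mem_anti {r : Γ} (hr : r * r = 1) {W : Submodule ℂ (E Γ ι)} {f : E Γ ι} (h1 : f ∈ W) (h2 : rt r f ∈ W) :
    (1 / 2 : ℂ) • (f - rt r f) ∈ Singer.anti r W := by
  rw [mem_anti]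
  refine ⟨W.smul_mem _ (W.sub_mem h1 h2), ?_⟩
  rw [map_smul, map_sub, rt_rt, hr, rt_one, ← smul_neg, neg_sub]

lemma half_eq_of_anti {r : Γ} {W : Submodule ℂ (E Γ ι)} {f : E Γ ι} (hf : f ∈ Singer.anti r W) :
    (1 / 2 : ℂ) • (f - rt r f) = f := by
  rw [(mem_anti.1 hf).2, sub_neg_eq_add, ← two_smul ℂ f, smul_smul]
  norm_num

/-- **the antisymmetric part of a module induced from `c(H)` is half of it**, for an involution `r` outside `c(H)` which
commutes with `c(H)` -/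
theorem vdim_anti {H : Type*} [Group H] [Fintype ι] {c : H →* Γ} {hc : Function.Injective c} {r : Γ}
    (hr : r * r = 1) (hcr : ∀ x, c x * r = r * c x) (hn : r ∉ c.range) {V : Submodule ℂ (E H ι)} (hV : Mdl V) :
    2 * vdim (Singer.anti r (Singer.ind c hc V)) = vdim V := by
  have hri : r⁻¹ = r := inv_eq_of_mul_eq_one_right hr
  have hrt : ∀ {f : E Γ ι}, f ∈ Singer.ind c hc V → rt r f ∈ Singer.ind c hc V := by
    intro f hf
    have h1 := (rt_mem_ind_iff (hc := hc) (hc' := hc) hcr (V := V) (f := f)).2 hf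
    rwa [hri] at h1
  have hWc : IsClosed (Singer.ind c hc V : Set (E Γ ι)) := isClosed_ind hV.cl
  have hPW : ∀ f : E Γ ι, prj (Singer.ind c hc V) f ∈ Singer.ind c hc V := by
    intro f
    have h1 := prj_mem (Singer.ind c hc V) f
    rwa [IsClosed.submodule_topologicalClosure_eq hWc] at h1
  -- the projection
  have hprj : ∀ f : E Γ ι, prj (Singer.anti r (Singer.ind c hc V)) f =
      (1 / 2 : ℂ) • (prj (Singer.ind c hc V) f - rt r (prj (Singer.ind c hc V) f)) := by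
    intro f
    refine prj_unique (Submodule.le_topologicalClosure _ (half_mem_anti hr (hPW f) (hrt (hPW f)))) ?_
    rw [Submodule.mem_orthogonal]
    intro v hv
    obtain ⟨hv1, hv2⟩ := mem_anti.1 hv
    have h1 : ⟪v, f - prj (Singer.ind c hc V) f⟫_ℂ = 0 :=
      (Submodule.mem_orthogonal _ _).1 (sub_prj_mem (Singer.ind c hc V) f) v hv1
    have h2 : ⟪v, rt r (prj (Singer.ind c hc V) f)⟫_ℂ = -⟪v, prj (Singer.ind c hc V) f⟫_ℂ := by
      have h3 := inner_rt_left r v (prj (Singer.ind c hc V) f)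
      rw [hri, hv2, inner_neg_left] at h3
      exact h3.symm
    rw [inner_sub_right, inner_smul_right, inner_sub_right, h2]
    rw [inner_sub_right] at h1
    linear_combination h1
  -- the trace
  have h1 : (2 : ℂ) * (vdim (Singer.anti r (Singer.ind c hc V)) : ℂ) = (vdim (Singer.ind c hc V) : ℂ) := by
    rw [vdim_eq_tr, vdim_eq_tr]
    unfold tr
    rw [Finset.mul_sum]
    refine Finset.sum_congr rfl fun i _ => ?_
    have h2 : del (1 : Γ) i = icj c hc (del (1 : H) i) := by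
      have := del_eq_icj c hc (1 : H) i
      rwa [map_one] at this
    have h3 : (prj (Singer.ind c hc V) (del (1 : Γ) i)) (r, i) = 0 := by
      rw [h2, prj_ind hV.inv hV.cl, icj_apply_notMem c hc _ hn]
    rw [hprj, lp.coeFn_smul, Pi.smul_apply, lp.coeFn_sub, Pi.sub_apply, rt_apply]
    show (2 : ℂ) * ((1 / 2 : ℂ) • ((prj (Singer.ind c hc V) (del (1 : Γ) i)) (1, i) -
      (prj (Singer.ind c hc V) (del (1 : Γ) i)) (1 * r, i))) = _
    rw [one_mul, h3, sub_zero, smul_eq_mul]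
    ring
  have h2 : 2 * vdim (Singer.anti r (Singer.ind c hc V)) = vdim (Singer.ind c hc V) := by
    exact_mod_cast h1
  rw [h2, vdim_ind hV.inv hV.cl]

end asy

section pre
variable {H Γ : Type*} [Group H] [Group Γ]

lemma rt_ind_mem {c : H →* Γ} {hc : Function.Injective c} {r : Γ} (hr : r * r = 1) (hcr : ∀ x, c x * r = r * c x)
    {ι : Type*} {V : Submodule ℂ (E H ι)} {f : E Γ ι} (hf : f ∈ Singer.ind c hc V) : rt r f ∈ Singer.ind c hc V := by
  have h1 := (rt_mem_ind_iff (hc := hc) (hc' := hc) hcr (V := V) (f := f)).2 hf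
  rwa [inv_eq_of_mul_eq_one_right hr] at h1

lemma rt_indOp_self {c : H →* Γ} {r : Γ} (hr : r * r = 1) (hcr : ∀ x, c x * r = r * c x)
    {ι κ : Type*} [Fintype ι] {T : E H ι →L[ℂ] E H κ} (hT : Mat T) (f : E Γ ι) :
    rt r (indOp c hT f) = indOp c hT (rt r f) := by
  have h1 := rt_indOp hcr hT f
  rwa [inv_eq_of_mul_eq_one_right hr] at h1

lemma indOp_anti {c : H →* Γ} {hc : Function.Injective c} {r : Γ} (hr : r * r = 1) (hcr : ∀ x, c x * r = r * c x)
    {ι κ : Type*} [Fintype ι] {T : E H ι →L[ℂ] E H κ} (hT : Mat T) {V : Submodule ℂ (E H ι)}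
    {W : Submodule ℂ (E Γ κ)} (hVW : ∀ f ∈ Singer.ind c hc V, indOp c hT f ∈ W) {f : E Γ ι}
    (hf : f ∈ anti r (Singer.ind c hc V)) : indOp c hT f ∈ anti r W := by
  obtain ⟨h1, h2⟩ := mem_anti.1 hf
  refine mem_anti.2 ⟨hVW f h1, ?_⟩
  rw [rt_indOp_self hr hcr, h2, map_neg]

/-- the boundaries -/
lemma anti_closure_map {c : H →* Γ} {hc : Function.Injective c} {r : Γ} (hr : r * r = 1)
    (hcr : ∀ x, c x * r = r * c x) {ι κ : Type*} [Fintype ι] {T : E H ι →L[ℂ] E H κ} (hT : Mat T)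
    {V : Submodule ℂ (E H ι)} {B : Submodule ℂ (E H κ)} (hB : IsClosed (B : Set (E H κ)))
    (h : ((Singer.ind c hc V).map (indOp c hT : E Γ ι →L[ℂ] E Γ κ).toLinearMap).topologicalClosure =
      Singer.ind c hc B) :
    ((anti r (Singer.ind c hc V)).map (indOp c hT : E Γ ι →L[ℂ] E Γ κ).toLinearMap).topologicalClosure =
      anti r (Singer.ind c hc B) := by
  apply le_antisymm
  · refine Submodule.topologicalClosure_minimal _ ?_
      ((⟨inv_ind _, isClosed_ind hB⟩ : Mdl (Singer.ind c hc B)).anti r).cl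
    rintro _ ⟨y, hy, rfl⟩
    refine indOp_anti hr hcr hT (fun f hf => ?_) hy
    rw [← h]
    exact Submodule.le_topologicalClosure _ ⟨f, hf, rfl⟩
  · intro f hf
    have hf2 := half_eq_of_anti hf
    have hf1 := (mem_anti.1 hf).1
    rw [← h] at hf1
    -- the operator `(1 - rt r) / 2`
    let q : E Γ κ →L[ℂ] E Γ κ := (1 / 2 : ℂ) • (1 - rt r)
    have hq : q f = f := hf2
    have h1 : q f ∈ _root_.closure ((q : E Γ κ → E Γ κ) ''
        (((Singer.ind c hc V).map (indOp c hT : E Γ ι →L[ℂ] E Γ κ).toLinearMap : Submodule ℂ (E Γ κ)) :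
          Set (E Γ κ))) :=
      image_closure_subset_closure_image q.continuous ⟨f, hf1, rfl⟩
    rw [hq] at h1
    refine closure_mono ?_ h1
    rintro _ ⟨_, ⟨g, hg, rfl⟩, rfl⟩
    refine ⟨(1 / 2 : ℂ) • (g - rt r g), half_mem_anti hr hg (rt_ind_mem hr hcr hg), ?_⟩
    show indOp c hT ((1 / 2 : ℂ) • (g - rt r g)) = (1 / 2 : ℂ) • (indOp c hT g - rt r (indOp c hT g))
    rw [map_smul, map_sub, rt_indOp_self hr hcr]

/-- exactness -/
lemma anti_lift {c : H →* Γ} {hc : Function.Injective c} {r : Γ} (hr : r * r = 1)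
    (hcr : ∀ x, c x * r = r * c x) {ι κ : Type*} [Fintype ι] {T : E H ι →L[ℂ] E H κ} (hT : Mat T)
    {V : Submodule ℂ (E H ι)} {W : Submodule ℂ (E Γ κ)} {x : E Γ κ} (hx : x ∈ anti r W)
    (h : ∃ y ∈ Singer.ind c hc V, FS y ∧ indOp c hT y = x) :
    ∃ y ∈ anti r (Singer.ind c hc V), FS y ∧ indOp c hT y = x := by
  obtain ⟨y, hy1, hy2, hy3⟩ := h
  refine ⟨(1 / 2 : ℂ) • (y - rt r y), half_mem_anti hr hy1 (rt_ind_mem hr hcr hy1),
    (hy2.sub (hy2.rt r)).smul _, ?_⟩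
  rw [map_smul, map_sub, ← rt_indOp_self hr hcr, hy3]
  exact half_eq_of_anti hx

lemma anti_cosAug {c : H →* Γ} {hc : Function.Injective c} {r : Γ} (hr : r * r = 1)
    (hcr : ∀ x, c x * r = r * c x) {ι : Type*} {V : Submodule ℂ (E H ι)} (w : ι → ℂ)
    (h : ∀ x ∈ c.range, r⁻¹ * x * r ∈ c.range) (ξ : (Γ ⧸ c.range) →₀ ℂ)
    (hx : ∃ x ∈ Singer.ind c hc V, FS x ∧ cosAug c.range w x = ξ) :
    ∃ x ∈ anti r (Singer.ind c hc V), FS x ∧ cosAug c.range w x = ξ - ξ.mapDomain (cosMul h) := by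
  obtain ⟨x, hx1, hx2, hx3⟩ := hx
  have hri : r⁻¹ = r := inv_eq_of_mul_eq_one_right hr
  have h1 := half_mem_anti hr hx1 (rt_ind_mem hr hcr hx1)
  have h2 : x - rt r x = (2 : ℂ) • ((1 / 2 : ℂ) • (x - rt r x)) := by
    rw [smul_smul]
    norm_num
  refine ⟨x - rt r x, ?_, hx2.sub (hx2.rt r), ?_⟩
  · rw [h2]
    exact Submodule.smul_mem _ _ h1
  · have h3 := cosAug_rt h w hx2
    rw [cosAug_sub _ _ hx2 (hx2.rt r), hx3, ← hx3]
    have h4 : rt r⁻¹ x = rt r x := congrArg (fun t => rt t x) hri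
    rw [h4] at h3
    rw [h3]

/-- the antisymmetric part of an induced complex -/
noncomputable def PreRes.asy (R : PreRes.{0} H) (c : H →* Γ) (hc : Function.Injective c) (r : Γ) (hr : r * r = 1)
    (hcr : ∀ x, c x * r = r * c x) : PreRes.{0} Γ where
  ι := R.ι
  ft := R.ft
  P i := anti r (Singer.ind c hc (R.P i))
  e i := (1 / 2 : ℂ) • (((R.ind c hc).e i) - (rt r).comp ((R.ind c hc).e i))
  d i := (R.ind c hc).d i
  w := R.w
  mat_e i := (((R.ind c hc).mat_e i).sub ((mat_rt r).comp ((R.ind c hc).mat_e i))).smul _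
  mat_d i := (R.ind c hc).mat_d i
  e_mem i f := half_mem_anti hr ((R.ind c hc).e_mem i f) (rt_ind_mem hr hcr ((R.ind c hc).e_mem i f))
  e_eq i f hf := by
    show (1 / 2 : ℂ) • ((R.ind c hc).e i f - rt r ((R.ind c hc).e i f)) = f
    rw [(R.ind c hc).e_eq i f (mem_anti.1 hf).1]
    exact half_eq_of_anti hf
  d_mem i f hf := indOp_anti hr hcr (R.mat_d i) ((R.ind c hc).d_mem i) hf
  d_d i f hf := (R.ind c hc).d_d i f (mem_anti.1 hf).1
  eps_d f hf hfs := (R.ind c hc).eps_d f (mem_anti.1 hf).1 hfs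

variable (R : PreRes.{0} H) {c : H →* Γ} {hc : Function.Injective c} {r : Γ} {hr : r * r = 1}
    {hcr : ∀ x, c x * r = r * c x}

lemma PreRes.asy_Z (i : ℕ) : (R.asy c hc r hr hcr).Z i = anti r (Singer.ind c hc (R.Z i)) := by
  cases i with
  | zero => rfl
  | succ i =>
    rw [← PreRes.ind_Z]
    ext f
    constructor
    · rintro ⟨h1, h2⟩
      exact mem_anti.2 ⟨⟨(mem_anti.1 h1).1, h2⟩, (mem_anti.1 h1).2⟩
    · intro h
      obtain ⟨⟨h1, h2⟩, h3⟩ := mem_anti.1 h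
      exact ⟨mem_anti.2 ⟨h1, h3⟩, h2⟩

lemma PreRes.asy_B (i : ℕ) : (R.asy c hc r hr hcr).B i = anti r (Singer.ind c hc (R.B i)) :=
  anti_closure_map hr hcr (R.mat_d i) (R.isClosed_B i) (R.ind_B c hc i)

theorem PreRes.asy_h (hn : r ∉ c.range) (i : ℕ) : 2 * (R.asy c hc r hr hcr).toHC.h i = R.toHC.h i := by
  have hZ : 2 * vdim ((R.asy c hc r hr hcr).Z i) = vdim (R.Z i) := by
    rw [PreRes.asy_Z]
    exact vdim_anti hr hcr hn (R.mdl_Z i)
  have hB : 2 * vdim ((R.asy c hc r hr hcr).B i) = vdim (R.B i) := by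
    rw [PreRes.asy_B]
    exact vdim_anti hr hcr hn (R.mdl_B i)
  unfold HC.h
  rw [PreRes.toHC_Z, PreRes.toHC_Z, PreRes.toHC_B, PreRes.toHC_B, mul_sub]
  exact congrArg₂ (· - ·) hZ hB

theorem PreRes.asy_ex (R : Res.{0} H) : (R.toPreRes.asy c hc r hr hcr).Ex := fun i x hx hf hd =>
  anti_lift hr hcr (R.mat_d (i + 1)) hx (PreRes.ind_ex c hc R i x (mem_anti.1 hx).1 hf hd)

/-- in degree `0` -/
theorem PreRes.asy_ex_zero (R : Res.{0} H) {x : E Γ (R.ι 0)} (hx : x ∈ (R.toPreRes.asy c hc r hr hcr).P 0)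
    (hf : FS x) (h0 : cosAug c.range R.w x = 0) :
    ∃ y ∈ (R.toPreRes.asy c hc r hr hcr).P 1, FS y ∧ (R.toPreRes.asy c hc r hr hcr).d 0 y = x :=
  anti_lift hr hcr (R.mat_d 0) hx (PreRes.ind_ex_zero c hc R (mem_anti.1 hx).1 hf h0)

/-- antisymmetric elements with prescribed augmentation `ξ - ξ r` -/
theorem PreRes.asy_surj (R : Res.{0} H) (h : ∀ x ∈ c.range, r⁻¹ * x * r ∈ c.range) (ξ : (Γ ⧸ c.range) →₀ ℂ) :
    ∃ x ∈ (R.toPreRes.asy c hc r hr hcr).P 0, FS x ∧ cosAug c.range R.w x = ξ - ξ.mapDomain (cosMul h) :=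
  anti_cosAug hr hcr R.w h ξ (PreRes.cosAug_surj c hc R ξ)

end pre

end Singer
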