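import Pool.Agent.Singer.Gen.Sig
import Pool.Agent.Singer.Gen.Tr

/-!
# Singer, groups acting on trees: tree data

`TD Γ`: the combinatorial data of an action of `Γ` on a tree without inversions and with finitely many orbits.  `Ve`,
`Ed`: orbits of vertices and edges, `A v`, `C e`: stabilisers of representatives; the edge `g e` has the two ends
`g s(e,b) v(e,b)`, `b` in `Bool`.  `half`: every edge separates the tree; `conn`: the tree is connected.
`MD inj a r`: the same for the mirrored group `M` of a vertex group `A` (`a : A →* M`), with an involution `r η` for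
every end `η`, which commutes with the edge group.
-/

set_option autoImplicit false
set_option linter.unusedSectionVars false
set_option linter.unusedVariables false

open scoped ComplexConjugate InnerProductSpace
open Filter Topology

namespace Singer

/-- tree data -/
structure TD (Γ : Type*) [Group Γ] where
  Ve : Type
  Ed : Type
  finV : Fintype Ve
  ne : Nonempty Ve
  finE : Fintype Ed
  A : Ve → Subgroup Γ
  C : Ed → Subgroup Γ
  vt : Ed × Bool → Ve
  s : Ed × Bool → Γ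
  sub : ∀ p, ∀ x ∈ C p.1, (s p)⁻¹ * x * s p ∈ A (vt p)
  half : ∀ e₀, ∃ S : Ve → Set Γ, (∀ v, ∀ g ∈ S v, ∀ x ∈ A v, g * x ∈ S v) ∧
    (∀ g ∈ C e₀, g * s (e₀, true) ∈ S (vt (e₀, true)) ∧ g * s (e₀, false) ∉ S (vt (e₀, false))) ∧
    ∀ e g, (e = e₀ → g ∉ C e) → (g * s (e, true) ∈ S (vt (e, true)) ↔ g * s (e, false) ∈ S (vt (e, false)))
  conn : ∀ U : Ve → Set Γ, (∀ v, ∀ g ∈ U v, ∀ x ∈ A v, g * x ∈ U v) →
    (∀ e g, g * s (e, true) ∈ U (vt (e, true)) ↔ g * s (e, false) ∈ U (vt (e, false))) →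
    ∀ v w g h, g ∈ U v → h ∈ U w

attribute [instance] TD.finV TD.finE

namespace TD
variable {Γ : Type*} [Group Γ] (D : TD Γ)

/-- the ends of edges at a vertex -/
def En (v : D.Ve) : Type := {p : D.Ed × Bool // D.vt p = v}

noncomputable instance (v : D.Ve) : Fintype (D.En v) := by
  classical
  exact Subtype.fintype _

/-- the sign of an end -/
def sgn (b : Bool) : ℂ := if b then 1 else -1

variable {D}

lemma sub' {v : D.Ve} (η : D.En v) : ∀ x ∈ D.C η.1.1, (D.s η.1)⁻¹ * x * D.s η.1 ∈ D.A v := by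
  have h := D.sub η.1
  rw [η.2] at h
  exact h

/-- the inclusion of the edge group in the vertex group -/
def inj {v : D.Ve} (η : D.En v) : D.C η.1.1 →* D.A v where
  toFun x := ⟨(D.s η.1)⁻¹ * x * D.s η.1, sub' η x x.2⟩
  map_one' := by
    apply Subtype.ext
    show (D.s η.1)⁻¹ * 1 * D.s η.1 = 1
    group
  map_mul' x y := by
    apply Subtype.ext
    show (D.s η.1)⁻¹ * (x * y) * D.s η.1 = ((D.s η.1)⁻¹ * x * D.s η.1) * ((D.s η.1)⁻¹ * y * D.s η.1)
    group

lemma inj_injective {v : D.Ve} (η : D.En v) : Function.Injective (inj η) := by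
  intro x y h
  apply Subtype.ext
  have h1 : (D.s η.1)⁻¹ * x * D.s η.1 = (D.s η.1)⁻¹ * y * D.s η.1 := congrArg Subtype.val h
  exact mul_left_cancel (mul_right_cancel h1)

lemma rel {v : D.Ve} (η : D.En v) (x : D.C η.1.1) :
    (D.C η.1.1).subtype x * D.s η.1 = D.s η.1 * ((D.A v).subtype.comp (inj η)) x := by
  show (x : Γ) * D.s η.1 = D.s η.1 * ((D.s η.1)⁻¹ * x * D.s η.1)
  group

variable (D)

/-- the divergence of a finitely supported function on the edges -/
noncomputable def bd (ξ : ∀ e, (Γ ⧸ D.C e) →₀ ℂ) (v : D.Ve) : (Γ ⧸ D.A v) →₀ ℂ :=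
  ∑ η : D.En v, sgn η.1.2 • (ξ η.1.1).mapDomain (cosMul (sub' η))

/-- the restriction of a function on the edges to the ends at a vertex -/
noncomputable def res (ι : D.Ed → Type) (v : D.Ve) : E Γ (Σ e, ι e) →L[ℂ] E Γ (Σ η : D.En v, ι η.1.1) :=
  ∑ η : D.En v, sgn η.1.2 • ((ie (ι := fun η : D.En v => ι η.1.1) η).comp (rt (D.s η.1)⁻¹)).comp (pe η.1.1)

lemma pe_res (ι : D.Ed → Type) (v : D.Ve) (η : D.En v) (x : E Γ (Σ e, ι e)) :
    pe (ι := fun η : D.En v => ι η.1.1) η (D.res ι v x) = sgn η.1.2 • rt (D.s η.1)⁻¹ (pe η.1.1 x) := by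
  classical
  unfold res
  rw [sum_apply, map_sum, Finset.sum_eq_single_of_mem η (Finset.mem_univ η)]
  · rw [smul_apply, map_smul]
    exact congrArg (sgn η.1.2 • ·) (pe_ie_self (ι := fun η : D.En v => ι η.1.1) η _)
  · intro η' _ hη'
    rw [smul_apply, map_smul]
    exact (congrArg (sgn η'.1.2 • ·) (pe_ie_ne (ι := fun η : D.En v => ι η.1.1) hη'.symm _)).trans (smul_zero _)

end TD

/-- data of the mirrored group -/
structure MD {A : Type*} [Group A] {N : Type} {C : N → Type*} [∀ η, Group (C η)] (inj : ∀ η, C η →* A) {M : Type*}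
    [Group M] (a : A →* M) (r : N → M) : Prop where
  ha : Function.Injective a
  hinj : ∀ η, Function.Injective (inj η)
  rr : ∀ η, r η * r η = 1
  comm : ∀ η x, a (inj η x) * r η = r η * a (inj η x)
  half : ∀ η₀, ∃ S : Set M, (∀ g ∈ S, ∀ x, g * a x ∈ S) ∧ (∀ x, a (inj η₀ x) ∈ S ∧ a (inj η₀ x) * r η₀ ∉ S) ∧
    ∀ η g, (η = η₀ → g ∉ (a.comp (inj η)).range ∧ g * r η ∉ (a.comp (inj η)).range) → (g ∈ S ↔ g * r η ∈ S)
  conn : ∀ U : Set M, (∀ g ∈ U, ∀ x, g * a x ∈ U) → (∀ η g, g ∈ U ↔ g * r η ∈ U) → ∀ g h, g ∈ U → h ∈ U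

namespace MD
variable {A : Type*} [Group A] {N : Type} [Fintype N] {C : N → Type*} [∀ η, Group (C η)] {inj : ∀ η, C η →* A}
    {M : Type*} [Group M] {a : A →* M} {r : N → M} (h : MD inj a r)

lemma le (η : N) : (a.comp (inj η)).range ≤ a.range := by
  rintro _ ⟨x, rfl⟩
  exact ⟨inj η x, rfl⟩

include h in
lemma cj (η : N) : ∀ x ∈ (a.comp (inj η)).range, (r η)⁻¹ * x * r η ∈ (a.comp (inj η)).range := by
  rintro _ ⟨x, rfl⟩
  refine ⟨x, ?_⟩
  show a (inj η x) = (r η)⁻¹ * a (inj η x) * r η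
  rw [mul_assoc, h.comm, inv_mul_cancel_left]

include h in
lemma comp_injective (η : N) : Function.Injective (a.comp (inj η)) := h.ha.comp (h.hinj η)

include h in
lemma comm' (η : N) (x : C η) : (a.comp (inj η)) x * r η = r η * (a.comp (inj η)) x := h.comm η x

include h in
lemma notMem (η : N) : r η ∉ (a.comp (inj η)).range := by
  rintro ⟨x, hx⟩
  obtain ⟨S, _, h2, _⟩ := h.half η
  have h3 := h2 x
  have h4 : a (inj η x) = r η := hx
  have h5 := h2 1
  rw [map_one, map_one, one_mul] at h5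
  rw [h4] at h3
  exact h5.2 h3.1

end MD

end Singer
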