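import Pool.Agent.Singer.Gen.MirTree
import Pool.Agent.Singer.Gen.TD

/-!
# The mirrored group and its tree data

`Mir.md` : the mirrored group `Mirror A X` with the reflections of representatives `nb η` of the orbits of `A` on `X`.
-/

set_option autoImplicit false
set_option linter.unusedSectionVars false
set_option linter.unusedVariables false

namespace Singer

namespace Mir
variable {A X : Type*} [Group A] [MulAction A X]

open SemidirectProduct

lemma s_mul_inr_notMem {x : X} {S : Set (Mirror A X)} (h1 : ∀ m ∈ S, ∀ g : A, m * inr g ∈ S)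
    (h2 : (s x : Mirror A X) ∉ S) (g : A) : (s x : Mirror A X) * inr g ∉ S := fun h => h2 (by
  have h3 := h1 _ h g⁻¹
  rwa [mul_assoc, ← map_mul, mul_inv_cancel, map_one, mul_one] at h3)

theorem md {N : Type} {C : N → Type*} [∀ η, Group (C η)] (inj : ∀ η, C η →* A)
    (hinj : ∀ η, Function.Injective (inj η)) (nb : N → X)
    (hst : ∀ η, (inj η).range = MulAction.stabilizer A (nb η)) (hhit : ∀ x, ∃ η, ∃ g : A, g • nb η = x)
    (huniq : ∀ η η' (g : A), g • nb η = nb η' → η = η') :
    MD inj (inr : A →* Mirror A X) (fun η => s (nb η)) where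
  ha := inr_injective
  hinj := hinj
  rr η := s_mul_s _
  comm η x := by
    have h : inj η x ∈ MulAction.stabilizer A (nb η) := by
      rw [← hst]
      exact ⟨x, rfl⟩
    exact comm_s (MulAction.mem_stabilizer_iff.1 h)
  half η₀ := by
    obtain ⟨S, h1, h2, h3, h4⟩ := exists_side (G := A) (nb η₀)
    refine ⟨S, h1, fun x => ⟨?_, ?_⟩, fun η g hg => h4 g (nb η) ?_⟩
    · have := h1 _ h2 (inj η₀ x)
      rwa [one_mul] at this
    · have h : inj η₀ x ∈ MulAction.stabilizer A (nb η₀) := by
        rw [← hst]
        exact ⟨x, rfl⟩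
      rw [comm_s (MulAction.mem_stabilizer_iff.1 h)]
      exact s_mul_inr_notMem h1 h3 _
    · rintro ⟨k, hk, hk'⟩
      have he : η = η₀ := huniq _ _ k hk
      obtain ⟨h5, h6⟩ := hg he
      subst he
      have hk2 : k ∈ (inj η).range := by
        rw [hst]
        exact MulAction.mem_stabilizer_iff.2 hk
      obtain ⟨c, rfl⟩ := hk2
      rcases hk' with hk' | hk'
      · exact h5 ⟨c, hk'.symm⟩
      · refine h6 ⟨c, ?_⟩
        show inr (inj η c) = g * s (nb η)
        rw [hk', mul_assoc, comm_s hk, ← mul_assoc, s_mul_s, one_mul]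
  conn U h1 h2 g h hg := by
    have hcl := closure_eq_top (G := A) (s₀ := Set.range nb) (X := X) fun x => by
      obtain ⟨η, k, hk⟩ := hhit x
      exact ⟨nb η, ⟨η, rfl⟩, k, hk⟩
    have key : ∀ k ∈ Subgroup.closure (((inr : A →* Mirror A X).range : Set (Mirror A X)) ∪ s '' Set.range nb),
        ∀ g, g ∈ U ↔ g * k ∈ U := by
      intro k hk
      induction hk using Subgroup.closure_induction with
      | mem k hk =>
        intro g
        rcases hk with ⟨a, rfl⟩ | ⟨_, ⟨η, rfl⟩, rfl⟩
        · refine ⟨fun hg => h1 g hg a, fun hg => ?_⟩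
          have h3 := h1 _ hg a⁻¹
          rwa [mul_assoc, ← map_mul, mul_inv_cancel, map_one, mul_one] at h3
        · exact h2 η g
      | one =>
        intro g
        rw [mul_one]
      | mul a b _ _ iha ihb =>
        intro g
        rw [← mul_assoc]
        exact (iha g).trans (ihb _)
      | inv a _ iha =>
        intro g
        rw [iha (g * a⁻¹), inv_mul_cancel_right]
    have h3 := (key (g⁻¹ * h) (by rw [hcl]; trivial) g).1 hg
    rwa [mul_inv_cancel_left] at h3

end Mir

end Singer
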