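import Pool.Agent.Singer.Gen.MirStmt
import Pool.Agent.Singer.Gen.Mirror
import Mathlib.GroupTheory.SemidirectProduct

/-!
# The mirrored group: presentation and semidirect product

* `MD.equiv`: the data of the mirrored group are invariant under isomorphisms;
* `mirrorEquiv`: the group `MirrorGroup Γ T v`, given by generators and relations, is the semidirect product.
-/

set_option autoImplicit false

namespace Singer

/-- the data of the mirrored group are invariant under isomorphisms -/
theorem MD.equiv {A : Type*} [Group A] {N : Type} {C : N → Type*} [∀ η, Group (C η)] {inj : ∀ η, C η →* A} {M M' : Type*}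
    [Group M] [Group M'] {a : A →* M} {r : N → M} (h : MD inj a r) (e : M ≃* M') :
    MD inj (e.toMonoidHom.comp a) (fun η => e (r η)) where
  ha := e.injective.comp h.ha
  hinj := h.hinj
  rr η := by rw [← map_mul, h.rr, map_one]
  comm η x := by
    show e (a (inj η x)) * e (r η) = e (r η) * e (a (inj η x))
    rw [← map_mul, ← map_mul, h.comm]
  half η₀ := by
    obtain ⟨S, h1, h2, h3⟩ := h.half η₀
    refine ⟨e.symm ⁻¹' S, fun g hg x => ?_, fun x => ⟨?_, ?_⟩, fun η g hg => ?_⟩
    · show e.symm (g * e (a x)) ∈ S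
      rw [map_mul, MulEquiv.symm_apply_apply]
      exact h1 _ hg x
    · show e.symm (e (a (inj η₀ x))) ∈ S
      rw [MulEquiv.symm_apply_apply]
      exact (h2 x).1
    · show e.symm (e (a (inj η₀ x)) * e (r η₀)) ∉ S
      rw [map_mul, MulEquiv.symm_apply_apply, MulEquiv.symm_apply_apply]
      exact (h2 x).2
    · show e.symm g ∈ S ↔ e.symm (g * e (r η)) ∈ S
      rw [map_mul, MulEquiv.symm_apply_apply]
      refine h3 η _ fun hη => ?_
      obtain ⟨h4, h5⟩ := hg hη
      refine ⟨fun h6 => h4 ?_, fun h6 => h5 ?_⟩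
      · obtain ⟨x, hx⟩ := h6
        exact ⟨x, (congrArg e hx).trans (e.apply_symm_apply g)⟩
      · obtain ⟨x, hx⟩ := h6
        refine ⟨x, (congrArg e hx).trans ?_⟩
        rw [map_mul, MulEquiv.apply_symm_apply]
  conn U h1 h2 g g' hg := by
    have h3 := h.conn (e ⁻¹' U) (fun g hg x => by
      show e (g * a x) ∈ U
      rw [map_mul]
      exact h1 _ hg x) (fun η g => by
      show e g ∈ U ↔ e (g * r η) ∈ U
      rw [map_mul]
      exact h2 η (e g)) (e.symm g) (e.symm g') (by
      show e (e.symm g) ∈ U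
      rwa [MulEquiv.apply_symm_apply])
    have h4 : e (e.symm g') ∈ U := h3
    rwa [MulEquiv.apply_symm_apply] at h4

section pres
variable {Γ V : Type*} [Group Γ] [MulAction Γ V] (T : SimpleGraph V) (v : V)

/-- the generator of an element of the stabilizer -/
def MirrorGroup.el : MulAction.stabilizer Γ v →* MirrorGroup Γ T v :=
  MonoidHom.mk' (fun g => PresentedGroup.of (Sum.inl g)) fun g h => by
    have h1 : (PresentedGroup.mk (mirrorRel (Γ := Γ) T v)) (FreeGroup.of (Sum.inl g) * FreeGroup.of (Sum.inl h) *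
        (FreeGroup.of (Sum.inl (g * h)))⁻¹) = 1 :=
      PresentedGroup.mk_eq_one_iff.2 (Subgroup.subset_normalClosure (Or.inl ⟨g, h, rfl⟩))
    rw [map_mul, map_mul, map_inv, mul_inv_eq_one] at h1
    exact h1.symm

/-- the reflection of a neighbour -/
def MirrorGroup.rf (x : T.neighborSet v) : MirrorGroup Γ T v := PresentedGroup.of (Sum.inr x)

lemma MirrorGroup.rf_mul (x : T.neighborSet v) : (MirrorGroup.rf T v x : MirrorGroup Γ T v) * MirrorGroup.rf T v x = 1 := by
  have h1 : (PresentedGroup.mk (mirrorRel (Γ := Γ) T v)) (FreeGroup.of (Sum.inr x) * FreeGroup.of (Sum.inr x)) = 1 :=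
    PresentedGroup.mk_eq_one_iff.2 (Subgroup.subset_normalClosure (Or.inr (Or.inl ⟨x, rfl⟩)))
  rwa [map_mul] at h1

lemma MirrorGroup.conj_rf (g : MulAction.stabilizer Γ v) (x y : T.neighborSet v) (h : g • (x : V) = y) :
    MirrorGroup.el T v g * MirrorGroup.rf T v x * (MirrorGroup.el T v g)⁻¹ = (MirrorGroup.rf T v y : MirrorGroup Γ T v) := by
  have h1 : (PresentedGroup.mk (mirrorRel (Γ := Γ) T v)) (FreeGroup.of (Sum.inl g) * FreeGroup.of (Sum.inr x) *
      (FreeGroup.of (Sum.inl g))⁻¹ * (FreeGroup.of (Sum.inr y))⁻¹) = 1 :=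
    PresentedGroup.mk_eq_one_iff.2 (Subgroup.subset_normalClosure (Or.inr (Or.inr ⟨g, x, y, h, rfl⟩)))
  rw [map_mul, map_mul, map_mul, map_inv, map_inv, mul_inv_eq_one] at h1
  exact h1

variable (hact : ∀ (g : Γ) (v w : V), T.Adj v w → T.Adj (g • v) (g • w))

/-- the forward map -/
def mirrorTo : MirrorGroup Γ T v →* Mirror (MulAction.stabilizer Γ v) (nbrs T hact v) :=
  PresentedGroup.toGroup (f := fun x => match x with
    | Sum.inl g => SemidirectProduct.inr g
    | Sum.inr x => Mir.s (G := MulAction.stabilizer Γ v) (X := nbrs T hact v) ⟨x, x.2⟩) (by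
    rintro w (⟨g, h, rfl⟩ | ⟨x, rfl⟩ | ⟨g, x, y, hxy, rfl⟩)
    · rw [map_mul, map_mul, map_inv, FreeGroup.lift_apply_of, FreeGroup.lift_apply_of, FreeGroup.lift_apply_of,
        mul_inv_eq_one]
      exact (map_mul SemidirectProduct.inr g h).symm
    · rw [map_mul, FreeGroup.lift_apply_of]
      exact Mir.s_mul_s _
    · rw [map_mul, map_mul, map_mul, map_inv, map_inv, FreeGroup.lift_apply_of, FreeGroup.lift_apply_of,
        FreeGroup.lift_apply_of, mul_inv_eq_one]
      have h1 : g • (⟨x, x.2⟩ : nbrs T hact v) = ⟨y, y.2⟩ := Subtype.ext hxy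
      have h2 := SemidirectProduct.inl_aut (φ := permAct (MulAction.stabilizer Γ v) (nbrs T hact v)) g
        (PresentedGroup.of ⟨x, x.2⟩)
      have h3 : permAct (MulAction.stabilizer Γ v) (nbrs T hact v) g (PresentedGroup.of ⟨x, x.2⟩) =
          PresentedGroup.of ⟨y, y.2⟩ := (FreeInv.map_of _ _).trans (congrArg _ h1)
      rw [h3] at h2
      exact h2.symm.trans rfl)

lemma mirrorTo_el (g : MulAction.stabilizer Γ v) : mirrorTo T v hact (MirrorGroup.el T v g) = SemidirectProduct.inr g :=
  PresentedGroup.toGroup.of _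

lemma mirrorTo_rf (x : T.neighborSet v) : mirrorTo T v hact (MirrorGroup.rf T v x) =
    Mir.s (G := MulAction.stabilizer Γ v) (X := nbrs T hact v) ⟨x, x.2⟩ := PresentedGroup.toGroup.of _

/-- the backward map on the free product -/
def mirrorFree : FreeInv (nbrs T hact v) →* MirrorGroup Γ T v :=
  PresentedGroup.toGroup (f := fun x : nbrs T hact v => MirrorGroup.rf T v ⟨x.1, x.2⟩) (by
    rintro w ⟨x, rfl⟩
    rw [map_mul, FreeGroup.lift_apply_of]
    exact MirrorGroup.rf_mul T v _)

lemma mirrorFree_of (x : nbrs T hact v) : mirrorFree T v hact (PresentedGroup.of x) = MirrorGroup.rf T v ⟨x.1, x.2⟩ :=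
  PresentedGroup.toGroup.of _

/-- the backward map -/
def mirrorFrom : Mirror (MulAction.stabilizer Γ v) (nbrs T hact v) →* MirrorGroup Γ T v :=
  SemidirectProduct.lift (mirrorFree T v hact) (MirrorGroup.el T v) fun g => PresentedGroup.ext fun x => by
    rw [MonoidHom.comp_apply, MonoidHom.comp_apply, mirrorFree_of]
    have h1 : (permAct (MulAction.stabilizer Γ v) (nbrs T hact v) g).toMonoidHom (PresentedGroup.of x) =
        PresentedGroup.of (g • x) := FreeInv.map_of _ _
    rw [h1, mirrorFree_of]
    exact (MirrorGroup.conj_rf T v g ⟨x.1, x.2⟩ ⟨(g • x : nbrs T hact v).1, (g • x : nbrs T hact v).2⟩ rfl).symm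

/-- the mirrored group is the semidirect product -/
def mirrorEquiv : Mirror (MulAction.stabilizer Γ v) (nbrs T hact v) ≃* MirrorGroup Γ T v :=
  MonoidHom.toMulEquiv (mirrorFrom T v hact) (mirrorTo T v hact)
    (SemidirectProduct.hom_ext
      (PresentedGroup.ext fun x => by
        show mirrorTo T v hact (mirrorFrom T v hact (SemidirectProduct.inl (PresentedGroup.of x))) = _
        have h1 : mirrorFrom T v hact (SemidirectProduct.inl (PresentedGroup.of x)) =
            mirrorFree T v hact (PresentedGroup.of x) := SemidirectProduct.lift_inl _ _ _ _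
        rw [h1, mirrorFree_of, mirrorTo_rf]
        rfl)
      (MonoidHom.ext fun g => by
        show mirrorTo T v hact (mirrorFrom T v hact (SemidirectProduct.inr g)) = _
        have h1 : mirrorFrom T v hact (SemidirectProduct.inr g) = MirrorGroup.el T v g :=
          SemidirectProduct.lift_inr _ _ _ _
        rw [h1, mirrorTo_el]
        rfl))
    (PresentedGroup.ext fun x => by
      rcases x with g | x
      · show mirrorFrom T v hact (mirrorTo T v hact (MirrorGroup.el T v g)) = _
        rw [mirrorTo_el]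
        exact SemidirectProduct.lift_inr _ _ _ _
      · show mirrorFrom T v hact (mirrorTo T v hact (MirrorGroup.rf T v x)) = _
        rw [mirrorTo_rf]
        have h1 : mirrorFrom T v hact (Mir.s (G := MulAction.stabilizer Γ v) (X := nbrs T hact v) ⟨x, x.2⟩) =
            mirrorFree T v hact (PresentedGroup.of ⟨x, x.2⟩) := SemidirectProduct.lift_inl _ _ _ _
        exact h1.trans (mirrorFree_of T v hact _))

end pres

end Singer
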