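import Pool.Agent.Singer.Gen.Slope

/-!
# Singer, general gluing theorem: slopes with error terms

The numerical forms of `two_sided`, `slope_of_double`, `inter_le_of_slope`:
`vdim (N₁ ⊓ N₂) ≤ (κ₁ + κ₂) / 2` if the modules `N₁`, `N₂` have slopes at most one half up to `κ₁`, `κ₂`.
-/

set_option autoImplicit false
set_option linter.unusedSectionVars false
set_option linter.unusedVariables false

open scoped ComplexConjugate InnerProductSpace
open Filter Topology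

namespace Singer

section twosided
variable {Γ : Type*} [Group Γ] {ι : Type*}

/-- the two-sided half-space lemma with error terms -/
theorem two_sided_le [Fintype ι] {A B C : Subgroup Γ} (hCA : C ≤ A) (hCB : C ≤ B) (hS : Side A B C)
    {X N₁ N₂ : Submodule ℂ (E Γ ι)} (hX : Mdl X) (hlX : Loc C X) (h₁ : Mdl N₁) (hl₁ : Loc A N₁) (hX₁ : N₁ ≤ X)
    (h₂ : Mdl N₂) (hl₂ : Loc B N₂) (hX₂ : N₂ ≤ X) {κ₁ κ₂ : ℝ}
    (hs₁ : ∀ W : Submodule ℂ (E Γ ι), Mdl W → Loc C W → W ≤ X → 2 * vdim (W ⊓ N₁) ≤ vdim W + κ₁)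
    (hs₂ : ∀ W : Submodule ℂ (E Γ ι), Mdl W → Loc C W → W ≤ X → 2 * vdim (W ⊓ N₂) ≤ vdim W + κ₂) :
    2 * vdim (N₁ ⊓ N₂) ≤ κ₁ + κ₂ := by
  obtain ⟨S, hSA, hCS, hSB⟩ := hS
  have hN : Mdl (N₁ ⊓ N₂) := h₁.inf h₂
  set W : Submodule ℂ (E Γ ι) := (tsHull C (N₁ ⊓ N₂)).topologicalClosure with hWdef
  have hW : Mdl W := Mdl.closure (tsHull_inv C _)
  have hlW : Loc C W := ts_loc_closure (tsHull_cut C _)
  have hNW : N₁ ⊓ N₂ ≤ W := le_tsHull hN.inv
  have hWX : W ≤ X := by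
    refine Submodule.topologicalClosure_minimal _ (Submodule.span_le.2 ?_) hX.cl
    rintro _ ⟨g, n, hn, rfl⟩
    exact hX.inv g _ (hlX n (hX₁ hn.1))
  have hSB' : ∀ g ∈ S \ (C : Set Γ), ∀ b ∈ B, g * b ∈ S \ (C : Set Γ) := fun g hg b hb => hSB g hg.1 hg.2 b hb
  have hY : tsHull C (N₁ ⊓ N₂) ≤ (W ⊓ N₁) ⊔ (W ⊓ N₂) := by
    refine Submodule.span_le.2 ?_
    rintro _ ⟨g, n, hn, rfl⟩
    refine (hW.inv.inf h₁.inv).sup (hW.inv.inf h₂.inv) g _ ?_
    have h3 : cut (C : Set Γ) n = cut S n - cut (S \ (C : Set Γ)) n := by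
      ext y
      rw [lp.coeFn_sub, Pi.sub_apply]
      by_cases hy : y.1 ∈ C
      · rw [cut_apply_mem (by exact hy), cut_apply_mem (hCS _ hy), cut_apply_notMem (by exact fun h => h.2 hy), sub_zero]
      · rw [cut_apply_notMem (by exact hy)]
        by_cases hyS : y.1 ∈ S
        · rw [cut_apply_mem hyS, cut_apply_mem (by exact ⟨hyS, hy⟩), sub_self]
        · rw [cut_apply_notMem hyS, cut_apply_notMem (by exact fun h => hyS h.1), sub_self]
    rw [h3]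
    refine Submodule.sub_mem _ (Submodule.mem_sup_left ⟨?_, ?_⟩) (Submodule.mem_sup_right ⟨?_, ?_⟩)
    · exact ts_cut_mem hW hlW (fun g hg k hk => hSA g hg k (hCA hk)) (hNW hn)
    · exact ts_cut_mem h₁ hl₁ hSA hn.1
    · exact ts_cut_mem hW hlW (fun g hg k hk => hSB' g hg k (hCB hk)) (hNW hn)
    · exact ts_cut_mem h₂ hl₂ hSB' hn.2
  have h4 := vdim_sup_add_inf (hW.inv.inf h₁.inv) (hW.inv.inf h₂.inv) (hW.inf h₁).cl (hW.inf h₂).cl
  have h5 : vdim (N₁ ⊓ N₂) ≤ vdim ((W ⊓ N₁) ⊓ (W ⊓ N₂)) :=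
    vdim_mono (le_inf (le_inf hNW inf_le_left) (le_inf hNW inf_le_right))
  have h6 : vdim W ≤ vdim ((W ⊓ N₁) ⊔ (W ⊓ N₂)) := by
    rw [hWdef, vdim_closure]
    exact vdim_mono hY
  have h7 := hs₁ W hW hlW hWX
  have h8 := hs₂ W hW hlW hWX
  linarith

end twosided

section slope
variable {C A Γ : Type*} [Group C] [Group A] [Group Γ] {ι : Type*}

/-- slopes from a double, with the error term -/
theorem slope_of_double_le [Fintype ι] {φ : C →* A} {hφ : Function.Injective φ} {a₁ a₂ : A →* Γ}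
    {h₁ : Function.Injective a₁} {h₂ : Function.Injective a₂} {c : C →* Γ} {hc : Function.Injective c}
    (e₁ : a₁.comp φ = c) (e₂ : a₂.comp φ = c) {N : Submodule ℂ (E A ι)} (hN : Mdl N)
    {V : Submodule ℂ (E C ι)} (hV : Mdl V) :
    2 * vdim (ind φ hφ V ⊓ N) ≤ vdim V + vdim (ind a₁ h₁ N ⊓ ind a₂ h₂ N) := by
  set W := ind φ hφ V ⊓ N with hW
  have hWm : Mdl W := hV.ind.inf hN
  have h3 := vdim_sup_add_inf (inv_ind (j := a₁) (hj := h₁) W) (inv_ind (j := a₂) (hj := h₂) W)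
    (isClosed_ind hWm.cl) (isClosed_ind hWm.cl)
  rw [vdim_ind hWm.inv hWm.cl, vdim_ind hWm.inv hWm.cl] at h3
  have h4 : vdim (ind a₁ h₁ W ⊔ ind a₂ h₂ W) ≤ vdim V := by
    rw [← vdim_ind (j := c) (hj := hc) hV.inv hV.cl]
    refine vdim_mono (sup_le ?_ ?_)
    · rw [← ind_comp_eq (hφ := hφ) (hj := h₁) e₁]
      exact ind_mono inf_le_left
    · rw [← ind_comp_eq (hφ := hφ) (hj := h₂) e₂]
      exact ind_mono inf_le_left
  have h5 : vdim (ind a₁ h₁ W ⊓ ind a₂ h₂ W) ≤ vdim (ind a₁ h₁ N ⊓ ind a₂ h₂ N) :=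
    vdim_mono (inf_le_inf (ind_mono inf_le_right) (ind_mono inf_le_right))
  linarith

/-- the transfer of the slope inequality to orthogonal complements, with the error term -/
lemma slope_orth_le [Fintype ι] {φ : C →* A} {hφ : Function.Injective φ} {N : Submodule ℂ (E A ι)} (hN : Mdl N)
    {Z B : Submodule ℂ (E C ι)} (hZ : Mdl Z) (hB : Mdl B) (hBZ : B ≤ Z) {κ : ℝ}
    (hs : ∀ V : Submodule ℂ (E C ι), Mdl V → 2 * vdim (ind φ hφ V ⊓ N) ≤ vdim V + (vdim B + κ))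
    (hBN : ind φ hφ B ≤ N) {W : Submodule ℂ (E C ι)} (hW : Mdl W) (hWZ : W ≤ Z ⊓ Bᗮ) :
    2 * vdim (ind φ hφ W ⊓ N) ≤ vdim W + κ := by
  set V := (W ⊔ B).topologicalClosure with hVdef
  have hV : Mdl V := Mdl.closure (hW.inv.sup hB.inv)
  have h1 := hs V hV
  have h2 : vdim V = vdim W + vdim B := by
    rw [hVdef, vdim_closure, vdim_sup_of_le_orthogonal (hWZ.trans inf_le_right)]
  have h3 : vdim (ind φ hφ W ⊓ N) + vdim B ≤ vdim (ind φ hφ V ⊓ N) := by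
    rw [← vdim_ind (j := φ) (hj := hφ) hB.inv hB.cl, ← vdim_sup_of_le_orthogonal]
    · refine vdim_mono (sup_le ?_ ?_)
      · exact inf_le_inf_right _ (ind_mono (le_sup_left.trans (Submodule.le_topologicalClosure _)))
      · exact le_inf (ind_mono (le_sup_right.trans (Submodule.le_topologicalClosure _))) hBN
    · rw [← ind_orthogonal hB.inv hB.cl]
      exact inf_le_left.trans (ind_mono (hWZ.trans inf_le_right))
  linarith

end slope

section main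
variable {C A A' Γ : Type*} [Group C] [Group A] [Group A'] [Group Γ] {ι : Type*}

/-- a module of slope at most one half, up to an error, against the modules over the subgroup -/
lemma slope_ind_le [Fintype ι] {ψ : C →* A} {hψ : Function.Injective ψ} {i : A →* Γ}
    {hi : Function.Injective i} {c : C →* Γ} {hc : Function.Injective c} (e₁ : i.comp ψ = c)
    {M : Submodule ℂ (E A ι)} (hM : Mdl M) {Z B : Submodule ℂ (E C ι)} (hZ : Mdl Z) (hB : Mdl B) (hBZ : B ≤ Z)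
    (hBM : ind ψ hψ B ≤ M) {κ : ℝ}
    (hsM : ∀ V : Submodule ℂ (E C ι), Mdl V → 2 * vdim (ind ψ hψ V ⊓ M) ≤ vdim V + (vdim B + κ))
    (W : Submodule ℂ (E Γ ι)) (hW : Mdl W) (hWl : Loc c.range W) (hWX : W ≤ ind c hc (Z ⊓ Bᗮ)) :
    2 * vdim (W ⊓ (ind c hc (Z ⊓ Bᗮ) ⊓ ind i hi M)) ≤ vdim W + κ := by
  have hW0 : ind c hc (coi c hc W) = W := ind_coi hW.inv hW.cl hWl
  have hW0m : Mdl (coi c hc W) := hW.coi
  have hX₀m : Mdl (Z ⊓ Bᗮ) := hZ.inf (Mdl.orthogonal hB.inv)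
  have h1 : coi c hc W ≤ Z ⊓ Bᗮ := by
    rw [← ind_le_ind (j := c) (hj := hc) hW0m.inv hX₀m.inv, hW0]
    exact hWX
  have h2 := slope_orth_le (hφ := hψ) hM hZ hB hBZ hsM hBM hW0m h1
  have h3 : W ⊓ (ind c hc (Z ⊓ Bᗮ) ⊓ ind i hi M) = ind i hi (ind ψ hψ (coi c hc W) ⊓ M) := by
    rw [ind_inf (j := i) (hj := hi) (ind ψ hψ (coi c hc W)) M, ind_comp_eq (hc := hc) e₁, hW0, ← inf_assoc,
      inf_eq_left.2 hWX]
  have h4 : Mdl (ind ψ hψ (coi c hc W) ⊓ M) := hW0m.ind.inf hM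
  rw [h3, vdim_ind h4.inv h4.cl]
  calc _ ≤ vdim (coi c hc W) + κ := h2
    _ = vdim W + κ := by rw [vdim_coi hW.inv hW.cl hWl]

/-- orthogonal decomposition -/
lemma vdim_le_add_inf_orthogonal [Fintype ι] {M B : Submodule ℂ (E Γ ι)} (hM : Mdl M) (hB : Mdl B) (hBM : B ≤ M) :
    vdim M ≤ vdim B + vdim (M ⊓ Bᗮ) := by
  rw [add_comm, ← vdim_sup_of_le_orthogonal inf_le_right]
  refine vdim_mono fun f hf => ?_
  have hcl : B.topologicalClosure = B := IsClosed.submodule_topologicalClosure_eq hB.cl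
  have hb : prj B f ∈ B := by
    have := prj_mem B f
    rwa [hcl] at this
  have h1 : f = (f - prj B f) + prj B f := by abel
  rw [h1]
  exact Submodule.add_mem_sup ⟨Submodule.sub_mem _ hf (hBM hb), sub_prj_mem B f⟩ hb

/-- **two modules of slope at most one half up to errors meet in the boundaries up to the mean of the errors** -/
theorem inter_le_half [Fintype ι] {φ : C →* A} {hφ : Function.Injective φ} {φ' : C →* A'}
    {hφ' : Function.Injective φ'} {j : A →* Γ} {hj : Function.Injective j} {j' : A' →* Γ}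
    {hj' : Function.Injective j'} {c : C →* Γ} {hc : Function.Injective c} (e : j.comp φ = c) (e' : j'.comp φ' = c)
    (hS : Side j.range j'.range c.range) {N : Submodule ℂ (E A ι)} (hN : Mdl N) {N' : Submodule ℂ (E A' ι)}
    (hN' : Mdl N') {Z B : Submodule ℂ (E C ι)} (hZ : Mdl Z) (hB : Mdl B) (hBZ : B ≤ Z)
    (hBN : ind φ hφ B ≤ N) (hBN' : ind φ' hφ' B ≤ N') (hNZ : N ≤ ind φ hφ Z) {κ κ' : ℝ}
    (hs : ∀ V : Submodule ℂ (E C ι), Mdl V → 2 * vdim (ind φ hφ V ⊓ N) ≤ vdim V + (vdim B + κ))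
    (hs' : ∀ V : Submodule ℂ (E C ι), Mdl V → 2 * vdim (ind φ' hφ' V ⊓ N') ≤ vdim V + (vdim B + κ')) :
    2 * vdim (ind j hj N ⊓ ind j' hj' N') ≤ 2 * vdim B + (κ + κ') := by
  have hCA : c.range ≤ j.range := range_le_of_comp e
  have hCA' : c.range ≤ j'.range := range_le_of_comp e'
  have hX₀m : Mdl (Z ⊓ Bᗮ) := hZ.inf (Mdl.orthogonal hB.inv)
  have hXm : Mdl (ind c hc (Z ⊓ Bᗮ)) := hX₀m.ind
  have hXl : Loc c.range (ind c hc (Z ⊓ Bᗮ)) := loc_ind _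
  have hNm : Mdl (ind j hj N) := hN.ind
  have hNm' : Mdl (ind j' hj' N') := hN'.ind
  have hl : Loc j.range (ind c hc (Z ⊓ Bᗮ) ⊓ ind j hj N) := (hXl.mono hXm.inv hXm.cl hCA).inf (loc_ind N)
  have hl' : Loc j'.range (ind c hc (Z ⊓ Bᗮ) ⊓ ind j' hj' N') := (hXl.mono hXm.inv hXm.cl hCA').inf (loc_ind N')
  have h1 := two_sided_le hCA hCA' hS hXm hXl (hXm.inf hNm) hl inf_le_left (hXm.inf hNm') hl' inf_le_left
    (slope_ind_le e hN hZ hB hBZ hBN hs) (slope_ind_le e' hN' hZ hB hBZ hBN' hs')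
  have hBm : Mdl (ind c hc B) := hB.ind
  have hBN1 : ind c hc B ≤ ind j hj N := by
    rw [← ind_comp_eq (hφ := hφ) (hj := hj) (hc := hc) e B]
    exact ind_mono hBN
  have hBN2 : ind c hc B ≤ ind j' hj' N' := by
    rw [← ind_comp_eq (hφ := hφ') (hj := hj') (hc := hc) e' B]
    exact ind_mono hBN'
  have h2 := vdim_le_add_inf_orthogonal (hNm.inf hNm') hBm (le_inf hBN1 hBN2)
  rw [vdim_ind hB.inv hB.cl] at h2
  have h3 : vdim ((ind j hj N ⊓ ind j' hj' N') ⊓ (ind c hc B)ᗮ) ≤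
      vdim ((ind c hc (Z ⊓ Bᗮ) ⊓ ind j hj N) ⊓ (ind c hc (Z ⊓ Bᗮ) ⊓ ind j' hj' N')) := by
    refine vdim_mono fun f hf => ?_
    have h4 : f ∈ ind c hc (Z ⊓ Bᗮ) := by
      rw [ind_inf, ind_orthogonal hB.inv hB.cl]
      refine ⟨?_, hf.2⟩
      rw [← ind_comp_eq (hφ := hφ) (hj := hj) (hc := hc) e Z]
      exact ind_mono hNZ hf.1.1
    exact ⟨⟨h4, hf.1.1⟩, ⟨h4, hf.1.2⟩⟩
  linarith

end main

end Singer
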