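import Pool.Agent.Singer.Gen.MDRes
import Pool.Agent.Singer.Gen.SlopeE

/-!
# Singer, groups acting on trees: the slopes at a vertex
-/

set_option autoImplicit false
set_option linter.unusedSectionVars false
set_option linter.unusedVariables false

open scoped ComplexConjugate InnerProductSpace
open Filter Topology

namespace Singer

namespace MD
variable {A : Type*} [Group A] {N : Type} [Fintype N] {C : N → Type*} [∀ η, Group (C η)] {inj : ∀ η, C η →* A}
    {M : Type*} [Group M] {a : A →* M} {r : N → M} (h : MD inj a r)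
    {RC : ∀ η, PreRes.{0} (C η)} {RA : PreRes.{0} A} (H : ∀ η, PreMap ((RC η).ind (inj η) (h.hinj η)) RA)

/-- **the slopes at a vertex** -/
theorem slope (i : ℕ) {V : ∀ η, Submodule ℂ (E (C η) ((RC η).ι i))} (hV : ∀ η, Mdl (V η)) :
    2 * vdim ((dsum fun η => Singer.ind (inj η) (h.hinj η) (V η)) ⊓ NN H i) ≤
      ∑ η, vdim (V η) + (∑ η, vdim ((RC η).B i) + 2 * (h.map H).kap i) := by
  set W : Submodule ℂ (E A (Σ η, (RC η).ι i)) := (dsum fun η => Singer.ind (inj η) (h.hinj η) (V η)) ⊓ NN H i with hW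
  have hWm : Mdl W := (Mdl.dsum fun η => (hV η).ind).inf (mdl_NN H i)
  set P : Submodule ℂ (E M (Σ η, (RC η).ι i)) :=
    dsum fun η => anti (r η) (Singer.ind (a.comp (inj η)) (h.comp_injective η) (V η)) with hP
  have hPm : Mdl P := Mdl.dsum fun η => (hV η).ind.anti (r η)
  have hSm : Mdl (Singer.ind a h.ha W) := hWm.ind
  have h1 := vdim_sup_add_inf hPm.inv hSm.inv hPm.cl hSm.cl
  have h2 : vdim (Singer.ind a h.ha W) = vdim W := vdim_ind hWm.inv hWm.cl
  have h3 : 2 * vdim P = ∑ η, vdim (V η) := by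
    rw [hP, vdim_dsum', Finset.mul_sum]
    exact Finset.sum_congr rfl fun η _ => vdim_anti (h.rr η) (h.comm' η) (h.notMem η) (hV η)
  have e1 : (fun η => Singer.ind a h.ha (Singer.ind (inj η) (h.hinj η) (V η))) =
      fun η => Singer.ind (a.comp (inj η)) (h.comp_injective η) (V η) := by
    funext η
    exact Singer.ind_ind (inj η) (h.hinj η) a h.ha _
  have h4 : vdim (P ⊔ Singer.ind a h.ha W) ≤ ∑ η, vdim (V η) := by
    have h5 : P ⊔ Singer.ind a h.ha W ≤ dsum fun η => Singer.ind (a.comp (inj η)) (h.comp_injective η) (V η) := by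
      refine sup_le (dsum_mono fun η u hu => (mem_anti.1 hu).1) ?_
      rw [← e1, ← ind_dsum]
      exact ind_mono inf_le_left
    refine (vdim_mono h5).trans (le_of_eq ?_)
    rw [vdim_dsum']
    exact Finset.sum_congr rfl fun η _ => vdim_ind (hV η).inv (hV η).cl
  have h6 : vdim (P ⊓ Singer.ind a h.ha W) ≤
      vdim ((dsum fun η => anti (r η) (Singer.ind (a.comp (inj η)) (h.comp_injective η) ((RC η).Z i))) ⊓
        Singer.ind a h.ha (NN H i)) := by
    refine vdim_mono fun f hf => ?_
    have h7 : f ∈ Singer.ind a h.ha (NN H i) := ind_mono inf_le_right hf.2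
    refine ⟨mem_dsum.2 fun η => mem_anti.2 ⟨?_, (mem_anti.1 (mem_dsum.1 hf.1 η)).2⟩, h7⟩
    rw [h.ind_NN H i] at h7
    exact mem_dsum.1 h7.1 η
  have h8 := h.kap_eq H i
  linarith

end MD

end Singer
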