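import Pool.Agent.Singer.TwoSided
import Pool.Agent.Singer.IndG

/-!
# Singer, general gluing theorem: the slope argument

* `ind_comp_eq`: induction in stages;
* `slope_of_double`: a module `N` of `A` whose two copies in a group `D` containing two copies of `A` meet in (the
  module induced from) `B` has slope at most one half against every module of `C`;
* `inter_le_of_slope`: the two-sided half-space lemma, for modules of slope at most one half.
-/

set_option autoImplicit false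
set_option linter.unusedSectionVars false
set_option linter.unusedVariables false

open scoped ComplexConjugate InnerProductSpace
open Filter Topology

namespace Singer

section slope
variable {C A Γ : Type*} [Group C] [Group A] [Group Γ] {ι : Type*}

lemma Mdl.ind {j : C →* Γ} {hj : Function.Injective j} {V : Submodule ℂ (E C ι)} (hV : Mdl V) :
    Mdl (Singer.ind j hj V) := ⟨inv_ind V, isClosed_ind hV.cl⟩

lemma Mdl.coi {j : C →* Γ} {hj : Function.Injective j} {V : Submodule ℂ (E Γ ι)} (hV : Mdl V) :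
    Mdl (Singer.coi j hj V) := ⟨inv_coi hV.inv, isClosed_coi hV.cl⟩

lemma rsj_comp_eq {φ : C →* A} {hφ : Function.Injective φ} {j : A →* Γ} {hj : Function.Injective j} {c : C →* Γ}
    {hc : Function.Injective c} (e : j.comp φ = c) (f : E Γ ι) :
    rsj φ hφ (rsj j hj f) = rsj c hc f := by
  subst e
  rfl

/-- induction in stages -/
theorem ind_comp_eq {φ : C →* A} {hφ : Function.Injective φ} {j : A →* Γ} {hj : Function.Injective j} {c : C →* Γ}
    {hc : Function.Injective c} (e : j.comp φ = c) (V : Submodule ℂ (E C ι)) :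
    ind j hj (ind φ hφ V) = ind c hc V := by
  ext f
  rw [mem_ind, mem_ind]
  constructor
  · intro h g
    have h1 := mem_ind.1 (h g) 1
    rw [lam_one, rsj_comp_eq e] at h1
    exact h1
  · intro h g
    rw [mem_ind]
    intro a
    rw [← rsj_lam, lam_lam, rsj_comp_eq (hc := hc) e]
    exact h _

/-- slopes from a double -/
theorem slope_of_double [Fintype ι] {φ : C →* A} {hφ : Function.Injective φ} {a₁ a₂ : A →* Γ}
    {h₁ : Function.Injective a₁} {h₂ : Function.Injective a₂} {c : C →* Γ} {hc : Function.Injective c}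
    (e₁ : a₁.comp φ = c) (e₂ : a₂.comp φ = c) {N : Submodule ℂ (E A ι)} (hN : Mdl N) {B : Submodule ℂ (E C ι)}
    (hB : Mdl B) (hK : ind a₁ h₁ N ⊓ ind a₂ h₂ N ≤ ind c hc B) {V : Submodule ℂ (E C ι)} (hV : Mdl V) :
    2 * vdim (ind φ hφ V ⊓ N) ≤ vdim V + vdim B := by
  set W := ind φ hφ V ⊓ N with hW
  have hWm : Mdl W := hV.ind.inf hN
  have h3 := vdim_sup_add_inf (inv_ind (j := a₁) (hj := h₁) W) (inv_ind (j := a₂) (hj := h₂) W)
    (isClosed_ind hWm.cl) (isClosed_ind hWm.cl)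
  rw [vdim_ind hWm.inv hWm.cl, vdim_ind hWm.inv hWm.cl] at h3
  have h4 : vdim (ind a₁ h₁ W ⊔ ind a₂ h₂ W) ≤ vdim V := by
    rw [← vdim_ind (j := c) (hj := hc) hV.inv hV.cl]
    refine vdim_mono (sup_le ?_ ?_)
    · rw [← ind_comp_eq (hφ := hφ) (hj := h₁) e₁]
      exact ind_mono inf_le_left
    · rw [← ind_comp_eq (hφ := hφ) (hj := h₂) e₂]
      exact ind_mono inf_le_left
  have h5 : vdim (ind a₁ h₁ W ⊓ ind a₂ h₂ W) ≤ vdim B := by
    rw [← vdim_ind (j := c) (hj := hc) hB.inv hB.cl]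
    exact vdim_mono ((inf_le_inf (ind_mono inf_le_right) (ind_mono inf_le_right)).trans hK)
  linarith

/-- the transfer of the slope inequality to orthogonal complements -/
lemma slope_orth [Fintype ι] {φ : C →* A} {hφ : Function.Injective φ} {N : Submodule ℂ (E A ι)} (hN : Mdl N)
    {Z B : Submodule ℂ (E C ι)} (hZ : Mdl Z) (hB : Mdl B) (hBZ : B ≤ Z)
    (hs : ∀ V : Submodule ℂ (E C ι), Mdl V → B ≤ V → V ≤ Z → 2 * vdim (ind φ hφ V ⊓ N) ≤ vdim V + vdim B)
    (hBN : ind φ hφ B ≤ N) {W : Submodule ℂ (E C ι)} (hW : Mdl W) (hWZ : W ≤ Z ⊓ Bᗮ) :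
    2 * vdim (ind φ hφ W ⊓ N) ≤ vdim W := by
  set V := (W ⊔ B).topologicalClosure with hVdef
  have hV : Mdl V := Mdl.closure (hW.inv.sup hB.inv)
  have h1 := hs V hV (le_sup_right.trans (Submodule.le_topologicalClosure _))
    (Submodule.topologicalClosure_minimal _ (sup_le (hWZ.trans inf_le_left) hBZ) hZ.cl)
  have h2 : vdim V = vdim W + vdim B := by
    rw [hVdef, vdim_closure, vdim_sup_of_le_orthogonal (hWZ.trans inf_le_right)]
  have h3 : vdim (ind φ hφ W ⊓ N) + vdim B ≤ vdim (ind φ hφ V ⊓ N) := by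
    rw [← vdim_ind (j := φ) (hj := hφ) hB.inv hB.cl, ← vdim_sup_of_le_orthogonal]
    · refine vdim_mono (sup_le ?_ ?_)
      · exact inf_le_inf_right _ (ind_mono (le_sup_left.trans (Submodule.le_topologicalClosure _)))
      · exact le_inf (ind_mono (le_sup_right.trans (Submodule.le_topologicalClosure _))) hBN
    · rw [← ind_orthogonal hB.inv hB.cl]
      exact inf_le_left.trans (ind_mono (hWZ.trans inf_le_right))
  linarith

end slope

section main
variable {C A A' Γ : Type*} [Group C] [Group A] [Group A'] [Group Γ] {ι : Type*}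

/-- a module of slope at most one half against the modules over the subgroup -/
lemma slope_ind [Fintype ι] {ψ : C →* A} {hψ : Function.Injective ψ} {i : A →* Γ}
    {hi : Function.Injective i} {c : C →* Γ} {hc : Function.Injective c} (e₁ : i.comp ψ = c)
    {M : Submodule ℂ (E A ι)} (hM : Mdl M) {Z B : Submodule ℂ (E C ι)} (hZ : Mdl Z) (hB : Mdl B) (hBZ : B ≤ Z)
    (hBM : ind ψ hψ B ≤ M)
    (hsM : ∀ V : Submodule ℂ (E C ι), Mdl V → B ≤ V → V ≤ Z → 2 * vdim (ind ψ hψ V ⊓ M) ≤ vdim V + vdim B)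
    (W : Submodule ℂ (E Γ ι)) (hW : Mdl W) (hWl : Loc c.range W) (hWX : W ≤ ind c hc (Z ⊓ Bᗮ)) :
    2 * vdim (W ⊓ (ind c hc (Z ⊓ Bᗮ) ⊓ ind i hi M)) ≤ vdim W := by
  have hW0 : ind c hc (coi c hc W) = W := ind_coi hW.inv hW.cl hWl
  have hW0m : Mdl (coi c hc W) := hW.coi
  have hX₀m : Mdl (Z ⊓ Bᗮ) := hZ.inf (Mdl.orthogonal hB.inv)
  have h1 : coi c hc W ≤ Z ⊓ Bᗮ := by
    rw [← ind_le_ind (j := c) (hj := hc) hW0m.inv hX₀m.inv, hW0]
    exact hWX
  have h2 := slope_orth (hφ := hψ) hM hZ hB hBZ hsM hBM hW0m h1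
  have h3 : W ⊓ (ind c hc (Z ⊓ Bᗮ) ⊓ ind i hi M) = ind i hi (ind ψ hψ (coi c hc W) ⊓ M) := by
    rw [ind_inf (j := i) (hj := hi) (ind ψ hψ (coi c hc W)) M, ind_comp_eq (hc := hc) e₁, hW0, ← inf_assoc,
      inf_eq_left.2 hWX]
  have h4 : Mdl (ind ψ hψ (coi c hc W) ⊓ M) := hW0m.ind.inf hM
  rw [h3, vdim_ind h4.inv h4.cl]
  calc _ ≤ vdim (coi c hc W) := h2
    _ = vdim W := vdim_coi hW.inv hW.cl hWl

lemma range_le_of_comp {φ : C →* A} {j : A →* Γ} {c : C →* Γ} (e : j.comp φ = c) : c.range ≤ j.range := by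
  rw [← e]
  rintro _ ⟨x, rfl⟩
  exact ⟨φ x, rfl⟩

/-- **two modules of slope at most one half meet in the boundaries only**: the orthogonal part -/
lemma inter_orth_eq_bot [Fintype ι] {φ : C →* A} {hφ : Function.Injective φ} {φ' : C →* A'}
    {hφ' : Function.Injective φ'} {j : A →* Γ} {hj : Function.Injective j} {j' : A' →* Γ}
    {hj' : Function.Injective j'} {c : C →* Γ} {hc : Function.Injective c} (e : j.comp φ = c) (e' : j'.comp φ' = c)
    (hS : Side j.range j'.range c.range) {N : Submodule ℂ (E A ι)} (hN : Mdl N) {N' : Submodule ℂ (E A' ι)}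
    (hN' : Mdl N') {Z B : Submodule ℂ (E C ι)} (hZ : Mdl Z) (hB : Mdl B) (hBZ : B ≤ Z)
    (hBN : ind φ hφ B ≤ N) (hBN' : ind φ' hφ' B ≤ N')
    (hs : ∀ V : Submodule ℂ (E C ι), Mdl V → B ≤ V → V ≤ Z → 2 * vdim (ind φ hφ V ⊓ N) ≤ vdim V + vdim B)
    (hs' : ∀ V : Submodule ℂ (E C ι), Mdl V → B ≤ V → V ≤ Z → 2 * vdim (ind φ' hφ' V ⊓ N') ≤ vdim V + vdim B) :
    (ind c hc (Z ⊓ Bᗮ) ⊓ ind j hj N) ⊓ (ind c hc (Z ⊓ Bᗮ) ⊓ ind j' hj' N') = ⊥ := by
  have hCA : c.range ≤ j.range := range_le_of_comp e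
  have hCA' : c.range ≤ j'.range := range_le_of_comp e'
  have hX₀m : Mdl (Z ⊓ Bᗮ) := hZ.inf (Mdl.orthogonal hB.inv)
  have hXm : Mdl (ind c hc (Z ⊓ Bᗮ)) := hX₀m.ind
  have hXl : Loc c.range (ind c hc (Z ⊓ Bᗮ)) := loc_ind _
  have hNm : Mdl (ind j hj N) := hN.ind
  have hNm' : Mdl (ind j' hj' N') := hN'.ind
  have hl : Loc j.range (ind c hc (Z ⊓ Bᗮ) ⊓ ind j hj N) := (hXl.mono hXm.inv hXm.cl hCA).inf (loc_ind N)
  have hl' : Loc j'.range (ind c hc (Z ⊓ Bᗮ) ⊓ ind j' hj' N') := (hXl.mono hXm.inv hXm.cl hCA').inf (loc_ind N')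
  exact two_sided hCA hCA' hS hXm hXl (hXm.inf hNm) hl inf_le_left (hXm.inf hNm') hl' inf_le_left
    (slope_ind e hN hZ hB hBZ hBN hs) (slope_ind e' hN' hZ hB hBZ hBN' hs')

/-- **two modules of slope at most one half meet in the boundaries only** -/
theorem inter_le_of_slope [Fintype ι] {φ : C →* A} {hφ : Function.Injective φ} {φ' : C →* A'}
    {hφ' : Function.Injective φ'} {j : A →* Γ} {hj : Function.Injective j} {j' : A' →* Γ}
    {hj' : Function.Injective j'} {c : C →* Γ} {hc : Function.Injective c} (e : j.comp φ = c) (e' : j'.comp φ' = c)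
    (hS : Side j.range j'.range c.range) {N : Submodule ℂ (E A ι)} (hN : Mdl N) {N' : Submodule ℂ (E A' ι)}
    (hN' : Mdl N') {Z B : Submodule ℂ (E C ι)} (hZ : Mdl Z) (hB : Mdl B) (hBZ : B ≤ Z)
    (hBN : ind φ hφ B ≤ N) (hBN' : ind φ' hφ' B ≤ N')
    (hs : ∀ V : Submodule ℂ (E C ι), Mdl V → B ≤ V → V ≤ Z → 2 * vdim (ind φ hφ V ⊓ N) ≤ vdim V + vdim B)
    (hs' : ∀ V : Submodule ℂ (E C ι), Mdl V → B ≤ V → V ≤ Z → 2 * vdim (ind φ' hφ' V ⊓ N') ≤ vdim V + vdim B) :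
    ind c hc Z ⊓ (ind j hj N ⊓ ind j' hj' N') ≤ ind c hc B := by
  have h0 := inter_orth_eq_bot e e' hS hN hN' hZ hB hBZ hBN hBN' hs hs' (hj := hj) (hj' := hj') (hc := hc)
  intro f hf
  have hBm : Mdl (ind c hc B) := hB.ind
  have hcl : (ind c hc B).topologicalClosure = ind c hc B := IsClosed.submodule_topologicalClosure_eq hBm.cl
  have hb : prj (ind c hc B) f ∈ ind c hc B := by
    have := prj_mem (ind c hc B) f
    rwa [hcl] at this
  have hx : f - prj (ind c hc B) f ∈ (ind c hc B)ᗮ := sub_prj_mem _ f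
  have hx1 : f - prj (ind c hc B) f ∈ ind c hc (Z ⊓ Bᗮ) := by
    rw [ind_inf, ind_orthogonal hB.inv hB.cl]
    exact ⟨Submodule.sub_mem _ hf.1 (ind_mono hBZ hb), hx⟩
  have hbN : prj (ind c hc B) f ∈ ind j hj N :=
    ind_mono hBN ((ind_comp_eq (hφ := hφ) (hj := hj) (hc := hc) e B).ge hb)
  have hbN' : prj (ind c hc B) f ∈ ind j' hj' N' :=
    ind_mono hBN' ((ind_comp_eq (hφ := hφ') (hj := hj') (hc := hc) e' B).ge hb)
  have hx2 : f - prj (ind c hc B) f ∈ (ind c hc (Z ⊓ Bᗮ) ⊓ ind j hj N) ⊓ (ind c hc (Z ⊓ Bᗮ) ⊓ ind j' hj' N') :=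
    ⟨⟨hx1, Submodule.sub_mem _ hf.2.1 hbN⟩, ⟨hx1, Submodule.sub_mem _ hf.2.2 hbN'⟩⟩
  rw [h0, Submodule.mem_bot, sub_eq_zero] at hx2
  rw [hx2]
  exact hb

end main

end Singer
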