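import Pool.Agent.Singer.Gen.TD
import Pool.Agent.Singer.Gen.Slope
import Pool.Agent.Singer.TwoSided

/-!
# Singer, groups acting on trees: the half-space lemma

`TD.sided`: if the modules `N v` have slopes at most one half, with errors, then the families of edge cycles whose
restrictions to the ends at every vertex `v` are in `N v` have dimension at most the sum of the errors.
-/

set_option autoImplicit false
set_option linter.unusedSectionVars false
set_option linter.unusedVariables false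

open scoped ComplexConjugate InnerProductSpace
open Filter Topology

namespace Singer

namespace TD
variable {Γ : Type*} [Group Γ] (D : TD Γ)

/-- the end `p` at its vertex -/
def eend (p : D.Ed × Bool) : D.En (D.vt p) := Subtype.mk p rfl

lemma eend_fst (p : D.Ed × Bool) : (D.eend p).1 = p := rfl

/-- sums over the ends of all edges -/
lemma sum_ends' {M : Type*} [AddCommMonoid M] (f : D.Ed × Bool → M) : ∑ v, ∑ η : D.En v, f η.1 = ∑ p, f p := by
  classical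
  have h1 := Finset.sum_fiberwise (s := (Finset.univ : Finset (D.Ed × Bool))) (g := D.vt) (f := f)
  rw [← h1]
  refine Finset.sum_congr rfl fun v _ => ?_
  refine Finset.sum_bij (fun η _ => η.1) (fun η _ => ?_) (fun η₁ _ η₂ _ h => Subtype.ext h) (fun p hp => ?_)
    (fun η _ => rfl)
  · exact Finset.mem_filter.2 ⟨Finset.mem_univ _, η.2⟩
  · exact ⟨⟨p, (Finset.mem_filter.1 hp).2⟩, Finset.mem_univ _, rfl⟩

section ops
variable (ι : D.Ed → Type)

/-- the ends of all edges -/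
abbrev Es (v : D.Ve) : Type := Σ η : D.En v, ι η.1.1

/-- the restrictions to the ends at all vertices -/
noncomputable def dia : E Γ (Σ e, ι e) →L[ℂ] E Γ (Σ v, D.Es ι v) :=
  ∑ v, (ie (ι := D.Es ι) v).comp (D.res ι v)

lemma pe_dia (v : D.Ve) (y : E Γ (Σ e, ι e)) : pe (ι := D.Es ι) v (D.dia ι y) = D.res ι v y := by
  unfold dia
  rw [sum_apply]
  exact pe_sum_ie (ι := D.Es ι) (fun v => D.res ι v y) v

lemma equi_res (v : D.Ve) : Equi (D.res ι v) :=
  Equi.sum fun η _ => Equi.smul _ (((equi_ie (ι := fun η : D.En v => ι η.1.1) η).comp (equi_rt _)).comp (equi_pe η.1.1))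

lemma equi_dia : Equi (D.dia ι) := Equi.sum fun v _ => (equi_ie (ι := D.Es ι) v).comp (D.equi_res ι v)

/-- the sum of the two ends of every edge -/
noncomputable def glu : E Γ (Σ v, D.Es ι v) →L[ℂ] E Γ (Σ e, ι e) :=
  ∑ p : D.Ed × Bool, (((ie p.1).comp (rt (D.s p))).comp
    (pe (ι := fun η : D.En (D.vt p) => ι η.1.1) (D.eend p))).comp (pe (ι := D.Es ι) (D.vt p))

lemma equi_glu : Equi (D.glu ι) :=
  Equi.sum fun p _ => (((equi_ie (ι := ι) p.1).comp (equi_rt _)).comp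
    (equi_pe (ι := fun η : D.En (D.vt p) => ι η.1.1) (D.eend p))).comp (equi_pe (ι := D.Es ι) (D.vt p))

lemma pe_glu (x : E Γ (Σ v, D.Es ι v)) (e : D.Ed) : pe e (D.glu ι x) =
    ∑ b : Bool, rt (D.s (e, b)) (pe (ι := fun η : D.En (D.vt (e, b)) => ι η.1.1) (D.eend (e, b))
      (pe (ι := D.Es ι) (D.vt (e, b)) x)) := by
  classical
  unfold glu
  rw [sum_apply, map_sum, Fintype.sum_prod_type, Finset.sum_eq_single_of_mem e (Finset.mem_univ e)]
  · refine Finset.sum_congr rfl fun b _ => ?_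
    exact pe_ie_self (ι := ι) e _
  · intro e' _ he'
    refine Finset.sum_eq_zero fun b _ => ?_
    exact pe_ie_ne (ι := ι) he'.symm _

/-- the cuts -/
noncomputable def cutS (S : D.Ve → Set Γ) : E Γ (Σ v, D.Es ι v) →L[ℂ] E Γ (Σ v, D.Es ι v) :=
  ∑ v, ((ie (ι := D.Es ι) v).comp (cut (S v))).comp (pe (ι := D.Es ι) v)

lemma pe_cutS (S : D.Ve → Set Γ) (v : D.Ve) (x : E Γ (Σ v, D.Es ι v)) :
    pe (ι := D.Es ι) v (D.cutS ι S x) = cut (S v) (pe (ι := D.Es ι) v x) :=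
  pe_diag (ι := D.Es ι) (κ := D.Es ι) (fun v => cut (S v)) x v

/-- the component of the restriction at an end -/
lemma pe_eend_res (p : D.Ed × Bool) (y : E Γ (Σ e, ι e)) :
    (pe (ι := fun η : D.En (D.vt p) => ι η.1.1) (D.eend p) (D.res ι (D.vt p) y) : E Γ (ι p.1)) =
      sgn p.2 • rt (D.s p)⁻¹ (pe p.1 y) := D.pe_res ι (D.vt p) (D.eend p) y

lemma rt_rt_inv (s : Γ) {κ : Type*} (f : E Γ κ) : rt s (rt s⁻¹ f) = f := by
  rw [rt_rt, mul_inv_cancel, rt_one]

lemma rt_eend_res (p : D.Ed × Bool) (y : E Γ (Σ e, ι e)) :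
    (rt (D.s p) (pe (ι := fun η : D.En (D.vt p) => ι η.1.1) (D.eend p) (D.res ι (D.vt p) y) : E Γ (ι p.1)) :
      E Γ (ι p.1)) = sgn p.2 • pe p.1 y := by
  have h1 := congrArg (rt (D.s p) : E Γ (ι p.1) →L[ℂ] E Γ (ι p.1)) (D.pe_eend_res ι p y)
  refine h1.trans ?_
  rw [map_smul, rt_rt_inv]

lemma glu_dia (y : E Γ (Σ e, ι e)) : D.glu ι (D.dia ι y) = 0 := by
  refine sig_ext fun e => ?_
  rw [pe_glu, map_zero, Fintype.sum_bool, pe_dia, pe_dia]
  refine (congrArg₂ (· + ·) (D.rt_eend_res ι (e, true) y) (D.rt_eend_res ι (e, false) y)).trans ?_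
  show (1 : ℂ) • pe e y + (-1 : ℂ) • pe e y = 0
  rw [one_smul, neg_one_smul, add_neg_cancel]

lemma rt_cut_rt (s : Γ) (S : Set Γ) {κ : Type*} (f : E Γ κ) :
    rt s (cut S (rt s⁻¹ f)) = cut {g | g * s ∈ S} f := by
  rw [rt_cut, rt_rt_inv]

lemma rt_eend_cut_res (S : D.Ve → Set Γ) (p : D.Ed × Bool) (y : E Γ (Σ e, ι e)) :
    (rt (D.s p) (pe (ι := fun η : D.En (D.vt p) => ι η.1.1) (D.eend p)
      (cut (S (D.vt p)) (D.res ι (D.vt p) y)) : E Γ (ι p.1)) : E Γ (ι p.1)) =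
      sgn p.2 • cut {g | g * D.s p ∈ S (D.vt p)} (pe p.1 y) := by
  have h0 : (pe (ι := fun η : D.En (D.vt p) => ι η.1.1) (D.eend p) (cut (S (D.vt p)) (D.res ι (D.vt p) y)) :
      E Γ (ι p.1)) = cut (S (D.vt p)) (sgn p.2 • rt (D.s p)⁻¹ (pe p.1 y)) :=
    (pe_cut (ι := fun η : D.En (D.vt p) => ι η.1.1) (D.eend p) (S (D.vt p)) (D.res ι (D.vt p) y)).trans
      (congrArg (cut (S (D.vt p)) : E Γ (ι p.1) →L[ℂ] E Γ (ι p.1)) (D.pe_eend_res ι p y))
  refine (congrArg (rt (D.s p) : E Γ (ι p.1) →L[ℂ] E Γ (ι p.1)) h0).trans ?_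
  rw [map_smul, map_smul, rt_cut_rt]

lemma pe_glu_cutS_dia (S : D.Ve → Set Γ) (y : E Γ (Σ e, ι e)) (e : D.Ed) :
    pe e (D.glu ι (D.cutS ι S (D.dia ι y))) =
      cut {g | g * D.s (e, true) ∈ S (D.vt (e, true))} (pe e y) -
        cut {g | g * D.s (e, false) ∈ S (D.vt (e, false))} (pe e y) := by
  rw [pe_glu, Fintype.sum_bool, pe_cutS, pe_cutS, pe_dia, pe_dia]
  refine (congrArg₂ (· + ·) (D.rt_eend_cut_res ι S (e, true) y) (D.rt_eend_cut_res ι S (e, false) y)).trans ?_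
  show (1 : ℂ) • cut {g | g * D.s (e, true) ∈ S (D.vt (e, true))} (pe e y) +
    (-1 : ℂ) • cut {g | g * D.s (e, false) ∈ S (D.vt (e, false))} (pe e y) = _
  rw [one_smul, neg_one_smul, sub_eq_add_neg]

lemma glu_cutS_dia {e₀ : D.Ed} {S : D.Ve → Set Γ}
    (h1 : ∀ g ∈ D.C e₀, g * D.s (e₀, true) ∈ S (D.vt (e₀, true)) ∧ g * D.s (e₀, false) ∉ S (D.vt (e₀, false)))
    (h2 : ∀ e g, (e = e₀ → g ∉ D.C e) →
      (g * D.s (e, true) ∈ S (D.vt (e, true)) ↔ g * D.s (e, false) ∈ S (D.vt (e, false))))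
    (y : E Γ (Σ e, ι e)) :
    D.glu ι (D.cutS ι S (D.dia ι y)) = ie e₀ (cut (D.C e₀ : Set Γ) (pe e₀ y)) := by
  classical
  refine sig_ext fun e => ?_
  rw [pe_glu_cutS_dia]
  by_cases he : e = e₀
  · subst he
    rw [pe_ie_self]
    ext x
    rw [lp.coeFn_sub, Pi.sub_apply]
    by_cases hx : x.1 ∈ D.C e
    · rw [cut_apply_mem (by exact (h1 _ hx).1), cut_apply_notMem (by exact (h1 _ hx).2), cut_apply_mem (by exact hx),
        sub_zero]
    · have h3 := h2 e x.1 fun _ => hx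
      rw [cut_apply_notMem (S := (D.C e : Set Γ)) (by exact hx)]
      by_cases h4 : x.1 * D.s (e, true) ∈ S (D.vt (e, true))
      · rw [cut_apply_mem (by exact h4), cut_apply_mem (by exact h3.1 h4), sub_self]
      · rw [cut_apply_notMem (by exact h4), cut_apply_notMem (by exact fun h => h4 (h3.2 h)), sub_self]
  · rw [pe_ie_ne he]
    have h3 : {g | g * D.s (e, true) ∈ S (D.vt (e, true))} = {g | g * D.s (e, false) ∈ S (D.vt (e, false))} := by
      ext g
      exact h2 e g fun h => absurd h he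
    rw [h3, sub_self]

end ops

/-- the half-space lemma, in terms of a local hull -/
theorem sided_aux {ι : D.Ed → Type} [∀ e, Fintype (ι e)] {M : ∀ v, Submodule ℂ (E Γ (D.Es ι v))} (hM : ∀ v, Mdl (M v))
    {Y : Submodule ℂ (E Γ (Σ e, ι e))} (hY : Mdl Y)
    (hcut : ∀ v (S : Set Γ), (∀ g ∈ S, ∀ x ∈ D.A v, g * x ∈ S) → ∀ y ∈ Y, cut S (D.res ι v y) ∈ M v) :
    vdim Y + ∑ e, vdim (tsHull (D.C e) (Y.map ((pe e : E Γ (Σ e, ι e) →L[ℂ] E Γ (ι e)) : E Γ (Σ e, ι e) →ₗ[ℂ] E Γ (ι e)))) ≤ ∑ v, vdim (M v) := by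
  classical
  have hcut1 : ∀ (S : D.Ve → Set Γ), (∀ v, ∀ g ∈ S v, ∀ x ∈ D.A v, g * x ∈ S v) → ∀ y ∈ Y,
      D.cutS ι S (D.dia ι y) ∈ dsum M := by
    intro S hS y hy
    rw [mem_dsum]
    intro v
    rw [pe_cutS, pe_dia]
    exact hcut v (S v) (hS v) y hy
  have hdia : ∀ y ∈ Y, D.dia ι y ∈ dsum M := by
    intro y hy
    rw [mem_dsum]
    intro v
    rw [pe_dia]
    have h1 := hcut v Set.univ (fun _ _ _ _ => Set.mem_univ _) y hy
    have h2 : cut (Set.univ : Set Γ) (D.res ι v y) = D.res ι v y := by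
      ext x
      rw [cut_apply_mem (Set.mem_univ _)]
    rwa [h2] at h1
  have hMM : Mdl (dsum M) := Mdl.dsum hM
  have h1 := vdim_map_add (D.equi_glu ι) hMM.inv hMM.cl
  have h2 := vdim_map_add (D.equi_dia ι) hY.inv hY.cl
  have h4 : Y.map (D.dia ι : E Γ (Σ e, ι e) →ₗ[ℂ] E Γ (Σ v, D.Es ι v)) ≤
      dsum M ⊓ LinearMap.ker (D.glu ι : E Γ (Σ v, D.Es ι v) →ₗ[ℂ] E Γ (Σ e, ι e)) := by
    rintro _ ⟨y, hy, rfl⟩
    exact ⟨hdia y hy, D.glu_dia ι y⟩
  have h6 := vdim_mono h4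
  -- the kernel of `dia`
  have h5 : dsum (fun e => tsHull (D.C e) (Y.map ((pe e : E Γ (Σ e, ι e) →L[ℂ] E Γ (ι e)) : E Γ (Σ e, ι e) →ₗ[ℂ] E Γ (ι e)))) ≤
      (dsum M).map (D.glu ι : E Γ (Σ v, D.Es ι v) →ₗ[ℂ] E Γ (Σ e, ι e)) := by
    intro f hf
    rw [← sum_ie_pe f]
    refine Submodule.sum_mem _ fun e _ => ?_
    have hf' := mem_dsum.1 hf e
    generalize pe e f = u at hf'
    induction hf' using Submodule.span_induction with
    | mem x hx =>
      obtain ⟨g, n, hn, rfl⟩ := hx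
      obtain ⟨y, hy, rfl⟩ := hn
      obtain ⟨S, hS1, hS2, hS3⟩ := D.half e
      rw [equi_ie]
      refine (hMM.inv.map (D.equi_glu ι)) g _ ⟨D.cutS ι S (D.dia ι y), hcut1 S hS1 y hy, ?_⟩
      exact D.glu_cutS_dia ι hS2 hS3 y
    | zero => rw [map_zero]; exact Submodule.zero_mem _
    | add x y _ _ hx hy => rw [map_add]; exact Submodule.add_mem _ hx hy
    | smul c x _ hx => rw [map_smul]; exact Submodule.smul_mem _ _ hx
  have h7 := vdim_mono h5
  rw [vdim_dsum'] at h7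
  rw [vdim_dsum'] at h1
  -- the kernel of `dia` is zero
  have h8 : Y ⊓ LinearMap.ker (D.dia ι : E Γ (Σ e, ι e) →ₗ[ℂ] E Γ (Σ v, D.Es ι v)) = ⊥ := by
    rw [eq_bot_iff]
    rintro y ⟨_, hy⟩
    have hy' : D.dia ι y = 0 := hy
    rw [Submodule.mem_bot]
    refine sig_ext fun e => ?_
    have h9 := D.pe_res ι (D.vt (e, true)) (D.eend (e, true)) y
    have h10 := D.pe_dia ι (D.vt (e, true)) y
    rw [hy', map_zero] at h10
    rw [← h10, map_zero] at h9
    have h11 : rt (D.s (e, true))⁻¹ (pe e y) = 0 := by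
      have h12 : (0 : E Γ (ι e)) = (1 : ℂ) • rt (D.s (e, true))⁻¹ (pe e y) := h9
      rw [one_smul] at h12
      exact h12.symm
    rw [map_zero, ← norm_eq_zero, ← norm_rt (D.s (e, true))⁻¹, h11, norm_zero]
  rw [h8, vdim_bot, add_zero] at h2
  linarith

/-- **the half-space lemma for a group acting on a tree** -/
theorem sided {ι : D.Ed → Type} [∀ e, Fintype (ι e)] {Z B : ∀ e, Submodule ℂ (E (D.C e) (ι e))}
    (hZ : ∀ e, Mdl (Z e)) (hB : ∀ e, Mdl (B e)) (hBZ : ∀ e, B e ≤ Z e)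
    {N : ∀ v, Submodule ℂ (E (D.A v) (Σ η : D.En v, ι η.1.1))} (hN : ∀ v, Mdl (N v))
    (hNZ : ∀ v, N v ≤ dsum fun η : D.En v => Singer.ind (inj η) (inj_injective η) (Z η.1.1))
    (hBN : ∀ v, (dsum fun η : D.En v => Singer.ind (inj η) (inj_injective η) (B η.1.1)) ≤ N v) (κ : D.Ve → ℝ)
    (hs : ∀ v (V : ∀ η : D.En v, Submodule ℂ (E (D.C η.1.1) (ι η.1.1))), (∀ η, Mdl (V η)) →
      2 * vdim ((dsum fun η : D.En v => Singer.ind (inj η) (inj_injective η) (V η)) ⊓ N v) ≤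
        ∑ η, vdim (V η) + (∑ η : D.En v, vdim (B η.1.1) + 2 * κ v)) :
    vdim ((dsum fun e => Singer.ind (D.C e).subtype Subtype.val_injective (Z e)) ⊓
      ⨅ v, (Singer.ind (D.A v).subtype Subtype.val_injective (N v)).comap
        (D.res ι v : E Γ (Σ e, ι e) →ₗ[ℂ] E Γ (Σ η : D.En v, ι η.1.1))) ≤ ∑ e, vdim (B e) + ∑ v, κ v := by
  classical
  set Y : Submodule ℂ (E Γ (Σ e, ι e)) := (dsum fun e => Singer.ind (D.C e).subtype Subtype.val_injective (Z e)) ⊓
      ⨅ v, (Singer.ind (D.A v).subtype Subtype.val_injective (N v)).comap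
        (D.res ι v : E Γ (Σ e, ι e) →ₗ[ℂ] E Γ (Σ η : D.En v, ι η.1.1)) with hYdef
  have hYmem : ∀ y, y ∈ Y → ∀ v, D.res ι v y ∈ Singer.ind (D.A v).subtype Subtype.val_injective (N v) := by
    intro y hy v
    exact (Submodule.mem_iInf _).1 hy.2 v
  have hY : Mdl Y := by
    refine Mdl.inf (Mdl.dsum fun e => (hZ e).ind) ⟨?_, ?_⟩
    · intro g y hy
      rw [Submodule.mem_iInf] at hy ⊢
      intro v
      exact ((inv_ind (N v)).comap (D.equi_res ι v)) g y (hy v)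
    · have h1 : ((⨅ v, (Singer.ind (D.A v).subtype Subtype.val_injective (N v)).comap
          (D.res ι v : E Γ (Σ e, ι e) →ₗ[ℂ] E Γ (Σ η : D.En v, ι η.1.1)) : Submodule ℂ (E Γ (Σ e, ι e))) :
          Set (E Γ (Σ e, ι e))) = ⋂ v, (D.res ι v) ⁻¹'
            (Singer.ind (D.A v).subtype Subtype.val_injective (N v) : Set (E Γ (Σ η : D.En v, ι η.1.1))) := by
        ext y
        rw [SetLike.mem_coe, Submodule.mem_iInf, Set.mem_iInter]
        rfl
      rw [h1]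
      exact isClosed_iInter fun v => (isClosed_ind (hN v).cl).preimage (D.res ι v).continuous
  have hYe : ∀ e, Inv (Y.map ((pe e : E Γ (Σ e, ι e) →L[ℂ] E Γ (ι e)) : E Γ (Σ e, ι e) →ₗ[ℂ] E Γ (ι e))) := fun e => hY.inv.map (equi_pe e)
  set W : ∀ e, Submodule ℂ (E Γ (ι e)) := fun e =>
    (tsHull (D.C e) (Y.map ((pe e : E Γ (Σ e, ι e) →L[ℂ] E Γ (ι e)) : E Γ (Σ e, ι e) →ₗ[ℂ] E Γ (ι e)))).topologicalClosure with hWdef
  have hW : ∀ e, Mdl (W e) := fun e => Mdl.closure (tsHull_inv (D.C e) _)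
  have hlW : ∀ e, Loc (D.C e).subtype.range (W e) := by
    intro e
    rw [Subgroup.range_subtype]
    exact ts_loc_closure (tsHull_cut (D.C e) _)
  set V : ∀ e, Submodule ℂ (E (D.C e) (ι e)) := fun e => coi (D.C e).subtype Subtype.val_injective (W e) with hVdef
  have hV : ∀ e, Mdl (V e) := fun e => (hW e).coi
  have hVW : ∀ e, Singer.ind (D.C e).subtype Subtype.val_injective (V e) = W e := fun e =>
    ind_coi (hW e).inv (hW e).cl (hlW e)
  have hvV : ∀ e, vdim (V e) = vdim (W e) := fun e => vdim_coi (hW e).inv (hW e).cl (hlW e)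
  set Q : ∀ v, Submodule ℂ (E (D.A v) (Σ η : D.En v, ι η.1.1)) := fun v =>
    (dsum fun η : D.En v => Singer.ind (inj η) (inj_injective η) (V η.1.1)) ⊓ N v with hQdef
  have hQ : ∀ v, Mdl (Q v) := fun v => (Mdl.dsum fun η => (hV η.1.1).ind).inf (hN v)
  have hres : ∀ v, ∀ y ∈ Y, D.res ι v y ∈ Singer.ind (D.A v).subtype Subtype.val_injective (Q v) := by
    intro v y hy
    rw [hQdef]
    show D.res ι v y ∈ Singer.ind (D.A v).subtype Subtype.val_injective
      ((dsum fun η : D.En v => Singer.ind (inj η) (inj_injective η) (V η.1.1)) ⊓ N v)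
    rw [ind_inf, ind_dsum]
    refine ⟨mem_dsum.2 fun η => ?_, hYmem y hy v⟩
    refine Set.mem_of_eq_of_mem (D.pe_res ι v η y) ?_
    refine Submodule.smul_mem _ _ ?_
    have h5 : (pe η.1.1 y : E Γ (ι η.1.1)) ∈ Singer.ind (D.C η.1.1).subtype Subtype.val_injective (V η.1.1) := by
      rw [hVW]
      exact le_tsHull (hYe η.1.1) ⟨y, hy, rfl⟩
    exact (ind_comp_eq (hc := Subtype.val_injective.comp (inj_injective η)) rfl (V η.1.1)).ge
      ((rt_mem_ind_iff (hc := Subtype.val_injective) (hc' := Subtype.val_injective.comp (inj_injective η))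
        (rel η)).2 h5)
  have h1 := D.sided_aux (ι := ι) (M := fun v => Singer.ind (D.A v).subtype Subtype.val_injective (Q v))
    (fun v => (hQ v).ind) hY (fun v S hS y hy => by
      refine ts_cut_mem (H := D.A v) (hQ v).ind ?_ hS (hres v y hy)
      have := loc_ind (j := (D.A v).subtype) (hj := Subtype.val_injective) (Q v)
      rwa [Subgroup.range_subtype] at this)
  have h2 : ∀ e, vdim (tsHull (D.C e) (Y.map ((pe e : E Γ (Σ e, ι e) →L[ℂ] E Γ (ι e)) : E Γ (Σ e, ι e) →ₗ[ℂ] E Γ (ι e)))) = vdim (V e) := by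
    intro e
    rw [hvV]
    exact (vdim_closure _).symm
  have h3 : ∀ v, vdim (Singer.ind (D.A v).subtype Subtype.val_injective (Q v)) = vdim (Q v) := fun v =>
    vdim_ind (hQ v).inv (hQ v).cl
  rw [Finset.sum_congr rfl fun e _ => h2 e, Finset.sum_congr rfl fun v _ => h3 v] at h1
  have h4 : ∑ v, 2 * vdim (Q v) ≤ ∑ v, (∑ η : D.En v, vdim (V η.1.1) + (∑ η : D.En v, vdim (B η.1.1) + 2 * κ v)) :=
    Finset.sum_le_sum fun v _ => hs v (fun η => V η.1.1) fun η => hV η.1.1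
  rw [Finset.sum_add_distrib, Finset.sum_add_distrib, ← Finset.mul_sum, ← Finset.mul_sum,
    D.sum_ends' fun p => vdim (V p.1), D.sum_ends' fun p => vdim (B p.1), Fintype.sum_prod_type,
    Fintype.sum_prod_type] at h4
  simp only [Fintype.sum_bool] at h4
  rw [Finset.sum_add_distrib, Finset.sum_add_distrib] at h4
  linarith

end TD

end Singer
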