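import Pool.Agent.Singer.Gen.TDRes
import Pool.Agent.Singer.Gen.MDSlope
import Pool.Agent.Singer.Gen.TDSided
import Pool.Agent.Singer.FinBetti

/-!
# Singer, groups acting on trees: `b_i(Γ) ≤ Σ_v b_i(M_v)`
-/

set_option autoImplicit false
set_option linter.unusedSectionVars false
set_option linter.unusedVariables false

open scoped ComplexConjugate InnerProductSpace
open Filter Topology

namespace Singer

/-- boundaries are cycles -/
lemma PreRes.B_le_Z {G : Type*} [Group G] (R : PreRes.{0} G) (i : ℕ) : R.B i ≤ R.Z i := by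
  have := R.toHC.B_le_Z i
  rwa [PreRes.toHC_Z] at this

namespace TD
variable {Γ : Type*} [Group Γ] {D : TD Γ} {M : D.Ve → Type*} [∀ v, Group (M v)] {a : ∀ v, D.A v →* M v}
  {r : ∀ v, D.En v → M v} (h : ∀ v, MD (fun η : D.En v => inj η) (a v) (r v))

section
variable {RC : ∀ e, PreRes.{0} (D.C e)} {RA : ∀ v, PreRes.{0} (D.A v)}
  (H : ∀ v (η : D.En v), PreMap ((RC η.1.1).ind (inj η) (inj_injective η)) (RA v))

/-- **the kernels in homology** -/
theorem kap_le (i : ℕ) : (map H).kap i ≤ ∑ v, ((h v).map (H v)).kap i := by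
  have h1 := D.sided (Z := fun e => (RC e).Z i) (B := fun e => (RC e).B i) (fun e => (RC e).mdl_Z i)
    (fun e => (RC e).mdl_B i) (fun e => (RC e).B_le_Z i) (N := fun v => NN (H v) i) (fun v => mdl_NN (H v) i)
    (fun v => NN_le (H v) i) (fun v => le_NN (H v) i) (fun v => ((h v).map (H v)).kap i)
    (fun v V hV => (h v).slope (H v) i hV)
  rw [kap_eq]
  linarith

/-- **the inequality for the mapping cones** -/
theorem cone_le (i : ℕ) : (map H).cone.toHC.h i ≤ ∑ v, ((h v).map (H v)).cone.toHC.h i := by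
  have h1 := kap_le h H i
  have h2 : ∀ j, ∑ v, ∑ η : D.En v, (RC η.1.1).toHC.h j = 2 * ∑ e, (RC e).toHC.h j := by
    intro j
    rw [sum_ends (D := D) fun e _ => (RC e).toHC.h j, Finset.mul_sum]
    exact Finset.sum_congr rfl fun e _ => (two_mul _).symm
  have h3 := h2 i
  cases i with
  | zero =>
    have h4 : 2 * ∑ v, ((h v).map (H v)).cone.toHC.h 0 = ∑ v, (2 * (RA v).toHC.h 0 -
        ∑ η : D.En v, (RC η.1.1).toHC.h 0 + 2 * ((h v).map (H v)).kap 0) := by
      rw [Finset.mul_sum]
      exact Finset.sum_congr rfl fun v _ => (h v).h_zero (H v)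
    rw [Finset.sum_add_distrib, Finset.sum_sub_distrib, ← Finset.mul_sum, ← Finset.mul_sum, h3] at h4
    rw [h_zero]
    linarith
  | succ i =>
    have h5 := kap_le h H i
    have h4 : 2 * ∑ v, ((h v).map (H v)).cone.toHC.h (i + 1) = ∑ v, (2 * ((h v).map (H v)).kap i +
        (2 * (RA v).toHC.h (i + 1) - ∑ η : D.En v, (RC η.1.1).toHC.h (i + 1) +
          2 * ((h v).map (H v)).kap (i + 1))) := by
      rw [Finset.mul_sum]
      exact Finset.sum_congr rfl fun v _ => (h v).h_succ (H v) i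
    rw [Finset.sum_add_distrib, Finset.sum_add_distrib, Finset.sum_sub_distrib, ← Finset.mul_sum, ← Finset.mul_sum,
      ← Finset.mul_sum, h3] at h4
    rw [h_succ]
    linarith

end

include h in
/-- **the inequality, for resolutions** -/
theorem exists_le (RC : ∀ e, Res.{0} (D.C e)) (RA : ∀ v, Res.{0} (D.A v)) :
    ∃ (S : Res.{0} Γ) (SM : ∀ v, Res.{0} (M v)), ∀ i, S.toHC.h i ≤ ∑ v, (SM v).toHC.h i := by
  obtain ⟨H, -⟩ : ∃ _ : ∀ v (η : D.En v), PreMap ((RC η.1.1).toPreRes.ind (inj η) (inj_injective η)) (RA v).toPreRes,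
      True := ⟨fun v η => (exists_premap _ (RA v)).some, trivial⟩
  obtain ⟨S, hS⟩ := exists_res (RC := RC) (RA := RA) H
  have h2 : ∀ v, ∃ R : Res.{0} (M v), R.toPreRes =
      ((h v).map (RC := fun η : D.En v => (RC η.1.1).toPreRes) (RA := (RA v).toPreRes) (H v)).cone := fun v =>
    (h v).exists_res (RC := fun η : D.En v => RC η.1.1) (RA := RA v) (H v)
  choose SM hSM using h2
  refine ⟨S, SM, fun i => ?_⟩
  rw [hS]
  refine (cone_le h (RC := fun e => (RC e).toPreRes) (RA := fun v => (RA v).toPreRes) H i).trans (le_of_eq ?_)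
  exact Finset.sum_congr rfl fun v _ => by rw [hSM v]

end TD

end Singer
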