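import Pool.Agent.Singer.Gen.HalfTree
import Pool.Agent.Singer.Gen.Mirror

/-!
# Groups acting on trees: the tree data

`TRep T` : representatives of the orbits of vertices and of (unoriented) edges; `TRep.td` : the tree data; `TRep.nb` :
the neighbours of the representatives, one for every end; `TRep.md` : the data of the mirrored groups of the vertex
groups; `exists_trep` : representatives exist.
-/

set_option autoImplicit false
set_option linter.unusedSectionVars false
set_option linter.unusedVariables false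

namespace Singer

lemma exists_fin_reps {D : Type*} (r : Setoid D) (K : Finset D) (hK : ∀ d, ∃ k ∈ K, r k d) :
    ∃ (m : ℕ) (rep : Fin m → D), (∀ i, rep i ∈ K) ∧ (∀ d, ∃ i, r (rep i) d) ∧ ∀ i j, r (rep i) (rep j) → i = j := by
  classical
  have h1 : Function.Surjective fun k : {k // k ∈ K} => (Quotient.mk r k.1 : Quotient r) := by
    intro q
    induction q using Quotient.inductionOn with
    | h d =>
      obtain ⟨k, hk, hr⟩ := hK d
      exact ⟨⟨k, hk⟩, Quotient.sound hr⟩
  have : Finite (Quotient r) := Finite.of_surjective _ h1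
  obtain ⟨m, ⟨e⟩⟩ := Finite.exists_equiv_fin (Quotient r)
  choose c hc using h1
  have hc' : ∀ q, (Quotient.mk r (c q).1 : Quotient r) = q := hc
  refine ⟨m, fun i => (c (e.symm i)).1, fun i => (c (e.symm i)).2, fun d => ⟨e (Quotient.mk r d), ?_⟩, fun i j h => ?_⟩
  · show r (c (e.symm (e (Quotient.mk r d)))).1 d
    rw [Equiv.symm_apply_apply]
    exact Quotient.exact (hc' _)
  · have h2 : (Quotient.mk r (c (e.symm i)).1 : Quotient r) = Quotient.mk r (c (e.symm j)).1 := Quotient.sound h
    rw [hc' (e.symm i), hc' (e.symm j)] at h2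
    exact e.symm.injective h2

/-- representatives of the orbits of vertices and edges of a tree -/
structure TRep {Γ V : Type*} [Group Γ] [MulAction Γ V] (T : SimpleGraph V) where
  tree : T.IsTree
  act : ∀ (g : Γ) (v w : V), T.Adj v w → T.Adj (g • v) (g • w)
  inv : ∀ (g : Γ) (v w : V), T.Adj v w → g • v = w → g • w ≠ v
  n : ℕ
  x : Fin n → V
  hx : ∀ u, ∃ i, ∃ g : Γ, g • x i = u
  ux : ∀ i j (g : Γ), g • x i = x j → i = j
  m : ℕ
  y : Fin m → Bool → V
  ay : ∀ e, T.Adj (y e true) (y e false)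
  hy : ∀ u w, T.Adj u w → ∃ e, ∃ g : Γ, ∃ b, g • y e b = u ∧ g • y e (!b) = w
  uy : ∀ e e' (g : Γ) b, g • y e true = y e' b → g • y e false = y e' (!b) → e = e'

namespace TRep
variable {Γ V : Type*} [Group Γ] [MulAction Γ V] {T : SimpleGraph V} (R : TRep (Γ := Γ) T)

lemma ay' (e : Fin R.m) (b : Bool) : T.Adj (R.y e b) (R.y e (!b)) := by
  cases b
  · exact (R.ay e).symm
  · exact R.ay e

/-- an element which maps the edge `e` to `e'` preserves the orientation and `e = e'` -/
lemma uyb {e e' : Fin R.m} {g : Γ} {b b' : Bool} (h1 : g • R.y e b = R.y e' b') (h2 : g • R.y e (!b) = R.y e' (!b')) :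
    e = e' ∧ b = b' := by
  have he : e = e' := by
    cases b
    · exact R.uy e e' g (!b') h2 (by rw [Bool.not_not]; exact h1)
    · exact R.uy e e' g b' h1 h2
  refine ⟨he, ?_⟩
  subst he
  by_contra hb
  have hb' : b' = !b := by
    cases b <;> cases b' <;> simp_all
  subst hb'
  rw [Bool.not_not] at h2
  exact R.inv g _ _ (R.ay' e b) h1 h2

noncomputable def vt (p : Fin R.m × Bool) : Fin R.n := (R.hx (R.y p.1 p.2)).choose

noncomputable def s (p : Fin R.m × Bool) : Γ := (R.hx (R.y p.1 p.2)).choose_spec.choose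

lemma s_smul (p : Fin R.m × Bool) : R.s p • R.x (R.vt p) = R.y p.1 p.2 := (R.hx (R.y p.1 p.2)).choose_spec.choose_spec

/-- the stabiliser of an edge -/
def C (e : Fin R.m) : Subgroup Γ := MulAction.stabilizer Γ (R.y e true) ⊓ MulAction.stabilizer Γ (R.y e false)

lemma mem_C {e : Fin R.m} {g : Γ} : g ∈ R.C e ↔ ∀ b, g • R.y e b = R.y e b := by
  constructor
  · rintro ⟨h1, h2⟩ b
    cases b
    · exact MulAction.mem_stabilizer_iff.1 h2
    · exact MulAction.mem_stabilizer_iff.1 h1
  · intro h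
    exact ⟨MulAction.mem_stabilizer_iff.2 (h true), MulAction.mem_stabilizer_iff.2 (h false)⟩

/-- the tree data -/
noncomputable def td : TD Γ where
  Ve := Fin R.n
  Ed := Fin R.m
  finV := inferInstance
  ne := by
    obtain ⟨v⟩ := R.tree.connected.nonempty
    exact ⟨(R.hx v).choose⟩
  finE := inferInstance
  A v := MulAction.stabilizer Γ (R.x v)
  C := R.C
  vt := R.vt
  s := R.s
  sub p c hc := by
    rw [MulAction.mem_stabilizer_iff, mul_smul, mul_smul, R.s_smul p, R.mem_C.1 hc p.2, ← R.s_smul p, inv_smul_smul]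
  half e₀ := by
    refine ⟨fun v => {g | g • R.x v ∈ HT.half T (R.y e₀ true) (R.y e₀ false)}, fun v g hg k hk => ?_, fun g hg => ?_,
      fun e g hg => ?_⟩
    · show (g * k) • R.x v ∈ HT.half T (R.y e₀ true) (R.y e₀ false)
      rw [mul_smul, MulAction.mem_stabilizer_iff.1 hk]
      exact hg
    · constructor
      · show (g * R.s (e₀, true)) • R.x (R.vt (e₀, true)) ∈ HT.half T (R.y e₀ true) (R.y e₀ false)
        rw [mul_smul, R.s_smul (e₀, true), R.mem_C.1 hg true]
        exact HT.mem_half_self _ _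
      · show (g * R.s (e₀, false)) • R.x (R.vt (e₀, false)) ∉ HT.half T (R.y e₀ true) (R.y e₀ false)
        rw [mul_smul, R.s_smul (e₀, false), R.mem_C.1 hg false]
        exact HT.notMem_half R.tree (R.ay e₀)
    · show (g * R.s (e, true)) • R.x (R.vt (e, true)) ∈ HT.half T (R.y e₀ true) (R.y e₀ false) ↔
        (g * R.s (e, false)) • R.x (R.vt (e, false)) ∈ HT.half T (R.y e₀ true) (R.y e₀ false)
      rw [mul_smul, mul_smul, R.s_smul (e, true), R.s_smul (e, false)]
      refine HT.half_step' (R.act g _ _ (R.ay e)) ?_ ?_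
      · rintro ⟨h1, h2⟩
        obtain ⟨he, _⟩ := R.uyb (b := true) (b' := true) h1 h2
        subst he
        refine hg rfl (R.mem_C.2 fun b => ?_)
        cases b
        · exact h2
        · exact h1
      · rintro ⟨h1, h2⟩
        obtain ⟨_, hb⟩ := R.uyb (b := true) (b' := false) h1 h2
        exact absurd hb (by decide)
  conn U hU hE v w g h hg := by
    let W : Set V := {u | ∀ (i : Fin R.n) (k : Γ), k • R.x i = u → k ∈ U i}
    have key : ∀ {i : Fin R.n} {k k' : Γ}, k ∈ U i → k' • R.x i = k • R.x i → k' ∈ U i := by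
      intro i k k' hk hkk
      have h1 := hU i k hk (k⁻¹ * k') (by
        rw [MulAction.mem_stabilizer_iff, mul_smul, hkk, inv_smul_smul])
      rwa [mul_inv_cancel_left] at h1
    have hW : ∀ {i : Fin R.n} {k : Γ}, k ∈ U i → k • R.x i ∈ W := by
      intro i k hk j k' hk'
      have hij : j = i := R.ux j i (k⁻¹ * k') (by rw [mul_smul, hk', inv_smul_smul])
      subst hij
      exact key hk hk'
    have step : ∀ u w : V, T.Adj u w → u ∈ W → w ∈ W := by
      intro u w huw hu
      obtain ⟨e, k, b, h1, h2⟩ := R.hy u w huw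
      have h3 : k * R.s (e, b) ∈ U (R.vt (e, b)) := hu _ _ (by rw [mul_smul, R.s_smul (e, b), h1])
      have h4 : k * R.s (e, !b) ∈ U (R.vt (e, !b)) := by
        cases b
        · exact (hE e k).2 h3
        · exact (hE e k).1 h3
      have h5 := hW h4
      rw [mul_smul, R.s_smul (e, !b), h2] at h5
      exact h5
    obtain ⟨p⟩ := R.tree.connected.preconnected (g • R.x v) (h • R.x w)
    have h6 : ∀ (a c : V) (p : T.Walk a c), a ∈ W → c ∈ W := by
      intro a c p
      induction p with
      | nil => exact id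
      | cons hab _ ih => exact fun ha => ih (step _ _ hab ha)
    exact h6 _ _ p (hW hg) w h rfl

/-- the neighbour of the representative `x v` given by an end -/
noncomputable def nbv (p : Fin R.m × Bool) : V := (R.s p)⁻¹ • R.y p.1 (!p.2)

lemma adj_nbv (p : Fin R.m × Bool) : T.Adj (R.x (R.vt p)) (R.nbv p) := by
  have h := R.act (R.s p)⁻¹ _ _ (R.ay' p.1 p.2)
  rwa [← R.s_smul p, inv_smul_smul] at h

/-- the neighbour of the representative `x v` given by an end at `v` -/
noncomputable def nb (v : Fin R.n) (η : R.td.En v) : nbrs T R.act (R.x v) :=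
  ⟨R.nbv η.1, by
    have h := R.adj_nbv η.1
    have h2 : R.vt η.1 = v := η.2
    rw [h2] at h
    exact h⟩

/-- the inclusion of the edge group in the stabiliser of the vertex -/
noncomputable def injv (v : Fin R.n) (η : R.td.En v) : R.td.C η.1.1 →* MulAction.stabilizer Γ (R.x v) := TD.inj η

theorem nb_range (v : Fin R.n) (η : R.td.En v) :
    (R.injv v η).range = MulAction.stabilizer (MulAction.stabilizer Γ (R.x v)) (R.nb v η) := by
  have hs : R.s η.1 • R.x v = R.y η.1.1 η.1.2 := by
    have h2 : R.vt η.1 = v := η.2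
    have h3 := R.s_smul η.1
    rwa [h2] at h3
  ext g
  constructor
  · rintro ⟨c, rfl⟩
    rw [MulAction.mem_stabilizer_iff]
    apply Subtype.ext
    show ((R.s η.1)⁻¹ * (c : Γ) * R.s η.1) • ((R.s η.1)⁻¹ • R.y η.1.1 (!η.1.2)) = (R.s η.1)⁻¹ • R.y η.1.1 (!η.1.2)
    rw [← mul_smul, mul_assoc, mul_inv_cancel, mul_one, mul_smul, R.mem_C.1 c.2]
  · intro hg
    rw [MulAction.mem_stabilizer_iff] at hg
    have h1 : (g : Γ) • ((R.s η.1)⁻¹ • R.y η.1.1 (!η.1.2)) = (R.s η.1)⁻¹ • R.y η.1.1 (!η.1.2) :=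
      congrArg Subtype.val hg
    have h2 : (g : Γ) • R.x v = R.x v := MulAction.mem_stabilizer_iff.1 g.2
    have h3 : R.s η.1 * (g : Γ) * (R.s η.1)⁻¹ ∈ R.C η.1.1 := by
      refine R.mem_C.2 fun b => ?_
      by_cases hb : b = η.1.2
      · rw [hb, ← hs, ← mul_smul, mul_assoc, mul_assoc, inv_mul_cancel, mul_one, mul_smul, h2]
      · have hb' : b = !η.1.2 := by
          cases b <;> cases hη : η.1.2 <;> simp_all
        rw [hb', mul_smul, mul_smul, h1, smul_inv_smul]
    refine ⟨⟨_, h3⟩, ?_⟩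
    apply Subtype.ext
    show (R.s η.1)⁻¹ * (R.s η.1 * (g : Γ) * (R.s η.1)⁻¹) * R.s η.1 = g
    group

theorem nb_hit (v : Fin R.n) (w : nbrs T R.act (R.x v)) : ∃ η, ∃ g : MulAction.stabilizer Γ (R.x v), g • R.nb v η = w := by
  obtain ⟨e, g, b, h1, h2⟩ := R.hy (R.x v) w.1 w.2
  have hv : R.vt (e, b) = v := R.ux _ _ (g * R.s (e, b)) (by rw [mul_smul, R.s_smul (e, b)]; exact h1)
  have hg : (g * R.s (e, b)) • R.x v = R.x v := by
    have h3 := R.s_smul (e, b)
    rw [hv] at h3
    rw [mul_smul, h3]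
    exact h1
  refine ⟨⟨(e, b), hv⟩, ⟨g * R.s (e, b), MulAction.mem_stabilizer_iff.2 hg⟩, ?_⟩
  apply Subtype.ext
  show (g * R.s (e, b)) • ((R.s (e, b))⁻¹ • R.y e (!b)) = w.1
  rw [mul_smul, smul_inv_smul]
  exact h2

theorem nb_uniq (v : Fin R.n) (η η' : R.td.En v) (g : MulAction.stabilizer Γ (R.x v))
    (h : g • R.nb v η = R.nb v η') : η = η' := by
  have h1 : (g : Γ) • ((R.s η.1)⁻¹ • R.y η.1.1 (!η.1.2)) = (R.s η'.1)⁻¹ • R.y η'.1.1 (!η'.1.2) :=
    congrArg Subtype.val h
  have h2 : (g : Γ) • R.x v = R.x v := MulAction.mem_stabilizer_iff.1 g.2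
  have hs : R.s η.1 • R.x v = R.y η.1.1 η.1.2 := by
    have h2 : R.vt η.1 = v := η.2
    have h3 := R.s_smul η.1
    rwa [h2] at h3
  have hs' : R.s η'.1 • R.x v = R.y η'.1.1 η'.1.2 := by
    have h2 : R.vt η'.1 = v := η'.2
    have h3 := R.s_smul η'.1
    rwa [h2] at h3
  have h3 : (R.s η'.1 * (g : Γ) * (R.s η.1)⁻¹) • R.y η.1.1 η.1.2 = R.y η'.1.1 η'.1.2 := by
    rw [← hs, ← mul_smul, mul_assoc, mul_assoc, inv_mul_cancel, mul_one, mul_smul, h2, hs']
  have h4 : (R.s η'.1 * (g : Γ) * (R.s η.1)⁻¹) • R.y η.1.1 (!η.1.2) = R.y η'.1.1 (!η'.1.2) := by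
    rw [mul_smul, mul_smul, h1, smul_inv_smul]
  obtain ⟨h5, h6⟩ := R.uyb h3 h4
  apply Subtype.ext
  exact Prod.ext h5 h6

/-- the data of the mirrored group of a vertex group -/
theorem md (v : Fin R.n) : MD (R.injv v)
    (SemidirectProduct.inr : MulAction.stabilizer Γ (R.x v) →*
      Mirror (MulAction.stabilizer Γ (R.x v)) (nbrs T R.act (R.x v))) fun η => Mir.s (R.nb v η) :=
  Mir.md (R.injv v) (fun η => TD.inj_injective η) (R.nb v) (R.nb_range v) (R.nb_hit v) (R.nb_uniq v)

end TRep

/-- representatives exist; the representatives of the vertices can be taken in any finite set which meets all orbits -/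
theorem exists_trep {Γ V : Type*} [Group Γ] [MulAction Γ V] {T : SimpleGraph V} (tree : T.IsTree)
    (act : ∀ (g : Γ) (v w : V), T.Adj v w → T.Adj (g • v) (g • w))
    (inv : ∀ (g : Γ) (v w : V), T.Adj v w → g • v = w → g • w ≠ v) (F : Finset V) (hF : ∀ u, ∃ v ∈ F, ∃ g : Γ, g • v = u)
    (K : Finset V) (hK : ∀ u w, T.Adj u w → ∃ g : Γ, g • u ∈ K ∧ g • w ∈ K) :
    ∃ R : TRep (Γ := Γ) T, ∀ i, R.x i ∈ F := by
  classical
  obtain ⟨n, x, hx1, hx2, hx3⟩ := exists_fin_reps (MulAction.orbitRel Γ V) F (fun d => by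
    obtain ⟨v, hv, g, hg⟩ := hF d
    refine ⟨v, hv, ?_⟩
    show v ∈ MulAction.orbit Γ d
    exact ⟨g⁻¹, by rw [← hg]; exact inv_smul_smul g v⟩)
  have hxor : ∀ {a b : V}, MulAction.orbitRel Γ V a b ↔ ∃ g : Γ, g • a = b := by
    intro a b
    constructor
    · rintro ⟨g, hg⟩
      refine ⟨g⁻¹, ?_⟩
      rw [← hg]
      exact inv_smul_smul g b
    · rintro ⟨g, hg⟩
      refine ⟨g⁻¹, ?_⟩
      rw [← hg]
      exact inv_smul_smul g a
  -- unoriented edges
  let D := {p : Bool → V // T.Adj (p true) (p false)}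
  let r : Setoid D :=
    { r := fun p q => ∃ g : Γ, ∃ b, g • p.1 true = q.1 b ∧ g • p.1 false = q.1 (!b)
      iseqv :=
        { refl := fun p => ⟨1, true, one_smul _ _, one_smul _ _⟩
          symm := by
            rintro p q ⟨g, b, h1, h2⟩
            cases b
            · refine ⟨g⁻¹, false, ?_, ?_⟩
              · rw [show q.1 true = g • p.1 false from h2.symm, inv_smul_smul]
              · rw [show q.1 false = g • p.1 true from h1.symm, inv_smul_smul]
                rfl
            · refine ⟨g⁻¹, true, ?_, ?_⟩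
              · rw [show q.1 true = g • p.1 true from h1.symm, inv_smul_smul]
              · rw [show q.1 false = g • p.1 false from h2.symm, inv_smul_smul]
                rfl
          trans := by
            rintro p q t ⟨g, b, h1, h2⟩ ⟨g', b', h3, h4⟩
            cases b
            · refine ⟨g' * g, !b', ?_, ?_⟩
              · rw [mul_smul, h1, h4]
              · rw [mul_smul, h2, Bool.not_not]
                exact h3
            · refine ⟨g' * g, b', ?_, ?_⟩
              · rw [mul_smul, h1, h3]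
              · rw [mul_smul, h2]
                exact h4 } }
  let KD : Finset D := (Fintype.piFinset fun _ : Bool => K).subtype fun p => T.Adj (p true) (p false)
  obtain ⟨m, y, _, hy2, hy3⟩ := exists_fin_reps r KD (fun d => by
    obtain ⟨g, h1, h2⟩ := hK _ _ d.2
    let q : D := ⟨fun b => g • d.1 b, act g _ _ d.2⟩
    refine ⟨q, ?_, ?_⟩
    · rw [Finset.mem_subtype, Fintype.mem_piFinset]
      intro b
      cases b
      · exact h2
      · exact h1
    · refine ⟨g⁻¹, true, ?_, ?_⟩
      · show g⁻¹ • (g • d.1 true) = _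
        rw [inv_smul_smul]
      · show g⁻¹ • (g • d.1 false) = _
        rw [inv_smul_smul]
        rfl)
  refine ⟨⟨tree, act, inv, n, x, fun u => ?_, fun i j g h => ?_, m, fun e => (y e).1, fun e => (y e).2,
    fun u w huw => ?_, fun e e' g b h1 h2 => ?_⟩, hx1⟩
  · obtain ⟨i, hi⟩ := hx2 u
    exact ⟨i, hxor.1 hi⟩
  · exact hx3 i j (hxor.2 ⟨g, h⟩)
  · let q : D := ⟨fun b => if b then u else w, by simpa using huw⟩
    obtain ⟨e, g, b, h1, h2⟩ := hy2 q
    cases b
    · refine ⟨e, g, false, ?_, ?_⟩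
      · simpa [q] using h2
      · simpa [q] using h1
    · refine ⟨e, g, true, ?_, ?_⟩
      · simpa [q] using h1
      · simpa [q] using h2
  · exact hy3 e e' ⟨g, b, h1, h2⟩

end Singer
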