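import Pool.Agent.Singer.Defs

/-!
# Singer, general gluing theorem: Hilbert complexes

* `HC Γ`: complexes of closed invariant subspaces `P i` of `ℓ²(Γ × ι i)`;
* `HC.Z`, `HC.B`, `HC.h`: cycles, closure of the boundaries, Betti numbers;
* `HMap`: chain maps; `HMap.cone`: the mapping cone; `HC.prod`: direct sum.
-/

set_option autoImplicit false
set_option linter.unusedSectionVars false
set_option linter.unusedVariables false

open scoped ComplexConjugate InnerProductSpace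
open Filter Topology

namespace Singer

/-! ### Direct sums of `ℓ²` spaces -/

section sums
variable {Γ : Type*} [Group Γ] {ι κ μ : Type*}

lemma inl_inj : Function.Injective fun x : Γ × ι => (x.1, (Sum.inl x.2 : ι ⊕ κ)) := by
  rintro ⟨a, i⟩ ⟨b, j⟩ h
  simpa using h

lemma inr_inj : Function.Injective fun x : Γ × κ => (x.1, (Sum.inr x.2 : ι ⊕ κ)) := by
  rintro ⟨a, i⟩ ⟨b, j⟩ h
  simpa using h

/-- first component -/
noncomputable def fs : E Γ (ι ⊕ κ) →L[ℂ] E Γ ι := pull _ inl_inj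
/-- second component -/
noncomputable def sn : E Γ (ι ⊕ κ) →L[ℂ] E Γ κ := pull _ inr_inj
/-- inclusion of the first summand -/
noncomputable def il : E Γ ι →L[ℂ] E Γ (ι ⊕ κ) := push _ inl_inj
/-- inclusion of the second summand -/
noncomputable def ir : E Γ κ →L[ℂ] E Γ (ι ⊕ κ) := push _ inr_inj

@[simp] lemma fs_apply (f : E Γ (ι ⊕ κ)) (x : Γ × ι) : fs f x = f (x.1, Sum.inl x.2) := rfl
@[simp] lemma sn_apply (f : E Γ (ι ⊕ κ)) (x : Γ × κ) : sn f x = f (x.1, Sum.inr x.2) := rfl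

lemma il_inl (f : E Γ ι) (g : Γ) (i : ι) : (il f : E Γ (ι ⊕ κ)) (g, Sum.inl i) = f (g, i) :=
  push_apply _ inl_inj f (g, i)

lemma il_inr (f : E Γ ι) (g : Γ) (k : κ) : (il f : E Γ (ι ⊕ κ)) (g, Sum.inr k) = 0 := by
  apply push_apply_of_notMem
  rintro ⟨x, hx⟩
  exact absurd (congrArg Prod.snd hx) (by simp)

lemma ir_inr (f : E Γ κ) (g : Γ) (k : κ) : (ir f : E Γ (ι ⊕ κ)) (g, Sum.inr k) = f (g, k) :=
  push_apply _ inr_inj f (g, k)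

lemma ir_inl (f : E Γ κ) (g : Γ) (i : ι) : (ir f : E Γ (ι ⊕ κ)) (g, Sum.inl i) = 0 := by
  apply push_apply_of_notMem
  rintro ⟨x, hx⟩
  exact absurd (congrArg Prod.snd hx) (by simp)

@[simp] lemma fs_il (f : E Γ ι) : fs (il f : E Γ (ι ⊕ κ)) = f := by ext x; simp [il_inl]
@[simp] lemma sn_il (f : E Γ ι) : sn (il f : E Γ (ι ⊕ κ)) = 0 := by ext x; simp [il_inr]
@[simp] lemma fs_ir (f : E Γ κ) : fs (ir f : E Γ (ι ⊕ κ)) = 0 := by ext x; simp [ir_inl]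
@[simp] lemma sn_ir (f : E Γ κ) : sn (ir f : E Γ (ι ⊕ κ)) = f := by ext x; simp [ir_inr]

lemma il_fs_add_ir_sn (f : E Γ (ι ⊕ κ)) : il (fs f) + ir (sn f) = f := by
  ext ⟨g, x⟩
  rcases x with i | k
  · simp [il_inl, ir_inl]
  · simp [il_inr, ir_inr]

lemma sum_ext {f h : E Γ (ι ⊕ κ)} (h1 : fs f = fs h) (h2 : sn f = sn h) : f = h := by
  rw [← il_fs_add_ir_sn f, ← il_fs_add_ir_sn h, h1, h2]

lemma equi_fs : Equi (fs : E Γ (ι ⊕ κ) →L[ℂ] E Γ ι) := fun g f => by ext x; simp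
lemma equi_sn : Equi (sn : E Γ (ι ⊕ κ) →L[ℂ] E Γ κ) := fun g f => by ext x; simp
lemma equi_il : Equi (il : E Γ ι →L[ℂ] E Γ (ι ⊕ κ)) := fun g f => by
  ext ⟨a, x⟩
  rcases x with i | k
  · simp [il_inl]
  · simp [il_inr]
lemma equi_ir : Equi (ir : E Γ κ →L[ℂ] E Γ (ι ⊕ κ)) := fun g f => by
  ext ⟨a, x⟩
  rcases x with i | k
  · simp [ir_inl]
  · simp [ir_inr]

/-- direct sum of submodules -/
noncomputable def pr (V : Submodule ℂ (E Γ ι)) (W : Submodule ℂ (E Γ κ)) : Submodule ℂ (E Γ (ι ⊕ κ)) :=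
  V.comap (fs : E Γ (ι ⊕ κ) →L[ℂ] E Γ ι).toLinearMap ⊓ W.comap (sn : E Γ (ι ⊕ κ) →L[ℂ] E Γ κ).toLinearMap

lemma mem_pr {V : Submodule ℂ (E Γ ι)} {W : Submodule ℂ (E Γ κ)} {f : E Γ (ι ⊕ κ)} :
    f ∈ pr V W ↔ fs f ∈ V ∧ sn f ∈ W := Iff.rfl

lemma Mdl.pr {V : Submodule ℂ (E Γ ι)} {W : Submodule ℂ (E Γ κ)} (hV : Mdl V) (hW : Mdl W) : Mdl (pr V W) :=
  ⟨(hV.inv.comap equi_fs).inf (hW.inv.comap equi_sn),
    (hV.cl.preimage (fs : E Γ (ι ⊕ κ) →L[ℂ] E Γ ι).continuous).inter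
      (hW.cl.preimage (sn : E Γ (ι ⊕ κ) →L[ℂ] E Γ κ).continuous)⟩

end sums

/-! ### Complexes -/

/-- a complex of closed invariant subspaces -/
structure HC (Γ : Type*) [Group Γ] where
  ι : ℕ → Type
  fin : ∀ i, Fintype (ι i)
  P : ∀ i, Submodule ℂ (E Γ (ι i))
  mdl : ∀ i, Mdl (P i)
  d : ∀ i, E Γ (ι (i + 1)) →L[ℂ] E Γ (ι i)
  equi : ∀ i, Equi (d i)
  maps : ∀ i, ∀ f ∈ P (i + 1), d i f ∈ P i
  dd : ∀ i, ∀ f ∈ P (i + 2), d i (d (i + 1) f) = 0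

namespace HC
variable {Γ : Type*} [Group Γ]

instance (X : HC Γ) (i : ℕ) : Fintype (X.ι i) := X.fin i

/-- cycles -/
noncomputable def Z (X : HC Γ) : ∀ i, Submodule ℂ (E Γ (X.ι i))
  | 0 => X.P 0
  | i + 1 => X.P (i + 1) ⊓ LinearMap.ker (X.d i : E Γ (X.ι (i + 1)) →ₗ[ℂ] E Γ (X.ι i))

/-- closure of the boundaries -/
noncomputable def B (X : HC Γ) (i : ℕ) : Submodule ℂ (E Γ (X.ι i)) :=
  ((X.P (i + 1)).map (X.d i : E Γ (X.ι (i + 1)) →ₗ[ℂ] E Γ (X.ι i))).topologicalClosure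

/-- Betti numbers -/
noncomputable def h (X : HC Γ) (i : ℕ) : ℝ := vdim (X.Z i) - vdim (X.B i)

/-- direct sum -/
noncomputable def prod (X Y : HC Γ) : HC Γ where
  ι i := X.ι i ⊕ Y.ι i
  fin i := inferInstance
  P i := pr (X.P i) (Y.P i)
  mdl i := (X.mdl i).pr (Y.mdl i)
  d i := (il.comp (X.d i)).comp fs + (ir.comp (Y.d i)).comp sn
  equi i := ((equi_il.comp (X.equi i)).comp equi_fs).add ((equi_ir.comp (Y.equi i)).comp equi_sn)
  maps i f hf := by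
    refine ⟨?_, ?_⟩
    · show fs (il (X.d i (fs f)) + ir (Y.d i (sn f))) ∈ X.P i
      rw [map_add, fs_il, fs_ir, add_zero]
      exact X.maps i _ hf.1
    · show sn (il (X.d i (fs f)) + ir (Y.d i (sn f))) ∈ Y.P i
      rw [map_add, sn_il, sn_ir, zero_add]
      exact Y.maps i _ hf.2
  dd i f hf := by
    show il (X.d i (fs (il (X.d (i + 1) (fs f)) + ir (Y.d (i + 1) (sn f))))) +
      ir (Y.d i (sn (il (X.d (i + 1) (fs f)) + ir (Y.d (i + 1) (sn f))))) = 0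
    have h1 : fs (il (X.d (i + 1) (fs f)) + ir (Y.d (i + 1) (sn f))) = X.d (i + 1) (fs f) := by
      rw [map_add, fs_il, fs_ir, add_zero]
    have h2 : sn (il (X.d (i + 1) (fs f)) + ir (Y.d (i + 1) (sn f))) = Y.d (i + 1) (sn f) := by
      rw [map_add, sn_il, sn_ir, zero_add]
    rw [h1, h2, X.dd i _ (mem_pr.1 hf).1, Y.dd i _ (mem_pr.1 hf).2, map_zero, map_zero, add_zero]

end HC

/-- chain maps -/
structure HMap {Γ : Type*} [Group Γ] (X Y : HC Γ) where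
  f : ∀ i, E Γ (X.ι i) →L[ℂ] E Γ (Y.ι i)
  equi : ∀ i, Equi (f i)
  maps : ∀ i, ∀ x ∈ X.P i, f i x ∈ Y.P i
  comm : ∀ i, ∀ x ∈ X.P (i + 1), f i (X.d i x) = Y.d i (f (i + 1) x)

namespace HMap
variable {Γ : Type*} [Group Γ] {X Y : HC Γ}

/-- the index types of the mapping cone -/
def coneι (X Y : HC Γ) : ℕ → Type
  | 0 => Y.ι 0
  | i + 1 => Y.ι (i + 1) ⊕ X.ι i

/-- the cycles of `X` in degree `i` whose image is in the closure of the boundaries of `Y` -/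
noncomputable def K (φ : HMap X Y) (i : ℕ) : Submodule ℂ (E Γ (X.ι i)) :=
  X.Z i ⊓ (Y.B i).comap (φ.f i).toLinearMap

/-- the dimension of the kernel of `H_i(X) → H_i(Y)` -/
noncomputable def kap (φ : HMap X Y) (i : ℕ) : ℝ := vdim (φ.K i) - vdim (X.B i)

/-- the boundary operator of the mapping cone in degree `1` -/
noncomputable def cd0 (φ : HMap X Y) : E Γ (Y.ι 1 ⊕ X.ι 0) →L[ℂ] E Γ (Y.ι 0) := (Y.d 0).comp fs + (φ.f 0).comp sn

/-- the boundary operator of the mapping cone in degree `i + 2` -/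
noncomputable def cd (φ : HMap X Y) (i : ℕ) : E Γ (Y.ι (i + 2) ⊕ X.ι (i + 1)) →L[ℂ] E Γ (Y.ι (i + 1) ⊕ X.ι i) :=
  il.comp ((Y.d (i + 1)).comp fs + (φ.f (i + 1)).comp sn) - (ir.comp (X.d i)).comp sn

lemma cd0_apply (φ : HMap X Y) (f : E Γ (Y.ι 1 ⊕ X.ι 0)) : φ.cd0 f = Y.d 0 (fs f) + φ.f 0 (sn f) := rfl

lemma fs_cd (φ : HMap X Y) (i : ℕ) (f : E Γ (Y.ι (i + 2) ⊕ X.ι (i + 1))) :
    fs (φ.cd i f) = Y.d (i + 1) (fs f) + φ.f (i + 1) (sn f) := by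
  show fs (il (Y.d (i + 1) (fs f) + φ.f (i + 1) (sn f)) - ir (X.d i (sn f))) = _
  rw [map_sub, fs_il, fs_ir, sub_zero]

lemma sn_cd (φ : HMap X Y) (i : ℕ) (f : E Γ (Y.ι (i + 2) ⊕ X.ι (i + 1))) :
    sn (φ.cd i f) = -X.d i (sn f) := by
  show sn (il (Y.d (i + 1) (fs f) + φ.f (i + 1) (sn f)) - ir (X.d i (sn f))) = _
  rw [map_sub, sn_il, sn_ir, zero_sub]

lemma equi_cd0 (φ : HMap X Y) : Equi φ.cd0 := ((Y.equi 0).comp equi_fs).add ((φ.equi 0).comp equi_sn)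

lemma equi_cd (φ : HMap X Y) (i : ℕ) : Equi (φ.cd i) :=
  (equi_il.comp (((Y.equi (i + 1)).comp equi_fs).add ((φ.equi (i + 1)).comp equi_sn))).sub
    ((equi_ir.comp (X.equi i)).comp equi_sn)

/-- the modules of the mapping cone -/
noncomputable def coneP (φ : HMap X Y) : ∀ i, Submodule ℂ (E Γ (coneι X Y i))
  | 0 => Y.P 0
  | i + 1 => pr (Y.P (i + 1)) (X.P i)

/-- the boundary operators of the mapping cone -/
noncomputable def coned (φ : HMap X Y) : ∀ i, E Γ (coneι X Y (i + 1)) →L[ℂ] E Γ (coneι X Y i)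
  | 0 => φ.cd0
  | i + 1 => φ.cd i

lemma cone_mdl (φ : HMap X Y) : ∀ i, Mdl (φ.coneP i)
  | 0 => Y.mdl 0
  | i + 1 => (Y.mdl (i + 1)).pr (X.mdl i)

lemma cone_equi (φ : HMap X Y) : ∀ i, Equi (φ.coned i)
  | 0 => φ.equi_cd0
  | i + 1 => φ.equi_cd i

lemma cone_maps (φ : HMap X Y) : ∀ i, ∀ f ∈ φ.coneP (i + 1), φ.coned i f ∈ φ.coneP i
  | 0, f, hf => Submodule.add_mem _ (Y.maps 0 _ hf.1) (φ.maps 0 _ hf.2)
  | i + 1, f, hf => by
    refine ⟨?_, ?_⟩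
    · show fs (φ.cd i f) ∈ Y.P (i + 1)
      rw [fs_cd]
      exact Submodule.add_mem _ (Y.maps _ _ hf.1) (φ.maps _ _ hf.2)
    · show sn (φ.cd i f) ∈ X.P i
      rw [sn_cd]
      exact Submodule.neg_mem _ (X.maps _ _ hf.2)

lemma cd0_cd (φ : HMap X Y) (f : E Γ (Y.ι 2 ⊕ X.ι 1)) (h1 : fs f ∈ Y.P 2) (h2 : sn f ∈ X.P 1) :
    φ.cd0 (φ.cd 0 f) = 0 := by
  rw [cd0_apply, fs_cd, sn_cd, map_add, Y.dd 0 _ h1, zero_add, map_neg, φ.comm 0 _ h2, add_neg_cancel]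

lemma cd_cd (φ : HMap X Y) (i : ℕ) (f : E Γ (Y.ι (i + 3) ⊕ X.ι (i + 2))) (h1 : fs f ∈ Y.P (i + 3))
    (h2 : sn f ∈ X.P (i + 2)) : φ.cd i (φ.cd (i + 1) f) = 0 := by
  refine sum_ext ?_ ?_
  · rw [fs_cd, fs_cd, sn_cd, map_add, Y.dd (i + 1) _ h1, zero_add, map_neg, φ.comm (i + 1) _ h2, add_neg_cancel,
      map_zero]
  · rw [sn_cd, sn_cd, map_neg, X.dd i _ h2, neg_zero, neg_zero, map_zero]

lemma cone_dd (φ : HMap X Y) : ∀ i, ∀ f ∈ φ.coneP (i + 2), φ.coned i (φ.coned (i + 1) f) = 0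
  | 0, f, hf => φ.cd0_cd f (mem_pr.1 hf).1 (mem_pr.1 hf).2
  | i + 1, f, hf => φ.cd_cd i f (mem_pr.1 hf).1 (mem_pr.1 hf).2

/-- the mapping cone -/
noncomputable def cone (φ : HMap X Y) : HC Γ where
  ι := coneι X Y
  fin
    | 0 => Y.fin 0
    | i + 1 => (inferInstance : Fintype (Y.ι (i + 1) ⊕ X.ι i))
  P := φ.coneP
  mdl := φ.cone_mdl
  d := φ.coned
  equi := φ.cone_equi
  maps := φ.cone_maps
  dd := φ.cone_dd

end HMap

end Singer
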