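import Pool.Agent.Singer.Gen.PreConeA

/-!
# Singer, general gluing theorem: the mapping cone as a complex of projective modules

* `ZMap.cone φ`: the mapping cone of a chain map of augmentation zero given by finite matrices; `ZMap.cone_toHC`;
* `ZMap.exists_coneRes`: the mapping cone is a resolution if `X`, `Y` are exact in positive degrees and
  `H_0(X) → H_0(Y)` is injective with cokernel `ℂ`.
-/

set_option autoImplicit false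
set_option linter.unusedSectionVars false
set_option linter.unusedVariables false

open scoped ComplexConjugate InnerProductSpace
open Filter Topology

namespace Singer

namespace ZMap
variable {Γ : Type*} [Group Γ] {X Y : PreRes.{0} Γ}

/-- the operators of the chain map -/
noncomputable def ff (φ : ZMap X Y) (i : ℕ) : E Γ (X.ι i) →L[ℂ] E Γ (Y.ι i) := φ.f i

lemma ff_mat (φ : ZMap X Y) (i : ℕ) : Mat (φ.ff i) := φ.mat i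

lemma ff_maps (φ : ZMap X Y) (i : ℕ) : ∀ x ∈ X.P i, φ.ff i x ∈ Y.P i := φ.maps i

lemma ff_comm (φ : ZMap X Y) (i : ℕ) : ∀ x ∈ X.P (i + 1), φ.ff i (X.d i x) = Y.d i (φ.ff (i + 1) x) := φ.comm i

lemma ff_aug (φ : ZMap X Y) : ∀ x ∈ X.P 0, FS x → eps Y.w (φ.ff 0 x) = 0 := φ.aug

lemma ff_cd0 (φ : ZMap X Y) (f : E Γ (Y.ι 1 ⊕ X.ι 0)) :
    φ.toHMap.cd0 f = (Y.d 0 (fs f) + φ.ff 0 (sn f) : E Γ (Y.ι 0)) := rfl

lemma ff_fs_cd (φ : ZMap X Y) (i : ℕ) (f : E Γ (Y.ι (i + 2) ⊕ X.ι (i + 1))) :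
    fs (φ.toHMap.cd i f : E Γ (Y.ι (i + 1) ⊕ X.ι i)) =
      (Y.d (i + 1) (fs f) + φ.ff (i + 1) (sn f) : E Γ (Y.ι (i + 1))) := φ.toHMap.fs_cd i f

lemma ff_sn_cd (φ : ZMap X Y) (i : ℕ) (f : E Γ (Y.ι (i + 2) ⊕ X.ι (i + 1))) :
    sn (φ.toHMap.cd i f : E Γ (Y.ι (i + 1) ⊕ X.ι i)) = (-X.d i (sn f) : E Γ (X.ι i)) := φ.toHMap.sn_cd i f

/-- the idempotents of the mapping cone -/
noncomputable def conee (X Y : PreRes.{0} Γ) : ∀ i, E Γ (HMap.coneι X.toHC Y.toHC i) →L[ℂ] E Γ (HMap.coneι X.toHC Y.toHC i)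
  | 0 => Y.e 0
  | i + 1 => ((il.comp (Y.e (i + 1))).comp fs + (ir.comp (X.e i)).comp sn :
      E Γ (Y.ι (i + 1) ⊕ X.ι i) →L[ℂ] E Γ (Y.ι (i + 1) ⊕ X.ι i))

lemma mat_conee (X Y : PreRes.{0} Γ) : ∀ i, Mat (conee X Y i)
  | 0 => Y.mat_e 0
  | i + 1 => ((mat_il.comp (Y.mat_e (i + 1))).comp mat_fs).add ((mat_ir.comp (X.mat_e i)).comp mat_sn)

lemma conee_mem (φ : ZMap X Y) : ∀ i f, conee X Y i f ∈ φ.toHMap.coneP i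
  | 0, f => Y.e_mem 0 f
  | i + 1, f => by
    refine ⟨?_, ?_⟩
    · show fs (il (Y.e (i + 1) (fs f)) + ir (X.e i (sn f))) ∈ Y.P (i + 1)
      rw [map_add, fs_il, fs_ir, add_zero]
      exact Y.e_mem (i + 1) _
    · show sn (il (Y.e (i + 1) (fs f)) + ir (X.e i (sn f))) ∈ X.P i
      rw [map_add, sn_il, sn_ir, zero_add]
      exact X.e_mem i _

lemma conee_eq (φ : ZMap X Y) : ∀ i, ∀ f ∈ φ.toHMap.coneP i, conee X Y i f = f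
  | 0, f, hf => Y.e_eq 0 f hf
  | i + 1, f, hf => by
    have h1 : ∀ f : E Γ (Y.ι (i + 1) ⊕ X.ι i), fs f ∈ Y.P (i + 1) → sn f ∈ X.P i →
        il (Y.e (i + 1) (fs f)) + ir (X.e i (sn f)) = f := by
      intro f h2 h3
      rw [Y.e_eq (i + 1) _ h2, X.e_eq i _ h3]
      exact il_fs_add_ir_sn f
    exact h1 f hf.1 hf.2

lemma mat_cd0 (φ : ZMap X Y) : Mat φ.toHMap.cd0 :=
  ((Y.mat_d 0).comp mat_fs).add ((φ.mat 0).comp mat_sn)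

lemma mat_cd (φ : ZMap X Y) (i : ℕ) : Mat (φ.toHMap.cd i) :=
  (mat_il.comp (((Y.mat_d (i + 1)).comp mat_fs).add ((φ.mat (i + 1)).comp mat_sn))).sub
    ((mat_ir.comp (X.mat_d i)).comp mat_sn)

lemma mat_coned (φ : ZMap X Y) : ∀ i, Mat (φ.toHMap.coned i)
  | 0 => φ.mat_cd0
  | i + 1 => φ.mat_cd i

lemma eps_cd0 (φ : ZMap X Y) (f : E Γ (Y.ι 1 ⊕ X.ι 0)) (h1 : fs f ∈ Y.P 1) (h2 : sn f ∈ X.P 0) (hf : FS f) :
    eps Y.w (φ.toHMap.cd0 f) = 0 := by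
  have h3 : eps Y.w (Y.d 0 (fs f) + φ.ff 0 (sn f)) = 0 := by
    rw [eps_add Y.w ((Y.mat_d 0).fs hf.fs) ((φ.ff_mat 0).fs hf.sn), Y.eps_d _ h1 hf.fs, φ.ff_aug _ h2 hf.sn, add_zero]
  exact h3

/-- the mapping cone -/
noncomputable def cone (φ : ZMap X Y) : PreRes.{0} Γ where
  ι := HMap.coneι X.toHC Y.toHC
  ft := φ.toHMap.cone.fin
  P := φ.toHMap.coneP
  e := conee X Y
  d := φ.toHMap.coned
  w := Y.w
  mat_e := mat_conee X Y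
  mat_d := φ.mat_coned
  e_mem := φ.conee_mem
  e_eq := φ.conee_eq
  d_mem := φ.toHMap.cone_maps
  d_d := φ.toHMap.cone_dd
  eps_d f hf hfs := φ.eps_cd0 f (mem_pr.1 hf).1 (mem_pr.1 hf).2 hfs

lemma cone_toHC (φ : ZMap X Y) : φ.cone.toHC = φ.toHMap.cone := rfl

lemma fs_il_sub_ir {ι κ : Type*} (f : E Γ ι) (g : E Γ κ) : fs (il f - ir g : E Γ (ι ⊕ κ)) = f := by
  rw [map_sub, fs_il, fs_ir, sub_zero]

lemma sn_il_sub_ir {ι κ : Type*} (f : E Γ ι) (g : E Γ κ) : sn (il f - ir g : E Γ (ι ⊕ κ)) = -g := by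
  rw [map_sub, sn_il, sn_ir, zero_sub]

lemma fs_il_add_ir {ι κ : Type*} (f : E Γ ι) (g : E Γ κ) : fs (il f + ir g : E Γ (ι ⊕ κ)) = f := by
  rw [map_add, fs_il, fs_ir, add_zero]

lemma sn_il_add_ir {ι κ : Type*} (f : E Γ ι) (g : E Γ κ) : sn (il f + ir g : E Γ (ι ⊕ κ)) = g := by
  rw [map_add, sn_il, sn_ir, zero_add]

lemma ex_cd0 (φ : ZMap X Y)
    (hY : ∀ x ∈ Y.P 1, FS x → Y.d 0 x = 0 → ∃ y ∈ Y.P 2, FS y ∧ Y.d 1 y = x)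
    (hinj : ∀ x ∈ X.P 0, FS x → (∃ y ∈ Y.P 1, FS y ∧ Y.d 0 y = φ.ff 0 x) → ∃ x' ∈ X.P 1, FS x' ∧ X.d 0 x' = x)
    (f : E Γ (Y.ι 1 ⊕ X.ι 0)) (h1 : fs f ∈ Y.P 1) (h2 : sn f ∈ X.P 0) (hf : FS f) (h0 : φ.toHMap.cd0 f = 0) :
    ∃ g : E Γ (Y.ι 2 ⊕ X.ι 1), (fs g ∈ Y.P 2 ∧ sn g ∈ X.P 1) ∧ FS g ∧ φ.toHMap.cd 0 g = f := by
  have h0' : Y.d 0 (fs f) + φ.ff 0 (sn f) = 0 := h0
  obtain ⟨x', hx', hx'f, hx'd⟩ := hinj (sn f) h2 hf.sn ⟨-fs f, Submodule.neg_mem _ h1, hf.fs.neg, by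
    rw [map_neg]
    exact neg_eq_of_add_eq_zero_right h0'⟩
  obtain ⟨z, hz, hzf, hzd⟩ := hY (fs f + φ.ff 1 x') (Submodule.add_mem _ h1 (φ.ff_maps 1 x' hx'))
    (hf.fs.add ((φ.ff_mat 1).fs hx'f)) (by
      have h3 : φ.ff 0 (X.d 0 x') = Y.d 0 (φ.ff 1 x') := φ.ff_comm 0 x' hx'
      rw [map_add, ← h3, hx'd]
      exact h0')
  refine ⟨il z - ir x', ⟨?_, ?_⟩, hzf.il.sub hx'f.ir, ?_⟩
  · rw [fs_il_sub_ir]
    exact hz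
  · rw [sn_il_sub_ir]
    exact Submodule.neg_mem _ hx'
  · refine sum_ext ?_ ?_
    · have h4 : fs (φ.toHMap.cd 0 (il z - ir x')) = Y.d 1 (fs (il z - ir x' : E Γ (Y.ι 2 ⊕ X.ι 1))) +
          φ.ff 1 (sn (il z - ir x' : E Γ (Y.ι 2 ⊕ X.ι 1))) := φ.ff_fs_cd 0 _
      refine h4.trans ?_
      rw [fs_il_sub_ir, sn_il_sub_ir, map_neg, hzd]
      exact add_neg_cancel_right _ _
    · have h4 : sn (φ.toHMap.cd 0 (il z - ir x')) = -X.d 0 (sn (il z - ir x' : E Γ (Y.ι 2 ⊕ X.ι 1))) :=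
        φ.ff_sn_cd 0 _
      refine h4.trans ?_
      rw [sn_il_sub_ir, map_neg, neg_neg]
      exact hx'd

lemma ex_cd (φ : ZMap X Y) (i : ℕ)
    (hX : ∀ x ∈ X.P (i + 1), FS x → X.d i x = 0 → ∃ y ∈ X.P (i + 2), FS y ∧ X.d (i + 1) y = x)
    (hY : ∀ x ∈ Y.P (i + 2), FS x → Y.d (i + 1) x = 0 → ∃ y ∈ Y.P (i + 3), FS y ∧ Y.d (i + 2) y = x)
    (f : E Γ (Y.ι (i + 2) ⊕ X.ι (i + 1))) (h1 : fs f ∈ Y.P (i + 2)) (h2 : sn f ∈ X.P (i + 1)) (hf : FS f)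
    (h0 : φ.toHMap.cd i f = 0) :
    ∃ g : E Γ (Y.ι (i + 3) ⊕ X.ι (i + 2)), (fs g ∈ Y.P (i + 3) ∧ sn g ∈ X.P (i + 2)) ∧ FS g ∧
      φ.toHMap.cd (i + 1) g = f := by
  obtain ⟨h0', h0''⟩ := (φ.toHMap.cd_eq_zero_iff i f).1 h0
  obtain ⟨x', hx', hx'f, hx'd⟩ := hX (sn f) h2 hf.sn h0''
  obtain ⟨z, hz, hzf, hzd⟩ := hY (fs f + φ.ff (i + 2) x') (Submodule.add_mem _ h1 (φ.ff_maps (i + 2) x' hx'))
    (hf.fs.add ((φ.ff_mat (i + 2)).fs hx'f)) (by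
      have h3 : φ.ff (i + 1) (X.d (i + 1) x') = Y.d (i + 1) (φ.ff (i + 2) x') := φ.ff_comm (i + 1) x' hx'
      rw [map_add, ← h3, hx'd]
      exact h0')
  refine ⟨il z - ir x', ⟨?_, ?_⟩, hzf.il.sub hx'f.ir, ?_⟩
  · rw [fs_il_sub_ir]
    exact hz
  · rw [sn_il_sub_ir]
    exact Submodule.neg_mem _ hx'
  · refine sum_ext ?_ ?_
    · have h4 : fs (φ.toHMap.cd (i + 1) (il z - ir x')) =
          Y.d (i + 2) (fs (il z - ir x' : E Γ (Y.ι (i + 3) ⊕ X.ι (i + 2)))) +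
          φ.ff (i + 2) (sn (il z - ir x' : E Γ (Y.ι (i + 3) ⊕ X.ι (i + 2)))) := φ.ff_fs_cd (i + 1) _
      refine h4.trans ?_
      rw [fs_il_sub_ir, sn_il_sub_ir, map_neg, hzd]
      exact add_neg_cancel_right _ _
    · have h4 : sn (φ.toHMap.cd (i + 1) (il z - ir x')) =
          -X.d (i + 1) (sn (il z - ir x' : E Γ (Y.ι (i + 3) ⊕ X.ι (i + 2)))) := φ.ff_sn_cd (i + 1) _
      refine h4.trans ?_
      rw [sn_il_sub_ir, map_neg, neg_neg]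
      exact hx'd

/-- the mapping cone is a resolution -/
theorem exists_coneRes (φ : ZMap X Y)
    (hX : ∀ i, ∀ x ∈ X.P (i + 1), FS x → X.d i x = 0 → ∃ y ∈ X.P (i + 2), FS y ∧ X.d (i + 1) y = x)
    (hY : ∀ i, ∀ x ∈ Y.P (i + 1), FS x → Y.d i x = 0 → ∃ y ∈ Y.P (i + 2), FS y ∧ Y.d (i + 1) y = x)
    (hinj : ∀ x ∈ X.P 0, FS x → (∃ y ∈ Y.P 1, FS y ∧ Y.d 0 y = φ.f 0 x) → ∃ x' ∈ X.P 1, FS x' ∧ X.d 0 x' = x)
    (hex : ∀ y ∈ Y.P 0, FS y → eps Y.w y = 0 →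
      ∃ x ∈ X.P 0, FS x ∧ ∃ z ∈ Y.P 1, FS z ∧ (Y.toHC.d 0 z + φ.f 0 x : E Γ (Y.toHC.ι 0)) = y)
    (hs : ∃ y ∈ Y.P 0, FS y ∧ eps Y.w y = 1) :
    ∃ R : Res.{0} Γ, R.toPreRes = φ.cone := by
  refine ⟨{ φ.cone with surj := hs, ex_zero := ?_, ex_succ := ?_ }, rfl⟩
  · intro f hf hfs h0
    obtain ⟨x, hx, hxf, z, hz, hzf, hzd⟩ := hex f hf hfs h0
    refine ⟨(il z + ir x : E Γ (Y.ι 1 ⊕ X.ι 0)), ⟨?_, ?_⟩, hzf.il.add hxf.ir, ?_⟩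
    · have h1 : fs (il z + ir x : E Γ (Y.ι 1 ⊕ X.ι 0)) ∈ Y.P 1 := by
        rw [fs_il_add_ir]
        exact hz
      exact h1
    · have h1 : sn (il z + ir x : E Γ (Y.ι 1 ⊕ X.ι 0)) ∈ X.P 0 := by
        rw [sn_il_add_ir]
        exact hx
      exact h1
    · have h1 : Y.d 0 (fs (il z + ir x : E Γ (Y.ι 1 ⊕ X.ι 0))) + φ.ff 0 (sn (il z + ir x : E Γ (Y.ι 1 ⊕ X.ι 0))) = f := by
        rw [fs_il_add_ir, sn_il_add_ir]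
        exact hzd
      exact h1
  · intro i
    cases i with
    | zero => exact fun f hf hfs h0 => φ.ex_cd0 (hY 0) hinj f (mem_pr.1 hf).1 (mem_pr.1 hf).2 hfs h0
    | succ i => exact fun f hf hfs h0 => φ.ex_cd i (hX i) (hY (i + 1)) f (mem_pr.1 hf).1 (mem_pr.1 hf).2 hfs h0

end ZMap

end Singer
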