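import Pool.Agent.Singer.Gen.TD

/-!
# Singer, groups acting on trees: exactness of `ℂ[E] → ℂ[V] → ℂ`
-/

set_option autoImplicit false
set_option linter.unusedSectionVars false
set_option linter.unusedVariables false

open scoped ComplexConjugate InnerProductSpace
open Filter Topology

namespace Singer

namespace TLin

open scoped Classical in
/-- the indicator of a proposition -/
noncomputable def pq (p : Prop) : ℂ := if p then 1 else 0

lemma pq_pos {p : Prop} (h : p) : pq p = 1 := if_pos h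
lemma pq_neg {p : Prop} (h : ¬ p) : pq p = 0 := if_neg h
lemma pq_congr {p q : Prop} (h : p ↔ q) : pq p = pq q := by rw [propext h]

lemma lin_pq {X : Type*} (φ : X →₀ ℂ) (y : X) : Finsupp.linearCombination ℂ (fun q => pq (q = y)) φ = φ y := by
  classical
  rw [Finsupp.linearCombination_apply]
  have h8 : (φ.sum fun i a => a • pq (i = y)) = φ.sum fun i a => if i = y then a else 0 := by
    apply Finsupp.sum_congr
    intro x _
    by_cases hx : x = y
    · rw [pq_pos hx, if_pos hx, smul_eq_mul, mul_one]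
    · rw [pq_neg hx, if_neg hx, smul_eq_mul, mul_zero]
  rw [h8, Finsupp.sum_ite_eq']
  split_ifs with hh
  · rfl
  · exact (Finsupp.notMem_support_iff.1 hh).symm

lemma lin_sub {X : Type*} (F G : X → ℂ) (φ : X →₀ ℂ) :
    Finsupp.linearCombination ℂ (fun q => F q - G q) φ
      = Finsupp.linearCombination ℂ F φ - Finsupp.linearCombination ℂ G φ := by
  rw [Finsupp.linearCombination_apply, Finsupp.linearCombination_apply, Finsupp.linearCombination_apply,
    ← Finsupp.sum_sub]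
  apply Finsupp.sum_congr
  intro q _
  rw [smul_sub]

/-- a linear functional on finitely supported functions -/
lemma fun_eq_lin {X : Type*} (f : (X →₀ ℂ) →ₗ[ℂ] ℂ) (x : X →₀ ℂ) :
    f x = Finsupp.linearCombination ℂ (fun y => f (Finsupp.single y 1)) x := by
  have h : f = Finsupp.linearCombination ℂ (fun y => f (Finsupp.single y 1)) := by
    apply Finsupp.lhom_ext
    intro a b
    rw [Finsupp.linearCombination_single, smul_eq_mul, ← smul_eq_mul, ← map_smul, Finsupp.smul_single,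
      smul_eq_mul, mul_one]
  exact LinearMap.congr_fun h x

lemma mk_mem {Γ : Type*} [Group Γ] {H : Subgroup Γ} {T : Set Γ} (hT : ∀ g ∈ T, ∀ k ∈ H, g * k ∈ T) (x : Γ) :
    (QuotientGroup.mk x : Γ ⧸ H) ∈ (QuotientGroup.mk : Γ → Γ ⧸ H) '' T ↔ x ∈ T := by
  constructor
  · rintro ⟨y, hy, hxy⟩
    have := hT y hy _ (QuotientGroup.eq.1 hxy)
    rwa [mul_inv_cancel_left] at this
  · intro hx
    exact ⟨x, hx, rfl⟩

/-- the indicator function of the classes of an invariant set -/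
noncomputable def ich {Γ : Type*} [Group Γ] (H : Subgroup Γ) (T : Set Γ) (q : Γ ⧸ H) : ℂ :=
  pq (q ∈ (QuotientGroup.mk : Γ → Γ ⧸ H) '' T)

lemma ich_mk {Γ : Type*} [Group Γ] {H : Subgroup Γ} {T : Set Γ} (hT : ∀ g ∈ T, ∀ k ∈ H, g * k ∈ T) (x : Γ) :
    ich H T (QuotientGroup.mk x) = pq (x ∈ T) := pq_congr (mk_mem hT x)

end TLin

open TLin

namespace TD
variable {Γ : Type*} [Group Γ] (D : TD Γ)

/-- a functional on the divergence -/
lemma sum_bd (F : ∀ v, Γ ⧸ D.A v → ℂ) (ξ : ∀ e, (Γ ⧸ D.C e) →₀ ℂ) :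
    ∑ v, Finsupp.linearCombination ℂ (F v) (D.bd ξ v) = ∑ e, Finsupp.linearCombination ℂ
      (fun q => F (D.vt (e, true)) (cosMul (D.sub (e, true)) q) - F (D.vt (e, false)) (cosMul (D.sub (e, false)) q))
      (ξ e) := by
  have h1 : ∀ v, Finsupp.linearCombination ℂ (F v) (D.bd ξ v) = ∑ η : D.En v,
      sgn η.1.2 * Finsupp.linearCombination ℂ (fun q => F v (cosMul (sub' η) q)) (ξ η.1.1) := by
    intro v
    rw [bd, map_sum]
    apply Finset.sum_congr rfl
    intro η _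
    rw [map_smul, Finsupp.linearCombination_mapDomain, smul_eq_mul]
    rfl
  rw [Finset.sum_congr rfl fun v _ => h1 v]
  set G : D.Ed × Bool → ℂ := fun p =>
    sgn p.2 * Finsupp.linearCombination ℂ (fun q => F (D.vt p) (cosMul (D.sub p) q)) (ξ p.1) with hG
  have h2 : ∀ v (η : D.En v), sgn η.1.2 * Finsupp.linearCombination ℂ (fun q => F v (cosMul (sub' η) q)) (ξ η.1.1)
      = G η.1 := by
    rintro v ⟨p, rfl⟩
    rfl
  rw [Finset.sum_congr rfl fun v _ => Finset.sum_congr rfl fun η _ => h2 v η]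
  have h3 : ∑ v, ∑ η : D.En v, G η.1 = ∑ p : D.Ed × Bool, G p := by
    let i : (Σ v, D.En v) ≃ D.Ed × Bool := Equiv.sigmaFiberEquiv D.vt
    have h5 : ∑ x : Σ v, D.En v, G x.2.1 = ∑ p, G p := Fintype.sum_equiv i _ _ fun _ => rfl
    rw [← h5, Fintype.sum_sigma]
  rw [h3, Fintype.sum_prod_type]
  apply Finset.sum_congr rfl
  intro e _
  rw [Fintype.sum_bool]
  rw [lin_sub, hG]
  show (if true = true then (1 : ℂ) else -1) * _ + (if false = true then (1 : ℂ) else -1) * _ = _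
  rw [if_pos rfl, if_neg (by decide)]
  ring

theorem eq_zero (ξ : ∀ e, (Γ ⧸ D.C e) →₀ ℂ) (h : ∀ v, D.bd ξ v = 0) : ∀ e, ξ e = 0 := by
  intro e₀
  ext q₀
  obtain ⟨g₀, rfl⟩ := QuotientGroup.mk_surjective q₀
  obtain ⟨S, hSA, hS0, hSe⟩ := D.half e₀
  set T : D.Ve → Set Γ := fun v => {x | g₀⁻¹ * x ∈ S v} with hT
  have hTA : ∀ v, ∀ x ∈ T v, ∀ k ∈ D.A v, x * k ∈ T v := by
    intro v x hx k hk
    show g₀⁻¹ * (x * k) ∈ S v
    rw [← mul_assoc]
    exact hSA v _ hx k hk
  have h1 := D.sum_bd (fun v => ich (D.A v) (T v)) ξ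
  rw [Finset.sum_eq_zero fun v _ => by rw [h v, map_zero]] at h1
  have h2 : ∀ e, e ≠ e₀ → Finsupp.linearCombination ℂ
      (fun q => ich (D.A (D.vt (e, true))) (T (D.vt (e, true))) (cosMul (D.sub (e, true)) q)
        - ich (D.A (D.vt (e, false))) (T (D.vt (e, false))) (cosMul (D.sub (e, false)) q)) (ξ e) = 0 := by
    intro e he
    have h3 : (fun q => ich (D.A (D.vt (e, true))) (T (D.vt (e, true))) (cosMul (D.sub (e, true)) q)
        - ich (D.A (D.vt (e, false))) (T (D.vt (e, false))) (cosMul (D.sub (e, false)) q)) = 0 := by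
      ext q
      obtain ⟨x, rfl⟩ := QuotientGroup.mk_surjective q
      rw [cosMul_mk, cosMul_mk, ich_mk (hTA _), ich_mk (hTA _)]
      have h4 := hSe e (g₀⁻¹ * x) fun hh => absurd hh he
      have h5 : x * D.s (e, true) ∈ T (D.vt (e, true)) ↔ x * D.s (e, false) ∈ T (D.vt (e, false)) := by
        show g₀⁻¹ * (x * D.s (e, true)) ∈ S (D.vt (e, true)) ↔ g₀⁻¹ * (x * D.s (e, false)) ∈ S (D.vt (e, false))
        rw [← mul_assoc, ← mul_assoc]
        exact h4
      rw [pq_congr h5, sub_self]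
      rfl
    rw [h3, Finsupp.linearCombination_zero, LinearMap.zero_apply]
  rw [Finset.sum_eq_single_of_mem e₀ (Finset.mem_univ _) fun e _ he => h2 e he] at h1
  have h6 : (fun q => ich (D.A (D.vt (e₀, true))) (T (D.vt (e₀, true))) (cosMul (D.sub (e₀, true)) q)
        - ich (D.A (D.vt (e₀, false))) (T (D.vt (e₀, false))) (cosMul (D.sub (e₀, false)) q))
      = fun q => pq (q = (QuotientGroup.mk g₀ : Γ ⧸ D.C e₀)) := by
    ext q
    obtain ⟨x, rfl⟩ := QuotientGroup.mk_surjective q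
    rw [cosMul_mk, cosMul_mk, ich_mk (hTA _), ich_mk (hTA _)]
    have e3 : (QuotientGroup.mk x : Γ ⧸ D.C e₀) = QuotientGroup.mk g₀ ↔ g₀⁻¹ * x ∈ D.C e₀ := by
      rw [eq_comm, QuotientGroup.eq]
    have e4 : ∀ b, x * D.s (e₀, b) ∈ T (D.vt (e₀, b)) ↔ g₀⁻¹ * x * D.s (e₀, b) ∈ S (D.vt (e₀, b)) := by
      intro b
      show g₀⁻¹ * (x * D.s (e₀, b)) ∈ S (D.vt (e₀, b)) ↔ _
      rw [← mul_assoc]
    by_cases hC : g₀⁻¹ * x ∈ D.C e₀
    · rw [pq_pos (e3.2 hC), pq_pos ((e4 true).2 (hS0 _ hC).1), pq_neg fun hh => (hS0 _ hC).2 ((e4 false).1 hh),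
        sub_zero]
    · rw [pq_neg fun hh => hC (e3.1 hh),
        pq_congr (((e4 true).trans (hSe e₀ _ fun _ => hC)).trans (e4 false).symm), sub_self]
  rw [h6, lin_pq] at h1
  exact h1.symm

/-- the divergence, as a linear map -/
noncomputable def bdL : (∀ e, (Γ ⧸ D.C e) →₀ ℂ) →ₗ[ℂ] (∀ v, (Γ ⧸ D.A v) →₀ ℂ) where
  toFun := D.bd
  map_add' x y := by
    funext v
    show D.bd (x + y) v = D.bd x v + D.bd y v
    unfold bd
    rw [← Finset.sum_add_distrib]
    apply Finset.sum_congr rfl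
    intro η _
    rw [← smul_add, Pi.add_apply, Finsupp.mapDomain_add]
  map_smul' c x := by
    funext v
    show D.bd (c • x) v = c • D.bd x v
    unfold bd
    rw [Finset.smul_sum]
    apply Finset.sum_congr rfl
    intro η _
    rw [Pi.smul_apply, Finsupp.mapDomain_smul, smul_comm]

theorem exists_lift (α : ∀ v, (Γ ⧸ D.A v) →₀ ℂ) (h : ∑ v, ((α v).sum fun _ c => c) = 0) :
    ∃ ξ : ∀ e, (Γ ⧸ D.C e) →₀ ℂ, ∀ v, D.bd ξ v = α v := by
  classical
  by_contra hne
  have h1 : α ∉ LinearMap.range D.bdL := by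
    rintro ⟨ξ, hξ⟩
    exact hne ⟨ξ, fun v => congrFun hξ v⟩
  obtain ⟨f, hf, hf0⟩ := Submodule.exists_dual_map_eq_bot_of_notMem h1 inferInstance
  have hf1 : ∀ ξ, f (D.bd ξ) = 0 := by
    intro ξ
    have : f (D.bd ξ) ∈ (LinearMap.range D.bdL).map f := ⟨D.bd ξ, ⟨ξ, rfl⟩, rfl⟩
    rw [hf0] at this
    exact this
  set F : ∀ v, Γ ⧸ D.A v → ℂ := fun v q => f (Pi.single v (Finsupp.single q 1)) with hF
  have hf2 : ∀ β, f β = ∑ v, Finsupp.linearCombination ℂ (F v) (β v) := by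
    intro β
    have e1 : β = ∑ v, Pi.single v (β v) := (Finset.univ_sum_single β).symm
    conv_lhs => rw [e1, map_sum]
    apply Finset.sum_congr rfl
    intro v _
    exact fun_eq_lin (f.comp (LinearMap.single ℂ (fun v => (Γ ⧸ D.A v) →₀ ℂ) v)) (β v)
  have hedge : ∀ e q, F (D.vt (e, true)) (cosMul (D.sub (e, true)) q)
      = F (D.vt (e, false)) (cosMul (D.sub (e, false)) q) := by
    intro e q
    have e1 := hf1 (Pi.single e (Finsupp.single q 1))
    rw [hf2, D.sum_bd F, Finset.sum_eq_single_of_mem e (Finset.mem_univ _) fun e' _ he' => by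
      rw [Pi.single_eq_of_ne he', map_zero], Pi.single_eq_same, Finsupp.linearCombination_single, one_smul] at e1
    exact sub_eq_zero.1 e1
  by_cases hempty : IsEmpty D.Ve
  · exact hf (by rw [hf2]; exact Finset.sum_eq_zero fun v _ => (hempty.false v).elim)
  rw [not_isEmpty_iff] at hempty
  obtain ⟨v₀⟩ := hempty
  have hconst : ∀ v q, F v q = F v₀ (QuotientGroup.mk 1) := by
    intro v q
    obtain ⟨g, rfl⟩ := QuotientGroup.mk_surjective q
    refine D.conn (fun v => {g | F v (QuotientGroup.mk g) = F v₀ (QuotientGroup.mk 1)}) ?_ ?_ v₀ v 1 g rfl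
    · intro v g hg x hx
      show F v (QuotientGroup.mk (g * x)) = _
      rw [show (QuotientGroup.mk (g * x) : Γ ⧸ D.A v) = QuotientGroup.mk g from QuotientGroup.mk_mul_of_mem g hx]
      exact hg
    · intro e g
      have e1 := hedge e (QuotientGroup.mk g)
      rw [cosMul_mk, cosMul_mk] at e1
      show F _ _ = _ ↔ F _ _ = _
      rw [e1]
  apply hf
  rw [hf2]
  have e2 : ∀ v, Finsupp.linearCombination ℂ (F v) (α v)
      = ((α v).sum fun _ c => c) * F v₀ (QuotientGroup.mk 1) := by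
    intro v
    rw [Finsupp.linearCombination_apply, Finsupp.sum, Finsupp.sum, Finset.sum_mul]
    apply Finset.sum_congr rfl
    intro x _
    rw [hconst, smul_eq_mul]
  rw [Finset.sum_congr rfl fun v _ => e2 v, ← Finset.sum_mul, h, zero_mul]

end TD

namespace MD
variable {A : Type*} [Group A] {N : Type} [Fintype N] {C : N → Type*} [∀ η, Group (C η)] {inj : ∀ η, C η →* A}
    {M : Type*} [Group M] {a : A →* M} {r : N → M} (h : MD inj a r)

include h in
theorem eq_zero (ξ : ∀ η, (M ⧸ (a.comp (inj η)).range) →₀ ℂ)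
    (h1 : ∀ η, (ξ η).mapDomain (cosMul (h.cj η)) = -ξ η)
    (h2 : ∑ η, (ξ η).mapDomain (Subgroup.quotientMapOfLE (le (a := a) (inj := inj) η)) = 0) : ∀ η, ξ η = 0 := by
  intro η₀
  ext q₀
  obtain ⟨g₀, rfl⟩ := QuotientGroup.mk_surjective q₀
  obtain ⟨S, hSA, hS0, hSe⟩ := h.half η₀
  set T : Set M := {x | g₀⁻¹ * x ∈ S} with hT
  have hTA : ∀ x ∈ T, ∀ k ∈ a.range, x * k ∈ T := by
    rintro x hx _ ⟨k, rfl⟩
    show g₀⁻¹ * (x * a k) ∈ S
    rw [← mul_assoc]
    exact hSA _ hx k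
  set F : ∀ η, M ⧸ (a.comp (inj η)).range → ℂ := fun η q =>
    ich a.range T (Subgroup.quotientMapOfLE (le (a := a) (inj := inj) η) q) with hF
  have hFm : ∀ η x, F η (QuotientGroup.mk x) = pq (x ∈ T) := by
    intro η x
    rw [hF]
    show ich a.range T (Subgroup.quotientMapOfLE _ (QuotientGroup.mk x)) = _
    rw [Subgroup.quotientMapOfLE_apply_mk, ich_mk hTA]
  have k1 : ∑ η, Finsupp.linearCombination ℂ (F η) (ξ η) = 0 := by
    have := congrArg (Finsupp.linearCombination ℂ (ich a.range T)) h2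
    rw [map_sum, map_zero] at this
    rw [← this]
    apply Finset.sum_congr rfl
    intro η _
    rw [Finsupp.linearCombination_mapDomain]
    rfl
  have k2 : ∀ η, 2 * Finsupp.linearCombination ℂ (F η) (ξ η)
      = Finsupp.linearCombination ℂ (fun q => F η q - F η (cosMul (h.cj η) q)) (ξ η) := by
    intro η
    have e1 := congrArg (Finsupp.linearCombination ℂ (F η)) (h1 η)
    rw [Finsupp.linearCombination_mapDomain, map_neg] at e1
    have e2 : Finsupp.linearCombination ℂ (fun q => F η q - F η (cosMul (h.cj η) q)) (ξ η)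
        = Finsupp.linearCombination ℂ (F η) (ξ η)
          - Finsupp.linearCombination ℂ (F η ∘ cosMul (h.cj η)) (ξ η) := lin_sub _ _ _
    rw [e2, e1]
    ring
  have k3 : ∀ η, η ≠ η₀ → Finsupp.linearCombination ℂ (fun q => F η q - F η (cosMul (h.cj η) q)) (ξ η) = 0 := by
    intro η hη
    have e1 : (fun q => F η q - F η (cosMul (h.cj η) q)) = 0 := by
      ext q
      obtain ⟨x, rfl⟩ := QuotientGroup.mk_surjective q
      rw [cosMul_mk, hFm, hFm]
      have e2 : x ∈ T ↔ x * r η ∈ T := by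
        show g₀⁻¹ * x ∈ S ↔ g₀⁻¹ * (x * r η) ∈ S
        rw [← mul_assoc]
        exact hSe η _ fun hh => absurd hh hη
      rw [pq_congr e2, sub_self]
      rfl
    rw [e1, Finsupp.linearCombination_zero, LinearMap.zero_apply]
  have k4 : Finsupp.linearCombination ℂ (fun q => F η₀ q - F η₀ (cosMul (h.cj η₀) q)) (ξ η₀) = 0 := by
    have e1 := congrArg (fun z : ℂ => 2 * z) k1
    simp only [Finset.mul_sum, mul_zero] at e1
    rw [Finset.sum_congr rfl fun η _ => k2 η,
      Finset.sum_eq_single_of_mem η₀ (Finset.mem_univ _) fun η _ hη => k3 η hη] at e1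
    exact e1
  have hrr : ∀ x, x * r η₀ * r η₀ = x := fun x => by rw [mul_assoc, h.rr, mul_one]
  have k5 : (fun q => F η₀ q - F η₀ (cosMul (h.cj η₀) q)) = fun q =>
      pq (q = (QuotientGroup.mk g₀ : M ⧸ (a.comp (inj η₀)).range))
        - ((fun q => pq (q = (QuotientGroup.mk g₀ : M ⧸ (a.comp (inj η₀)).range))) ∘ cosMul (h.cj η₀)) q := by
    ext q
    obtain ⟨x, rfl⟩ := QuotientGroup.mk_surjective q
    rw [cosMul_mk, hFm, hFm]
    have e3 : ∀ y : M, (QuotientGroup.mk y : M ⧸ (a.comp (inj η₀)).range) = QuotientGroup.mk g₀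
        ↔ g₀⁻¹ * y ∈ (a.comp (inj η₀)).range := by
      intro y
      rw [eq_comm, QuotientGroup.eq]
    have hno : ∀ y : M, y ∈ (a.comp (inj η₀)).range → y * r η₀ ∉ (a.comp (inj η₀)).range := by
      intro y hy hh
      exact h.notMem η₀ ((Subgroup.mul_mem_cancel_left _ hy).1 hh)
    have hpos : ∀ y : M, y ∈ (a.comp (inj η₀)).range → y ∈ S ∧ y * r η₀ ∉ S := by
      rintro _ ⟨y, rfl⟩
      exact hS0 y
    have t2 : x * r η₀ ∈ T ↔ g₀⁻¹ * x * r η₀ ∈ S := by
      show g₀⁻¹ * (x * r η₀) ∈ S ↔ _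
      rw [← mul_assoc]
    have t3 : (QuotientGroup.mk (x * r η₀) : M ⧸ (a.comp (inj η₀)).range) = QuotientGroup.mk g₀
        ↔ g₀⁻¹ * x * r η₀ ∈ (a.comp (inj η₀)).range := by
      rw [e3, ← mul_assoc]
    show pq (x ∈ T) - pq (x * r η₀ ∈ T) = pq ((QuotientGroup.mk x : M ⧸ (a.comp (inj η₀)).range) = QuotientGroup.mk g₀)
      - pq ((QuotientGroup.mk (x * r η₀) : M ⧸ (a.comp (inj η₀)).range) = QuotientGroup.mk g₀)
    have t1 : x ∈ T ↔ g₀⁻¹ * x ∈ S := Iff.rfl
    rw [pq_congr (e3 x), pq_congr t3, pq_congr t1, pq_congr t2]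
    by_cases c1 : g₀⁻¹ * x ∈ (a.comp (inj η₀)).range
    · rw [pq_pos c1, pq_neg (hno _ c1), pq_pos (hpos _ c1).1, pq_neg (hpos _ c1).2]
    · by_cases c2 : g₀⁻¹ * x * r η₀ ∈ (a.comp (inj η₀)).range
      · have e5 := hpos _ c2
        rw [hrr] at e5
        rw [pq_neg c1, pq_pos c2, pq_neg e5.2, pq_pos e5.1]
      · rw [pq_neg c1, pq_neg c2, pq_congr (hSe η₀ _ fun _ => ⟨c1, c2⟩), sub_self, sub_self]
  rw [k5, lin_sub, ← Finsupp.linearCombination_mapDomain, h1, map_neg, lin_pq, sub_neg_eq_add, ← two_mul] at k4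
  exact (mul_eq_zero.1 k4).resolve_left two_ne_zero

include h in
theorem exists_lift (α : (M ⧸ a.range) →₀ ℂ) (hα : (α.sum fun _ c => c) = 0) :
    ∃ ξ : ∀ η, (M ⧸ (a.comp (inj η)).range) →₀ ℂ, α = ∑ η, (ξ η - (ξ η).mapDomain (cosMul (h.cj η))).mapDomain
      (Subgroup.quotientMapOfLE (le (a := a) (inj := inj) η)) := by
  classical
  set L : (∀ η, (M ⧸ (a.comp (inj η)).range) →₀ ℂ) →ₗ[ℂ] ((M ⧸ a.range) →₀ ℂ) :=
    ∑ η, (Finsupp.lmapDomain ℂ ℂ (Subgroup.quotientMapOfLE (le (a := a) (inj := inj) η))).comp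
      ((LinearMap.id - Finsupp.lmapDomain ℂ ℂ (cosMul (h.cj η))).comp (LinearMap.proj η)) with hL
  have hLa : ∀ ξ, L ξ = ∑ η, (ξ η - (ξ η).mapDomain (cosMul (h.cj η))).mapDomain
      (Subgroup.quotientMapOfLE (le (a := a) (inj := inj) η)) := by
    intro ξ
    rw [hL, LinearMap.sum_apply]
    rfl
  by_contra hne
  have h1 : α ∉ LinearMap.range L := by
    rintro ⟨ξ, hξ⟩
    exact hne ⟨ξ, by rw [← hLa, hξ]⟩
  obtain ⟨f, hf, hf0⟩ := Submodule.exists_dual_map_eq_bot_of_notMem h1 inferInstance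
  have hf1 : ∀ ξ, f (L ξ) = 0 := by
    intro ξ
    have : f (L ξ) ∈ (LinearMap.range L).map f := ⟨L ξ, ⟨ξ, rfl⟩, rfl⟩
    rw [hf0] at this
    exact this
  set F : M ⧸ a.range → ℂ := fun q => f (Finsupp.single q 1) with hF
  have hedge : ∀ η (x : M), F (QuotientGroup.mk x) = F (QuotientGroup.mk (x * r η)) := by
    intro η x
    have e1 := hf1 (Pi.single η (Finsupp.single (QuotientGroup.mk x) 1))
    rw [hLa, Finset.sum_eq_single_of_mem η (Finset.mem_univ _) fun η' _ hη' => by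
      rw [Pi.single_eq_of_ne hη', Finsupp.mapDomain_zero, sub_zero, Finsupp.mapDomain_zero],
      Pi.single_eq_same, Finsupp.mapDomain_single, cosMul_mk, sub_eq_add_neg, Finsupp.mapDomain_add,
      ← Finsupp.single_neg, Finsupp.mapDomain_single, Finsupp.mapDomain_single,
      Subgroup.quotientMapOfLE_apply_mk, Subgroup.quotientMapOfLE_apply_mk, map_add, Finsupp.single_neg, map_neg,
      ← sub_eq_add_neg] at e1
    exact sub_eq_zero.1 e1
  have hconst : ∀ q, F q = F (QuotientGroup.mk 1) := by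
    intro q
    obtain ⟨g, rfl⟩ := QuotientGroup.mk_surjective q
    refine h.conn {g | F (QuotientGroup.mk g) = F (QuotientGroup.mk 1)} ?_ ?_ 1 g rfl
    · intro g hg x
      show F (QuotientGroup.mk (g * a x)) = _
      rw [show (QuotientGroup.mk (g * a x) : M ⧸ a.range) = QuotientGroup.mk g from
        QuotientGroup.mk_mul_of_mem g ⟨x, rfl⟩]
      exact hg
    · intro η g
      show F _ = _ ↔ F _ = _
      rw [hedge η g]
  apply hf
  rw [fun_eq_lin f α, Finsupp.linearCombination_apply, Finsupp.sum]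
  rw [Finset.sum_congr rfl fun x _ => by rw [show f (Finsupp.single x 1) = F (QuotientGroup.mk 1) from hconst x]]
  rw [← Finset.sum_smul]
  have : ∑ x ∈ α.support, α x = 0 := hα
  rw [this, zero_smul]

end MD

end Singer
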