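import Pool.Agent.Singer.Gen.TNN
import Pool.Agent.Singer.Gen.TDLin
import Pool.Agent.Singer.Gen.PreConeB

/-!
# Singer, groups acting on trees: resolutions of the mirrored group

* `MD.map`: the chain map over the mirrored group `M`; `MD.map_K`, `MD.kap_eq`, `MD.h_zero`, `MD.h_succ`;
* `MD.exists_res`: its mapping cone is a resolution.
-/

set_option autoImplicit false
set_option linter.unusedSectionVars false
set_option linter.unusedVariables false

open scoped ComplexConjugate InnerProductSpace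
open Filter Topology

namespace Singer

lemma indRel_pe {H Γ : Type*} [Group H] [Group Γ] (j : H →* Γ) (hj : Function.Injective j) {α : Type} {ι : α → Type}
    (b : α) : IndRel j hj (pe b : E H (Σ b, ι b) →L[ℂ] E H (ι b)) (pe b) where
  equi := equi_pe b
  equi' := equi_pe b
  icj u := by
    ext ⟨g, i⟩
    by_cases hg : g ∈ j.range
    · obtain ⟨x, rfl⟩ := hg
      exact (icj_apply j hj u x ⟨b, i⟩).trans (icj_apply j hj (pe b u) x i).symm
    · exact (icj_apply_notMem j hj u hg ⟨b, i⟩).trans (icj_apply_notMem j hj (pe b u) hg i).symm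
  rsj f := rfl

namespace MD
variable {A : Type*} [Group A] {N : Type} [Fintype N] {C : N → Type*} [∀ η, Group (C η)] {inj : ∀ η, C η →* A}
    {M : Type*} [Group M] {a : A →* M} {r : N → M} (h : MD inj a r)

section pre
variable (RC : ∀ η, PreRes.{0} (C η)) (RA : PreRes.{0} A)

/-- the edges -/
noncomputable def XX : PreRes.{0} M :=
  PreRes.sig fun η => (RC η).asy (a.comp (inj η)) (h.comp_injective η) (r η) (h.rr η) (h.comm' η)

variable {RC RA} (H : ∀ η, PreMap ((RC η).ind (inj η) (h.hinj η)) RA)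

/-- the operators of the chain map at an end -/
noncomputable def G (η : N) : PreMap ((RC η).ind (a.comp (inj η)) (h.comp_injective η)) (RA.ind a h.ha) :=
  (H η).ind a h.ha (a.comp (inj η)) (h.comp_injective η) rfl

/-- the operators of the chain map at an end -/
noncomputable def gf (η : N) (i : ℕ) : E M ((RC η).ι i) →L[ℂ] E M (RA.ι i) := (h.G H η).f i

lemma gf_mat (η : N) (i : ℕ) : Mat (h.gf H η i) := (h.G H η).mat i

lemma gf_maps (η : N) (i : ℕ) {u : E M ((RC η).ι i)}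
    (hu : u ∈ Singer.ind (a.comp (inj η)) (h.comp_injective η) ((RC η).P i)) :
    h.gf H η i u ∈ Singer.ind a h.ha (RA.P i) := (h.G H η).maps i u hu

lemma gf_comm (η : N) (i : ℕ) {u : E M ((RC η).ι (i + 1))}
    (hu : u ∈ Singer.ind (a.comp (inj η)) (h.comp_injective η) ((RC η).P (i + 1))) :
    h.gf H η i (indOp (a.comp (inj η)) ((RC η).mat_d i) u) = indOp a (RA.mat_d i) (h.gf H η (i + 1) u) :=
  (h.G H η).comm i u hu

lemma gf_aug (η : N) {u : E M ((RC η).ι 0)}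
    (hu : u ∈ Singer.ind (a.comp (inj η)) (h.comp_injective η) ((RC η).P 0)) (hf : FS u) :
    eps RA.w (h.gf H η 0 u) = eps (RC η).w u := (h.G H η).aug u hu hf

/-- the operators of the chain map -/
noncomputable def tf (i : ℕ) : E M (Σ η, (RC η).ι i) →L[ℂ] E M (RA.ι i) := ∑ η, (h.gf H η i).comp (pe η)

lemma tf_apply (i : ℕ) (x : E M (Σ η, (RC η).ι i)) : h.tf H i x = ∑ η, h.gf H η i (pe η x) := by
  unfold tf
  rw [sum_apply]
  rfl

lemma tf_mat (i : ℕ) : Mat (h.tf H i) := Mat.sum fun η _ => (h.gf_mat H η i).comp (mat_pe η)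

/-- the modules of the edges -/
lemma mem_XX_P {i : ℕ} {x : E M (Σ η, (RC η).ι i)} : x ∈ ((h.XX RC).P i : Submodule ℂ (E M (Σ η, (RC η).ι i))) ↔
    ∀ η, (pe η x : E M ((RC η).ι i)) ∈ anti (r η) (Singer.ind (a.comp (inj η)) (h.comp_injective η) ((RC η).P i)) :=
  mem_dsum

lemma tf_maps (i : ℕ) (x : E M (Σ η, (RC η).ι i))
    (hx : x ∈ ((h.XX RC).P i : Submodule ℂ (E M (Σ η, (RC η).ι i)))) : h.tf H i x ∈ Singer.ind a h.ha (RA.P i) := by
  rw [tf_apply]
  exact Submodule.sum_mem _ fun η _ => h.gf_maps H η i (mem_anti.1 (h.mem_XX_P.1 hx η)).1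

/-- the boundary operator of the edges -/
noncomputable def xd (RC : ∀ η, PreRes.{0} (C η)) (i : ℕ) :
    E M (Σ η, (RC η).ι (i + 1)) →L[ℂ] E M (Σ η, (RC η).ι i) := (h.XX RC).d i

lemma pe_xd (i : ℕ) (η : N) (x : E M (Σ η, (RC η).ι (i + 1))) :
    (pe η (h.xd RC i x) : E M ((RC η).ι i)) = indOp (a.comp (inj η)) ((RC η).mat_d i) (pe η x) :=
  PreRes.pe_sig_d (fun η => (RC η).asy (a.comp (inj η)) (h.comp_injective η) (r η) (h.rr η) (h.comm' η)) i η x

lemma tf_comm (i : ℕ) (x : E M (Σ η, (RC η).ι (i + 1)))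
    (hx : x ∈ ((h.XX RC).P (i + 1) : Submodule ℂ (E M (Σ η, (RC η).ι (i + 1))))) :
    h.tf H i (h.xd RC i x) = indOp a (RA.mat_d i) (h.tf H (i + 1) x) := by
  rw [tf_apply, tf_apply, map_sum]
  refine Finset.sum_congr rfl fun η _ => ?_
  rw [pe_xd]
  exact h.gf_comm H η i (mem_anti.1 (h.mem_XX_P.1 hx η)).1

lemma eps_asy {η : N} {u : E M ((RC η).ι 0)} (hr : rt (r η) u = -u) (hf : FS u) : eps (RC η).w u = 0 := by
  have h1 := eps_rt (RC η).w (r η) hf
  rw [hr] at h1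
  have h2 := eps_smul (RC η).w (-1) hf
  rw [neg_one_smul, neg_one_mul] at h2
  rw [h2] at h1
  have h3 : 2 * eps (RC η).w u = 0 := by linear_combination -h1
  exact (mul_eq_zero.1 h3).resolve_left two_ne_zero

lemma tf_aug (x : E M (Σ η, (RC η).ι 0))
    (hx : x ∈ ((h.XX RC).P 0 : Submodule ℂ (E M (Σ η, (RC η).ι 0)))) (hf : FS x) :
    eps RA.w (h.tf H 0 x) = 0 := by
  rw [tf_apply, eps_sum RA.w fun η _ => (h.gf_mat H η 0).fs (hf.pe η)]
  refine Finset.sum_eq_zero fun η _ => ?_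
  have h2 := mem_anti.1 (h.mem_XX_P.1 hx η)
  rw [h.gf_aug H η h2.1 (hf.pe η), eps_asy h2.2 (hf.pe η)]

/-- the chain map -/
noncomputable def map : ZMap (h.XX RC) (RA.ind a h.ha) where
  f i := h.tf H i
  equi i := (h.tf_mat H i).equi
  maps i x hx := h.tf_maps H i x hx
  comm i x hx := h.tf_comm H i x hx
  mat i := h.tf_mat H i
  aug x hx hfs := h.tf_aug H x hx hfs

lemma tf_eq (i : ℕ) : h.tf H i = indOp a (mat_hsum H i) := by
  refine indOp_unique (hj := h.ha) (mat_hsum H i) ?_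
  unfold tf hsum
  exact IndRel.sum fun η _ => IndRel.comp (indRel_indOp (ι := (RC η).ι i) (κ := RA.ι i) a h.ha ((H η).mat i))
    (indRel_pe a h.ha η)

/-- the induced relations -/
lemma ind_NN (i : ℕ) : Singer.ind a h.ha (NN H i) =
    (dsum fun η => Singer.ind (a.comp (inj η)) (h.comp_injective η) ((RC η).Z i)) ⊓
      (Singer.ind a h.ha (RA.B i)).comap (h.tf H i : E M (Σ η, (RC η).ι i) →ₗ[ℂ] E M (RA.ι i)) := by
  have h1 : (fun η => Singer.ind a h.ha (Singer.ind (inj η) (h.hinj η) ((RC η).Z i))) =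
      fun η => Singer.ind (a.comp (inj η)) (h.comp_injective η) ((RC η).Z i) := by
    funext η
    exact Singer.ind_ind (inj η) (h.hinj η) a h.ha _
  unfold NN
  rw [ind_inf, ind_dsum, h1, tf_eq, ← (indRel_indOp a h.ha (mat_hsum H i)).comap]

lemma XX_Z (i : ℕ) : ((h.XX RC).Z i : Submodule ℂ (E M (Σ η, (RC η).ι i))) =
    dsum fun η => anti (r η) (Singer.ind (a.comp (inj η)) (h.comp_injective η) ((RC η).Z i)) := by
  have h0 := (h.XX RC).toHC_Z i
  refine h0.symm.trans ((HC.Z_sig (fun η => ((RC η).asy (a.comp (inj η)) (h.comp_injective η) (r η) (h.rr η)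
    (h.comm' η)).toHC) i).trans ?_)
  congr 1
  funext η
  rw [PreRes.toHC_Z]
  exact PreRes.asy_Z (RC η) i

lemma XX_B (i : ℕ) : ((h.XX RC).B i : Submodule ℂ (E M (Σ η, (RC η).ι i))) =
    dsum fun η => anti (r η) (Singer.ind (a.comp (inj η)) (h.comp_injective η) ((RC η).B i)) := by
  refine (HC.B_sig (fun η => ((RC η).asy (a.comp (inj η)) (h.comp_injective η) (r η) (h.rr η)
    (h.comm' η)).toHC) i).trans ?_
  congr 1
  funext η
  exact PreRes.asy_B (RC η) (hr := h.rr η) (hcr := h.comm' η) i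

/-- **the kernel of the chain map in homology** -/
theorem map_K (i : ℕ) : ((h.map H).K i : Submodule ℂ (E M (Σ η, (RC η).ι i))) =
    (dsum fun η => anti (r η) (Singer.ind (a.comp (inj η)) (h.comp_injective η) ((RC η).Z i))) ⊓
      Singer.ind a h.ha (NN H i) := by
  have h1 : ((h.map H).K i : Submodule ℂ (E M (Σ η, (RC η).ι i))) =
      ((h.XX RC).toHC.Z i : Submodule ℂ (E M (Σ η, (RC η).ι i))) ⊓
        ((RA.ind a h.ha).B i : Submodule ℂ (E M (RA.ι i))).comap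
          (h.tf H i : E M (Σ η, (RC η).ι i) →ₗ[ℂ] E M (RA.ι i)) := rfl
  have h2 := PreRes.ind_B a h.ha RA i
  have h3 := ((h.XX RC).toHC_Z i).trans (h.XX_Z (RC := RC) i)
  rw [h1, h.ind_NN H i, ← inf_assoc]
  refine congrArg₂ (· ⊓ ·) ?_ (congrArg _ h2)
  refine h3.trans ?_
  exact (inf_eq_left.2 (dsum_mono fun η u hu => (mem_anti.1 hu).1)).symm

theorem vdim_B (i : ℕ) : 2 * vdim ((h.XX RC).B i) = ∑ η, vdim ((RC η).B i) := by
  have h2 : vdim ((h.XX RC).B i) = ∑ η, vdim (anti (r η) (Singer.ind (a.comp (inj η)) (h.comp_injective η)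
      ((RC η).B i))) :=
    (congrArg (fun V : Submodule ℂ (E M (Σ η, (RC η).ι i)) => vdim V) (h.XX_B (RC := RC) i)).trans (vdim_dsum' _)
  rw [h2, Finset.mul_sum]
  exact Finset.sum_congr rfl fun η _ => vdim_anti (h.rr η) (h.comm' η) (h.notMem η) ((RC η).mdl_B i)

theorem kap_eq (i : ℕ) : 2 * (h.map H).kap i =
    2 * vdim ((dsum fun η => anti (r η) (Singer.ind (a.comp (inj η)) (h.comp_injective η) ((RC η).Z i))) ⊓
      Singer.ind a h.ha (NN H i)) - ∑ η, vdim ((RC η).B i) := by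
  have h1 : (h.map H).kap i = vdim ((dsum fun η => anti (r η) (Singer.ind (a.comp (inj η)) (h.comp_injective η)
      ((RC η).Z i))) ⊓ Singer.ind a h.ha (NN H i)) - vdim ((h.XX RC).B i) :=
    congrArg (fun V : Submodule ℂ (E M (Σ η, (RC η).ι i)) => vdim V - vdim ((h.XX RC).B i)) (h.map_K H i)
  have h2 := h.vdim_B (RC := RC) i
  linarith

variable (RC) in
theorem XX_h (i : ℕ) : 2 * (h.XX RC).toHC.h i = ∑ η, (RC η).toHC.h i := by
  have h1 := HC.h_sig (fun η => ((RC η).asy (a.comp (inj η)) (h.comp_injective η) (r η) (h.rr η)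
      (h.comm' η)).toHC) i
  have h2 : (h.XX RC).toHC.h i = ∑ η, ((RC η).asy (a.comp (inj η)) (h.comp_injective η) (r η) (h.rr η)
      (h.comm' η)).toHC.h i := h1
  rw [h2, Finset.mul_sum]
  exact Finset.sum_congr rfl fun η _ => PreRes.asy_h (RC η) (h.notMem η) i

theorem h_zero : 2 * (h.map H).cone.toHC.h 0 = 2 * RA.toHC.h 0 - ∑ η, (RC η).toHC.h 0 + 2 * (h.map H).kap 0 := by
  have h1 := (h.map H).toHMap.h_cone_zero
  rw [PreRes.ind_h a h.ha RA 0] at h1
  have h2 := h.XX_h RC 0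
  have h3 : (h.map H).cone.toHC.h 0 = (h.map H).toHMap.cone.h 0 := rfl
  rw [h3, h1]
  linarith

theorem h_succ (i : ℕ) : 2 * (h.map H).cone.toHC.h (i + 1) = 2 * (h.map H).kap i +
    (2 * RA.toHC.h (i + 1) - ∑ η, (RC η).toHC.h (i + 1) + 2 * (h.map H).kap (i + 1)) := by
  have h1 := (h.map H).toHMap.h_cone_succ i
  rw [PreRes.ind_h a h.ha RA (i + 1)] at h1
  have h2 := h.XX_h RC (i + 1)
  have h3 : (h.map H).cone.toHC.h (i + 1) = (h.map H).toHMap.cone.h (i + 1) := rfl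
  rw [h3, h1]
  linarith

end pre

section res
variable {RC : ∀ η, Res.{0} (C η)} {RA : Res.{0} A} (H : ∀ η, PreMap ((RC η).toPreRes.ind (inj η) (h.hinj η)) RA.toPreRes)

/-- the augmentations over the cosets of the image of a family -/
lemma cosAug_tf {x : E M (Σ η, (RC η).ι 0)}
    (hx : ∀ η, (pe (ι := fun η => (RC η).ι 0) η x) ∈
      Singer.ind (a.comp (inj η)) (h.comp_injective η) ((RC η).P 0)) (hf : FS x) :
    cosAug a.range RA.w (h.tf (RC := fun η => (RC η).toPreRes) (RA := RA.toPreRes) H 0 x) =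
      ∑ η, (cosAug (a.comp (inj η)).range (RC η).w (pe (ι := fun η => (RC η).ι 0) η x)).mapDomain
        (Subgroup.quotientMapOfLE (le (a := a) (inj := inj) η)) := by
  rw [tf_apply, cosAug_sum a.range RA.w fun η _ =>
    (h.gf_mat (RC := fun η => (RC η).toPreRes) (RA := RA.toPreRes) H η 0).fs
      (FS.pe (ι := fun η => (RC η).ι 0) η hf)]
  refine Finset.sum_congr rfl fun η _ => ?_
  exact (H η).cosAug_ind a h.ha (a.comp (inj η)) (h.comp_injective η) rfl (le (a := a) (inj := inj) η)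
    (hx η) (FS.pe (ι := fun η => (RC η).ι 0) η hf)

/-- the chain map is injective in homology in degree `0` -/
lemma inj_zero {x : E M (Σ η, (RC η).ι 0)}
    (hx : ∀ η, (pe (ι := fun η => (RC η).ι 0) η x) ∈
      anti (r η) (Singer.ind (a.comp (inj η)) (h.comp_injective η) ((RC η).P 0))) (hf : FS x)
    (hy : cosAug a.range RA.w (h.tf (RC := fun η => (RC η).toPreRes) (RA := RA.toPreRes) H 0 x) = 0) :
    ∃ y : E M (Σ η, (RC η).ι 1), (∀ η, (pe (ι := fun η => (RC η).ι 1) η y) ∈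
      anti (r η) (Singer.ind (a.comp (inj η)) (h.comp_injective η) ((RC η).P 1))) ∧ FS y ∧
      h.xd (fun η => (RC η).toPreRes) 0 y = x := by
  have h1 : ∀ η, cosAug (a.comp (inj η)).range (RC η).w (pe (ι := fun η => (RC η).ι 0) η x) = 0 := by
    refine h.eq_zero _ ?_ ?_
    · intro η
      have h3 := cosAug_rt (s := r η) (h.cj η) (RC η).w (FS.pe (ι := fun η => (RC η).ι 0) η hf)
      have h4 : (r η)⁻¹ = r η := inv_eq_of_mul_eq_one_left (h.rr η)
      rw [← h3, h4, (mem_anti.1 (hx η)).2]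
      exact cosAug_neg _ _ (FS.pe (ι := fun η => (RC η).ι 0) η hf)
    · exact (h.cosAug_tf H (fun η => (mem_anti.1 (hx η)).1) hf).symm.trans hy
  have h2 : ∀ η, ∃ y : E M ((RC η).ι 1), y ∈ anti (r η) (Singer.ind (a.comp (inj η)) (h.comp_injective η)
      ((RC η).P 1)) ∧ FS y ∧ indOp (a.comp (inj η)) ((RC η).mat_d 0) y = pe (ι := fun η => (RC η).ι 0) η x := fun η =>
    PreRes.asy_ex_zero (RC η) (hc := h.comp_injective η) (hr := h.rr η) (hcr := h.comm' η) (hx η)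
      (FS.pe (ι := fun η => (RC η).ι 0) η hf) (h1 η)
  choose y hy1 hy2 hy3 using h2
  refine ⟨∑ η, ie (ι := fun η => (RC η).ι 1) η (y η), ?_, ?_, ?_⟩
  · intro η
    rw [pe_sum_ie]
    exact hy1 η
  · exact FS.sum fun η _ => FS.ie (ι := fun η => (RC η).ι 1) η (hy2 η)
  · refine sig_ext (ι := fun η => (RC η).ι 0) fun η => ?_
    have h3 := h.pe_xd (RC := fun η => (RC η).toPreRes) 0 η (∑ η, ie (ι := fun η => (RC η).ι 1) η (y η))
    rw [pe_sum_ie] at h3
    exact h3.trans (hy3 η)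

/-- elements with prescribed augmentations over the cosets -/
lemma surj_zero {y : E M (RA.ι 0)} (hy : y ∈ Singer.ind a h.ha (RA.P 0)) (hf : FS y) (h0 : eps RA.w y = 0) :
    ∃ x : E M (Σ η, (RC η).ι 0), (∀ η, (pe (ι := fun η => (RC η).ι 0) η x) ∈
      anti (r η) (Singer.ind (a.comp (inj η)) (h.comp_injective η) ((RC η).P 0))) ∧ FS x ∧
      cosAug a.range RA.w (h.tf (RC := fun η => (RC η).toPreRes) (RA := RA.toPreRes) H 0 x) =
        cosAug a.range RA.w y := by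
  obtain ⟨ξ, hξ⟩ := h.exists_lift (cosAug a.range RA.w y) ((cosAug_total a.range RA.w hf).trans h0)
  have h1 : ∀ η, ∃ x : E M ((RC η).ι 0), x ∈ anti (r η) (Singer.ind (a.comp (inj η)) (h.comp_injective η)
      ((RC η).P 0)) ∧ FS x ∧ cosAug (a.comp (inj η)).range (RC η).w x = ξ η - (ξ η).mapDomain (cosMul (h.cj η)) :=
    fun η => PreRes.asy_surj (RC η) (hc := h.comp_injective η) (hr := h.rr η) (hcr := h.comm' η) (h.cj η) (ξ η)
  choose x hx1 hx2 hx3 using h1
  have hpe : ∀ η, pe η (∑ η, ie (ι := fun η => (RC η).ι 0) η (x η)) = x η := fun η => pe_sum_ie _ η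
  have hx : ∀ η, pe η (∑ η, ie (ι := fun η => (RC η).ι 0) η (x η)) ∈
      anti (r η) (Singer.ind (a.comp (inj η)) (h.comp_injective η) ((RC η).P 0)) := by
    intro η
    rw [hpe]
    exact hx1 η
  have hfx : FS (∑ η, ie (ι := fun η => (RC η).ι 0) η (x η)) :=
    FS.sum fun η _ => FS.ie (ι := fun η => (RC η).ι 0) η (hx2 η)
  refine ⟨_, hx, hfx, ?_⟩
  rw [h.cosAug_tf H (fun η => (mem_anti.1 (hx η)).1) hfx, hξ]
  refine Finset.sum_congr rfl fun η _ => ?_
  rw [hpe, hx3]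

end res

/-- exactness of the mapping cone in degree `0` -/
lemma ex_zero {RC : ∀ η, Res.{0} (C η)} {RA : Res.{0} A}
    (H : ∀ η, PreMap ((RC η).toPreRes.ind (inj η) (h.hinj η)) RA.toPreRes)
    {y : E M (RA.ι 0)} (hy : y ∈ Singer.ind a h.ha (RA.P 0)) (hf : FS y) (h0 : eps RA.w y = 0) :
    ∃ x : E M (Σ η, (RC η).ι 0), (∀ η, (pe (ι := fun η => (RC η).ι 0) η x) ∈
      anti (r η) (Singer.ind (a.comp (inj η)) (h.comp_injective η) ((RC η).P 0))) ∧ FS x ∧
      ∃ z : E M (RA.ι 1), z ∈ Singer.ind a h.ha (RA.P 1) ∧ FS z ∧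
      indOp a (RA.mat_d 0) z + h.tf (RC := fun η => (RC η).toPreRes) (RA := RA.toPreRes) H 0 x = y := by
  obtain ⟨x, hx, hfx, h3⟩ := h.surj_zero H hy hf h0
  have hfb : FS (h.tf (RC := fun η => (RC η).toPreRes) (RA := RA.toPreRes) H 0 x) := (h.tf_mat H 0).fs hfx
  have hb : h.tf (RC := fun η => (RC η).toPreRes) (RA := RA.toPreRes) H 0 x ∈ Singer.ind a h.ha (RA.P 0) :=
    h.tf_maps H 0 x (h.mem_XX_P.2 hx)
  have h4 : cosAug a.range RA.w (y - h.tf (RC := fun η => (RC η).toPreRes) (RA := RA.toPreRes) H 0 x) = 0 := by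
    rw [cosAug_sub _ _ hf hfb, h3, sub_self]
  obtain ⟨z, hz, hfz, hdz⟩ := PreRes.ind_ex_zero a h.ha RA (Submodule.sub_mem _ hy hb) (hf.sub hfb) h4
  refine ⟨x, hx, hfx, z, hz, hfz, ?_⟩
  have hdz' : indOp a (RA.mat_d 0) z = y - h.tf (RC := fun η => (RC η).toPreRes) (RA := RA.toPreRes) H 0 x := hdz
  rw [hdz', sub_add_cancel]

/-- **the mapping cone is a resolution** -/
theorem exists_res {RC : ∀ η, Res.{0} (C η)} {RA : Res.{0} A}
    (H : ∀ η, PreMap ((RC η).toPreRes.ind (inj η) (h.hinj η)) RA.toPreRes) :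
    ∃ R : Res.{0} M, R.toPreRes = (h.map (RC := fun η => (RC η).toPreRes) (RA := RA.toPreRes) H).cone := by
  refine ZMap.exists_coneRes (h.map (RC := fun η => (RC η).toPreRes) (RA := RA.toPreRes) H)
    (PreRes.sig_ex fun η => PreRes.asy_ex (RC η)) (PreRes.ind_ex a h.ha RA) ?_ ?_ ?_
  · intro x hx hfx hy
    obtain ⟨y, hy1, hy2, hy3⟩ := hy
    have h1 := h.mem_XX_P.1 hx
    have h2 := PreRes.cosAug_d a h.ha RA.toPreRes hy1 hy2
    obtain ⟨z, hz1, hz2, hz3⟩ := h.inj_zero H h1 hfx ((congrArg (cosAug a.range RA.w) hy3).symm.trans h2)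
    exact ⟨z, h.mem_XX_P.2 hz1, hz2, hz3⟩
  · intro y hy hfy hy0
    obtain ⟨x, hx, hfx, z, hz, hfz, h3⟩ := h.ex_zero H hy hfy hy0
    exact ⟨x, h.mem_XX_P.2 hx, hfx, z, hz, hfz, h3⟩
  · obtain ⟨u, hu, hfu, hu1⟩ := RA.surj
    refine ⟨icj a h.ha u, (icj_mem_ind (RA.inv_P 0)).2 hu, fs_icj a h.ha hfu, ?_⟩
    exact (eps_icj a h.ha _ hfu).trans hu1

end MD

end Singer
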