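import Pool.Agent.Singer.Gen.Tree
import Mathlib.GroupTheory.HNNExtension

/-!
# Singer, general gluing: HNN extensions

`Γ` a group, `C ≤ A` subgroups, `t ∈ Γ` with `t C t⁻¹ ≤ A`: the Bass-Serre tree has the vertices `Γ/A` and the edges
`Γ/C`; the edge `gC` joins `gA` and `g t⁻¹ A`.

* `HSide A C t`: a side set (all vertices on one side of the base edge);
* `HTree.eq_zero`, `HTree.exists_lift`: exactness of `0 → ℂ[Γ/C] → ℂ[Γ/A] → ℂ`;
* `HTree.side`: the side set of Mathlib's `HNNExtension`.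
-/

set_option autoImplicit false

namespace Singer

/-- there is a side set for the HNN extension with vertex group `A`, edge group `C`, stable letter `t` -/
def HSide {Γ : Type*} [Group Γ] (A C : Subgroup Γ) (t : Γ) : Prop :=
  ∃ S : Set Γ, (∀ g ∈ S, ∀ k ∈ A, g * k ∈ S) ∧ (∀ c ∈ C, c ∈ S ∧ c * t⁻¹ ∉ S) ∧
    ∀ g, g ∉ C → (g ∈ S ↔ g * t⁻¹ ∈ S)

namespace HTree

open Subgroup Singer.Tree

variable {Γ : Type*} [Group Γ] {A C : Subgroup Γ} {t : Γ}

/-- the second end point of an edge -/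
def tau (ht : ∀ c ∈ C, t * c * t⁻¹ ∈ A) : Γ ⧸ C → Γ ⧸ A :=
  Quotient.map' (fun g => g * t⁻¹) fun a b hab => by
    rw [QuotientGroup.leftRel_apply] at hab ⊢
    have e : (a * t⁻¹)⁻¹ * (b * t⁻¹) = t * (a⁻¹ * b) * t⁻¹ := by group
    rw [e]
    exact ht _ hab

lemma tau_mk (ht : ∀ c ∈ C, t * c * t⁻¹ ∈ A) (g : Γ) :
    tau ht (QuotientGroup.mk g) = QuotientGroup.mk (g * t⁻¹) := rfl

/-- **T1, injectivity** -/
theorem eq_zero (hS : HSide A C t) (hCA : C ≤ A) (ht : ∀ c ∈ C, t * c * t⁻¹ ∈ A) (φ : (Γ ⧸ C) →₀ ℂ)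
    (h : φ.mapDomain (quotientMapOfLE hCA) = φ.mapDomain (tau ht)) : φ = 0 := by
  classical
  obtain ⟨S, hSA, hCS, hSt⟩ := hS
  ext q
  obtain ⟨g, rfl⟩ := QuotientGroup.mk_surjective q
  set T : Set Γ := {x | g⁻¹ * x ∈ S} with hT
  have hTA : ∀ x ∈ T, ∀ k ∈ A, x * k ∈ T := by
    intro x hx k hk
    show g⁻¹ * (x * k) ∈ S
    rw [← mul_assoc]
    exact hSA _ hx k hk
  have key : ∀ f : Γ ⧸ C → Γ ⧸ A,
      ((φ.mapDomain f).sum fun y c => if y ∈ (QuotientGroup.mk : Γ → Γ ⧸ A) '' T then c else 0)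
      = φ.sum fun x c => if f x ∈ (QuotientGroup.mk : Γ → Γ ⧸ A) '' T then c else 0 := by
    intro f
    apply Finsupp.sum_mapDomain_index
    · intro y
      split_ifs <;> rfl
    · intro y a b
      split_ifs
      · rfl
      · rw [add_zero]
  have h1 := key (quotientMapOfLE hCA)
  rw [h, key (tau ht)] at h1
  have h3 : φ (QuotientGroup.mk g) = φ.sum fun q c => if q = QuotientGroup.mk g then c else 0 := by
    rw [Finsupp.sum_ite_eq']
    split_ifs with h
    · rfl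
    · exact Finsupp.notMem_support_iff.1 h
  have h4 : φ (QuotientGroup.mk g)
      = (φ.sum fun x c => if quotientMapOfLE hCA x ∈ (QuotientGroup.mk : Γ → Γ ⧸ A) '' T then c else 0)
        - (φ.sum fun x c => if tau ht x ∈ (QuotientGroup.mk : Γ → Γ ⧸ A) '' T then c else 0) := by
    rw [h3, ← Finsupp.sum_sub]
    apply Finsupp.sum_congr
    intro q _
    obtain ⟨x, rfl⟩ := QuotientGroup.mk_surjective q
    rw [quotientMapOfLE_apply_mk, tau_mk]
    have e1 := mk_mem_image hTA x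
    have e2 := mk_mem_image hTA (x * t⁻¹)
    have e3 : (QuotientGroup.mk x : Γ ⧸ C) = QuotientGroup.mk g ↔ g⁻¹ * x ∈ C := by
      rw [eq_comm, QuotientGroup.eq]
    rw [if_congr e1 rfl rfl, if_congr e2 rfl rfl, if_congr e3 rfl rfl]
    have e4 : x * t⁻¹ ∈ T ↔ (g⁻¹ * x) * t⁻¹ ∈ S := by
      show g⁻¹ * (x * t⁻¹) ∈ S ↔ _
      rw [mul_assoc]
    by_cases hC : g⁻¹ * x ∈ C
    · have hS' : x ∈ T := (hCS _ hC).1
      have hT' : x * t⁻¹ ∉ T := fun h => (hCS _ hC).2 (e4.1 h)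
      rw [if_pos hC, if_pos hS', if_neg hT', sub_zero]
    · rw [if_neg hC]
      by_cases hx : g⁻¹ * x ∈ S
      · have hS' : x ∈ T := hx
        have hT' : x * t⁻¹ ∈ T := e4.2 ((hSt _ hC).1 hx)
        rw [if_pos hS', if_pos hT', sub_self]
      · have hS' : x ∉ T := hx
        have hT' : x * t⁻¹ ∉ T := fun h => hx ((hSt _ hC).2 (e4.1 h))
        rw [if_neg hS', if_neg hT', sub_self]
  rw [← h1, sub_self] at h4
  rw [h4]
  rfl

/-- the boundary map -/
noncomputable def bd (hCA : C ≤ A) (ht : ∀ c ∈ C, t * c * t⁻¹ ∈ A) : ((Γ ⧸ C) →₀ ℂ) →ₗ[ℂ] ((Γ ⧸ A) →₀ ℂ) :=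
  Finsupp.lmapDomain ℂ ℂ (quotientMapOfLE hCA) - Finsupp.lmapDomain ℂ ℂ (tau ht)

lemma bd_apply (hCA : C ≤ A) (ht : ∀ c ∈ C, t * c * t⁻¹ ∈ A) (φ : (Γ ⧸ C) →₀ ℂ) :
    bd hCA ht φ = φ.mapDomain (quotientMapOfLE hCA) - φ.mapDomain (tau ht) := rfl

lemma single_mem (hCA : C ≤ A) (ht : ∀ c ∈ C, t * c * t⁻¹ ∈ A) (x : Γ) :
    Finsupp.single (QuotientGroup.mk x : Γ ⧸ A) (1 : ℂ) - Finsupp.single (QuotientGroup.mk (x * t⁻¹) : Γ ⧸ A) 1
      ∈ LinearMap.range (bd hCA ht) := by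
  refine ⟨Finsupp.single (QuotientGroup.mk x) 1, ?_⟩
  rw [bd_apply, Finsupp.mapDomain_single, Finsupp.mapDomain_single, quotientMapOfLE_apply_mk, tau_mk]

lemma diff_mem (hCA : C ≤ A) (ht : ∀ c ∈ C, t * c * t⁻¹ ∈ A)
    (hgen : closure ((A : Set Γ) ∪ {t}) = ⊤) (x : Γ) :
    Finsupp.single (QuotientGroup.mk x : Γ ⧸ A) (1 : ℂ) - Finsupp.single (QuotientGroup.mk 1 : Γ ⧸ A) 1
      ∈ LinearMap.range (bd hCA ht) := by
  have hx : x ∈ closure ((A : Set Γ) ∪ {t}) := by
    rw [hgen]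
    exact mem_top x
  have stepA : ∀ (y k : Γ), k ∈ A →
      Finsupp.single (QuotientGroup.mk y : Γ ⧸ A) (1 : ℂ) - Finsupp.single (QuotientGroup.mk 1 : Γ ⧸ A) 1
        ∈ LinearMap.range (bd hCA ht) →
      Finsupp.single (QuotientGroup.mk (y * k) : Γ ⧸ A) (1 : ℂ) - Finsupp.single (QuotientGroup.mk 1 : Γ ⧸ A) 1
        ∈ LinearMap.range (bd hCA ht) := by
    intro y k hk hy
    rw [show (QuotientGroup.mk (y * k) : Γ ⧸ A) = QuotientGroup.mk y from QuotientGroup.mk_mul_of_mem y hk]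
    exact hy
  induction hx using closure_induction_right with
  | one =>
    rw [sub_self]
    exact Submodule.zero_mem _
  | mul_right y _ k hk ih =>
    rcases hk with hk | hk
    · exact stepA y k hk ih
    · rw [Set.mem_singleton_iff] at hk
      subst hk
      have h1 := single_mem hCA ht (y * k)
      rw [mul_inv_cancel_right] at h1
      have h2 := Submodule.add_mem _ h1 ih
      rwa [sub_add_sub_cancel] at h2
  | mul_inv_cancel y _ k hk ih =>
    rcases hk with hk | hk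
    · exact stepA y k⁻¹ (A.inv_mem hk) ih
    · rw [Set.mem_singleton_iff] at hk
      subst hk
      have h1 := single_mem hCA ht y
      have h2 := Submodule.sub_mem _ ih h1
      rwa [sub_sub_sub_cancel_left] at h2

/-- **T2, exactness in the middle** -/
theorem exists_lift (hCA : C ≤ A) (ht : ∀ c ∈ C, t * c * t⁻¹ ∈ A)
    (hgen : closure ((A : Set Γ) ∪ {t}) = ⊤) (α : (Γ ⧸ A) →₀ ℂ) (h : (α.sum fun _ c => c) = 0) :
    ∃ φ : (Γ ⧸ C) →₀ ℂ, φ.mapDomain (quotientMapOfLE hCA) - φ.mapDomain (tau ht) = α := by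
  have h1 := sub_total α (QuotientGroup.mk 1 : Γ ⧸ A)
  rw [h, zero_smul, sub_zero] at h1
  have h2 : α ∈ LinearMap.range (bd hCA ht) := by
    rw [h1]
    apply Submodule.sum_mem
    intro x _
    apply Submodule.smul_mem
    obtain ⟨g, rfl⟩ := QuotientGroup.mk_surjective x
    exact diff_mem hCA ht hgen g
  obtain ⟨φ, hφ⟩ := h2
  exact ⟨φ, hφ⟩

/-! ### Mathlib's `HNNExtension` -/

section hnn
open scoped Classical

variable {G : Type*} [Group G] {P Q : Subgroup G} {θ : P ≃* Q}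

/-- the vertex group -/
def vA (θ : P ≃* Q) : Subgroup (HNNExtension G P Q θ) := (HNNExtension.of (φ := θ)).range

/-- the edge group -/
def vC (θ : P ≃* Q) : Subgroup (HNNExtension G P Q θ) := P.map (HNNExtension.of (φ := θ))

lemma vC_le_vA : vC θ ≤ vA θ := by
  rintro _ ⟨p, _, rfl⟩
  exact ⟨p, rfl⟩

lemma t_conj_mem : ∀ c ∈ vC θ, HNNExtension.t * c * HNNExtension.t⁻¹ ∈ vA θ := by
  rintro _ ⟨p, hp, rfl⟩
  exact ⟨θ ⟨p, hp⟩, HNNExtension.equiv_eq_conj (φ := θ) ⟨p, hp⟩⟩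

lemma closure_eq_top : closure ((vA θ : Set (HNNExtension G P Q θ)) ∪ {HNNExtension.t}) = ⊤ := by
  rw [eq_top_iff]
  intro x _
  induction x using HNNExtension.induction_on with
  | of g => exact subset_closure (Or.inl ⟨g, rfl⟩)
  | t => exact subset_closure (Or.inr rfl)
  | mul x y hx hy => exact mul_mem (hx trivial) (hy trivial)
  | inv x hx => exact inv_mem (hx trivial)

lemma of_mem_vC {g : G} : (HNNExtension.of g : HNNExtension G P Q θ) ∈ vC θ ↔ g ∈ P := by
  constructor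
  · rintro ⟨p, hp, h⟩
    rw [← HNNExtension.of_injective θ h]
    exact hp
  · intro h
    exact ⟨g, h, rfl⟩

/-- left multiplication on the first factor -/
def lft (Γ : Type*) [Group Γ] : Γ →* Equiv.Perm (Γ × Bool) where
  toFun w := ⟨fun x => (w * x.1, x.2), fun x => (w⁻¹ * x.1, x.2), fun x => by simp, fun x => by simp⟩
  map_one' := by ext1 x; show ((1 : Γ) * x.1, x.2) = x; rw [one_mul]
  map_mul' a b := by ext1 x; show (a * b * x.1, x.2) = (a * (b * x.1), x.2); rw [mul_assoc]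

/-- the twisted left multiplication by the stable letter -/
noncomputable def twt {Γ : Type*} [Group Γ] (C : Subgroup Γ) (t : Γ) : Equiv.Perm (Γ × Bool) where
  toFun x := (t * x.1, if x.1 ∈ C then !x.2 else x.2)
  invFun x := (t⁻¹ * x.1, if t⁻¹ * x.1 ∈ C then !x.2 else x.2)
  left_inv x := by
    dsimp only
    rw [inv_mul_cancel_left]
    refine Prod.ext rfl ?_
    dsimp only
    split_ifs <;> simp
  right_inv x := by
    dsimp only
    rw [mul_inv_cancel_left]
    refine Prod.ext rfl ?_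
    dsimp only
    split_ifs <;> simp

variable (θ)

/-- the twisted action -/
noncomputable def rep : HNNExtension G P Q θ →* Equiv.Perm (HNNExtension G P Q θ × Bool) :=
  HNNExtension.lift ((lft (HNNExtension G P Q θ)).comp HNNExtension.of) (twt (vC θ) HNNExtension.t) fun a => by
    ext1 x
    have hm : HNNExtension.of (a : G) * x.1 ∈ vC θ ↔ x.1 ∈ vC θ :=
      Subgroup.mul_mem_cancel_left _ (of_mem_vC.2 a.2)
    show (HNNExtension.t * (HNNExtension.of (a : G) * x.1),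
        if HNNExtension.of (a : G) * x.1 ∈ vC θ then !x.2 else x.2)
      = (HNNExtension.of (θ a : G) * (HNNExtension.t * x.1), if x.1 ∈ vC θ then !x.2 else x.2)
    rw [if_congr hm rfl rfl, ← mul_assoc, ← mul_assoc, HNNExtension.t_mul_of]

variable {θ}

lemma rep_of (g : G) : rep θ (HNNExtension.of g) = lft (HNNExtension G P Q θ) (HNNExtension.of g) := by
  rw [rep, HNNExtension.lift_of]
  rfl

lemma rep_t : rep θ HNNExtension.t = twt (vC θ) HNNExtension.t := by
  rw [rep, HNNExtension.lift_t]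

lemma rep_fst (w : HNNExtension G P Q θ) : ∀ x : HNNExtension G P Q θ × Bool, (rep θ w x).1 = w * x.1 := by
  induction w using HNNExtension.induction_on with
  | of g =>
    intro x
    rw [rep_of]
    rfl
  | t =>
    intro x
    rw [rep_t]
    rfl
  | mul v w hv hw =>
    intro x
    rw [map_mul, Equiv.Perm.mul_apply, hv, hw, mul_assoc]
  | inv w hw =>
    intro x
    have h := hw ((rep θ w)⁻¹ x)
    have e : rep θ w ((rep θ w)⁻¹ x) = x := Equiv.apply_symm_apply (rep θ w) x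
    rw [e] at h
    rw [map_inv, h, inv_mul_cancel_left]

/-- **the side set of an HNN extension** -/
theorem side (θ : P ≃* Q) : HSide (vA θ) (vC θ) (HNNExtension.t : HNNExtension G P Q θ) := by
  set s : HNNExtension G P Q θ → Bool := fun w => (rep θ w (1, true)).2 with hs
  have hrep : ∀ w, rep θ w (1, true) = (w, s w) := fun w => Prod.ext (by rw [rep_fst, mul_one]) rfl
  have hA : ∀ k ∈ vA θ, ∀ w, s (k * w) = s w := by
    rintro _ ⟨g, rfl⟩ w
    show (rep θ (HNNExtension.of g * w) (1, true)).2 = _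
    rw [map_mul, Equiv.Perm.mul_apply, rep_of, hrep]
    rfl
  have h1 : s 1 = true := by
    show (rep θ 1 (1, true)).2 = true
    rw [map_one]
    rfl
  have hA1 : ∀ k ∈ vA θ, s k = true := by
    intro k hk
    have := hA k hk 1
    rwa [mul_one, h1] at this
  have ht : ∀ w, s (HNNExtension.t * w) = if w ∈ vC θ then !(s w) else s w := by
    intro w
    show (rep θ (HNNExtension.t * w) (1, true)).2 = _
    rw [map_mul, Equiv.Perm.mul_apply, rep_t, hrep]
    rfl
  refine ⟨{g | s g⁻¹ = true}, fun g hg k hk => ?_, fun c hc => ⟨?_, fun h => ?_⟩, fun g hg => ?_⟩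
  · show s (g * k)⁻¹ = true
    rw [mul_inv_rev, hA _ (inv_mem hk)]
    exact hg
  · exact hA1 _ (inv_mem (vC_le_vA hc))
  · have h2 : s (c * HNNExtension.t⁻¹)⁻¹ = true := h
    rw [mul_inv_rev, inv_inv, ht, if_pos (inv_mem hc), hA1 _ (inv_mem (vC_le_vA hc))] at h2
    exact absurd h2 (by simp)
  · show s g⁻¹ = true ↔ s (g * HNNExtension.t⁻¹)⁻¹ = true
    rw [mul_inv_rev, inv_inv, ht, if_neg fun h => hg (inv_mem_iff.1 h)]

end hnn

end HTree
end Singer
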