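import Pool.Agent.Singer.Gen.Defs
import Pool.Agent.Singer.TwoSided
import Pool.Agent.Singer.Gen.HnnTree

/-!
# Singer, general gluing: the half-space lemma for one edge (amalgams and HNN extensions)

Bass-Serre tree with one orbit of edges `Γ/C`; the edge `gC` has the ends `g A₁` and `g t⁻¹ A₂` (`t = 1` for an
amalgam, `A₁ = A₂` for an HNN extension). `ESide C t S₁ S₂`: `S₁` (`S₂`) is the set of the `g` with `g A₁` (`g A₂`) on the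
side of the first end of the base edge.

`edge_sided`: if `N ⊆ ℓ²(Γ × ι) ⊕ ℓ²(Γ × ι)` is stable under the cut by `(S₁, S₂)` and
`dim (N ⊓ (V ⊕ rt t V)) ≤ dim V` for all `C`-local `V ⊆ X`, then `(y, -rt t y) ∈ N`, `y ∈ X` implies `y = 0`.
-/

set_option autoImplicit false
set_option linter.unusedSectionVars false
set_option linter.unusedVariables false

open scoped ComplexConjugate InnerProductSpace
open Filter Topology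

namespace Singer

/-- the side sets of an edge -/
structure ESide {Γ : Type*} [Group Γ] (C : Subgroup Γ) (t : Γ) (S₁ S₂ : Set Γ) : Prop where
  inv1 : ∀ g ∈ S₁, ∀ c ∈ C, g * c ∈ S₁
  inv2 : ∀ g ∈ S₂, ∀ c ∈ C, g * (t * c * t⁻¹) ∈ S₂
  mem1 : ∀ c ∈ C, c ∈ S₁
  mem2 : ∀ c ∈ C, c * t⁻¹ ∉ S₂
  iff : ∀ g, g ∉ C → (g ∈ S₁ ↔ g * t⁻¹ ∈ S₂)

namespace Edge

section rtmdl
variable {Γ : Type*} [Group Γ] {ι : Type*}

lemma map_rt_eq_comap (t : Γ) (V : Submodule ℂ (E Γ ι)) :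
    V.map ((rt t : E Γ ι →L[ℂ] E Γ ι) : E Γ ι →ₗ[ℂ] E Γ ι) =
      V.comap ((rt t⁻¹ : E Γ ι →L[ℂ] E Γ ι) : E Γ ι →ₗ[ℂ] E Γ ι) := by
  ext f
  constructor
  · rintro ⟨v, hv, rfl⟩
    show rt t⁻¹ (rt t v) ∈ V
    rw [rt_rt, inv_mul_cancel, rt_one]
    exact hv
  · intro hf
    refine ⟨rt t⁻¹ f, hf, ?_⟩
    show rt t (rt t⁻¹ f) = f
    rw [rt_rt, mul_inv_cancel, rt_one]

lemma mdl_map_rt (t : Γ) {V : Submodule ℂ (E Γ ι)} (hV : Mdl V) :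
    Mdl (V.map ((rt t : E Γ ι →L[ℂ] E Γ ι) : E Γ ι →ₗ[ℂ] E Γ ι)) := by
  rw [map_rt_eq_comap]
  exact ⟨hV.inv.comap (equi_rt t⁻¹), hV.cl.preimage (rt t⁻¹).continuous⟩

lemma mem_map_rt {t : Γ} {V : Submodule ℂ (E Γ ι)} {f : E Γ ι} :
    f ∈ V.map ((rt t : E Γ ι →L[ℂ] E Γ ι) : E Γ ι →ₗ[ℂ] E Γ ι) ↔ rt t⁻¹ f ∈ V := by
  rw [map_rt_eq_comap]
  rfl

lemma vdim_map_rt [Fintype ι] (t : Γ) {V : Submodule ℂ (E Γ ι)} (hV : Mdl V) :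
    vdim (V.map ((rt t : E Γ ι →L[ℂ] E Γ ι) : E Γ ι →ₗ[ℂ] E Γ ι)) = vdim V := by
  have h1 := vdim_map_add (equi_rt (ι := ι) t) hV.inv hV.cl
  have h2 : V ⊓ LinearMap.ker ((rt t : E Γ ι →L[ℂ] E Γ ι) : E Γ ι →ₗ[ℂ] E Γ ι) = ⊥ := by
    rw [eq_bot_iff]
    rintro f ⟨_, hf⟩
    have h3 : rt t f = 0 := hf
    rw [Submodule.mem_bot, ← norm_eq_zero, ← norm_rt t, h3, norm_zero]
  rw [h2, vdim_bot, add_zero] at h1
  exact h1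

/-- conjugate subgroup -/
def cj (t : Γ) (C : Subgroup Γ) : Subgroup Γ := C.map (MulAut.conj t).toMonoidHom

lemma mem_cj {t : Γ} {C : Subgroup Γ} {g : Γ} : g ∈ cj t C ↔ t⁻¹ * g * t ∈ C := by
  constructor
  · rintro ⟨c, hc, rfl⟩
    show t⁻¹ * (t * c * t⁻¹) * t ∈ C
    have : t⁻¹ * (t * c * t⁻¹) * t = c := by group
    rw [this]
    exact hc
  · intro h
    refine ⟨_, h, ?_⟩
    show t * (t⁻¹ * g * t) * t⁻¹ = g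
    group

/-- right translation by `t` turns `C`-local modules into `t C t⁻¹`-local modules -/
lemma loc_map_rt (t : Γ) {C : Subgroup Γ} {V : Submodule ℂ (E Γ ι)} (hV : Mdl V) (hl : Loc C V) :
    Loc (cj t C) (V.map ((rt t : E Γ ι →L[ℂ] E Γ ι) : E Γ ι →ₗ[ℂ] E Γ ι)) := by
  intro f hf
  rw [mem_map_rt] at hf ⊢
  rw [rt_cut]
  refine hl.cut_mem hV.inv hV.cl ?_ hf
  intro s hs c hc
  have hs' : s * t⁻¹ ∈ cj t C := hs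
  show s * c * t⁻¹ ∈ cj t C
  have e : s * c * t⁻¹ = s * t⁻¹ * (t * c * t⁻¹) := by group
  rw [e]
  refine (cj t C).mul_mem hs' (mem_cj.2 ?_)
  have e2 : t⁻¹ * (t * c * t⁻¹) * t = c := by group
  rw [e2]
  exact hc

end rtmdl

/-- side sets from the two-sided side sets of an amalgam -/
lemma eside_of_side {Γ : Type*} [Group Γ] {A B C : Subgroup Γ} (hCA : C ≤ A) (hCB : C ≤ B) (h : Side A B C) :
    ∃ S₁ S₂ : Set Γ, ESide C 1 S₁ S₂ ∧ (∀ g ∈ S₁, ∀ a ∈ A, g * a ∈ S₁) ∧ ∀ g ∈ S₂, ∀ b ∈ B, g * b ∈ S₂ := by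
  obtain ⟨S, hSA, hCS, hSB⟩ := h
  have hB : ∀ g ∈ S \ (C : Set Γ), ∀ b ∈ B, g * b ∈ S \ (C : Set Γ) := fun g hg b hb => hSB g hg.1 hg.2 b hb
  refine ⟨S, S \ (C : Set Γ), ⟨fun g hg c hc => hSA g hg c (hCA hc), fun g hg c hc => ?_, hCS, fun c hc h => ?_,
    fun g hg => ?_⟩, hSA, hB⟩
  · rw [inv_one, mul_one, one_mul]
    exact hB g hg c (hCB hc)
  · rw [inv_one, mul_one] at h
    exact h.2 hc
  · rw [inv_one, mul_one]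
    exact ⟨fun h => ⟨h, hg⟩, fun h => h.1⟩

/-- side sets of an HNN extension -/
lemma eside_of_hside {Γ : Type*} [Group Γ] {A C : Subgroup Γ} {t : Γ} (hCA : C ≤ A) (ht : ∀ c ∈ C, t * c * t⁻¹ ∈ A)
    (h : HSide A C t) : ∃ S : Set Γ, ESide C t S S ∧ ∀ g ∈ S, ∀ a ∈ A, g * a ∈ S := by
  obtain ⟨S, hSA, hCS, hSt⟩ := h
  exact ⟨S, ⟨fun g hg c hc => hSA g hg c (hCA hc), fun g hg c hc => hSA g hg _ (ht c hc), fun c hc => (hCS c hc).1,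
    fun c hc => (hCS c hc).2, hSt⟩, hSA⟩

section main
variable {Γ : Type*} [Group Γ] {ι : Type*} [Fintype ι]

/-- `y ↦ (y, -rt t y)` -/
noncomputable def dia (t : Γ) : E Γ ι →L[ℂ] E Γ (ι ⊕ ι) := il - ir.comp (rt t)

lemma dia_apply (t : Γ) (y : E Γ ι) : dia t y = il y - ir (rt t y) := rfl

lemma fs_dia (t : Γ) (y : E Γ ι) : fs (dia t y) = y := by
  rw [dia_apply, map_sub, fs_il, fs_ir, sub_zero]

lemma sn_dia (t : Γ) (y : E Γ ι) : sn (dia t y) = -rt t y := by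
  rw [dia_apply, map_sub, sn_il, sn_ir, zero_sub]

lemma equi_dia (t : Γ) : Equi (dia t : E Γ ι →L[ℂ] E Γ (ι ⊕ ι)) := equi_il.sub (equi_ir.comp (equi_rt t))

/-- `(x₁, x₂) ↦ x₁ + rt t⁻¹ x₂` -/
noncomputable def glu (t : Γ) : E Γ (ι ⊕ ι) →L[ℂ] E Γ ι := fs + (rt t⁻¹).comp sn

lemma glu_apply (t : Γ) (f : E Γ (ι ⊕ ι)) : glu t f = fs f + rt t⁻¹ (sn f) := rfl

lemma equi_glu (t : Γ) : Equi (glu t : E Γ (ι ⊕ ι) →L[ℂ] E Γ ι) := equi_fs.add ((equi_rt t⁻¹).comp equi_sn)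

lemma glu_dia (t : Γ) (y : E Γ ι) : glu t (dia t y) = 0 := by
  rw [glu_apply, fs_dia, sn_dia, map_neg, rt_rt, inv_mul_cancel, rt_one, add_neg_cancel]

/-- the cut -/
noncomputable def cut2 (S₁ S₂ : Set Γ) : E Γ (ι ⊕ ι) →L[ℂ] E Γ (ι ⊕ ι) :=
  (il.comp (cut S₁)).comp fs + (ir.comp (cut S₂)).comp sn

lemma cut2_apply (S₁ S₂ : Set Γ) (f : E Γ (ι ⊕ ι)) : cut2 S₁ S₂ f = il (cut S₁ (fs f)) + ir (cut S₂ (sn f)) := rfl

lemma fs_cut2 (S₁ S₂ : Set Γ) (f : E Γ (ι ⊕ ι)) : fs (cut2 S₁ S₂ f) = cut S₁ (fs f) := by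
  rw [cut2_apply, map_add, fs_il, fs_ir, add_zero]

lemma sn_cut2 (S₁ S₂ : Set Γ) (f : E Γ (ι ⊕ ι)) : sn (cut2 S₁ S₂ f) = cut S₂ (sn f) := by
  rw [cut2_apply, map_add, sn_il, sn_ir, zero_add]

lemma glu_cut2 {C : Subgroup Γ} {t : Γ} {S₁ S₂ : Set Γ} (hS : ESide C t S₁ S₂) (y : E Γ ι) :
    glu t (cut2 S₁ S₂ (dia t y)) = cut (C : Set Γ) y := by
  rw [glu_apply, fs_cut2, sn_cut2, fs_dia, sn_dia, map_neg, map_neg, rt_cut, rt_rt, inv_mul_cancel, rt_one]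
  ext x
  rw [lp.coeFn_add, Pi.add_apply, lp.coeFn_neg, Pi.neg_apply]
  by_cases hx : x.1 ∈ C
  · have h1 : x.1 ∉ {x | x * t⁻¹ ∈ S₂} := hS.mem2 _ hx
    rw [cut_apply_mem (hS.mem1 _ hx), cut_apply_notMem h1, cut_apply_mem (by exact hx), neg_zero, add_zero]
  · rw [cut_apply_notMem (S := (C : Set Γ)) (by exact hx)]
    by_cases h1 : x.1 ∈ S₁
    · have h2 : x.1 ∈ {x | x * t⁻¹ ∈ S₂} := (hS.iff _ hx).1 h1
      rw [cut_apply_mem h1, cut_apply_mem h2, add_neg_cancel]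
    · have h2 : x.1 ∉ {x | x * t⁻¹ ∈ S₂} := fun h => h1 ((hS.iff _ hx).2 h)
      rw [cut_apply_notMem h1, cut_apply_notMem h2, neg_zero, add_zero]

/-- **the half-space lemma for one edge** -/
theorem edge_sided {C : Subgroup Γ} {t : Γ} {S₁ S₂ : Set Γ} (hS : ESide C t S₁ S₂) {X : Submodule ℂ (E Γ ι)}
    (hX : Mdl X) (hlX : Loc C X) {N : Submodule ℂ (E Γ (ι ⊕ ι))} (hN : Mdl N) (hcut : ∀ f ∈ N, cut2 S₁ S₂ f ∈ N)
    (hs : ∀ V : Submodule ℂ (E Γ ι), Mdl V → Loc C V → V ≤ X →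
      vdim (N ⊓ pr V (V.map ((rt t : E Γ ι →L[ℂ] E Γ ι) : E Γ ι →ₗ[ℂ] E Γ ι))) ≤ vdim V)
    {y : E Γ ι} (hy : y ∈ X) (hyN : dia t y ∈ N) : y = 0 := by
  set Y : Submodule ℂ (E Γ ι) := X ⊓ N.comap ((dia t : E Γ ι →L[ℂ] E Γ (ι ⊕ ι)) : E Γ ι →ₗ[ℂ] E Γ (ι ⊕ ι)) with hYdef
  have hY : Mdl Y := ⟨hX.inv.inf (hN.inv.comap (equi_dia t)), hX.cl.inter (hN.cl.preimage (dia t).continuous)⟩
  set W : Submodule ℂ (E Γ ι) := (tsHull C Y).topologicalClosure with hWdef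
  have hW : Mdl W := Mdl.closure (tsHull_inv C _)
  have hlW : Loc C W := ts_loc_closure (tsHull_cut C _)
  have hYW : Y ≤ W := le_tsHull hY.inv
  have hWX : W ≤ X := by
    refine Submodule.topologicalClosure_minimal _ (Submodule.span_le.2 ?_) hX.cl
    rintro _ ⟨g, n, hn, rfl⟩
    exact hX.inv g _ (hlX n hn.1)
  set M : Submodule ℂ (E Γ (ι ⊕ ι)) :=
    N ⊓ pr W (W.map ((rt t : E Γ ι →L[ℂ] E Γ ι) : E Γ ι →ₗ[ℂ] E Γ ι)) with hMdef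
  have hM : Mdl M := hN.inf (hW.pr (mdl_map_rt t hW))
  have h1 := vdim_map_add (equi_glu (ι := ι) t) hM.inv hM.cl
  have h2 := vdim_map_add (equi_dia (ι := ι) t) hY.inv hY.cl
  have h3 : Y ⊓ LinearMap.ker ((dia t : E Γ ι →L[ℂ] E Γ (ι ⊕ ι)) : E Γ ι →ₗ[ℂ] E Γ (ι ⊕ ι)) = ⊥ := by
    rw [eq_bot_iff]
    rintro f ⟨_, hf⟩
    have h3 : dia t f = 0 := hf
    rw [Submodule.mem_bot, ← fs_dia t f, h3, map_zero]
  rw [h3, vdim_bot, add_zero] at h2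
  have h4 : Y.map ((dia t : E Γ ι →L[ℂ] E Γ (ι ⊕ ι)) : E Γ ι →ₗ[ℂ] E Γ (ι ⊕ ι)) ≤
      M ⊓ LinearMap.ker ((glu t : E Γ (ι ⊕ ι) →L[ℂ] E Γ ι) : E Γ (ι ⊕ ι) →ₗ[ℂ] E Γ ι) := by
    rintro _ ⟨f, hf, rfl⟩
    refine ⟨⟨hf.2, ?_, ?_⟩, ?_⟩
    · show fs (dia t f) ∈ W
      rw [fs_dia]
      exact hYW hf
    · show sn (dia t f) ∈ W.map ((rt t : E Γ ι →L[ℂ] E Γ ι) : E Γ ι →ₗ[ℂ] E Γ ι)
      rw [sn_dia]
      exact Submodule.neg_mem _ ⟨f, hYW hf, rfl⟩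
    · exact glu_dia t f
  have h5 : tsHull C Y ≤ M.map ((glu t : E Γ (ι ⊕ ι) →L[ℂ] E Γ ι) : E Γ (ι ⊕ ι) →ₗ[ℂ] E Γ ι) := by
    refine Submodule.span_le.2 ?_
    rintro _ ⟨g, n, hn, rfl⟩
    refine (hM.inv.map (equi_glu t)) g _ ⟨cut2 S₁ S₂ (dia t n), ⟨hcut _ hn.2, ?_, ?_⟩, glu_cut2 hS n⟩
    · show fs (cut2 S₁ S₂ (dia t n)) ∈ W
      rw [fs_cut2, fs_dia]
      exact ts_cut_mem hW hlW hS.inv1 (hYW hn)
    · show sn (cut2 S₁ S₂ (dia t n)) ∈ W.map ((rt t : E Γ ι →L[ℂ] E Γ ι) : E Γ ι →ₗ[ℂ] E Γ ι)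
      rw [sn_cut2, sn_dia, map_neg]
      refine Submodule.neg_mem _ (mem_map_rt.2 ?_)
      rw [rt_cut, rt_rt, inv_mul_cancel, rt_one]
      refine ts_cut_mem hW hlW ?_ (hYW hn)
      intro s hs' c hc
      have hs2 : s * t⁻¹ ∈ S₂ := hs'
      show s * c * t⁻¹ ∈ S₂
      have e : s * c * t⁻¹ = s * t⁻¹ * (t * c * t⁻¹) := by group
      rw [e]
      exact hS.inv2 _ hs2 c hc
  have h6 := vdim_mono h4
  have h7 := vdim_mono h5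
  have h8 : vdim W = vdim (tsHull C Y) := by rw [hWdef, vdim_closure]
  have h9 := hs W hW hlW hWX
  have h10 : Y = ⊥ := eq_bot_of_vdim hY.inv (by linarith)
  have h11 : y ∈ Y := ⟨hy, hyN⟩
  rw [h10, Submodule.mem_bot] at h11
  exact h11

end main

end Edge
end Singer
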