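import Pool.Agent.Singer.Defs

/-!
# Singer, general gluing: exactness of `ℂ[Γ/C] → ℂ[Γ/A] ⊕ ℂ[Γ/B] → ℂ`

* `Tree.eq_zero`: injectivity of the first map, from a side set of the amalgam;
* `Tree.exists_lift`: exactness in the middle, from `Γ = ⟨A, B⟩`.
-/

set_option autoImplicit false

namespace Singer
namespace Tree

open Subgroup

variable {Γ : Type*} [Group Γ] {A B C : Subgroup Γ}

/-- a finitely supported function with vanishing push-forward has vanishing sums over preimages -/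
lemma sum_ite_zero {X Y : Type*} (f : X → Y) (φ : X →₀ ℂ) (T : Set Y) [DecidablePred (· ∈ T)]
    (h : φ.mapDomain f = 0) : (φ.sum fun x c => if f x ∈ T then c else 0) = 0 := by
  have h1 : ((φ.mapDomain f).sum fun y c => if y ∈ T then c else 0)
      = φ.sum fun x c => if f x ∈ T then c else 0 := by
    apply Finsupp.sum_mapDomain_index
    · intro y
      split_ifs <;> rfl
    · intro y a b
      split_ifs
      · rfl
      · rw [add_zero]
  rw [← h1, h, Finsupp.sum_zero_index]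

/-- membership in the image of an invariant set -/
lemma mk_mem_image {H : Subgroup Γ} {T : Set Γ} (hT : ∀ g ∈ T, ∀ k ∈ H, g * k ∈ T) (x : Γ) :
    (QuotientGroup.mk x : Γ ⧸ H) ∈ (QuotientGroup.mk : Γ → Γ ⧸ H) '' T ↔ x ∈ T := by
  constructor
  · rintro ⟨y, hy, hxy⟩
    have := hT y hy _ (QuotientGroup.eq.1 hxy)
    rwa [mul_inv_cancel_left] at this
  · intro hx
    exact ⟨x, hx, rfl⟩

/-- **T1, injectivity** -/
theorem eq_zero (hS : Side A B C) (hCA : C ≤ A) (hCB : C ≤ B) (φ : (Γ ⧸ C) →₀ ℂ)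
    (hA : φ.mapDomain (quotientMapOfLE hCA) = 0) (hB : φ.mapDomain (quotientMapOfLE hCB) = 0) :
    φ = 0 := by
  classical
  obtain ⟨S, hSA, hCS, hSB⟩ := hS
  ext q
  obtain ⟨g, rfl⟩ := QuotientGroup.mk_surjective q
  set T₁ : Set Γ := {x | g⁻¹ * x ∈ S} with hT₁
  set T₂ : Set Γ := {x | g⁻¹ * x ∈ S ∧ g⁻¹ * x ∉ C} with hT₂
  have hT₁A : ∀ x ∈ T₁, ∀ k ∈ A, x * k ∈ T₁ := by
    intro x hx k hk
    show g⁻¹ * (x * k) ∈ S
    rw [← mul_assoc]
    exact hSA _ hx k hk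
  have hT₂B : ∀ x ∈ T₂, ∀ k ∈ B, x * k ∈ T₂ := by
    intro x hx k hk
    show g⁻¹ * (x * k) ∈ S ∧ g⁻¹ * (x * k) ∉ C
    rw [← mul_assoc]
    exact hSB _ hx.1 hx.2 k hk
  have h1 := sum_ite_zero (quotientMapOfLE hCA) φ
    ((QuotientGroup.mk : Γ → Γ ⧸ A) '' T₁) hA
  have h2 := sum_ite_zero (quotientMapOfLE hCB) φ
    ((QuotientGroup.mk : Γ → Γ ⧸ B) '' T₂) hB
  have h3 : φ (QuotientGroup.mk g) = φ.sum fun q c => if q = QuotientGroup.mk g then c else 0 := by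
    rw [Finsupp.sum_ite_eq']
    split_ifs with h
    · rfl
    · exact Finsupp.notMem_support_iff.1 h
  have h4 : φ (QuotientGroup.mk g)
      = (φ.sum fun x c => if quotientMapOfLE hCA x ∈ (QuotientGroup.mk : Γ → Γ ⧸ A) '' T₁ then c else 0)
        - (φ.sum fun x c => if quotientMapOfLE hCB x ∈ (QuotientGroup.mk : Γ → Γ ⧸ B) '' T₂ then c else 0) := by
    rw [h3, ← Finsupp.sum_sub]
    apply Finsupp.sum_congr
    intro q _
    obtain ⟨x, rfl⟩ := QuotientGroup.mk_surjective q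
    rw [quotientMapOfLE_apply_mk, quotientMapOfLE_apply_mk]
    have e1 := mk_mem_image hT₁A x
    have e2 := mk_mem_image hT₂B x
    have e3 : (QuotientGroup.mk x : Γ ⧸ C) = QuotientGroup.mk g ↔ g⁻¹ * x ∈ C := by
      rw [eq_comm, QuotientGroup.eq]
    rw [if_congr e1 rfl rfl, if_congr e2 rfl rfl, if_congr e3 rfl rfl]
    by_cases hC : g⁻¹ * x ∈ C
    · have hS' : x ∈ T₁ := hCS _ hC
      have hT' : x ∉ T₂ := fun h => h.2 hC
      rw [if_pos hC, if_pos hS', if_neg hT', sub_zero]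
    · rw [if_neg hC]
      by_cases hx : g⁻¹ * x ∈ S
      · have hS' : x ∈ T₁ := hx
        have hT' : x ∈ T₂ := ⟨hx, hC⟩
        rw [if_pos hS', if_pos hT', sub_self]
      · have hS' : x ∉ T₁ := hx
        have hT' : x ∉ T₂ := fun h => hx h.1
        rw [if_neg hS', if_neg hT', sub_self]
  rw [h1, h2, sub_zero] at h4
  rw [h4]
  rfl

/-- the pair of push-forwards -/
noncomputable def pr (hCA : C ≤ A) (hCB : C ≤ B) :
    ((Γ ⧸ C) →₀ ℂ) →ₗ[ℂ] ((Γ ⧸ A) →₀ ℂ) × ((Γ ⧸ B) →₀ ℂ) :=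
  (Finsupp.lmapDomain ℂ ℂ (quotientMapOfLE hCA)).prod (Finsupp.lmapDomain ℂ ℂ (quotientMapOfLE hCB))

lemma pr_apply (hCA : C ≤ A) (hCB : C ≤ B) (φ : (Γ ⧸ C) →₀ ℂ) :
    pr hCA hCB φ = (φ.mapDomain (quotientMapOfLE hCA), φ.mapDomain (quotientMapOfLE hCB)) := rfl

lemma single_mem (hCA : C ≤ A) (hCB : C ≤ B) (x : Γ) :
    (Finsupp.single (QuotientGroup.mk x : Γ ⧸ A) (1 : ℂ), Finsupp.single (QuotientGroup.mk x : Γ ⧸ B) (1 : ℂ))
      ∈ LinearMap.range (pr hCA hCB) := by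
  refine ⟨Finsupp.single (QuotientGroup.mk x) 1, ?_⟩
  rw [pr_apply, Finsupp.mapDomain_single, Finsupp.mapDomain_single, quotientMapOfLE_apply_mk,
    quotientMapOfLE_apply_mk]

lemma left_mem (hCA : C ≤ A) (hCB : C ≤ B) (hgen : closure ((A : Set Γ) ∪ B) = ⊤) (x : Γ) :
    ((Finsupp.single (QuotientGroup.mk x : Γ ⧸ A) (1 : ℂ) - Finsupp.single (QuotientGroup.mk 1 : Γ ⧸ A) (1 : ℂ),
      (0 : (Γ ⧸ B) →₀ ℂ)) : ((Γ ⧸ A) →₀ ℂ) × ((Γ ⧸ B) →₀ ℂ)) ∈ LinearMap.range (pr hCA hCB) := by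
  have hx : x ∈ closure ((A : Set Γ) ∪ B) := by
    rw [hgen]
    exact mem_top x
  have step : ∀ (y k : Γ), (k ∈ A ∨ k ∈ B) →
      ((Finsupp.single (QuotientGroup.mk y : Γ ⧸ A) (1 : ℂ) - Finsupp.single (QuotientGroup.mk 1 : Γ ⧸ A) (1 : ℂ),
      (0 : (Γ ⧸ B) →₀ ℂ)) : ((Γ ⧸ A) →₀ ℂ) × ((Γ ⧸ B) →₀ ℂ)) ∈ LinearMap.range (pr hCA hCB) →
      ((Finsupp.single (QuotientGroup.mk (y * k) : Γ ⧸ A) (1 : ℂ) - Finsupp.single (QuotientGroup.mk 1 : Γ ⧸ A) (1 : ℂ),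
      (0 : (Γ ⧸ B) →₀ ℂ)) : ((Γ ⧸ A) →₀ ℂ) × ((Γ ⧸ B) →₀ ℂ)) ∈ LinearMap.range (pr hCA hCB) := by
    rintro y k (hk | hk) hy
    · have e : (QuotientGroup.mk (y * k) : Γ ⧸ A) = QuotientGroup.mk y :=
        QuotientGroup.mk_mul_of_mem y hk
      rw [e]
      exact hy
    · have e : (QuotientGroup.mk (y * k) : Γ ⧸ B) = QuotientGroup.mk y :=
        QuotientGroup.mk_mul_of_mem y hk
      have h1 := single_mem hCA hCB (y * k)
      have h2 := single_mem hCA hCB y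
      rw [e] at h1
      have h3 := Submodule.add_mem _ (Submodule.sub_mem _ h1 h2) hy
      convert h3 using 1
      ext1
      · show _ = Finsupp.single (QuotientGroup.mk (y * k) : Γ ⧸ A) (1 : ℂ) - Finsupp.single (QuotientGroup.mk y) 1
          + (Finsupp.single (QuotientGroup.mk y) 1 - Finsupp.single (QuotientGroup.mk 1) 1)
        rw [sub_add_sub_cancel]
      · show _ = Finsupp.single (QuotientGroup.mk y : Γ ⧸ B) (1 : ℂ) - Finsupp.single (QuotientGroup.mk y) 1 + 0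
        simp
  induction hx using closure_induction_right with
  | one =>
    rw [sub_self]
    exact Submodule.zero_mem _
  | mul_right y _ k hk ih => exact step y k hk ih
  | mul_inv_cancel y _ k hk ih =>
    refine step y k⁻¹ ?_ ih
    rcases hk with hk | hk
    · exact Or.inl (A.inv_mem hk)
    · exact Or.inr (B.inv_mem hk)

lemma right_mem (hCA : C ≤ A) (hCB : C ≤ B) (hgen : closure ((A : Set Γ) ∪ B) = ⊤) (x : Γ) :
    (((0 : (Γ ⧸ A) →₀ ℂ),
      Finsupp.single (QuotientGroup.mk x : Γ ⧸ B) (1 : ℂ) - Finsupp.single (QuotientGroup.mk 1 : Γ ⧸ B) (1 : ℂ)) :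
      ((Γ ⧸ A) →₀ ℂ) × ((Γ ⧸ B) →₀ ℂ)) ∈ LinearMap.range (pr hCA hCB) := by
  have h1 := single_mem hCA hCB x
  have h2 := single_mem hCA hCB 1
  have h3 := Submodule.sub_mem _ (Submodule.sub_mem _ h1 h2) (left_mem hCA hCB hgen x)
  convert h3 using 1
  ext1
  · show _ = Finsupp.single (QuotientGroup.mk x : Γ ⧸ A) (1 : ℂ) - Finsupp.single (QuotientGroup.mk 1) 1
      - (Finsupp.single (QuotientGroup.mk x) 1 - Finsupp.single (QuotientGroup.mk 1) 1)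
    rw [sub_self]
  · show _ = Finsupp.single (QuotientGroup.mk x : Γ ⧸ B) (1 : ℂ) - Finsupp.single (QuotientGroup.mk 1) 1 - 0
    rw [sub_zero]

/-- a finitely supported function, minus its total mass at one point -/
lemma sub_total {X : Type*} (α : X →₀ ℂ) (x₀ : X) :
    α - (α.sum fun _ c => c) • Finsupp.single x₀ (1 : ℂ)
      = α.sum fun x c => c • (Finsupp.single x (1 : ℂ) - Finsupp.single x₀ 1) := by
  have h1 : (α.sum fun x c => c • (Finsupp.single x (1 : ℂ) - Finsupp.single x₀ 1))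
      = (α.sum fun x c => Finsupp.single x c) - α.sum fun _ c => c • Finsupp.single x₀ (1 : ℂ) := by
    rw [← Finsupp.sum_sub]
    apply Finsupp.sum_congr
    intro x _
    rw [smul_sub, Finsupp.smul_single, smul_eq_mul, mul_one]
  rw [h1, Finsupp.sum_single, Finsupp.sum, Finsupp.sum, Finset.sum_smul]

/-- **T2, exactness in the middle** -/
theorem exists_lift (hCA : C ≤ A) (hCB : C ≤ B) (hgen : closure ((A : Set Γ) ∪ B) = ⊤)
    (α : (Γ ⧸ A) →₀ ℂ) (β : (Γ ⧸ B) →₀ ℂ)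
    (h : (α.sum fun _ c => c) + (β.sum fun _ c => c) = 0) :
    ∃ φ : (Γ ⧸ C) →₀ ℂ, φ.mapDomain (quotientMapOfLE hCA) = α ∧
      φ.mapDomain (quotientMapOfLE hCB) = -β := by
  set M := LinearMap.range (pr hCA hCB) with hM
  set a : ℂ := α.sum fun _ c => c with ha
  set b : ℂ := β.sum fun _ c => c with hb
  -- the left part
  have hl : ((α - a • Finsupp.single (QuotientGroup.mk 1 : Γ ⧸ A) (1 : ℂ), (0 : (Γ ⧸ B) →₀ ℂ)) :
      ((Γ ⧸ A) →₀ ℂ) × ((Γ ⧸ B) →₀ ℂ)) ∈ M := by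
    rw [ha, sub_total]
    have e : (((α.sum fun x c => c • (Finsupp.single x (1 : ℂ)
        - Finsupp.single (QuotientGroup.mk 1 : Γ ⧸ A) 1)), (0 : (Γ ⧸ B) →₀ ℂ)) :
        ((Γ ⧸ A) →₀ ℂ) × ((Γ ⧸ B) →₀ ℂ))
        = α.sum fun x c => c • (((Finsupp.single x (1 : ℂ)
            - Finsupp.single (QuotientGroup.mk 1 : Γ ⧸ A) 1), (0 : (Γ ⧸ B) →₀ ℂ)) :
            ((Γ ⧸ A) →₀ ℂ) × ((Γ ⧸ B) →₀ ℂ)) := by
      have e1 := map_finsuppSum (LinearMap.inl ℂ ((Γ ⧸ A) →₀ ℂ) ((Γ ⧸ B) →₀ ℂ)) α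
        (fun x c => c • (Finsupp.single x (1 : ℂ) - Finsupp.single (QuotientGroup.mk 1 : Γ ⧸ A) 1))
      rw [LinearMap.inl_apply] at e1
      rw [e1]
      apply Finsupp.sum_congr
      intro x _
      rw [map_smul, LinearMap.inl_apply]
    rw [e]
    apply Submodule.sum_mem
    intro x _
    apply Submodule.smul_mem
    obtain ⟨g, rfl⟩ := QuotientGroup.mk_surjective x
    exact left_mem hCA hCB hgen g
  have hr : (((0 : (Γ ⧸ A) →₀ ℂ), β - b • Finsupp.single (QuotientGroup.mk 1 : Γ ⧸ B) (1 : ℂ)) :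
      ((Γ ⧸ A) →₀ ℂ) × ((Γ ⧸ B) →₀ ℂ)) ∈ M := by
    rw [hb, sub_total]
    have e : (((0 : (Γ ⧸ A) →₀ ℂ), (β.sum fun x c => c • (Finsupp.single x (1 : ℂ)
        - Finsupp.single (QuotientGroup.mk 1 : Γ ⧸ B) 1))) :
        ((Γ ⧸ A) →₀ ℂ) × ((Γ ⧸ B) →₀ ℂ))
        = β.sum fun x c => c • (((0 : (Γ ⧸ A) →₀ ℂ), (Finsupp.single x (1 : ℂ)
            - Finsupp.single (QuotientGroup.mk 1 : Γ ⧸ B) 1)) :
            ((Γ ⧸ A) →₀ ℂ) × ((Γ ⧸ B) →₀ ℂ)) := by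
      have e1 := map_finsuppSum (LinearMap.inr ℂ ((Γ ⧸ A) →₀ ℂ) ((Γ ⧸ B) →₀ ℂ)) β
        (fun x c => c • (Finsupp.single x (1 : ℂ) - Finsupp.single (QuotientGroup.mk 1 : Γ ⧸ B) 1))
      rw [LinearMap.inr_apply] at e1
      rw [e1]
      apply Finsupp.sum_congr
      intro x _
      rw [map_smul, LinearMap.inr_apply]
    rw [e]
    apply Submodule.sum_mem
    intro x _
    apply Submodule.smul_mem
    obtain ⟨g, rfl⟩ := QuotientGroup.mk_surjective x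
    exact right_mem hCA hCB hgen g
  have hm : ((α, -β) : ((Γ ⧸ A) →₀ ℂ) × ((Γ ⧸ B) →₀ ℂ)) ∈ M := by
    have h1 := Submodule.add_mem _ (Submodule.sub_mem _ hl hr)
      (Submodule.smul_mem M a (single_mem hCA hCB 1))
    convert h1 using 1
    have hba : b = -a := by
      rw [← sub_eq_zero, sub_neg_eq_add, add_comm]
      exact h
    ext1
    · show α = α - a • Finsupp.single (QuotientGroup.mk 1 : Γ ⧸ A) (1 : ℂ) - 0
        + a • Finsupp.single (QuotientGroup.mk 1 : Γ ⧸ A) (1 : ℂ)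
      rw [sub_zero, sub_add_cancel]
    · show -β = 0 - (β - b • Finsupp.single (QuotientGroup.mk 1 : Γ ⧸ B) (1 : ℂ))
        + a • Finsupp.single (QuotientGroup.mk 1 : Γ ⧸ B) (1 : ℂ)
      rw [hba, neg_smul, sub_neg_eq_add, zero_sub, neg_add, neg_add_cancel_right]
  obtain ⟨φ, hφ⟩ := hm
  rw [pr_apply] at hφ
  exact ⟨φ, congrArg Prod.fst hφ, congrArg Prod.snd hφ⟩

end Tree
end Singer
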