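import Pool.Agent.Singer.Gen.PreConeB
import Pool.Agent.Singer.Gen.CosAug
import Pool.Agent.Singer.Gen.Tree
import Pool.Agent.Singer.Gen.SlopeE

/-!
# Singer, general gluing theorem: the theorem for resolutions

`Amal φ φ' j j' c`: `Γ` is generated by `j(A)` and `j'(A')`, and there is a side set.
* `exists_amalRes`: the mapping cone of `Ind RC → Ind RA ⊕ Ind RA'` is a resolution of `Γ`;
* `kap_le_half`: the dimension of the kernel in homology is at most the mean of those for the two doubles;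
* `cone_le`, `exists_le`: the gluing inequality `2 b_i(A *_C A') ≤ b_i(A *_C A) + b_i(A' *_C A')`.
-/

set_option autoImplicit false
set_option linter.unusedSectionVars false
set_option linter.unusedVariables false

open scoped ComplexConjugate InnerProductSpace
open Filter Topology

namespace Singer

section
variable {Γ : Type*} [Group Γ] {ι κ : Type*}

lemma fs_il_add_ir (z₁ : E Γ ι) (z₂ : E Γ κ) : fs (il z₁ + ir z₂ : E Γ (ι ⊕ κ)) = z₁ := by
  rw [map_add, fs_il, fs_ir, add_zero]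

lemma sn_il_add_ir (z₁ : E Γ ι) (z₂ : E Γ κ) : sn (il z₁ + ir z₂ : E Γ (ι ⊕ κ)) = z₂ := by
  rw [map_add, sn_il, sn_ir, zero_add]

lemma il_add_ir_mem_pr {V : Submodule ℂ (E Γ ι)} {W : Submodule ℂ (E Γ κ)} {z₁ : E Γ ι} {z₂ : E Γ κ} (h₁ : z₁ ∈ V)
    (h₂ : z₂ ∈ W) : (il z₁ + ir z₂ : E Γ (ι ⊕ κ)) ∈ pr V W :=
  Submodule.add_mem _ (il_mem_pr h₁) (ir_mem_pr h₂)

end

namespace PreRes
variable {Γ : Type*} [Group Γ] (X Y : PreRes.{0} Γ)

lemma fs_prod_d (i : ℕ) (f : E Γ (X.ι (i + 1) ⊕ Y.ι (i + 1))) :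
    (fs ((X.prod Y).d i f : E Γ (X.ι i ⊕ Y.ι i)) : E Γ (X.ι i)) = X.d i (fs f) := X.toHC.fs_prod_d Y.toHC i f

lemma sn_prod_d (i : ℕ) (f : E Γ (X.ι (i + 1) ⊕ Y.ι (i + 1))) :
    (sn ((X.prod Y).d i f : E Γ (X.ι i ⊕ Y.ι i)) : E Γ (Y.ι i)) = Y.d i (sn f) := X.toHC.sn_prod_d Y.toHC i f

lemma h_eq_zero (i : ℕ) : X.toHC.h i = 0 ↔ X.Z i ≤ X.B i := by
  rw [HC.h_eq_zero_iff, PreRes.toHC_Z]
  exact Iff.rfl

variable {X Y}

lemma prod_ex (hX : X.Ex) (hY : Y.Ex) : (X.prod Y).Ex := by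
  intro i x hx hfx h0
  have h1 : X.d i (fs (show E Γ (X.ι (i + 1) ⊕ Y.ι (i + 1)) from x)) = 0 := by
    have := congrArg (fun z : E Γ (X.ι i ⊕ Y.ι i) => fs z) h0
    exact (fs_prod_d X Y i x).symm.trans (this.trans (map_zero _))
  have h2 : Y.d i (sn (show E Γ (X.ι (i + 1) ⊕ Y.ι (i + 1)) from x)) = 0 := by
    have := congrArg (fun z : E Γ (X.ι i ⊕ Y.ι i) => sn z) h0
    exact (sn_prod_d X Y i x).symm.trans (this.trans (map_zero _))
  obtain ⟨y, hy, hfy, hdy⟩ := hX i _ (mem_pr.1 hx).1 (FS.fs hfx) h1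
  obtain ⟨z, hz, hfz, hdz⟩ := hY i _ (mem_pr.1 hx).2 (FS.sn hfx) h2
  refine ⟨(il y + ir z : E Γ (X.ι (i + 2) ⊕ Y.ι (i + 2))), ?_, (FS.il hfy).add (FS.ir hfz), ?_⟩
  · refine mem_pr.2 ⟨?_, ?_⟩
    · rwa [map_add, fs_il, fs_ir, add_zero]
    · rwa [map_add, sn_il, sn_ir, zero_add]
  · refine sum_ext (ι := X.ι (i + 1)) (κ := Y.ι (i + 1)) ?_ ?_
    · refine (fs_prod_d X Y (i + 1) _).trans ?_
      rw [map_add, fs_il, fs_ir, add_zero, hdy]
    · refine (sn_prod_d X Y (i + 1) _).trans ?_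
      rw [map_add, sn_il, sn_ir, zero_add, hdz]

end PreRes

/-- an amalgam, through a side set -/
structure Amal {C A A' Γ : Type*} [Group C] [Group A] [Group A'] [Group Γ] (φ : C →* A) (φ' : C →* A') (j : A →* Γ)
    (j' : A' →* Γ) (c : C →* Γ) : Prop where
  hφ : Function.Injective φ
  hφ' : Function.Injective φ'
  hj : Function.Injective j
  hj' : Function.Injective j'
  hc : Function.Injective c
  e : j.comp φ = c
  e' : j'.comp φ' = c
  side : Side j.range j'.range c.range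
  gen : Subgroup.closure ((j.range : Set Γ) ∪ j'.range) = ⊤

namespace Amal
variable {C A A' Γ : Type*} [Group C] [Group A] [Group A'] [Group Γ] {φ : C →* A} {φ' : C →* A'} {j : A →* Γ}
    {j' : A' →* Γ} {c : C →* Γ} (h : Amal φ φ' j j' c)

include h in
lemma le : c.range ≤ j.range := range_le_of_comp h.e

include h in
lemma le' : c.range ≤ j'.range := range_le_of_comp h.e'

/-- the chain map `Ind RC → Ind RA ⊕ Ind RA'` -/
noncomputable def map {RC : PreRes.{0} C} {RA : PreRes.{0} A} {RA' : PreRes.{0} A'}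
    (F : PreMap (RC.ind φ h.hφ) RA) (F' : PreMap (RC.ind φ' h.hφ') RA') :
    ZMap (RC.ind c h.hc) ((RA.ind j h.hj).prod (RA'.ind j' h.hj')) :=
  (F.ind j h.hj c h.hc h.e).pair (F'.ind j' h.hj' c h.hc h.e')

theorem map_K {RC : PreRes.{0} C} {RA : PreRes.{0} A} {RA' : PreRes.{0} A'}
    (F : PreMap (RC.ind φ h.hφ) RA) (F' : PreMap (RC.ind φ' h.hφ') RA') (i : ℕ) :
    ((h.map F F').K i : Submodule ℂ (E Γ (RC.ι i))) =
      Singer.ind j h.hj (F.K i : Submodule ℂ (E A (RC.ι i))) ⊓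
      Singer.ind j' h.hj' (F'.K i : Submodule ℂ (E A' (RC.ι i))) := by
  have h1 := PreMap.pair_K (F.ind j h.hj c h.hc h.e) (F'.ind j' h.hj' c h.hc h.e') i
  have h2 := F.ind_K j h.hj c h.hc h.e i
  have h3 := F'.ind_K j' h.hj' c h.hc h.e' i
  exact h1.trans (congrArg₂ (· ⊓ ·) h2 h3)

/-- the kernel in homology vanishes -/
theorem kap_eq_zero {RC : PreRes.{0} C} {RA : PreRes.{0} A} {RA' : PreRes.{0} A'}
    (F : PreMap (RC.ind φ h.hφ) RA) (F' : PreMap (RC.ind φ' h.hφ') RA') (i : ℕ) :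
    (h.map F F').kap i = 0 ↔ Singer.ind j h.hj (F.K i : Submodule ℂ (E A (RC.ι i))) ⊓
      Singer.ind j' h.hj' (F'.K i : Submodule ℂ (E A' (RC.ι i))) ≤ Singer.ind c h.hc (RC.B i) := by
  rw [HMap.kap_eq_zero_iff]
  have h1 := h.map_K F F' i
  have h2 := PreRes.ind_B c h.hc RC i
  have h3 : ((h.map F F').K i : Submodule ℂ (E Γ (RC.ι i))) ≤ (RC.ind c h.hc).B i ↔
    Singer.ind j h.hj (F.K i : Submodule ℂ (E A (RC.ι i))) ⊓
      Singer.ind j' h.hj' (F'.K i : Submodule ℂ (E A' (RC.ι i))) ≤ Singer.ind c h.hc (RC.B i) := by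
    rw [h1, h2]
    exact Iff.rfl
  exact h3

/-- the kernel in homology -/
theorem kap_eq {RC : PreRes.{0} C} {RA : PreRes.{0} A} {RA' : PreRes.{0} A'}
    (F : PreMap (RC.ind φ h.hφ) RA) (F' : PreMap (RC.ind φ' h.hφ') RA') (i : ℕ) :
    (h.map F F').kap i = vdim (Singer.ind j h.hj (F.K i : Submodule ℂ (E A (RC.ι i))) ⊓
      Singer.ind j' h.hj' (F'.K i : Submodule ℂ (E A' (RC.ι i)))) - vdim (RC.B i) := by
  have h1 := h.map_K F F' i
  have h2 := RC.vdim_ind_B c h.hc i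
  exact congrArg₂ (· - ·) (congrArg (fun V : Submodule ℂ (E Γ (RC.ι i)) => vdim V) h1) h2

/-- the slopes, from a double -/
theorem slope {D : Type*} [Group D] {a₁ a₂ : A →* D} {cD : C →* D} (hD : Amal φ φ a₁ a₂ cD)
    {RC : PreRes.{0} C} {RA : PreRes.{0} A} (F : PreMap (RC.ind φ hD.hφ) RA) {i : ℕ}
    {V : Submodule ℂ (E C (RC.ι i))} (hV : Mdl V) :
    2 * vdim (Singer.ind φ hD.hφ V ⊓ (F.K i : Submodule ℂ (E A (RC.ι i)))) ≤
      vdim V + (vdim (RC.B i) + (hD.map F F).kap i) := by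
  have h1 := slope_of_double_le (hφ := hD.hφ) (h₁ := hD.hj) (h₂ := hD.hj') (hc := hD.hc) hD.e hD.e' (F.K_mdl i) hV
  have h2 := hD.kap_eq F F i
  have h3 : vdim (RC.B i) + (hD.map F F).kap i = vdim (Singer.ind a₁ hD.hj (F.K i : Submodule ℂ (E A (RC.ι i))) ⊓
      Singer.ind a₂ hD.hj' (F.K i : Submodule ℂ (E A (RC.ι i)))) := by
    rw [h2]
    ring
  rw [h3]
  exact h1

lemma K_le {φ : C →* A} {hφ : Function.Injective φ} {RC : PreRes.{0} C} {RA : PreRes.{0} A}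
    (F : PreMap (RC.ind φ hφ) RA) (i : ℕ) :
    (F.K i : Submodule ℂ (E A (RC.ι i))) ≤ Singer.ind φ hφ (RC.Z i) := by
  have h1 := F.K_le_Z i
  rw [PreRes.toHC_Z] at h1
  have h2 := PreRes.ind_Z φ hφ RC i
  exact le_trans h1 h2.le

lemma B_le_K {φ : C →* A} {hφ : Function.Injective φ} {RC : PreRes.{0} C} {RA : PreRes.{0} A}
    (F : PreMap (RC.ind φ hφ) RA) (i : ℕ) :
    Singer.ind φ hφ (RC.B i) ≤ (F.K i : Submodule ℂ (E A (RC.ι i))) := by
  have h1 := F.B_le_K i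
  have h2 := PreRes.ind_B φ hφ RC i
  exact le_trans h2.ge h1

lemma B_le_Z (R : PreRes.{0} C) (i : ℕ) : R.B i ≤ R.Z i := by
  have := R.toHC.B_le_Z i
  rwa [PreRes.toHC_Z] at this

/-- **the kernel in homology of the amalgam is at most the mean of those of the two doubles** -/
theorem kap_le_half {D D' : Type*} [Group D] [Group D'] {a₁ a₂ : A →* D} {cD : C →* D} (hD : Amal φ φ a₁ a₂ cD)
    {a₁' a₂' : A' →* D'} {cD' : C →* D'} (hD' : Amal φ' φ' a₁' a₂' cD')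
    {RC : PreRes.{0} C} {RA : PreRes.{0} A} {RA' : PreRes.{0} A'}
    (F : PreMap (RC.ind φ h.hφ) RA) (F' : PreMap (RC.ind φ' h.hφ') RA') (i : ℕ) :
    2 * (h.map F F').kap i ≤ (hD.map F F).kap i + (hD'.map F' F').kap i := by
  have h1 := inter_le_half (hφ := h.hφ) (hφ' := h.hφ') (hj := h.hj) (hj' := h.hj') (hc := h.hc) h.e h.e' h.side
    (F.K_mdl i) (F'.K_mdl i) (RC.mdl_Z i) (RC.mdl_B i) (B_le_Z RC i) (B_le_K F i) (B_le_K F' i) (K_le F i)
    (fun V hV => slope hD F hV) (fun V hV => slope hD' F' hV)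
  have h2 := h.kap_eq F F' i
  have h3 : 2 * vdim (Singer.ind j h.hj (F.K i : Submodule ℂ (E A (RC.ι i))) ⊓
      Singer.ind j' h.hj' (F'.K i : Submodule ℂ (E A' (RC.ι i)))) ≤
      2 * vdim (RC.B i) + ((hD.map F F).kap i + (hD'.map F' F').kap i) := h1
  rw [h2]
  linarith

/-- **the mapping cone is a resolution of the amalgam** -/
theorem exists_res (RC : Res.{0} C) (RA : Res.{0} A) (RA' : Res.{0} A')
    (F : PreMap (RC.toPreRes.ind φ h.hφ) RA.toPreRes) (F' : PreMap (RC.toPreRes.ind φ' h.hφ') RA'.toPreRes) :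
    ∃ R : Res.{0} Γ, R.toPreRes = (h.map F F').cone := by
  refine ZMap.exists_coneRes (h.map F F') (PreRes.ind_ex c h.hc RC)
    (PreRes.prod_ex (PreRes.ind_ex j h.hj RA) (PreRes.ind_ex j' h.hj' RA')) ?_ ?_ ?_
  · intro x hx hfx hy
    obtain ⟨y, hy1, hy2, hy3⟩ := hy
    have h1 : (RA.toPreRes.ind j h.hj).d 0 (fs (ι := RA.ι 1) (κ := RA'.ι 1) y) =
        (F.ind j h.hj c h.hc h.e).f 0 x := by
      have := congrArg (fun z : E Γ (RA.ι 0 ⊕ RA'.ι 0) => fs z) hy3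
      exact (PreRes.fs_prod_d _ _ 0 y).symm.trans (this.trans
        (PreMap.fs_pair (F.ind j h.hj c h.hc h.e) (F'.ind j' h.hj' c h.hc h.e') 0 x))
    have h2 : (RA'.toPreRes.ind j' h.hj').d 0 (sn (ι := RA.ι 1) (κ := RA'.ι 1) y) =
        -(F'.ind j' h.hj' c h.hc h.e').f 0 x := by
      have := congrArg (fun z : E Γ (RA.ι 0 ⊕ RA'.ι 0) => sn z) hy3
      exact (PreRes.sn_prod_d _ _ 0 y).symm.trans (this.trans
        (PreMap.sn_pair (F.ind j h.hj c h.hc h.e) (F'.ind j' h.hj' c h.hc h.e') 0 x))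
    refine PreRes.ind_ex_zero c h.hc RC hx hfx ?_
    refine Tree.eq_zero h.side h.le h.le' _ ?_ ?_
    · have h3 := F.cosAug_ind j h.hj c h.hc h.e h.le hx hfx
      have h4 := PreRes.cosAug_d j h.hj RA.toPreRes (mem_pr.1 hy1).1 (FS.fs hy2)
      exact h3.symm.trans ((congrArg (cosAug j.range RA.w) h1).symm.trans h4)
    · have h3 := F'.cosAug_ind j' h.hj' c h.hc h.e' h.le' hx hfx
      have h4 := PreRes.cosAug_d j' h.hj' RA'.toPreRes (mem_pr.1 hy1).2 (FS.sn hy2)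
      have h5 := cosAug_neg j'.range RA'.w (((F'.ind j' h.hj' c h.hc h.e').mat 0).fs hfx)
      exact h3.symm.trans (neg_eq_zero.1 (h5.symm.trans ((congrArg (cosAug j'.range RA'.w) h2).symm.trans h4)))
  · intro y hy hfy hy0
    have h0 := (eps_sum_elim RA.w RA'.w (f := y) hfy).symm.trans hy0
    have h0' := (congrArg₂ (· + ·) (cosAug_total j.range RA.w (FS.fs (ι := RA.ι 0) (κ := RA'.ι 0) hfy))
      (cosAug_total j'.range RA'.w (FS.sn (ι := RA.ι 0) (κ := RA'.ι 0) hfy))).trans h0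
    obtain ⟨ξ, hξ, hξ'⟩ := Tree.exists_lift h.le h.le' h.gen _ _ h0'
    obtain ⟨x, hx, hfx, hxξ⟩ := PreRes.cosAug_surj c h.hc RC ξ
    obtain ⟨a, ha⟩ : ∃ a : E Γ (RA.ι 0), (F.ind j h.hj c h.hc h.e).f 0 x = a := ⟨_, rfl⟩
    obtain ⟨b, hb⟩ : ∃ b : E Γ (RA'.ι 0), (F'.ind j' h.hj' c h.hc h.e').f 0 x = b := ⟨_, rfl⟩
    obtain ⟨u, hu⟩ : ∃ u : E Γ (RA.ι 0), fs (ι := RA.ι 0) (κ := RA'.ι 0) y = u := ⟨_, rfl⟩
    obtain ⟨v, hv⟩ : ∃ v : E Γ (RA'.ι 0), sn (ι := RA.ι 0) (κ := RA'.ι 0) y = v := ⟨_, rfl⟩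
    have hfa : FS a := by
      rw [← ha]
      exact ((F.ind j h.hj c h.hc h.e).mat 0).fs hfx
    have hfb : FS b := by
      rw [← hb]
      exact ((F'.ind j' h.hj' c h.hc h.e').mat 0).fs hfx
    have hfu : FS u := by
      rw [← hu]
      exact FS.fs hfy
    have hfv : FS v := by
      rw [← hv]
      exact FS.sn hfy
    have ha1 : a ∈ (RA.toPreRes.ind j h.hj).P 0 := by
      rw [← ha]
      exact (F.ind j h.hj c h.hc h.e).maps 0 x hx
    have hb1 : b ∈ (RA'.toPreRes.ind j' h.hj').P 0 := by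
      rw [← hb]
      exact (F'.ind j' h.hj' c h.hc h.e').maps 0 x hx
    have hu1 : u ∈ (RA.toPreRes.ind j h.hj).P 0 := by
      rw [← hu]
      exact (mem_pr.1 hy).1
    have hv1 : v ∈ (RA'.toPreRes.ind j' h.hj').P 0 := by
      rw [← hv]
      exact (mem_pr.1 hy).2
    have ha2 : cosAug j.range RA.w a = cosAug j.range RA.w u := by
      have h3 := F.cosAug_ind j h.hj c h.hc h.e h.le hx hfx
      rw [hxξ, hξ, hu] at h3
      exact (congrArg (cosAug j.range RA.w) ha).symm.trans h3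
    have hb2 : cosAug j'.range RA'.w b = -cosAug j'.range RA'.w v := by
      have h3 := F'.cosAug_ind j' h.hj' c h.hc h.e' h.le' hx hfx
      rw [hxξ, hξ', hv] at h3
      exact (congrArg (cosAug j'.range RA'.w) hb).symm.trans h3
    have h1 : cosAug j.range RA.w (u - a) = 0 := by
      rw [cosAug_sub _ _ hfu hfa, ha2, sub_self]
    have h2 : cosAug j'.range RA'.w (v + b) = 0 := by
      rw [cosAug_add _ _ hfv hfb, hb2, add_neg_cancel]
    obtain ⟨z₁, hz₁, hfz₁, hdz₁⟩ : ∃ z : E Γ (RA.ι 1), z ∈ (RA.toPreRes.ind j h.hj).P 1 ∧ FS z ∧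
        (RA.toPreRes.ind j h.hj).d 0 z = u - a :=
      PreRes.ind_ex_zero j h.hj RA (Submodule.sub_mem _ hu1 ha1) (hfu.sub hfa) h1
    obtain ⟨z₂, hz₂, hfz₂, hdz₂⟩ : ∃ z : E Γ (RA'.ι 1), z ∈ (RA'.toPreRes.ind j' h.hj').P 1 ∧ FS z ∧
        (RA'.toPreRes.ind j' h.hj').d 0 z = v + b :=
      PreRes.ind_ex_zero j' h.hj' RA' (Submodule.add_mem _ hv1 hb1) (hfv.add hfb) h2
    refine ⟨x, hx, hfx, (il z₁ + ir z₂ : E Γ (RA.ι 1 ⊕ RA'.ι 1)), ?_, (FS.il hfz₁).add (FS.ir hfz₂), ?_⟩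
    · exact il_add_ir_mem_pr hz₁ hz₂
    · refine sum_ext (ι := RA.ι 0) (κ := RA'.ι 0) ?_ ?_
      · refine (map_add (fs : E Γ (RA.ι 0 ⊕ RA'.ι 0) →L[ℂ] E Γ (RA.ι 0)) _ _).trans ?_
        have h3 := PreRes.fs_prod_d (RA.toPreRes.ind j h.hj) (RA'.toPreRes.ind j' h.hj') 0 (il z₁ + ir z₂)
        have h4 := PreMap.fs_pair (F.ind j h.hj c h.hc h.e) (F'.ind j' h.hj' c h.hc h.e') 0 x
        have h5 := h3.trans ((congrArg _ (fs_il_add_ir z₁ z₂)).trans hdz₁)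
        exact (congrArg₂ (· + ·) h5 (h4.trans ha)).trans ((sub_add_cancel u a).trans hu.symm)
      · refine (map_add (sn : E Γ (RA.ι 0 ⊕ RA'.ι 0) →L[ℂ] E Γ (RA'.ι 0)) _ _).trans ?_
        have h3 := PreRes.sn_prod_d (RA.toPreRes.ind j h.hj) (RA'.toPreRes.ind j' h.hj') 0 (il z₁ + ir z₂)
        have h4 := PreMap.sn_pair (F.ind j h.hj c h.hc h.e) (F'.ind j' h.hj' c h.hc h.e') 0 x
        have h5 := h3.trans ((congrArg _ (sn_il_add_ir z₁ z₂)).trans hdz₂)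
        exact (congrArg₂ (· + ·) h5 (h4.trans (congrArg Neg.neg hb))).trans ((add_neg_cancel_right v b).trans hv.symm)
  · obtain ⟨u, hu, hfu, hu1⟩ := RA.surj
    refine ⟨(il (icj j h.hj u) : E Γ (RA.ι 0 ⊕ RA'.ι 0)), ?_, FS.il (fs_icj j h.hj hfu), ?_⟩
    · exact il_mem_pr ((icj_mem_ind (RA.inv_P 0)).2 hu)
    · refine (eps_sum_elim RA.w RA'.w (FS.il (fs_icj j h.hj hfu))).trans ?_
      rw [fs_il, sn_il, eps_zero, add_zero, eps_icj j h.hj _ hfu, hu1]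

section betti
variable {RC : PreRes.{0} C} {RA : PreRes.{0} A} {RA' : PreRes.{0} A'}
    (F : PreMap (RC.ind φ h.hφ) RA) (F' : PreMap (RC.ind φ' h.hφ') RA')

include h in
lemma h_prod (RA : PreRes.{0} A) (RA' : PreRes.{0} A') (i : ℕ) :
    ((RA.ind j h.hj).prod (RA'.ind j' h.hj')).toHC.h i = RA.toHC.h i + RA'.toHC.h i := by
  have h2 := (RA.ind j h.hj).toHC.h_prod (RA'.ind j' h.hj').toHC i
  rw [PreRes.ind_h, PreRes.ind_h] at h2
  exact (congrArg (fun X => HC.h X i) (PreRes.prod_toHC _ _)).trans h2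

theorem h_zero : (h.map F F').cone.toHC.h 0 =
    RA.toHC.h 0 + RA'.toHC.h 0 - RC.toHC.h 0 + (h.map F F').kap 0 := by
  have h1 := (h.map F F').toHMap.h_cone_zero
  rw [h.h_prod RA RA' 0, PreRes.ind_h c h.hc RC 0] at h1
  exact h1

theorem h_succ (i : ℕ) : (h.map F F').cone.toHC.h (i + 1) = (h.map F F').kap i +
    (RA.toHC.h (i + 1) + RA'.toHC.h (i + 1) - RC.toHC.h (i + 1) + (h.map F F').kap (i + 1)) := by
  have h1 := (h.map F F').toHMap.h_cone_succ i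
  rw [h.h_prod RA RA' (i + 1), PreRes.ind_h c h.hc RC (i + 1)] at h1
  have h2 : (h.map F F').cone.toHC.h (i + 1) = (h.map F F').toHMap.cone.h (i + 1) := rfl
  rw [h2, h1]
  ring

theorem coker_nonneg (i : ℕ) : 0 ≤ RA.toHC.h i + RA'.toHC.h i - RC.toHC.h i + (h.map F F').kap i := by
  have h1 := (h.map F F').toHMap.coker_nonneg i
  rw [h.h_prod RA RA' i, PreRes.ind_h c h.hc RC i] at h1
  linarith

theorem kap_le (i : ℕ) : (h.map F F').kap i ≤ RC.toHC.h i := by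
  have h1 := (h.map F F').toHMap.kap_le i
  have h3 := PreRes.ind_h c h.hc RC i
  rwa [h3] at h1

theorem kap_nonneg (i : ℕ) : 0 ≤ (h.map F F').kap i := (h.map F F').toHMap.kap_nonneg i

end betti

include h in
/-- the inequality for the mapping cones -/
theorem cone_le {D D' : Type*} [Group D] [Group D'] {a₁ a₂ : A →* D} {cD : C →* D} (hD : Amal φ φ a₁ a₂ cD)
    {a₁' a₂' : A' →* D'} {cD' : C →* D'} (hD' : Amal φ' φ' a₁' a₂' cD')
    {RC : PreRes.{0} C} {RA : PreRes.{0} A} {RA' : PreRes.{0} A'}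
    (F : PreMap (RC.ind φ h.hφ) RA) (F' : PreMap (RC.ind φ' h.hφ') RA') (i : ℕ) :
    2 * (h.map F F').cone.toHC.h i ≤ (hD.map F F).cone.toHC.h i + (hD'.map F' F').cone.toHC.h i := by
  have h1 := h.kap_le_half hD hD' F F' i
  cases i with
  | zero =>
    rw [h.h_zero, hD.h_zero, hD'.h_zero]
    linarith
  | succ i =>
    have h2 := h.kap_le_half hD hD' F F' i
    rw [h.h_succ, hD.h_succ, hD'.h_succ]
    linarith

include h in
/-- **the gluing theorem**, for resolutions: there are resolutions of the amalgam and of the two doubles whose Betti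
numbers satisfy the inequality -/
theorem exists_le {D D' : Type*} [Group D] [Group D'] {a₁ a₂ : A →* D} {cD : C →* D} (hD : Amal φ φ a₁ a₂ cD)
    {a₁' a₂' : A' →* D'} {cD' : C →* D'} (hD' : Amal φ' φ' a₁' a₂' cD')
    (RC : Res.{0} C) (RA : Res.{0} A) (RA' : Res.{0} A') :
    ∃ (S : Res.{0} Γ) (SD : Res.{0} D) (SD' : Res.{0} D'), ∀ i,
      2 * S.toHC.h i ≤ SD.toHC.h i + SD'.toHC.h i := by
  obtain ⟨F⟩ := exists_premap (RC.toPreRes.ind φ h.hφ) RA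
  obtain ⟨F'⟩ := exists_premap (RC.toPreRes.ind φ' h.hφ') RA'
  obtain ⟨S, hS⟩ := h.exists_res RC RA RA' F F'
  obtain ⟨SD, hSD⟩ := hD.exists_res RC RA RA F F
  obtain ⟨SD', hSD'⟩ := hD'.exists_res RC RA' RA' F' F'
  refine ⟨S, SD, SD', fun i => ?_⟩
  rw [hS, hSD, hSD']
  exact h.cone_le hD hD' F F' i

end Amal

end Singer
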