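import Mathlib

/-!
# Mirrored groups

* `FreeInv X` : the free product of groups of order two indexed by `X`;
* `Mirror G X` : the semidirect product `FreeInv X ⋊ G` for an action of the group `G` on `X`;
* `nbrs T h v` : the neighbours of the vertex `v`, as a `stabilizer Γ v`-set.
-/

set_option autoImplicit false

namespace Singer

/-- the free product of groups of order two indexed by `X` -/
abbrev FreeInv (X : Type*) : Type _ := PresentedGroup (Set.range fun x : X => FreeGroup.of x * FreeGroup.of x)

/-- the homomorphism of `FreeInv` induced by a map of the index sets -/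
def FreeInv.map {X Y : Type*} (f : X → Y) : FreeInv X →* FreeInv Y :=
  PresentedGroup.toGroup (f := fun x => PresentedGroup.of (f x)) (by
    rintro _ ⟨x, rfl⟩
    rw [map_mul, FreeGroup.lift_apply_of]
    exact PresentedGroup.mk_eq_one_iff.2 (Subgroup.subset_normalClosure ⟨f x, rfl⟩))

lemma FreeInv.map_of {X Y : Type*} (f : X → Y) (x : X) :
    FreeInv.map f (PresentedGroup.of x) = PresentedGroup.of (f x) := PresentedGroup.toGroup.of _

lemma FreeInv.map_map {X Y Z : Type*} (f : X → Y) (g : Y → Z) (w : FreeInv X) :
    FreeInv.map g (FreeInv.map f w) = FreeInv.map (g ∘ f) w := by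
  have h : (FreeInv.map g).comp (FreeInv.map f) = FreeInv.map (g ∘ f) := by
    refine PresentedGroup.ext fun x => ?_
    rw [MonoidHom.comp_apply, FreeInv.map_of, FreeInv.map_of, FreeInv.map_of]
    rfl
  exact DFunLike.congr_fun h w

lemma FreeInv.map_id {X : Type*} (w : FreeInv X) : FreeInv.map (id : X → X) w = w := by
  have h : FreeInv.map (id : X → X) = MonoidHom.id _ := by
    refine PresentedGroup.ext fun x => ?_
    rw [FreeInv.map_of]
    rfl
  exact DFunLike.congr_fun h w

/-- a group which acts on `X` acts on the free product by permutation of the factors -/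
def permAct (G X : Type*) [Group G] [MulAction G X] : G →* MulAut (FreeInv X) where
  toFun g :=
    { toFun := FreeInv.map (g • · : X → X)
      invFun := FreeInv.map (g⁻¹ • · : X → X)
      left_inv := fun w => by
        rw [FreeInv.map_map]
        have h : ((g⁻¹ • · : X → X) ∘ (g • · : X → X)) = id := by
          funext x
          exact inv_smul_smul g x
        rw [h, FreeInv.map_id]
      right_inv := fun w => by
        rw [FreeInv.map_map]
        have h : ((g • · : X → X) ∘ (g⁻¹ • · : X → X)) = id := by
          funext x
          exact smul_inv_smul g x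
        rw [h, FreeInv.map_id]
      map_mul' := map_mul _ }
  map_one' := by
    ext w
    show FreeInv.map ((1 : G) • · : X → X) w = w
    have h : ((1 : G) • · : X → X) = id := by
      funext x
      exact one_smul G x
    rw [h, FreeInv.map_id]
  map_mul' g h := by
    ext w
    show FreeInv.map ((g * h) • · : X → X) w = FreeInv.map (g • · : X → X) (FreeInv.map (h • · : X → X) w)
    rw [FreeInv.map_map]
    congr 2
    funext x
    exact mul_smul g h x

/-- the mirrored group: the semidirect product of the free product of groups of order two indexed by the `G`-set `X`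
with `G` -/
abbrev Mirror (G X : Type*) [Group G] [MulAction G X] : Type _ := FreeInv X ⋊[permAct G X] G

/-- the neighbours of a vertex, with the action of the stabilizer of the vertex -/
def nbrs {Γ V : Type*} [Group Γ] [MulAction Γ V] (T : SimpleGraph V)
    (hact : ∀ (g : Γ) (v w : V), T.Adj v w → T.Adj (g • v) (g • w)) (v : V) :
    SubMulAction (MulAction.stabilizer Γ v) V where
  carrier := {w | T.Adj v w}
  smul_mem' g w hw := by
    have h1 := hact g v w hw
    have h2 : (g : Γ) • v = v := g.2
    rw [h2] at h1
    exact h1

end Singer
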