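import Pool.Agent.Singer.Gen.MirDefs
import Pool.Agent.Singer.Racg

/-!
# The tree of a mirrored group

`Mir.s x` : the reflection of `x` in `Mirror G X`;
`Mir.exists_side` : the half-tree of the edge `x`: a set of elements of `Mirror G X`, a union of left cosets of `G`, which
contains `1`, and such that the edges `(m, m s y)` do not leave it, except the base edge.
-/

set_option autoImplicit false

namespace Singer

namespace FreeInv
variable {X : Type*}

/-- the isomorphism with the right-angled Coxeter group of the graph without edges -/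
def toR (X : Type*) : FreeInv X →* RACG (⊥ : SimpleGraph X) :=
  PresentedGroup.toGroup (f := fun x => Racg.gen ⊥ x) (by
    rintro _ ⟨x, rfl⟩
    rw [map_mul, FreeGroup.lift_apply_of]
    exact Racg.gen_mul_gen ⊥ x)

lemma toR_of (x : X) : toR X (PresentedGroup.of x) = Racg.gen ⊥ x := PresentedGroup.toGroup.of _

lemma of_mul_of (x : X) : (PresentedGroup.of x : FreeInv X) * PresentedGroup.of x = 1 :=
  PresentedGroup.mk_eq_one_iff.2 (Subgroup.subset_normalClosure ⟨x, rfl⟩)

/-- the inverse -/
def ofR (X : Type*) : RACG (⊥ : SimpleGraph X) →* FreeInv X :=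
  Racg.lift (fun x => PresentedGroup.of x) (fun x => of_mul_of x) fun u v h => absurd h (by simp)

lemma ofR_gen (x : X) : ofR X (Racg.gen ⊥ x) = PresentedGroup.of x := Racg.lift_gen x

lemma ofR_toR (w : FreeInv X) : ofR X (toR X w) = w := by
  have h : (ofR X).comp (toR X) = MonoidHom.id _ := by
    refine PresentedGroup.ext fun x => ?_
    rw [MonoidHom.comp_apply, toR_of, ofR_gen]
    rfl
  exact DFunLike.congr_fun h w

lemma toR_injective : Function.Injective (toR X) := Function.LeftInverse.injective ofR_toR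

lemma of_ne_one (x : X) : (PresentedGroup.of x : FreeInv X) ≠ 1 := fun h => by
  have h1 := congrArg (toR X) h
  rw [toR_of, map_one] at h1
  exact Racg.gen_ne_one (G := (⊥ : SimpleGraph X)) x h1

theorem exists_sideR {X : Type*} (x : X) : ∃ S : Set (RACG (⊥ : SimpleGraph X)), (1 : RACG (⊥ : SimpleGraph X)) ∈ S ∧
    Racg.gen (⊥ : SimpleGraph X) x ∉ S ∧
    ∀ (w : RACG (⊥ : SimpleGraph X)) (y : X), ¬ (y = x ∧ (w = 1 ∨ w = Racg.gen (⊥ : SimpleGraph X) x)) →
      (w ∈ S ↔ w * Racg.gen (⊥ : SimpleGraph X) y ∈ S) := by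
  obtain ⟨S, h1, h2, h3⟩ := Racg.exists_half (⊥ : SimpleGraph X) x
  have hbot : (Racg.sub (G := (⊥ : SimpleGraph X)) {v | (⊥ : SimpleGraph X).Adj x v}) = ⊥ := by
    have : {v | (⊥ : SimpleGraph X).Adj x v} = ∅ := by
      ext v
      simp
    rw [this]
    unfold Racg.sub
    rw [Set.image_empty, Subgroup.closure_empty]
  have h3' : ∀ w ∈ S, w ≠ 1 → w * Racg.gen ⊥ x ∈ S ∧ w * Racg.gen ⊥ x ≠ 1 := by
    intro w hw hne
    have h := h3 w hw (by rw [hbot, Subgroup.mem_bot]; exact hne)
    rw [hbot, Subgroup.mem_bot] at h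
    exact h
  refine ⟨S, h2 1 (Subgroup.one_mem _), fun h => (h3' _ h (Racg.gen_ne_one x)).2 (Racg.gen_mul_gen _ x), ?_⟩
  intro w y hne
  by_cases hy : y = x
  · subst hy
    have hw1 : w ≠ 1 := fun h => hne ⟨rfl, Or.inl h⟩
    have hwx : w * Racg.gen ⊥ y ≠ 1 := fun h => hne ⟨rfl, Or.inr (by
      have h5 := eq_inv_of_mul_eq_one_left h
      rwa [Racg.gen_inv] at h5)⟩
    refine ⟨fun h => (h3' _ h hw1).1, fun h => ?_⟩
    have h6 := (h3' _ h hwx).1
    rwa [mul_assoc, Racg.gen_mul_gen, mul_one] at h6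
  · have hk : Racg.gen (⊥ : SimpleGraph X) y ∈ Racg.sub (G := (⊥ : SimpleGraph X)) {v | v ≠ x} :=
      Racg.gen_mem_sub hy
    refine ⟨fun h => h1 _ h _ hk, fun h => ?_⟩
    have h6 := h1 _ h _ hk
    rwa [mul_assoc, Racg.gen_mul_gen, mul_one] at h6

/-- the elements whose reduced word does not begin with `x` -/
theorem exists_side {X : Type*} (x : X) : ∃ S : Set (FreeInv X), (1 : FreeInv X) ∈ S ∧
    (PresentedGroup.of x : FreeInv X) ∉ S ∧
    ∀ (w : FreeInv X) (y : X), ¬ (y = x ∧ (w = 1 ∨ w = PresentedGroup.of x)) →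
      (w ∈ S ↔ w * PresentedGroup.of y ∈ S) := by
  obtain ⟨S, h1, h2, h3⟩ := exists_sideR x
  refine ⟨{w | toR X w ∈ S}, ?_, ?_, ?_⟩
  · rw [Set.mem_ofPred_eq, map_one]
    exact h1
  · rw [Set.mem_ofPred_eq, toR_of]
    exact h2
  · intro w y hne
    rw [Set.mem_ofPred_eq, Set.mem_ofPred_eq, map_mul, toR_of]
    refine h3 _ _ fun h => hne ⟨h.1, ?_⟩
    rcases h.2 with h4 | h4
    · left
      apply toR_injective
      rw [h4, map_one]
    · right
      apply toR_injective
      rw [h4, toR_of]

end FreeInv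

namespace Mir
variable {G X : Type*} [Group G] [MulAction G X]

open SemidirectProduct

/-- the reflection of `x` -/
def s (x : X) : Mirror G X := inl (PresentedGroup.of x)

lemma s_mul_s (x : X) : (s x : Mirror G X) * s x = 1 := by
  unfold s
  rw [← map_mul, FreeInv.of_mul_of, map_one]

lemma s_inv (x : X) : (s x : Mirror G X)⁻¹ = s x := inv_eq_of_mul_eq_one_left (s_mul_s x)

lemma permAct_of (g : G) (x : X) : permAct G X g (PresentedGroup.of x) = PresentedGroup.of (g • x) :=
  FreeInv.map_of _ _

lemma inr_s (g : G) (x : X) : (inr g : Mirror G X) * s x = s (g • x) * inr g := by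
  unfold s
  ext
  · simp only [mul_left, left_inr, right_inr, left_inl, right_inl, one_mul, map_one, mul_one]
    exact permAct_of g x
  · simp

lemma conj_s (g : G) (x : X) : (inr g : Mirror G X) * s x * (inr g)⁻¹ = s (g • x) := by
  rw [inr_s, mul_inv_cancel_right]

/-- the stabilizer of `x` commutes with the reflection of `x` -/
lemma comm_s {g : G} {x : X} (h : g • x = x) : (inr g : Mirror G X) * s x = s x * inr g := by
  rw [inr_s, h]

lemma left_mul_s (m : Mirror G X) (x : X) : (m * s x).left = m.left * PresentedGroup.of (m.right • x) := by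
  show m.left * permAct G X m.right (PresentedGroup.of x) = _
  rw [permAct_of]

lemma left_mul_inr (m : Mirror G X) (g : G) : (m * inr g).left = m.left := by
  show m.left * permAct G X m.right 1 = _
  rw [map_one, mul_one]

lemma eq_inr_of_left {m : Mirror G X} (h : m.left = 1) : m = inr m.right := by
  ext
  · rw [h, left_inr]
  · rw [right_inr]

lemma s_notMem (x : X) : (s x : Mirror G X) ∉ (inr : G →* Mirror G X).range := by
  rintro ⟨g, hg⟩
  have h1 := congrArg SemidirectProduct.left hg
  rw [left_inr] at h1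
  exact FreeInv.of_ne_one x h1.symm

/-- the half-tree of the base edge of type `x` -/
theorem exists_side (x : X) : ∃ S : Set (Mirror G X), (∀ m ∈ S, ∀ g : G, m * inr g ∈ S) ∧ (1 : Mirror G X) ∈ S ∧
    (s x : Mirror G X) ∉ S ∧
    ∀ (m : Mirror G X) (y : X), ¬ (∃ g : G, g • y = x ∧ (m = inr g ∨ m = s x * inr g)) → (m ∈ S ↔ m * s y ∈ S) := by
  obtain ⟨S, h1, h2, h3⟩ := FreeInv.exists_side x
  refine ⟨{m | m.left ∈ S}, ?_, h1, h2, ?_⟩
  · intro m hm g
    show (m * inr g).left ∈ S
    rw [left_mul_inr]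
    exact hm
  · intro m y hne
    show m.left ∈ S ↔ (m * s y).left ∈ S
    rw [left_mul_s]
    refine h3 _ _ fun h => hne ⟨m.right, h.1, ?_⟩
    rcases h.2 with h4 | h4
    · exact Or.inl (eq_inr_of_left h4)
    · right
      ext
      · show m.left = PresentedGroup.of x * permAct G X 1 1
        rw [h4, map_one, mul_one]
      · show m.right = 1 * m.right
        rw [one_mul]

/-- generation: `G` and the reflections of representatives of the orbits generate -/
theorem closure_eq_top {s₀ : Set X} (hs : ∀ x : X, ∃ y ∈ s₀, ∃ g : G, g • y = x) :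
    Subgroup.closure (((inr : G →* Mirror G X).range : Set (Mirror G X)) ∪ s '' s₀) = ⊤ := by
  rw [eq_top_iff]
  intro m _
  have hG : ∀ g : G, (inr g : Mirror G X) ∈
      Subgroup.closure (((inr : G →* Mirror G X).range : Set (Mirror G X)) ∪ s '' s₀) := fun g =>
    Subgroup.subset_closure (Or.inl ⟨g, rfl⟩)
  have hx : ∀ x : X, (s x : Mirror G X) ∈
      Subgroup.closure (((inr : G →* Mirror G X).range : Set (Mirror G X)) ∪ s '' s₀) := by
    intro x
    obtain ⟨y, hy, g, rfl⟩ := hs x
    rw [← conj_s]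
    exact Subgroup.mul_mem _ (Subgroup.mul_mem _ (hG g) (Subgroup.subset_closure (Or.inr ⟨y, hy, rfl⟩)))
      (Subgroup.inv_mem _ (hG g))
  rw [← inl_left_mul_inr_right m]
  refine Subgroup.mul_mem _ ?_ (hG _)
  have h : ∀ w : FreeInv X, (inl w : Mirror G X) ∈
      Subgroup.closure (((inr : G →* Mirror G X).range : Set (Mirror G X)) ∪ s '' s₀) := by
    intro w
    have hw : w ∈ Subgroup.closure (Set.range (PresentedGroup.of : X → FreeInv X)) := by
      rw [PresentedGroup.closure_range_of]
      trivial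
    induction hw using Subgroup.closure_induction with
    | mem w hw =>
      obtain ⟨x, rfl⟩ := hw
      exact hx x
    | one =>
      rw [map_one]
      exact Subgroup.one_mem _
    | mul a b _ _ iha ihb =>
      rw [map_mul]
      exact Subgroup.mul_mem _ iha ihb
    | inv a _ iha =>
      rw [map_inv]
      exact Subgroup.inv_mem _ iha
  exact h _

end Mir

end Singer
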