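import Pool.Agent.Singer.Gen.Pre
import Pool.Agent.Singer.Gen.Cone

/-!
# Singer, general gluing theorem: direct sums as complexes of projective modules, pairs of chain maps

* `FS.fs`, `FS.sn`, `FS.il`, `FS.ir`, `mat_fs`, `mat_sn`, `mat_il`, `mat_ir`, `eps_sum_elim`;
* `PreRes.prod`, `PreRes.prod_toHC`;
* `ZMap X Y`: chain maps given by finite matrices, with augmentation zero;
* `PreMap.pair F F'`: `x ↦ (F x, - F' x)`, a `ZMap`; `pair_K`; `PreMap.ind_K`.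
-/

set_option autoImplicit false
set_option linter.unusedSectionVars false
set_option linter.unusedVariables false

open scoped ComplexConjugate InnerProductSpace
open Filter Topology

namespace Singer

section
variable {Γ : Type*} [Group Γ] {ι κ : Type*}

lemma FS.fs {f : E Γ (ι ⊕ κ)} (hf : FS f) : FS (Singer.fs f) := by
  have h1 : {x : Γ × ι | (Singer.fs f) x ≠ 0} = (fun x : Γ × ι => (x.1, (Sum.inl x.2 : ι ⊕ κ))) ⁻¹' {y | f y ≠ 0} := rfl
  unfold FS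
  rw [h1]
  exact hf.preimage inl_inj.injOn

lemma FS.sn {f : E Γ (ι ⊕ κ)} (hf : FS f) : FS (Singer.sn f) := by
  have h1 : {x : Γ × κ | (Singer.sn f) x ≠ 0} = (fun x : Γ × κ => (x.1, (Sum.inr x.2 : ι ⊕ κ))) ⁻¹' {y | f y ≠ 0} := rfl
  unfold FS
  rw [h1]
  exact hf.preimage inr_inj.injOn

lemma FS.il {f : E Γ ι} (hf : FS f) : FS (Singer.il f : E Γ (ι ⊕ κ)) := by
  refine (hf.image fun x : Γ × ι => (x.1, (Sum.inl x.2 : ι ⊕ κ))).subset ?_
  rintro ⟨g, x⟩ hx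
  rcases x with i | k
  · refine ⟨(g, i), ?_, rfl⟩
    have h1 : (Singer.il f : E Γ (ι ⊕ κ)) (g, Sum.inl i) ≠ 0 := hx
    rwa [il_inl] at h1
  · exact absurd (il_inr f g k) hx

lemma FS.ir {f : E Γ κ} (hf : FS f) : FS (Singer.ir f : E Γ (ι ⊕ κ)) := by
  refine (hf.image fun x : Γ × κ => (x.1, (Sum.inr x.2 : ι ⊕ κ))).subset ?_
  rintro ⟨g, x⟩ hx
  rcases x with i | k
  · exact absurd (ir_inl f g i) hx
  · refine ⟨(g, k), ?_, rfl⟩
    have h1 : (Singer.ir f : E Γ (ι ⊕ κ)) (g, Sum.inr k) ≠ 0 := hx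
    rwa [ir_inr] at h1

lemma mat_fs : Mat (fs : E Γ (ι ⊕ κ) →L[ℂ] E Γ ι) := ⟨equi_fs, fun j => (fs_del 1 j).fs⟩
lemma mat_sn : Mat (sn : E Γ (ι ⊕ κ) →L[ℂ] E Γ κ) := ⟨equi_sn, fun j => (fs_del 1 j).sn⟩
lemma mat_il : Mat (il : E Γ ι →L[ℂ] E Γ (ι ⊕ κ)) := ⟨equi_il, fun j => (fs_del 1 j).il⟩
lemma mat_ir : Mat (ir : E Γ κ →L[ℂ] E Γ (ι ⊕ κ)) := ⟨equi_ir, fun j => (fs_del 1 j).ir⟩

lemma il_del (g : Γ) (i : ι) : (il (del g i) : E Γ (ι ⊕ κ)) = del g (Sum.inl i) := by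
  classical
  ext ⟨a, x⟩
  rcases x with j | k
  · rw [il_inl]
    by_cases h : ((a, j) : Γ × ι) = (g, i)
    · have h1 : a = g := congrArg Prod.fst h
      have h2 : j = i := congrArg Prod.snd h
      subst h1 h2
      exact (del_apply_self a j).trans (del_apply_self a (Sum.inl j : ι ⊕ κ)).symm
    · rw [del_apply_ne h, del_apply_ne]
      intro h1
      apply h
      have h2 := congrArg Prod.fst h1
      have h3 := Sum.inl_injective (congrArg Prod.snd h1)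
      exact Prod.ext h2 h3
  · rw [il_inr, del_apply_ne]
    intro h1
    exact absurd (congrArg Prod.snd h1) (by simp)

lemma ir_del (g : Γ) (k : κ) : (ir (del g k) : E Γ (ι ⊕ κ)) = del g (Sum.inr k) := by
  classical
  ext ⟨a, x⟩
  rcases x with j | j
  · rw [ir_inl, del_apply_ne]
    intro h1
    exact absurd (congrArg Prod.snd h1) (by simp)
  · rw [ir_inr]
    by_cases h : ((a, j) : Γ × κ) = (g, k)
    · have h1 : a = g := congrArg Prod.fst h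
      have h2 : j = k := congrArg Prod.snd h
      subst h1 h2
      exact (del_apply_self a j).trans (del_apply_self a (Sum.inr j : ι ⊕ κ)).symm
    · rw [del_apply_ne h, del_apply_ne]
      intro h1
      apply h
      have h2 := congrArg Prod.fst h1
      have h3 := Sum.inr_injective (congrArg Prod.snd h1)
      exact Prod.ext h2 h3

lemma eps_il (w : ι → ℂ) (w' : κ → ℂ) {u : E Γ ι} (hu : FS u) :
    eps (Sum.elim w w') (il u : E Γ (ι ⊕ κ)) = eps w u := by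
  have h1 : ∀ x ∈ hu.toFinset, FS (u x • del x.1 x.2 : E Γ ι) := fun x _ => (fs_del _ _).smul _
  conv_lhs => rw [hu.eq_sum, map_sum, eps_sum _ fun x hx => (h1 x hx).il]
  conv_rhs => rw [hu.eq_sum, eps_sum w h1]
  refine Finset.sum_congr rfl fun x _ => ?_
  rw [map_smul, il_del, eps_smul _ _ (fs_del _ _), eps_smul w _ (fs_del _ _), eps_del, eps_del]
  rfl

lemma eps_ir (w : ι → ℂ) (w' : κ → ℂ) {u : E Γ κ} (hu : FS u) :
    eps (Sum.elim w w') (ir u : E Γ (ι ⊕ κ)) = eps w' u := by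
  have h1 : ∀ x ∈ hu.toFinset, FS (u x • del x.1 x.2 : E Γ κ) := fun x _ => (fs_del _ _).smul _
  conv_lhs => rw [hu.eq_sum, map_sum, eps_sum _ fun x hx => (h1 x hx).ir]
  conv_rhs => rw [hu.eq_sum, eps_sum w' h1]
  refine Finset.sum_congr rfl fun x _ => ?_
  rw [map_smul, ir_del, eps_smul _ _ (fs_del _ _), eps_smul w' _ (fs_del _ _), eps_del, eps_del]
  rfl

lemma eps_sum_elim (w : ι → ℂ) (w' : κ → ℂ) {f : E Γ (ι ⊕ κ)} (hf : FS f) :
    eps (Sum.elim w w') f = eps w (fs f) + eps w' (sn f) := by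
  rw [← eps_il w w' hf.fs, ← eps_ir w w' hf.sn, ← eps_add _ hf.fs.il hf.sn.ir, il_fs_add_ir_sn]

end

/-- the direct sum -/
noncomputable def PreRes.prod {Γ : Type*} [Group Γ] (X Y : PreRes.{0} Γ) : PreRes.{0} Γ where
  ι i := X.ι i ⊕ Y.ι i
  ft i := (inferInstance : Fintype (X.ι i ⊕ Y.ι i))
  P i := pr (X.P i) (Y.P i)
  e i := (il.comp (X.e i)).comp fs + (ir.comp (Y.e i)).comp sn
  d i := (il.comp (X.d i)).comp fs + (ir.comp (Y.d i)).comp sn
  w := Sum.elim X.w Y.w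
  mat_e i := ((mat_il.comp (X.mat_e i)).comp mat_fs).add ((mat_ir.comp (Y.mat_e i)).comp mat_sn)
  mat_d i := ((mat_il.comp (X.mat_d i)).comp mat_fs).add ((mat_ir.comp (Y.mat_d i)).comp mat_sn)
  e_mem i f := Submodule.add_mem _ (il_mem_pr (X.e_mem i (fs f))) (ir_mem_pr (Y.e_mem i (sn f)))
  e_eq i f hf := by
    have h1 : X.e i (fs f) = fs f := X.e_eq i _ (mem_pr.1 hf).1
    have h2 : Y.e i (sn f) = sn f := Y.e_eq i _ (mem_pr.1 hf).2
    show il (X.e i (fs f)) + ir (Y.e i (sn f)) = f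
    rw [h1, h2, il_fs_add_ir_sn]
  d_mem i f hf := Submodule.add_mem _ (il_mem_pr (X.d_mem i _ (mem_pr.1 hf).1)) (ir_mem_pr (Y.d_mem i _ (mem_pr.1 hf).2))
  d_d i f hf := by
    show il (X.d i (fs (il (X.d (i + 1) (fs f)) + ir (Y.d (i + 1) (sn f))))) +
      ir (Y.d i (sn (il (X.d (i + 1) (fs f)) + ir (Y.d (i + 1) (sn f))))) = 0
    have h1 : fs (il (X.d (i + 1) (fs f)) + ir (Y.d (i + 1) (sn f))) = X.d (i + 1) (fs f) := by
      rw [map_add, fs_il, fs_ir, add_zero]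
    have h2 : sn (il (X.d (i + 1) (fs f)) + ir (Y.d (i + 1) (sn f))) = Y.d (i + 1) (sn f) := by
      rw [map_add, sn_il, sn_ir, zero_add]
    rw [h1, h2, X.d_d i _ (mem_pr.1 hf).1, Y.d_d i _ (mem_pr.1 hf).2, map_zero, map_zero, add_zero]
  eps_d f hf hfs := by
    show eps (Sum.elim X.w Y.w) (il (X.d 0 (fs f)) + ir (Y.d 0 (sn f))) = 0
    have h1 : FS (X.d 0 (fs f)) := (X.mat_d 0).fs hfs.fs
    have h2 : FS (Y.d 0 (sn f)) := (Y.mat_d 0).fs hfs.sn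
    rw [eps_add _ h1.il h2.ir, eps_il _ _ h1, eps_ir _ _ h2, X.eps_d _ (mem_pr.1 hf).1 hfs.fs,
      Y.eps_d _ (mem_pr.1 hf).2 hfs.sn, add_zero]

lemma PreRes.prod_toHC {Γ : Type*} [Group Γ] (X Y : PreRes.{0} Γ) : (X.prod Y).toHC = X.toHC.prod Y.toHC := rfl

/-- chain maps given by finite matrices, of augmentation zero -/
structure ZMap {Γ : Type*} [Group Γ] (X Y : PreRes.{0} Γ) extends HMap X.toHC Y.toHC where
  mat : ∀ i, Mat (f i)
  aug : ∀ x ∈ X.P 0, FS x → eps Y.w (f 0 x) = 0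

namespace PreMap
variable {Γ : Type*} [Group Γ] {X Y Y' : PreRes.{0} Γ}

/-- the operators -/
noncomputable def ff (F : PreMap X Y) (i : ℕ) : E Γ (X.ι i) →L[ℂ] E Γ (Y.ι i) := F.f i

lemma ff_mat (F : PreMap X Y) (i : ℕ) : Mat (F.ff i) := F.mat i

lemma ff_maps (F : PreMap X Y) (i : ℕ) : ∀ x ∈ X.P i, F.ff i x ∈ Y.P i := F.maps i

lemma ff_comm (F : PreMap X Y) (i : ℕ) : ∀ x ∈ X.P (i + 1), F.ff i (X.d i x) = Y.d i (F.ff (i + 1) x) := F.comm i

lemma ff_aug (F : PreMap X Y) : ∀ x ∈ X.P 0, FS x → eps Y.w (F.ff 0 x) = eps X.w x := F.aug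

/-- the operators of `pair` -/
noncomputable def pf (F : PreMap X Y) (F' : PreMap X Y') (i : ℕ) : E Γ (X.ι i) →L[ℂ] E Γ (Y.ι i ⊕ Y'.ι i) :=
  il.comp (F.ff i) - ir.comp (F'.ff i)

lemma pf_apply (F : PreMap X Y) (F' : PreMap X Y') (i : ℕ) (x : E Γ (X.ι i)) :
    pf F F' i x = il (F.ff i x) - ir (F'.ff i x) := rfl

lemma fs_pf (F : PreMap X Y) (F' : PreMap X Y') (i : ℕ) (x : E Γ (X.ι i)) : fs (pf F F' i x) = F.ff i x := by
  rw [pf_apply, map_sub, fs_il, fs_ir, sub_zero]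

lemma sn_pf (F : PreMap X Y) (F' : PreMap X Y') (i : ℕ) (x : E Γ (X.ι i)) : sn (pf F F' i x) = -F'.ff i x := by
  rw [pf_apply, map_sub, sn_il, sn_ir, zero_sub]

lemma mat_pf (F : PreMap X Y) (F' : PreMap X Y') (i : ℕ) : Mat (pf F F' i) :=
  (mat_il.comp (F.ff_mat i)).sub (mat_ir.comp (F'.ff_mat i))

lemma pf_mem (F : PreMap X Y) (F' : PreMap X Y') (i : ℕ) (x : E Γ (X.ι i)) (hx : x ∈ X.P i) :
    pf F F' i x ∈ pr (Y.P i) (Y'.P i) := by
  refine mem_pr.2 ⟨?_, ?_⟩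
  · rw [fs_pf]
    exact F.ff_maps i x hx
  · rw [sn_pf]
    exact Submodule.neg_mem _ (F'.ff_maps i x hx)

lemma pf_comm (F : PreMap X Y) (F' : PreMap X Y') (i : ℕ) (x : E Γ (X.ι (i + 1))) (hx : x ∈ X.P (i + 1)) :
    pf F F' i (X.d i x) = il (Y.d i (fs (pf F F' (i + 1) x))) + ir (Y'.d i (sn (pf F F' (i + 1) x))) := by
  rw [fs_pf, sn_pf, pf_apply, F.ff_comm i x hx, F'.ff_comm i x hx, map_neg, map_neg, sub_eq_add_neg]

lemma pf_aug (F : PreMap X Y) (F' : PreMap X Y') (x : E Γ (X.ι 0)) (hx : x ∈ X.P 0) (hfs : FS x) :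
    eps (Sum.elim Y.w Y'.w) (pf F F' 0 x) = 0 := by
  rw [eps_sum_elim _ _ ((mat_pf F F' 0).fs hfs), fs_pf, sn_pf, F.ff_aug x hx hfs]
  have h1 : eps Y'.w (-F'.ff 0 x) = -eps X.w x := by
    rw [← neg_one_smul ℂ, eps_smul _ _ ((F'.ff_mat 0).fs hfs), F'.ff_aug x hx hfs, neg_one_mul]
  rw [h1, add_neg_cancel]

/-- `x ↦ (F x, - F' x)` -/
noncomputable def pair (F : PreMap X Y) (F' : PreMap X Y') : ZMap X (Y.prod Y') where
  f i := pf F F' i
  equi i := (mat_pf F F' i).equi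
  maps i x hx := pf_mem F F' i x hx
  comm i x hx := pf_comm F F' i x hx
  mat i := mat_pf F F' i
  aug x hx hfs := pf_aug F F' x hx hfs

lemma fs_pair (F : PreMap X Y) (F' : PreMap X Y') (i : ℕ) (x : E Γ (X.ι i)) :
    (fs ((F.pair F').f i x : E Γ (Y.ι i ⊕ Y'.ι i)) : E Γ (Y.ι i)) = F.f i x := fs_pf F F' i x

lemma sn_pair (F : PreMap X Y) (F' : PreMap X Y') (i : ℕ) (x : E Γ (X.ι i)) :
    (sn ((F.pair F').f i x : E Γ (Y.ι i ⊕ Y'.ι i)) : E Γ (Y'.ι i)) = -F'.f i x := sn_pf F F' i x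

theorem pair_K (F : PreMap X Y) (F' : PreMap X Y') (i : ℕ) : (F.pair F').K i = F.K i ⊓ F'.K i := by
  have h1 : ∀ x : E Γ (X.ι i), (pf F F' i x : E Γ (Y.ι i ⊕ Y'.ι i)) ∈ (Y.toHC.prod Y'.toHC).B i ↔
      F.ff i x ∈ Y.toHC.B i ∧ F'.ff i x ∈ Y'.toHC.B i := by
    intro x
    refine (Y.toHC.mem_B_prod Y'.toHC i).trans ?_
    have h2 : fs (pf F F' i x) = F.ff i x := fs_pf F F' i x
    have h3 : sn (pf F F' i x) = -F'.ff i x := sn_pf F F' i x
    constructor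
    · rintro ⟨h4, h5⟩
      refine ⟨h2.subst (motive := fun z => z ∈ Y.toHC.B i) h4, ?_⟩
      have h6 : -F'.ff i x ∈ Y'.toHC.B i := h3.subst (motive := fun z => z ∈ Y'.toHC.B i) h5
      exact neg_mem_iff.1 h6
    · rintro ⟨h4, h5⟩
      refine ⟨h2.symm.subst (motive := fun z => z ∈ Y.toHC.B i) h4, ?_⟩
      exact h3.symm.subst (motive := fun z => z ∈ Y'.toHC.B i) (neg_mem h5)
  ext x
  constructor
  · rintro ⟨hx, h2⟩
    have h3 := (h1 x).1 h2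
    exact ⟨⟨hx, h3.1⟩, ⟨hx, h3.2⟩⟩
  · rintro ⟨⟨hx, h2⟩, ⟨_, h3⟩⟩
    exact ⟨hx, (h1 x).2 ⟨h2, h3⟩⟩

end PreMap

/-- the kernels in homology of induced chain maps -/
theorem PreMap.ind_K {C A Γ : Type*} [Group C] [Group A] [Group Γ] {φ : C →* A} {hφ : Function.Injective φ}
    {RC : PreRes.{0} C} {RA : PreRes.{0} A} (F : PreMap (RC.ind φ hφ) RA) (j : A →* Γ) (hj : Function.Injective j)
    (c : C →* Γ) (hc : Function.Injective c) (e : j.comp φ = c) (i : ℕ) :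
    ((F.ind j hj c hc e).K i : Submodule ℂ (E Γ (RC.ι i))) = Singer.ind j hj (F.K i : Submodule ℂ (E A (RC.ι i))) := by
  subst e
  have hZ : Singer.ind j hj ((RC.ind φ hφ).Z i : Submodule ℂ (E A (RC.ι i))) =
      ((RC.ind (j.comp φ) hc).Z i : Submodule ℂ (E Γ (RC.ι i))) := by
    have h1 := PreRes.ind_Z φ hφ RC i
    have h2 := PreRes.ind_Z (j.comp φ) hc RC i
    exact ((congrArg (fun V : Submodule ℂ (E A (RC.ι i)) => Singer.ind j hj V) h1).trans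
      (ind_ind φ hφ j hj (RC.Z i))).trans h2.symm
  have hB := PreRes.ind_B j hj RA i
  ext x
  constructor
  · rintro ⟨h1, h2⟩
    rw [PreRes.toHC_Z] at h1
    have h3 : x ∈ Singer.ind j hj ((RC.ind φ hφ).Z i : Submodule ℂ (E A (RC.ι i))) := hZ.ge h1
    have h4 : indOp (ι := RC.ι i) (κ := RA.ι i) j (F.mat i) x ∈ Singer.ind j hj (RA.B i) := hB.le h2
    refine mem_ind.2 fun g => ⟨?_, ?_⟩
    · rw [PreRes.toHC_Z]
      exact mem_ind.1 h3 g
    · have h5 := mem_ind.1 h4 g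
      rw [(indRel_indOp (ι := RC.ι i) (κ := RA.ι i) j hj (F.mat i)).rsj_lam] at h5
      exact h5
  · intro h1
    have h2 := mem_ind.1 h1
    refine ⟨?_, ?_⟩
    · rw [PreRes.toHC_Z]
      refine hZ.le (mem_ind.2 fun g => ?_)
      have h3 := (h2 g).1
      rwa [PreRes.toHC_Z] at h3
    · refine hB.ge (mem_ind.2 fun g => ?_)
      show rsj j hj (lam g (indOp (ι := RC.ι i) (κ := RA.ι i) j (F.mat i) x)) ∈ RA.B i
      rw [(indRel_indOp (ι := RC.ι i) (κ := RA.ι i) j hj (F.mat i)).rsj_lam]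
      exact (h2 g).2

end Singer
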