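import Pool.Agent.Singer.Defs

/-!
# Singer, general gluing: the side set of an amalgamated product `Monoid.PushoutI`

Construction (helper4): the second factor acts on `Γ × Bool` by left multiplication, the first factor by left
multiplication, conjugated with the swap of the two copies of the base group.
-/

set_option autoImplicit false

namespace Singer
namespace PushSide

open Monoid PushoutI

universe u v

variable {H : Type u} [Group H] {G : Bool → Type v} [∀ i, Group (G i)] {φ : ∀ i, H →* G i}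

/-- the first factor -/
def sA (φ : ∀ i, H →* G i) : Subgroup (PushoutI φ) := (of (φ := φ) true).range

/-- the second factor -/
def sB (φ : ∀ i, H →* G i) : Subgroup (PushoutI φ) := (of (φ := φ) false).range

/-- the base group -/
def sC (φ : ∀ i, H →* G i) : Subgroup (PushoutI φ) := (base φ).range

lemma sC_le_sA : sC φ ≤ sA φ := by
  rintro _ ⟨h, rfl⟩
  exact ⟨φ true h, of_apply_eq_base φ true h⟩

lemma sC_le_sB : sC φ ≤ sB φ := by
  rintro _ ⟨h, rfl⟩
  exact ⟨φ false h, of_apply_eq_base φ false h⟩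

lemma inf_eq (hφ : ∀ i, Function.Injective (φ i)) : sA φ ⊓ sB φ = sC φ :=
  inf_of_range_eq_base_range hφ (by decide)

lemma closure_eq_top : Subgroup.closure ((sA φ : Set (PushoutI φ)) ∪ sB φ) = ⊤ := by
  rw [eq_top_iff]
  intro x _
  induction x using PushoutI.induction_on with
  | of i g =>
    apply Subgroup.subset_closure
    cases i with
    | true => exact Or.inl ⟨g, rfl⟩
    | false => exact Or.inr ⟨g, rfl⟩
  | base h =>
    apply Subgroup.subset_closure
    exact Or.inl (sC_le_sA ⟨h, rfl⟩)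
  | mul x y hx hy => exact Subgroup.mul_mem _ (hx trivial) (hy trivial)

lemma of_inj (hφ : ∀ i, Function.Injective (φ i)) (i : Bool) : Function.Injective (of (φ := φ) i) :=
  of_injective hφ i

lemma base_inj (hφ : ∀ i, Function.Injective (φ i)) : Function.Injective (base φ) := base_injective hφ

section side
open scoped Classical

/-- swap the two copies of a subgroup -/
noncomputable def swp {Γ : Type*} [Group Γ] (C : Subgroup Γ) : Equiv.Perm (Γ × Bool) where
  toFun x := (x.1, if x.1 ∈ C then !x.2 else x.2)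
  invFun x := (x.1, if x.1 ∈ C then !x.2 else x.2)
  left_inv x := by
    refine Prod.ext rfl ?_
    dsimp only
    split_ifs <;> simp
  right_inv x := by
    refine Prod.ext rfl ?_
    dsimp only
    split_ifs <;> simp

lemma swp_swp {Γ : Type*} [Group Γ] (C : Subgroup Γ) : swp C * swp C = 1 := by
  ext1 x
  exact (swp C).left_inv x

/-- left multiplication on the first factor -/
def lft (Γ : Type*) [Group Γ] : Γ →* Equiv.Perm (Γ × Bool) where
  toFun w := ⟨fun x => (w * x.1, x.2), fun x => (w⁻¹ * x.1, x.2), fun x => by simp, fun x => by simp⟩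
  map_one' := by ext1 x; show ((1 : Γ) * x.1, x.2) = x; rw [one_mul]
  map_mul' a b := by ext1 x; show (a * b * x.1, x.2) = (a * (b * x.1), x.2); rw [mul_assoc]

lemma swp_lft {Γ : Type*} [Group Γ] {C : Subgroup Γ} {c : Γ} (hc : c ∈ C) :
    swp C * lft Γ c = lft Γ c * swp C := by
  ext1 x
  show (c * x.1, if c * x.1 ∈ C then !x.2 else x.2) = (c * x.1, if x.1 ∈ C then !x.2 else x.2)
  rw [if_congr (Subgroup.mul_mem_cancel_left _ hc) rfl rfl]

/-- the twisted left multiplication -/
noncomputable def twi {Γ : Type*} [Group Γ] (C : Subgroup Γ) : Γ →* Equiv.Perm (Γ × Bool) where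
  toFun w := swp C * lft Γ w * swp C
  map_one' := by rw [map_one, mul_one, swp_swp]
  map_mul' a b := by
    rw [map_mul]
    calc swp C * (lft Γ a * lft Γ b) * swp C = swp C * (lft Γ a * (1 * lft Γ b)) * swp C := by rw [one_mul]
      _ = _ := by rw [← swp_swp C]; simp only [mul_assoc]

lemma twi_eq {Γ : Type*} [Group Γ] {C : Subgroup Γ} {c : Γ} (hc : c ∈ C) : twi C c = lft Γ c := by
  show swp C * lft Γ c * swp C = lft Γ c
  rw [swp_lft hc, mul_assoc, swp_swp, mul_one]

variable (φ)

/-- the twisted action on the factors -/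
noncomputable def fac : ∀ i, G i →* Equiv.Perm (PushoutI φ × Bool)
  | true => (twi (sC φ)).comp (of (φ := φ) true)
  | false => (lft (PushoutI φ)).comp (of (φ := φ) false)

/-- the twisted action -/
noncomputable def rep : PushoutI φ →* Equiv.Perm (PushoutI φ × Bool) :=
  PushoutI.lift (fac φ) ((lft (PushoutI φ)).comp (base φ)) fun i => by
    ext1 h
    cases i with
    | true =>
      show twi (sC φ) (of true (φ true h)) = lft (PushoutI φ) (base φ h)
      rw [of_apply_eq_base φ true h, twi_eq (C := sC φ) ⟨h, rfl⟩]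
    | false =>
      show lft (PushoutI φ) (of false (φ false h)) = lft (PushoutI φ) (base φ h)
      rw [of_apply_eq_base φ false h]

variable {φ}

lemma rep_B {k : PushoutI φ} (hk : k ∈ sB φ) : rep φ k = lft (PushoutI φ) k := by
  obtain ⟨g, rfl⟩ := hk
  show PushoutI.lift _ _ _ (of false g) = _
  rw [lift_of]
  rfl

lemma rep_A {k : PushoutI φ} (hk : k ∈ sA φ) : rep φ k = twi (sC φ) k := by
  obtain ⟨g, rfl⟩ := hk
  show PushoutI.lift _ _ _ (of true g) = _
  rw [lift_of]
  rfl

lemma rep_fst (w : PushoutI φ) (x : PushoutI φ × Bool) : (rep φ w x).1 = w * x.1 := by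
  induction w using PushoutI.induction_on generalizing x with
  | of i g =>
    cases i with
    | true => rw [rep_A ⟨g, rfl⟩]; rfl
    | false => rw [rep_B ⟨g, rfl⟩]; rfl
  | base h => rw [rep_B (sC_le_sB ⟨h, rfl⟩)]; rfl
  | mul v w hv hw => rw [map_mul, Equiv.Perm.mul_apply, hv, hw, mul_assoc]

/-- the half-space: invariant under `B`, disjoint from `C`, union with `C` invariant under `A` -/
theorem exists_half : ∃ S : Set (PushoutI φ), (∀ w ∈ S, ∀ k ∈ sB φ, w * k ∈ S) ∧
    (∀ w, (w ∈ S ∨ w ∈ sC φ) → ∀ k ∈ sA φ, w * k ∈ S ∨ w * k ∈ sC φ) ∧ ∀ w ∈ S, w ∉ sC φ := by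
  set s : PushoutI φ → Bool := fun w => (rep φ w (1, false)).2 with hs
  have hrep : ∀ w, rep φ w (1, false) = (w, s w) := fun w => Prod.ext (by rw [rep_fst, mul_one]) rfl
  have h2 : ∀ k ∈ sB φ, ∀ w, s (k * w) = s w := by
    intro k hk w
    show (rep φ (k * w) (1, false)).2 = _
    rw [map_mul, Equiv.Perm.mul_apply, rep_B hk, hrep]
    rfl
  have hC : ∀ c ∈ sC φ, s c = false := by
    intro c hc
    have h1 := h2 c (sC_le_sB hc) 1
    rw [mul_one] at h1
    rw [h1]
    show (rep φ 1 (1, false)).2 = false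
    rw [map_one]
    rfl
  have h1 : ∀ k ∈ sA φ, ∀ w, s (k * w) =
      if k * w ∈ sC φ then !(if w ∈ sC φ then !(s w) else s w)
        else (if w ∈ sC φ then !(s w) else s w) := by
    intro k hk w
    show (rep φ (k * w) (1, false)).2 = _
    rw [map_mul, Equiv.Perm.mul_apply, rep_A hk, hrep]
    rfl
  have hinv : ∀ k, k ∈ sA φ → ∀ w, (s w = true ∨ w ∈ sC φ) → (s (k * w) = true ∨ k * w ∈ sC φ) := by
    intro k hk w hw
    by_cases h : k * w ∈ sC φ
    · exact Or.inr h
    left
    rw [h1 k hk w, if_neg h]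
    by_cases h' : w ∈ sC φ
    · rw [if_pos h', hC w h']
      rfl
    · rw [if_neg h']
      exact hw.resolve_right h'
  have hinvmem : ∀ w : PushoutI φ, w⁻¹ ∈ sC φ ↔ w ∈ sC φ := fun w => inv_mem_iff
  refine ⟨{w | s w⁻¹ = true}, fun w hw k hk => ?_, fun w hw k hk => ?_, fun w hw hc => ?_⟩
  · show s (w * k)⁻¹ = true
    rw [mul_inv_rev, h2 _ (Subgroup.inv_mem _ hk)]
    exact hw
  · have h3 := hinv k⁻¹ (Subgroup.inv_mem _ hk) w⁻¹ (hw.imp id fun h => (hinvmem w).2 h)
    rw [← mul_inv_rev] at h3
    exact h3.imp id fun h => (hinvmem _).1 h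
  · have h4 : s w⁻¹ = true := hw
    rw [hC _ ((hinvmem w).2 hc)] at h4
    exact absurd h4 (by simp)

/-- **the side set of an amalgamated product** -/
theorem side (φ : ∀ i, H →* G i) : Side (sA φ) (sB φ) (sC φ) := by
  obtain ⟨S, h1, h2, h3⟩ := exists_half (φ := φ)
  refine ⟨{w | w ∈ S ∨ w ∈ sC φ}, fun g hg k hk => h2 g hg k hk, fun c hc => Or.inr hc, fun g hg hgC b hb => ?_⟩
  have hgS : g ∈ S := hg.resolve_right hgC
  exact ⟨Or.inl (h1 g hgS b hb), h3 _ (h1 g hgS b hb)⟩

end side

end PushSide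
end Singer
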