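import Pool.Agent.Singer.Gen.Main
import Pool.Agent.Singer.Gen.PushSide

/-!
# Singer, general gluing theorem: amalgamated products `Monoid.PushoutI`
-/

set_option autoImplicit false
set_option linter.unusedSectionVars false
set_option linter.unusedVariables false

namespace Singer

universe u v

open Monoid PushoutI

variable {H : Type u} [Group H] {G : Bool → Type v} [∀ b, Group (G b)] {φ : ∀ b, H →* G b}

/-- the amalgamated product as an `Amal` -/
theorem amal_pushout (hφ : ∀ b, Function.Injective (φ b)) :
    Amal (φ true) (φ false) (of (φ := φ) true) (of (φ := φ) false) (base φ) where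
  hφ := hφ true
  hφ' := hφ false
  hj := PushSide.of_inj hφ true
  hj' := PushSide.of_inj hφ false
  hc := PushSide.base_inj hφ
  e := MonoidHom.ext fun h => of_apply_eq_base φ true h
  e' := MonoidHom.ext fun h => of_apply_eq_base φ false h
  side := PushSide.side φ
  gen := PushSide.closure_eq_top

/-- the double -/
theorem amal_double (hφ : ∀ b, Function.Injective (φ b)) (b : Bool) :
    Amal (φ b) (φ b) (of (φ := fun _ : Bool => φ b) true) (of (φ := fun _ : Bool => φ b) false)
      (base fun _ : Bool => φ b) :=
  amal_pushout (φ := fun _ : Bool => φ b) fun _ => hφ b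

/-- **the gluing inequality**, for resolutions -/
theorem push_le (hφ : ∀ b, Function.Injective (φ b)) (RC : Res.{0} H) (RG : ∀ b, Res.{0} (G b)) :
    ∃ (S : Res.{0} (PushoutI φ)) (SD : ∀ b, Res.{0} (PushoutI fun _ : Bool => φ b)), ∀ i,
      2 * S.toHC.h i ≤ (SD true).toHC.h i + (SD false).toHC.h i := by
  obtain ⟨S, SD, SD', h⟩ := (amal_pushout hφ).exists_le (amal_double hφ true) (amal_double hφ false) RC (RG true)
    (RG false)
  exact ⟨S, fun b => match b with
    | true => SD
    | false => SD', h⟩

end Singer
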