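import Pool.Agent.Singer.Gen.PreConeA
import Pool.Agent.Singer.Gen.CosAug

/-!
# Singer, groups acting on trees: finite direct sums

`pe a`, `ie a`: the components of `ℓ²(Γ × Σ a, ι a)`; `dsum W`: direct sum of submodules; `HC.sig`, `PreRes.sig`.
-/

set_option autoImplicit false
set_option linter.unusedSectionVars false
set_option linter.unusedVariables false

open scoped ComplexConjugate InnerProductSpace
open Filter Topology

namespace Singer

section sig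
variable {Γ : Type*} [Group Γ] {α : Type} {ι κ μ : α → Type}

lemma sig_inj (a : α) : Function.Injective fun x : Γ × ι a => (x.1, (⟨a, x.2⟩ : Σ a, ι a)) := by
  rintro ⟨g, i⟩ ⟨h, k⟩ e
  have h1 : g = h := congrArg Prod.fst e
  have h2 : (⟨a, i⟩ : Σ a, ι a) = ⟨a, k⟩ := congrArg Prod.snd e
  have h3 : i = k := by
    rw [Sigma.mk.injEq] at h2
    exact eq_of_heq h2.2
  rw [h1, h3]

/-- the component `a` -/
noncomputable def pe (a : α) : E Γ (Σ a, ι a) →L[ℂ] E Γ (ι a) := pull _ (sig_inj a)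
/-- the inclusion of the summand `a` -/
noncomputable def ie (a : α) : E Γ (ι a) →L[ℂ] E Γ (Σ a, ι a) := push _ (sig_inj a)

lemma pe_apply (a : α) (f : E Γ (Σ a, ι a)) (x : Γ × ι a) : pe a f x = f (x.1, ⟨a, x.2⟩) := rfl

lemma ie_apply_self (a : α) (f : E Γ (ι a)) (g : Γ) (i : ι a) : (ie a f : E Γ (Σ a, ι a)) (g, ⟨a, i⟩) = f (g, i) :=
  push_apply _ (sig_inj a) f (g, i)

lemma ie_apply_ne {a b : α} (h : b ≠ a) (f : E Γ (ι a)) (g : Γ) (i : ι b) :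
    (ie a f : E Γ (Σ a, ι a)) (g, ⟨b, i⟩) = 0 := by
  apply push_apply_of_notMem
  rintro ⟨x, hx⟩
  exact h (congrArg (fun y : Γ × (Σ a, ι a) => y.2.1) hx).symm

@[simp] lemma pe_ie_self (a : α) (f : E Γ (ι a)) : pe a (ie a f : E Γ (Σ a, ι a)) = f := by
  ext ⟨g, i⟩
  rw [pe_apply]
  exact ie_apply_self a f g i

lemma pe_ie_ne {a b : α} (h : b ≠ a) (f : E Γ (ι a)) : pe b (ie a f : E Γ (Σ a, ι a)) = 0 := by
  ext ⟨g, i⟩
  rw [pe_apply]
  exact ie_apply_ne h f g i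

lemma sig_ext {f h : E Γ (Σ a, ι a)} (e : ∀ a, pe a f = pe a h) : f = h := by
  ext ⟨g, a, i⟩
  exact congrArg (fun u : E Γ (ι a) => u (g, i)) (e a)

lemma pe_sum_ie [Fintype α] (u : ∀ a, E Γ (ι a)) (a : α) : pe a (∑ b, ie b (u b) : E Γ (Σ a, ι a)) = u a := by
  classical
  rw [map_sum, Finset.sum_eq_single_of_mem a (Finset.mem_univ a), pe_ie_self]
  intro b _ hb
  exact pe_ie_ne hb.symm _

lemma sum_ie_pe [Fintype α] (f : E Γ (Σ a, ι a)) : ∑ a, ie a (pe a f) = f :=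
  sig_ext fun a => pe_sum_ie _ a

lemma norm_ie (a : α) (f : E Γ (ι a)) : ‖(ie a f : E Γ (Σ a, ι a))‖ = ‖f‖ := norm_push _ (sig_inj a) f

lemma equi_pe (a : α) : Equi (pe a : E Γ (Σ a, ι a) →L[ℂ] E Γ (ι a)) := fun g f => rfl

lemma equi_ie (a : α) : Equi (ie a : E Γ (ι a) →L[ℂ] E Γ (Σ a, ι a)) := by
  intro g f
  refine sig_ext fun b => ?_
  rw [equi_pe b g]
  by_cases h : b = a
  · subst h
    rw [pe_ie_self, pe_ie_self]
  · rw [pe_ie_ne h, pe_ie_ne h, map_zero]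

lemma FS.pe (a : α) {f : E Γ (Σ a, ι a)} (hf : FS f) : FS (Singer.pe a f) := by
  have h1 : {x : Γ × ι a | (Singer.pe a f) x ≠ 0} =
      (fun x : Γ × ι a => (x.1, (⟨a, x.2⟩ : Σ a, ι a))) ⁻¹' {y | f y ≠ 0} := rfl
  unfold FS
  rw [h1]
  exact hf.preimage (sig_inj a).injOn

lemma FS.ie (a : α) {f : E Γ (ι a)} (hf : FS f) : FS (Singer.ie a f : E Γ (Σ a, ι a)) := by
  refine (hf.image fun x : Γ × ι a => (x.1, (⟨a, x.2⟩ : Σ a, ι a))).subset ?_
  rintro ⟨g, b, i⟩ hx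
  by_cases h : b = a
  · subst h
    refine ⟨(g, i), ?_, rfl⟩
    have h1 : (Singer.ie b f : E Γ (Σ a, ι a)) (g, ⟨b, i⟩) ≠ 0 := hx
    rwa [ie_apply_self] at h1
  · exact absurd (ie_apply_ne h f g i) hx

lemma ie_del (a : α) (g : Γ) (i : ι a) : (ie a (del g i) : E Γ (Σ a, ι a)) = del g ⟨a, i⟩ := by
  ext ⟨h, b, k⟩
  by_cases hb : b = a
  · subst hb
    rw [ie_apply_self]
    by_cases h1 : ((h, k) : Γ × ι b) = (g, i)
    · have h2 : h = g := congrArg Prod.fst h1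
      have h3 : k = i := congrArg Prod.snd h1
      subst h2 h3
      exact (del_apply_self h k).trans (del_apply_self h (⟨b, k⟩ : Σ a, ι a)).symm
    · rw [del_apply_ne h1, del_apply_ne]
      intro h2
      apply h1
      have h3 : h = g := congrArg Prod.fst h2
      have h4 : (⟨b, k⟩ : Σ a, ι a) = ⟨b, i⟩ := congrArg Prod.snd h2
      rw [Sigma.mk.injEq] at h4
      rw [h3, eq_of_heq h4.2]
  · rw [ie_apply_ne hb, del_apply_ne]
    intro h2
    exact hb (congrArg (fun y : Γ × (Σ a, ι a) => y.2.1) h2)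

lemma pe_del_self (a : α) (g : Γ) (i : ι a) : (pe a (del g (⟨a, i⟩ : Σ a, ι a)) : E Γ (ι a)) = del g i := by
  rw [← ie_del, pe_ie_self]

lemma pe_del_ne {a b : α} (h : b ≠ a) (g : Γ) (i : ι a) : (pe b (del g (⟨a, i⟩ : Σ a, ι a)) : E Γ (ι b)) = 0 := by
  rw [← ie_del, pe_ie_ne h]

lemma mat_pe (a : α) : Mat (pe a : E Γ (Σ a, ι a) →L[ℂ] E Γ (ι a)) := ⟨equi_pe a, fun j => (fs_del 1 j).pe a⟩
lemma mat_ie (a : α) : Mat (ie a : E Γ (ι a) →L[ℂ] E Γ (Σ a, ι a)) := ⟨equi_ie a, fun j => (fs_del 1 j).ie a⟩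

/-- right translations and cuts act on the components -/
lemma pe_rt (a : α) (t : Γ) (f : E Γ (Σ a, ι a)) : pe a (rt t f) = rt t (pe a f) := rfl

lemma pe_cut (a : α) (S : Set Γ) (f : E Γ (Σ a, ι a)) : pe a (cut S f) = cut S (pe a f) := by
  ext ⟨g, i⟩
  rw [pe_apply]
  by_cases hg : g ∈ S
  · rw [cut_apply_mem (by exact hg), cut_apply_mem (by exact hg)]
    rfl
  · rw [cut_apply_notMem (by exact hg), cut_apply_notMem (by exact hg)]

lemma eps_ie (w : ∀ a, ι a → ℂ) (a : α) {u : E Γ (ι a)} (hu : FS u) :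
    eps (fun x : Σ a, ι a => w x.1 x.2) (ie a u : E Γ (Σ a, ι a)) = eps (w a) u := by
  have h1 : ∀ x ∈ hu.toFinset, FS (u x • del x.1 x.2 : E Γ (ι a)) := fun x _ => (fs_del _ _).smul _
  conv_lhs => rw [hu.eq_sum, map_sum, eps_sum _ fun x hx => (h1 x hx).ie a]
  conv_rhs => rw [hu.eq_sum, eps_sum (w a) h1]
  refine Finset.sum_congr rfl fun x _ => ?_
  rw [map_smul, ie_del, eps_smul _ _ (fs_del _ _), eps_smul (w a) _ (fs_del _ _), eps_del, eps_del]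

lemma eps_sig [Fintype α] (w : ∀ a, ι a → ℂ) {f : E Γ (Σ a, ι a)} (hf : FS f) :
    eps (fun x : Σ a, ι a => w x.1 x.2) f = ∑ a, eps (w a) (pe a f) := by
  conv_lhs => rw [← sum_ie_pe f]
  rw [eps_sum _ fun a _ => (hf.pe a).ie a]
  exact Finset.sum_congr rfl fun a _ => eps_ie w a (hf.pe a)

/-- adjointness -/
lemma inner_ie_left (a : α) (u : E Γ (ι a)) (h : E Γ (Σ a, ι a)) : ⟪(ie a u : E Γ (Σ a, ι a)), h⟫_ℂ = ⟪u, pe a h⟫_ℂ := by
  rw [inner_eq, inner_eq]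
  rw [← (sig_inj (Γ := Γ) a).tsum_eq (f := fun x : Γ × (Σ a, ι a) => conj ((ie a u : E Γ (Σ a, ι a)) x) * h x)]
  · refine tsum_congr fun x => ?_
    show conj ((ie a u : E Γ (Σ a, ι a)) (x.1, ⟨a, x.2⟩)) * _ = _
    rw [ie_apply_self]
    rfl
  · rintro ⟨g, b, i⟩ hx
    by_cases hb : b = a
    · subst hb
      exact ⟨(g, i), rfl⟩
    · exfalso
      apply hx
      show conj ((ie a u : E Γ (Σ a, ι a)) (g, ⟨b, i⟩)) * _ = 0
      rw [ie_apply_ne hb, map_zero, zero_mul]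

lemma inner_sig [Fintype α] (f h : E Γ (Σ a, ι a)) : ⟪f, h⟫_ℂ = ∑ a, ⟪pe a f, pe a h⟫_ℂ := by
  conv_lhs => rw [← sum_ie_pe f]
  rw [sum_inner]
  exact Finset.sum_congr rfl fun a _ => inner_ie_left a _ _

/-- direct sum of submodules -/
noncomputable def dsum (W : ∀ a, Submodule ℂ (E Γ (ι a))) : Submodule ℂ (E Γ (Σ a, ι a)) :=
  ⨅ a, (W a).comap (pe a : E Γ (Σ a, ι a) →L[ℂ] E Γ (ι a)).toLinearMap

lemma mem_dsum {W : ∀ a, Submodule ℂ (E Γ (ι a))} {f : E Γ (Σ a, ι a)} : f ∈ dsum W ↔ ∀ a, pe a f ∈ W a := by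
  unfold dsum
  rw [Submodule.mem_iInf]
  rfl

lemma ie_mem_dsum {W : ∀ a, Submodule ℂ (E Γ (ι a))} {a : α} {f : E Γ (ι a)} (h : f ∈ W a) :
    (ie a f : E Γ (Σ a, ι a)) ∈ dsum W := by
  rw [mem_dsum]
  intro b
  by_cases hb : b = a
  · subst hb
    rwa [pe_ie_self]
  · rw [pe_ie_ne hb]
    exact (W b).zero_mem

lemma Mdl.dsum {W : ∀ a, Submodule ℂ (E Γ (ι a))} (h : ∀ a, Mdl (W a)) : Mdl (Singer.dsum W) := by
  constructor
  · intro g f hf
    rw [mem_dsum] at hf ⊢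
    intro a
    rw [equi_pe]
    exact (h a).inv g _ (hf a)
  · have h1 : (Singer.dsum W : Set (E Γ (Σ a, ι a))) = ⋂ a, (pe a : E Γ (Σ a, ι a) →L[ℂ] E Γ (ι a)) ⁻¹' (W a : Set (E Γ (ι a))) := by
      ext f
      rw [Set.mem_iInter]
      exact mem_dsum
    rw [h1]
    exact isClosed_iInter fun a => (h a).cl.preimage (pe a : E Γ (Σ a, ι a) →L[ℂ] E Γ (ι a)).continuous

lemma dsum_mono {V W : ∀ a, Submodule ℂ (E Γ (ι a))} (h : ∀ a, V a ≤ W a) : dsum V ≤ dsum W := by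
  intro f hf
  rw [mem_dsum] at hf ⊢
  exact fun a => h a (hf a)

lemma dsum_inf (V W : ∀ a, Submodule ℂ (E Γ (ι a))) : (dsum fun a => V a ⊓ W a) = dsum V ⊓ dsum W := by
  ext f
  rw [Submodule.mem_inf, mem_dsum, mem_dsum, mem_dsum]
  exact ⟨fun h => ⟨fun a => (h a).1, fun a => (h a).2⟩, fun h a => ⟨h.1 a, h.2 a⟩⟩

lemma prj_dsum [Fintype α] (W : ∀ a, Submodule ℂ (E Γ (ι a))) (f : E Γ (Σ a, ι a)) :
    prj (dsum W) f = ∑ a, ie a (prj (W a) (pe a f)) := by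
  refine prj_unique (Submodule.sum_mem _ fun a _ => ?_) ?_
  · exact map_closure_le (fun g hg => ie_mem_dsum hg) (prj_mem (W a) (pe a f))
  · rw [Submodule.mem_orthogonal]
    intro u hu
    have hu' := mem_dsum.1 hu
    rw [inner_sig]
    refine Finset.sum_eq_zero fun a _ => ?_
    rw [map_sub, pe_sum_ie]
    exact (Submodule.mem_orthogonal _ _).1 (sub_prj_mem (W a) (pe a f)) _ (hu' a)

theorem vdim_dsum' [Fintype α] [∀ a, Fintype (ι a)] (W : ∀ a, Submodule ℂ (E Γ (ι a))) :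
    vdim (dsum W) = ∑ a, vdim (W a) := by
  classical
  unfold vdim
  rw [Fintype.sum_sigma]
  refine Finset.sum_congr rfl fun a _ => Finset.sum_congr rfl fun i _ => ?_
  rw [prj_dsum, Finset.sum_eq_single_of_mem a (Finset.mem_univ a), pe_del_self, norm_ie]
  intro b _ hb
  rw [pe_del_ne hb, map_zero, map_zero]

theorem vdim_dsum [Fintype α] [∀ a, Fintype (ι a)] {W : ∀ a, Submodule ℂ (E Γ (ι a))} (h : ∀ a, Mdl (W a)) :
    vdim (dsum W) = ∑ a, vdim (W a) := vdim_dsum' W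

lemma dsum_orthogonal [Fintype α] (W : ∀ a, Submodule ℂ (E Γ (ι a))) : (dsum fun a => (W a)ᗮ) = (dsum W)ᗮ := by
  ext f
  rw [mem_dsum, Submodule.mem_orthogonal]
  constructor
  · intro h u hu
    rw [inner_sig]
    exact Finset.sum_eq_zero fun a _ => (Submodule.mem_orthogonal _ _).1 (h a) _ (mem_dsum.1 hu a)
  · intro h a
    rw [Submodule.mem_orthogonal]
    intro u hu
    rw [← inner_ie_left]
    exact h _ (ie_mem_dsum hu)

/-- induction commutes with direct sums -/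
lemma ind_dsum {H : Type*} [Group H] (j : H →* Γ) (hj : Function.Injective j) (W : ∀ a, Submodule ℂ (E H (ι a))) :
    ind j hj (dsum W) = dsum fun a => ind j hj (W a) := by
  ext f
  rw [mem_ind, mem_dsum]
  constructor
  · intro h a
    rw [mem_ind]
    intro g
    exact mem_dsum.1 (h g) a
  · intro h g
    rw [mem_dsum]
    intro a
    exact mem_ind.1 (h a) g

/-- diagonal operators -/
lemma pe_diag [Fintype α] (T : ∀ a, E Γ (ι a) →L[ℂ] E Γ (κ a)) (f : E Γ (Σ a, ι a)) (a : α) :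
    pe a ((∑ a, ((ie a).comp (T a)).comp (pe a) : E Γ (Σ a, ι a) →L[ℂ] E Γ (Σ a, κ a)) f) = T a (pe a f) := by
  rw [sum_apply]
  exact pe_sum_ie (fun b => T b (pe b f)) a

lemma equi_diag [Fintype α] {T : ∀ a, E Γ (ι a) →L[ℂ] E Γ (κ a)} (h : ∀ a, Equi (T a)) :
    Equi (∑ a, ((ie a).comp (T a)).comp (pe a) : E Γ (Σ a, ι a) →L[ℂ] E Γ (Σ a, κ a)) :=
  Equi.sum fun a _ => ((equi_ie a).comp (h a)).comp (equi_pe a)

lemma mat_diag [Fintype α] {T : ∀ a, E Γ (ι a) →L[ℂ] E Γ (κ a)} (h : ∀ a, Mat (T a)) :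
    Mat (∑ a, ((ie a).comp (T a)).comp (pe a) : E Γ (Σ a, ι a) →L[ℂ] E Γ (Σ a, κ a)) :=
  Mat.sum fun a _ => ((mat_ie a).comp (h a)).comp (mat_pe a)

lemma diag_mem [Fintype α] {T : ∀ a, E Γ (ι a) →L[ℂ] E Γ (κ a)} {V : ∀ a, Submodule ℂ (E Γ (ι a))}
    {W : ∀ a, Submodule ℂ (E Γ (κ a))} (h : ∀ a, ∀ f ∈ V a, T a f ∈ W a) {f : E Γ (Σ a, ι a)} (hf : f ∈ dsum V) :
    (∑ a, ((ie a).comp (T a)).comp (pe a) : E Γ (Σ a, ι a) →L[ℂ] E Γ (Σ a, κ a)) f ∈ dsum W := by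
  rw [mem_dsum]
  intro a
  rw [pe_diag]
  exact h a _ (mem_dsum.1 hf a)

lemma diag_diag [Fintype α] {T : ∀ a, E Γ (ι a) →L[ℂ] E Γ (κ a)} {S : ∀ a, E Γ (κ a) →L[ℂ] E Γ (μ a)}
    {V : ∀ a, Submodule ℂ (E Γ (ι a))} (h : ∀ a, ∀ f ∈ V a, S a (T a f) = 0) {f : E Γ (Σ a, ι a)} (hf : f ∈ dsum V) :
    (∑ a, ((ie a).comp (S a)).comp (pe a) : E Γ (Σ a, κ a) →L[ℂ] E Γ (Σ a, μ a))
      ((∑ a, ((ie a).comp (T a)).comp (pe a) : E Γ (Σ a, ι a) →L[ℂ] E Γ (Σ a, κ a)) f) = 0 := by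
  refine sig_ext fun a => ?_
  rw [pe_diag, pe_diag, h a _ (mem_dsum.1 hf a), map_zero]

lemma diag_ker [Fintype α] (T : ∀ a, E Γ (ι a) →L[ℂ] E Γ (κ a)) (V : ∀ a, Submodule ℂ (E Γ (ι a))) :
    dsum V ⊓ LinearMap.ker ((∑ a, ((ie a).comp (T a)).comp (pe a) : E Γ (Σ a, ι a) →L[ℂ] E Γ (Σ a, κ a)) :
      E Γ (Σ a, ι a) →ₗ[ℂ] E Γ (Σ a, κ a)) =
      dsum fun a => V a ⊓ LinearMap.ker (T a : E Γ (ι a) →ₗ[ℂ] E Γ (κ a)) := by
  ext f
  rw [Submodule.mem_inf, mem_dsum, mem_dsum]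
  constructor
  · rintro ⟨h1, h2⟩ a
    refine ⟨h1 a, ?_⟩
    have h3 : (∑ a, ((ie a).comp (T a)).comp (pe a) : E Γ (Σ a, ι a) →L[ℂ] E Γ (Σ a, κ a)) f = 0 := h2
    have h4 := pe_diag T f a
    rw [h3, map_zero] at h4
    exact h4.symm
  · intro h
    refine ⟨fun a => (h a).1, ?_⟩
    show (∑ a, ((ie a).comp (T a)).comp (pe a) : E Γ (Σ a, ι a) →L[ℂ] E Γ (Σ a, κ a)) f = 0
    refine sig_ext fun a => ?_
    rw [pe_diag, map_zero]
    exact (h a).2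

lemma diag_map [Fintype α] (T : ∀ a, E Γ (ι a) →L[ℂ] E Γ (κ a)) (V : ∀ a, Submodule ℂ (E Γ (ι a))) :
    ((dsum V).map ((∑ a, ((ie a).comp (T a)).comp (pe a) : E Γ (Σ a, ι a) →L[ℂ] E Γ (Σ a, κ a)) :
      E Γ (Σ a, ι a) →ₗ[ℂ] E Γ (Σ a, κ a))).topologicalClosure =
      dsum fun a => ((V a).map (T a : E Γ (ι a) →ₗ[ℂ] E Γ (κ a))).topologicalClosure := by
  refine le_antisymm ?_ ?_
  · refine Submodule.topologicalClosure_minimal _ ?_ ?_
    · rintro _ ⟨f, hf, rfl⟩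
      have h0 : ∀ a, ∀ g ∈ V a, T a g ∈ ((V a).map (T a : E Γ (ι a) →ₗ[ℂ] E Γ (κ a))).topologicalClosure :=
        fun a g hg => Submodule.le_topologicalClosure _ ⟨g, hg, rfl⟩
      exact diag_mem (T := T) (V := V) h0 hf
    · have h1 : (dsum (fun a => ((V a).map (T a : E Γ (ι a) →ₗ[ℂ] E Γ (κ a))).topologicalClosure) : Set (E Γ (Σ a, κ a))) =
          ⋂ a, (pe a : E Γ (Σ a, κ a) →L[ℂ] E Γ (κ a)) ⁻¹'
            (((V a).map (T a : E Γ (ι a) →ₗ[ℂ] E Γ (κ a))).topologicalClosure : Set (E Γ (κ a))) := by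
        ext f
        rw [Set.mem_iInter]
        exact mem_dsum
      rw [h1]
      exact isClosed_iInter fun a => (Submodule.isClosed_topologicalClosure _).preimage
        (pe a : E Γ (Σ a, κ a) →L[ℂ] E Γ (κ a)).continuous
  · intro f hf
    rw [mem_dsum] at hf
    rw [← sum_ie_pe f]
    refine Submodule.sum_mem _ fun a _ => ?_
    refine map_closure_le ?_ (hf a)
    rintro _ ⟨g, hg, rfl⟩
    refine ⟨ie a g, ie_mem_dsum hg, ?_⟩
    show (∑ a, ((ie a).comp (T a)).comp (pe a) : E Γ (Σ a, ι a) →L[ℂ] E Γ (Σ a, κ a)) (ie a g) = ie a (T a g)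
    refine sig_ext fun b => ?_
    rw [pe_diag]
    by_cases hb : b = a
    · subst hb
      rw [pe_ie_self, pe_ie_self]
    · rw [pe_ie_ne hb, pe_ie_ne hb, map_zero]

end sig

section cx
variable {Γ : Type*} [Group Γ] {α : Type} [Fintype α]

/-- the direct sum -/
noncomputable def HC.sig (X : α → HC Γ) : HC Γ where
  ι i := Σ a, (X a).ι i
  fin i := (inferInstance : Fintype (Σ a, (X a).ι i))
  P i := dsum fun a => (X a).P i
  mdl i := Mdl.dsum fun a => (X a).mdl i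
  d i := ∑ a, ((ie (ι := fun a => (X a).ι i) a).comp ((X a).d i)).comp (pe (ι := fun a => (X a).ι (i + 1)) a)
  equi i := equi_diag fun a => (X a).equi i
  maps i f hf := diag_mem (ι := fun a => (X a).ι (i + 1)) (κ := fun a => (X a).ι i) (T := fun a => (X a).d i)
    (V := fun a => (X a).P (i + 1)) (W := fun a => (X a).P i) (fun a => (X a).maps i) hf
  dd i f hf := diag_diag (ι := fun a => (X a).ι (i + 2)) (κ := fun a => (X a).ι (i + 1)) (μ := fun a => (X a).ι i)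
    (T := fun a => (X a).d (i + 1)) (S := fun a => (X a).d i) (V := fun a => (X a).P (i + 2)) (fun a => (X a).dd i) hf

theorem HC.Z_sig (X : α → HC Γ) (i : ℕ) :
    (HC.sig X).Z i = (dsum fun a => (X a).Z i : Submodule ℂ (E Γ (Σ a, (X a).ι i))) := by
  cases i with
  | zero => rfl
  | succ i => exact diag_ker (fun a => (X a).d i) fun a => (X a).P (i + 1)

theorem HC.B_sig (X : α → HC Γ) (i : ℕ) :
    (HC.sig X).B i = (dsum fun a => (X a).B i : Submodule ℂ (E Γ (Σ a, (X a).ι i))) :=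
  diag_map (fun a => (X a).d i) fun a => (X a).P (i + 1)

theorem HC.h_sig (X : α → HC Γ) (i : ℕ) : (HC.sig X).h i = ∑ a, (X a).h i := by
  have h1 : vdim ((HC.sig X).Z i) = ∑ a, vdim ((X a).Z i) := by
    rw [HC.Z_sig]
    exact vdim_dsum' fun a => (X a).Z i
  have h2 : vdim ((HC.sig X).B i) = ∑ a, vdim ((X a).B i) := by
    rw [HC.B_sig]
    exact vdim_dsum' fun a => (X a).B i
  unfold HC.h
  rw [h1, h2, Finset.sum_sub_distrib]

/-- the direct sum -/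
noncomputable def PreRes.sig (X : α → PreRes.{0} Γ) : PreRes.{0} Γ where
  ι i := Σ a, (X a).ι i
  ft i := (inferInstance : Fintype (Σ a, (X a).ι i))
  P i := dsum fun a => (X a).P i
  e i := ∑ a, ((ie (ι := fun a => (X a).ι i) a).comp ((X a).e i)).comp (pe (ι := fun a => (X a).ι i) a)
  d i := ∑ a, ((ie (ι := fun a => (X a).ι i) a).comp ((X a).d i)).comp (pe (ι := fun a => (X a).ι (i + 1)) a)
  w x := (X x.1).w x.2
  mat_e i := mat_diag fun a => (X a).mat_e i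
  mat_d i := mat_diag fun a => (X a).mat_d i
  e_mem i f := by
    rw [mem_dsum]
    intro a
    rw [pe_diag]
    exact (X a).e_mem i _
  e_eq i f hf := by
    refine sig_ext fun a => ?_
    rw [pe_diag]
    exact (X a).e_eq i _ (mem_dsum.1 hf a)
  d_mem i f hf := diag_mem (ι := fun a => (X a).ι (i + 1)) (κ := fun a => (X a).ι i) (T := fun a => (X a).d i)
    (V := fun a => (X a).P (i + 1)) (W := fun a => (X a).P i) (fun a => (X a).d_mem i) hf
  d_d i f hf := diag_diag (ι := fun a => (X a).ι (i + 2)) (κ := fun a => (X a).ι (i + 1)) (μ := fun a => (X a).ι i)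
    (T := fun a => (X a).d (i + 1)) (S := fun a => (X a).d i) (V := fun a => (X a).P (i + 2)) (fun a => (X a).d_d i) hf
  eps_d f hf hfs := by
    rw [eps_sig (fun a => (X a).w) ((mat_diag fun a => (X a).mat_d 0).fs hfs)]
    refine Finset.sum_eq_zero fun a _ => ?_
    rw [pe_diag]
    exact (X a).eps_d _ (mem_dsum.1 hf a) (hfs.pe a)

lemma PreRes.sig_toHC (X : α → PreRes.{0} Γ) : (PreRes.sig X).toHC = HC.sig fun a => (X a).toHC := rfl

lemma PreRes.pe_sig_d (X : α → PreRes.{0} Γ) (i : ℕ) (a : α) (f : E Γ (Σ a, (X a).ι (i + 1))) :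
    (pe a ((PreRes.sig X).d i f : E Γ (Σ a, (X a).ι i)) : E Γ ((X a).ι i)) = (X a).d i (pe a f) :=
  pe_diag (fun a => (X a).d i) f a

theorem PreRes.sig_ex {X : α → PreRes.{0} Γ} (h : ∀ a, (X a).Ex) : (PreRes.sig X).Ex := by
  intro i x hx hf hd
  have hx' : (x : E Γ (Σ a, (X a).ι (i + 1))) ∈ dsum fun a => (X a).P (i + 1) := hx
  have h1 : ∀ a, ∃ y ∈ (X a).P (i + 2), FS y ∧ (X a).d (i + 1) y = pe a (x : E Γ (Σ a, (X a).ι (i + 1))) := by
    intro a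
    refine h a i _ (mem_dsum.1 hx' a) (FS.pe (ι := fun a => (X a).ι (i + 1)) a hf) ?_
    have h2 := PreRes.pe_sig_d X i a x
    have hd' : (PreRes.sig X).d i x = (0 : E Γ (Σ a, (X a).ι i)) := hd
    rw [hd', map_zero] at h2
    exact h2.symm
  choose y hy1 hy2 hy3 using h1
  refine ⟨(∑ a, ie a (y a) : E Γ (Σ a, (X a).ι (i + 2))), ?_, ?_, ?_⟩
  · show (∑ a, ie a (y a) : E Γ (Σ a, (X a).ι (i + 2))) ∈ dsum fun a => (X a).P (i + 2)
    rw [mem_dsum]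
    intro a
    rw [pe_sum_ie]
    exact hy1 a
  · exact FS.sum fun a _ => (hy2 a).ie a
  · refine sig_ext (ι := fun a => (X a).ι (i + 1)) fun a => ?_
    have h2 := PreRes.pe_sig_d X (i + 1) a (∑ a, ie a (y a) : E Γ (Σ a, (X a).ι (i + 2)))
    rw [pe_sum_ie, hy3] at h2
    exact h2

end cx

end Singer
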