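import Pool.Agent.Singer.Gen.TNN
import Pool.Agent.Singer.Gen.TDLin
import Pool.Agent.Singer.Gen.PreConeB
import Pool.Agent.Singer.Gen.Slope

/-!
# Singer, groups acting on trees: resolutions

* `TD.map`: the chain map over `Γ`; `TD.map_K`, `TD.kap_eq`, `TD.h_zero`, `TD.h_succ`, `TD.exists_res`.
-/

set_option autoImplicit false
set_option linter.unusedSectionVars false
set_option linter.unusedVariables false

open scoped ComplexConjugate InnerProductSpace
open Filter Topology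

namespace Singer

section aux
variable {H A C Γ : Type*} [Group H] [Group A] [Group C] [Group Γ]

lemma PreRes.ind_ex_zero' (j : H →* Γ) (hj : Function.Injective j) (R : Res.{0} H) {K : Subgroup Γ}
    (hK : j.range = K) {x : E Γ (R.ι 0)} (hx : x ∈ (R.toPreRes.ind j hj).P 0) (hf : FS x)
    (h0 : cosAug K R.w x = 0) :
    ∃ y ∈ (R.toPreRes.ind j hj).P 1, FS y ∧ (R.toPreRes.ind j hj).d 0 y = x := by
  subst hK
  exact PreRes.ind_ex_zero j hj R hx hf h0

theorem PreRes.cosAug_d' (j : H →* Γ) (hj : Function.Injective j) (R : PreRes.{0} H) {K : Subgroup Γ}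
    (hK : j.range = K) {y : E Γ (R.ι 1)} (hy : y ∈ (R.ind j hj).P 1) (hf : FS y) :
    cosAug K R.w ((R.ind j hj).d 0 y) = 0 := by
  subst hK
  exact PreRes.cosAug_d j hj R hy hf

theorem PreRes.cosAug_surj' (j : H →* Γ) (hj : Function.Injective j) (R : Res.{0} H) {K : Subgroup Γ}
    (hK : j.range = K) (ξ : (Γ ⧸ K) →₀ ℂ) :
    ∃ x ∈ (R.toPreRes.ind j hj).P 0, FS x ∧ cosAug K R.w x = ξ := by
  subst hK
  exact PreRes.cosAug_surj j hj R ξ

theorem PreMap.cosAug_ind' {φ : C →* A} {hφ : Function.Injective φ}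
    {RC : PreRes.{0} C} {RA : PreRes.{0} A} (F : PreMap (RC.ind φ hφ) RA) (j : A →* Γ) (hj : Function.Injective j)
    (c : C →* Γ) (hc : Function.Injective c) (e : j.comp φ = c) {K : Subgroup Γ} (hK : j.range = K)
    (hle : c.range ≤ K) {x : E Γ (RC.ι 0)} (hx : x ∈ (RC.ind c hc).P 0) (hf : FS x) :
    cosAug K RA.w ((F.ind j hj c hc e).f 0 x) =
      (cosAug c.range RC.w x).mapDomain (Subgroup.quotientMapOfLE hle) := by
  subst hK
  exact F.cosAug_ind j hj c hc e hle hx hf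

end aux

namespace TD
variable {Γ : Type*} [Group Γ] (D : TD Γ) (RC : ∀ e, PreRes.{0} (D.C e)) (RA : ∀ v, PreRes.{0} (D.A v))

/-- the edges -/
noncomputable def XX : PreRes.{0} Γ := PreRes.sig fun e => (RC e).ind (D.C e).subtype Subtype.val_injective

/-- the vertices -/
noncomputable def YY : PreRes.{0} Γ := PreRes.sig fun v => (RA v).ind (D.A v).subtype Subtype.val_injective

variable {D RC RA} (H : ∀ v (η : D.En v), PreMap ((RC η.1.1).ind (inj η) (inj_injective η)) (RA v))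

/-- the chain map at an end -/
noncomputable def G (v : D.Ve) (η : D.En v) : PreMap ((RC η.1.1).ind (D.C η.1.1).subtype Subtype.val_injective)
    ((RA v).ind (D.A v).subtype Subtype.val_injective) :=
  ((H v η).ind (D.A v).subtype Subtype.val_injective ((D.A v).subtype.comp (inj η))
    (Subtype.val_injective.comp (inj_injective η)) rfl).cmp
  (PreRes.tr (RC η.1.1) (D.C η.1.1).subtype ((D.A v).subtype.comp (inj η)) Subtype.val_injective
    (Subtype.val_injective.comp (inj_injective η)) (D.s η.1) (rel η))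

/-- the operators of the chain map -/
noncomputable def tf (i : ℕ) : E Γ (Σ e, (RC e).ι i) →L[ℂ] E Γ (Σ v, (RA v).ι i) :=
  ∑ v, (ie v).comp (∑ η : D.En v,
    sgn η.1.2 • ((G H v η).f i : E Γ ((RC η.1.1).ι i) →L[ℂ] E Γ ((RA v).ι i)).comp (pe η.1.1))

lemma pe_tf (i : ℕ) (v : D.Ve) (x : E Γ (Σ e, (RC e).ι i)) :
    pe v (tf H i x) = ∑ η : D.En v, sgn η.1.2 • ((G H v η).f i : E Γ ((RC η.1.1).ι i) →L[ℂ] E Γ ((RA v).ι i))
      (pe η.1.1 x) := by
  unfold tf
  rw [sum_apply]
  refine (pe_sum_ie (ι := fun v => (RA v).ι i) (fun v => (∑ η : D.En v,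
    sgn η.1.2 • ((G H v η).f i : E Γ ((RC η.1.1).ι i) →L[ℂ] E Γ ((RA v).ι i)).comp
      (pe (ι := fun e => (RC e).ι i) η.1.1)) x) v).trans ?_
  rw [sum_apply]
  rfl

/-- sums over the ends of all edges -/
lemma sum_ends {M : Type*} [AddCommMonoid M] (f : D.Ed → Bool → M) :
    ∑ v, ∑ η : D.En v, f η.1.1 η.1.2 = ∑ e, (f e true + f e false) := by
  classical
  have h1 := Finset.sum_fiberwise (s := (Finset.univ : Finset (D.Ed × Bool))) (g := D.vt) (f := fun p => f p.1 p.2)
  have h2 : ∑ p : D.Ed × Bool, f p.1 p.2 = ∑ e, (f e true + f e false) := by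
    rw [Fintype.sum_prod_type]
    exact Finset.sum_congr rfl fun e _ => Fintype.sum_bool _
  rw [← h2, ← h1]
  refine Finset.sum_congr rfl fun v _ => ?_
  refine Finset.sum_bij (fun η _ => η.1) (fun η _ => ?_) (fun η₁ _ η₂ _ h => Subtype.ext h) (fun p hp => ?_)
    (fun η _ => rfl)
  · exact Finset.mem_filter.2 ⟨Finset.mem_univ _, η.2⟩
  · exact ⟨⟨p, (Finset.mem_filter.1 hp).2⟩, Finset.mem_univ _, rfl⟩

lemma tf_mat (i : ℕ) : Mat (tf H i) :=
  Mat.sum fun v _ => (mat_ie (ι := fun v => (RA v).ι i) v).comp (Mat.sum fun η _ =>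
    (((G H v η).mat i).comp (mat_pe (ι := fun e => (RC e).ι i) η.1.1)).smul _)

lemma tf_maps (i : ℕ) (x : E Γ (Σ e, (RC e).ι i))
    (hx : x ∈ dsum fun e => Singer.ind (D.C e).subtype Subtype.val_injective ((RC e).P i)) :
    tf H i x ∈ dsum fun v => Singer.ind (D.A v).subtype Subtype.val_injective ((RA v).P i) := by
  rw [mem_dsum] at hx ⊢
  intro v
  rw [pe_tf]
  exact Submodule.sum_mem _ fun η _ => Submodule.smul_mem _ _ ((G H v η).maps i _ (hx η.1.1))

lemma tf_comm (i : ℕ) (x : E Γ (Σ e, (RC e).ι (i + 1)))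
    (hx : x ∈ dsum fun e => Singer.ind (D.C e).subtype Subtype.val_injective ((RC e).P (i + 1))) :
    tf H i ((D.XX RC).d i x : E Γ (Σ e, (RC e).ι i)) = (D.YY RA).d i (tf H (i + 1) x) := by
  refine sig_ext (ι := fun v => (RA v).ι i) fun v => ?_
  rw [mem_dsum] at hx
  have h1 := PreRes.pe_sig_d (fun v => (RA v).ind (D.A v).subtype Subtype.val_injective) i v (tf H (i + 1) x)
  refine (pe_tf H i v _).trans (Eq.trans ?_ h1.symm)
  have h2 : ∀ η : D.En v, (pe η.1.1 ((D.XX RC).d i x : E Γ (Σ e, (RC e).ι i)) : E Γ ((RC η.1.1).ι i)) =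
      ((RC η.1.1).ind (D.C η.1.1).subtype Subtype.val_injective).d i (pe η.1.1 x) := fun η =>
    PreRes.pe_sig_d (fun e => (RC e).ind (D.C e).subtype Subtype.val_injective) i η.1.1 x
  have h3 : ∀ η : D.En v, ((G H v η).f i : E Γ ((RC η.1.1).ι i) →L[ℂ] E Γ ((RA v).ι i))
      (pe η.1.1 ((D.XX RC).d i x : E Γ (Σ e, (RC e).ι i))) =
      ((RA v).ind (D.A v).subtype Subtype.val_injective).d i
        (((G H v η).f (i + 1) : E Γ ((RC η.1.1).ι (i + 1)) →L[ℂ] E Γ ((RA v).ι (i + 1))) (pe η.1.1 x)) := by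
    intro η
    rw [h2]
    exact (G H v η).comm i _ (hx η.1.1)
  have h4 : ((RA v).ind (D.A v).subtype Subtype.val_injective).d i (pe v (tf H (i + 1) x)) =
      ∑ η : D.En v, sgn η.1.2 • ((RA v).ind (D.A v).subtype Subtype.val_injective).d i
        (((G H v η).f (i + 1) : E Γ ((RC η.1.1).ι (i + 1)) →L[ℂ] E Γ ((RA v).ι (i + 1))) (pe η.1.1 x)) := by
    rw [pe_tf]
    refine (map_sum _ _ _).trans ?_
    exact Finset.sum_congr rfl fun η _ => map_smul _ _ _
  refine Eq.trans ?_ h4.symm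
  exact Finset.sum_congr rfl fun η _ => congrArg (sgn η.1.2 • ·) (h3 η)

lemma tf_aug (x : E Γ (Σ e, (RC e).ι 0))
    (hx : x ∈ dsum fun e => Singer.ind (D.C e).subtype Subtype.val_injective ((RC e).P 0)) (hf : FS x) :
    eps (fun y : Σ v, (RA v).ι 0 => (RA y.1).w y.2) (tf H 0 x) = 0 := by
  rw [mem_dsum] at hx
  rw [eps_sig (fun v => (RA v).w) ((tf_mat H 0).fs hf)]
  have h1 : ∀ v, eps (RA v).w (pe v (tf H 0 x)) = ∑ η : D.En v, sgn η.1.2 * eps (RC η.1.1).w (pe η.1.1 x) := by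
    intro v
    have h2 : ∀ η : D.En v, FS (((G H v η).f 0 : E Γ ((RC η.1.1).ι 0) →L[ℂ] E Γ ((RA v).ι 0)) (pe η.1.1 x)) :=
      fun η => ((G H v η).mat 0).fs (hf.pe (ι := fun e => (RC e).ι 0) η.1.1)
    refine (congrArg (eps (RA v).w) (pe_tf H 0 v x)).trans ?_
    refine (eps_sum _ fun η _ => (h2 η).smul _).trans ?_
    refine Finset.sum_congr rfl fun η _ => ?_
    refine (eps_smul _ _ (h2 η)).trans ?_
    exact congrArg (sgn η.1.2 * ·) ((G H v η).aug _ (hx η.1.1) (hf.pe (ι := fun e => (RC e).ι 0) η.1.1))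
  rw [Finset.sum_congr rfl fun v _ => h1 v, sum_ends (D := D) fun e b => sgn b * eps (RC e).w (pe e x)]
  refine Finset.sum_eq_zero fun e _ => ?_
  show (1 : ℂ) * eps (RC e).w (pe e x) + (-1 : ℂ) * eps (RC e).w (pe e x) = 0
  ring

/-- the chain map -/
noncomputable def map : ZMap (D.XX RC) (D.YY RA) where
  f i := tf H i
  equi i := (tf_mat H i).equi
  maps i x hx := tf_maps H i x hx
  comm i x hx := tf_comm H i x hx
  mat i := tf_mat H i
  aug x hx hfs := tf_aug H x hx hfs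

lemma indRel_pe {A : Type*} [Group A] {α : Type} {ι : α → Type} (j : A →* Γ) (hj : Function.Injective j) (a : α) :
    IndRel j hj (pe a : E A (Σ a, ι a) →L[ℂ] E A (ι a)) (pe a : E Γ (Σ a, ι a) →L[ℂ] E Γ (ι a)) where
  equi := equi_pe a
  equi' := equi_pe a
  icj u := by
    ext ⟨g, i⟩
    rw [pe_apply]
    by_cases hg : g ∈ j.range
    · obtain ⟨h, rfl⟩ := hg
      exact (icj_apply j hj u h ⟨a, i⟩).trans (icj_apply j hj (pe a u) h i).symm
    · exact (icj_apply_notMem j hj _ hg _).trans (icj_apply_notMem j hj _ hg _).symm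
  rsj f := rfl

/-- the operators at a vertex, through the restriction to the ends -/
lemma pe_tf' (i : ℕ) (v : D.Ve) (x : E Γ (Σ e, (RC e).ι i)) :
    pe v (tf H i x) = indOp (D.A v).subtype (mat_hsum (H v) i) (D.res (fun e => (RC e).ι i) v x) := by
  have h1 : IndRel (D.A v).subtype Subtype.val_injective (hsum (H v) i)
      (∑ η : D.En v, (indOp (ι := (RC η.1.1).ι i) (κ := (RA v).ι i) (D.A v).subtype ((H v η).mat i)).comp
        (pe (ι := fun η : D.En v => (RC η.1.1).ι i) η)) :=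
    IndRel.sum fun η _ => (indRel_indOp (ι := (RC η.1.1).ι i) (κ := (RA v).ι i) (D.A v).subtype
      Subtype.val_injective ((H v η).mat i)).comp (indRel_pe (ι := fun η : D.En v => (RC η.1.1).ι i) _ _ η)
  rw [← indOp_unique (mat_hsum (H v) i) h1, sum_apply, pe_tf]
  refine Finset.sum_congr rfl fun η _ => ?_
  have h2 : (pe (ι := fun η : D.En v => (RC η.1.1).ι i) η (D.res (fun e => (RC e).ι i) v x) : E Γ ((RC η.1.1).ι i)) =
      sgn η.1.2 • rt (D.s η.1)⁻¹ (pe η.1.1 x) := D.pe_res (fun e => (RC e).ι i) v η x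
  have h3 := congrArg (indOp (ι := (RC η.1.1).ι i) (κ := (RA v).ι i) (D.A v).subtype ((H v η).mat i)) h2
  refine Eq.trans ?_ h3.symm
  rw [map_smul]
  rfl

lemma dsum_ind_Z (i : ℕ) : ((D.XX RC).toHC.Z i : Submodule ℂ (E Γ (Σ e, (RC e).ι i))) =
    dsum fun e => Singer.ind (D.C e).subtype Subtype.val_injective ((RC e).Z i) := by
  have h1 := HC.Z_sig (fun e => ((RC e).ind (D.C e).subtype Subtype.val_injective).toHC) i
  refine h1.trans ?_
  refine congrArg dsum (funext fun e => ?_)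
  exact (PreRes.toHC_Z _ i).trans (PreRes.ind_Z _ _ (RC e) i)

lemma dsum_ind_B (i : ℕ) : ((D.XX RC).toHC.B i : Submodule ℂ (E Γ (Σ e, (RC e).ι i))) =
    dsum fun e => Singer.ind (D.C e).subtype Subtype.val_injective ((RC e).B i) := by
  have h1 := HC.B_sig (fun e => ((RC e).ind (D.C e).subtype Subtype.val_injective).toHC) i
  refine h1.trans ?_
  refine congrArg dsum (funext fun e => ?_)
  exact PreRes.ind_B _ _ (RC e) i

lemma dsum_ind_B' (i : ℕ) : ((D.YY RA).toHC.B i : Submodule ℂ (E Γ (Σ v, (RA v).ι i))) =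
    dsum fun v => Singer.ind (D.A v).subtype Subtype.val_injective ((RA v).B i) := by
  have h1 := HC.B_sig (fun v => ((RA v).ind (D.A v).subtype Subtype.val_injective).toHC) i
  refine h1.trans ?_
  refine congrArg dsum (funext fun v => ?_)
  exact PreRes.ind_B _ _ (RA v) i

/-- **the kernel of the chain map in homology** -/
theorem map_K (i : ℕ) : ((map H).K i : Submodule ℂ (E Γ (Σ e, (RC e).ι i))) =
    (dsum fun e => Singer.ind (D.C e).subtype Subtype.val_injective ((RC e).Z i)) ⊓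
      ⨅ v, (Singer.ind (D.A v).subtype Subtype.val_injective (NN (H v) i)).comap
        (D.res (fun e => (RC e).ι i) v : E Γ (Σ e, (RC e).ι i) →ₗ[ℂ] E Γ (Σ η : D.En v, (RC η.1.1).ι i)) := by
  have hNN : ∀ v, ∀ u : E Γ (Σ η : D.En v, (RC η.1.1).ι i),
      u ∈ Singer.ind (D.A v).subtype Subtype.val_injective (NN (H v) i) ↔
      u ∈ Singer.ind (D.A v).subtype Subtype.val_injective
        (dsum fun η : D.En v => Singer.ind (inj η) (inj_injective η) ((RC η.1.1).Z i)) ∧
      indOp (D.A v).subtype (mat_hsum (H v) i) u ∈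
        Singer.ind (D.A v).subtype Subtype.val_injective ((RA v).B i) := by
    intro v u
    have h1 := (indRel_indOp (D.A v).subtype Subtype.val_injective (mat_hsum (H v) i)).comap ((RA v).B i)
    have h2 : Singer.ind (D.A v).subtype Subtype.val_injective (NN (H v) i) =
        Singer.ind (D.A v).subtype Subtype.val_injective
          (dsum fun η : D.En v => Singer.ind (inj η) (inj_injective η) ((RC η.1.1).Z i)) ⊓
        (Singer.ind (D.A v).subtype Subtype.val_injective ((RA v).B i)).comap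
          (indOp (D.A v).subtype (mat_hsum (H v) i)).toLinearMap := by
      rw [← h1, ← ind_inf]
      rfl
    rw [h2]
    exact Iff.rfl
  have hZv : ∀ v, ∀ x ∈ (dsum fun e => Singer.ind (D.C e).subtype Subtype.val_injective ((RC e).Z i) :
      Submodule ℂ (E Γ (Σ e, (RC e).ι i))), D.res (fun e => (RC e).ι i) v x ∈
      Singer.ind (D.A v).subtype Subtype.val_injective
        (dsum fun η : D.En v => Singer.ind (inj η) (inj_injective η) ((RC η.1.1).Z i)) := by
    intro v x hx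
    rw [mem_dsum] at hx
    rw [ind_dsum]
    refine mem_dsum.2 fun η => ?_
    refine Set.mem_of_eq_of_mem (D.pe_res (fun e => (RC e).ι i) v η x) ?_
    refine Submodule.smul_mem _ _ ?_
    exact (ind_comp_eq (hc := Subtype.val_injective.comp (inj_injective η)) rfl ((RC η.1.1).Z i)).ge
      ((rt_mem_ind_iff (hc := Subtype.val_injective) (hc' := Subtype.val_injective.comp (inj_injective η))
        (rel η)).2 (hx η.1.1))
  have hB : ∀ x : E Γ (Σ e, (RC e).ι i), (tf H i x ∈ ((D.YY RA).toHC.B i : Submodule ℂ (E Γ (Σ v, (RA v).ι i)))) ↔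
      ∀ v, indOp (D.A v).subtype (mat_hsum (H v) i) (D.res (fun e => (RC e).ι i) v x) ∈
        Singer.ind (D.A v).subtype Subtype.val_injective ((RA v).B i) := by
    intro x
    have h1 := congrArg (fun W : Submodule ℂ (E Γ (Σ v, (RA v).ι i)) => tf H i x ∈ W) (dsum_ind_B' (D := D) (RA := RA) i)
    refine (Iff.of_eq h1).trans (mem_dsum.trans (forall_congr' fun v => ?_))
    exact Iff.of_eq (congrArg (fun z : E Γ ((RA v).ι i) =>
      z ∈ Singer.ind (D.A v).subtype Subtype.val_injective ((RA v).B i)) (pe_tf' H i v x))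
  ext x
  constructor
  · rintro ⟨h1, h2⟩
    have h1' : x ∈ (dsum fun e => Singer.ind (D.C e).subtype Subtype.val_injective ((RC e).Z i) :
      Submodule ℂ (E Γ (Σ e, (RC e).ι i))) := (dsum_ind_Z i).le h1
    refine ⟨h1', (Submodule.mem_iInf _).2 fun v => ?_⟩
    exact (hNN v _).2 ⟨hZv v x h1', (hB x).1 h2 v⟩
  · rintro ⟨h1, h2⟩
    have h3 := (Submodule.mem_iInf _).1 h2
    exact ⟨(dsum_ind_Z i).ge h1, (hB x).2 fun v => ((hNN v _).1 (h3 v)).2⟩

theorem kap_eq (i : ℕ) : (map H).kap i =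
    vdim ((dsum fun e => Singer.ind (D.C e).subtype Subtype.val_injective ((RC e).Z i)) ⊓
      ⨅ v, (Singer.ind (D.A v).subtype Subtype.val_injective (NN (H v) i)).comap
        (D.res (fun e => (RC e).ι i) v : E Γ (Σ e, (RC e).ι i) →ₗ[ℂ] E Γ (Σ η : D.En v, (RC η.1.1).ι i))) -
      ∑ e, vdim ((RC e).B i) := by
  have h1 := map_K H i
  have h2 : vdim ((D.XX RC).toHC.B i : Submodule ℂ (E Γ (Σ e, (RC e).ι i))) = ∑ e, vdim ((RC e).B i) := by
    refine (congrArg (fun V : Submodule ℂ (E Γ (Σ e, (RC e).ι i)) => vdim V) (dsum_ind_B (RC := RC) i)).trans ?_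
    refine (vdim_dsum' (ι := fun e => (RC e).ι i) _).trans ?_
    exact Finset.sum_congr rfl fun e _ => vdim_ind ((RC e).inv_B i) ((RC e).isClosed_B i)
  exact congrArg₂ (· - ·) (congrArg (fun V : Submodule ℂ (E Γ (Σ e, (RC e).ι i)) => vdim V) h1) h2

lemma XX_h (i : ℕ) : (D.XX RC).toHC.h i = ∑ e, (RC e).toHC.h i := by
  have h1 := HC.h_sig (fun e => ((RC e).ind (D.C e).subtype Subtype.val_injective).toHC) i
  exact h1.trans (Finset.sum_congr rfl fun e _ => PreRes.ind_h _ _ (RC e) i)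

lemma YY_h (i : ℕ) : (D.YY RA).toHC.h i = ∑ v, (RA v).toHC.h i := by
  have h1 := HC.h_sig (fun v => ((RA v).ind (D.A v).subtype Subtype.val_injective).toHC) i
  exact h1.trans (Finset.sum_congr rfl fun v _ => PreRes.ind_h _ _ (RA v) i)

theorem h_zero : (map H).cone.toHC.h 0 = ∑ v, (RA v).toHC.h 0 - ∑ e, (RC e).toHC.h 0 + (map H).kap 0 := by
  have h1 := (map H).toHMap.h_cone_zero
  rw [XX_h, YY_h] at h1
  exact h1

theorem h_succ (i : ℕ) : (map H).cone.toHC.h (i + 1) = (map H).kap i +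
    (∑ v, (RA v).toHC.h (i + 1) - ∑ e, (RC e).toHC.h (i + 1) + (map H).kap (i + 1)) := by
  have h1 := (map H).toHMap.h_cone_succ i
  rw [XX_h, YY_h] at h1
  have h2 : (map H).cone.toHC.h (i + 1) = (map H).toHMap.cone.h (i + 1) := rfl
  rw [h2, h1]
  ring

end TD

namespace TD
variable {Γ : Type*} [Group Γ] {D : TD Γ} {RC : ∀ e, Res.{0} (D.C e)} {RA : ∀ v, Res.{0} (D.A v)}
  (H : ∀ v (η : D.En v), PreMap ((RC η.1.1).toPreRes.ind (inj η) (inj_injective η)) (RA v).toPreRes)

/-- the augmentation of the chain map at an end -/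
lemma cosAug_G (v : D.Ve) (η : D.En v) {u : E Γ ((RC η.1.1).ι 0)}
    (hu : u ∈ ((RC η.1.1).toPreRes.ind (D.C η.1.1).subtype Subtype.val_injective).P 0) (hf : FS u) :
    cosAug (D.A v) (RA v).w ((G (RC := fun e => (RC e).toPreRes) (RA := fun v => (RA v).toPreRes) H v η).f 0 u) =
      (cosAug (D.C η.1.1) (RC η.1.1).w u).mapDomain (cosMul (sub' η)) := by
  have hle : ((D.A v).subtype.comp (inj η)).range ≤ D.A v := by
    rintro _ ⟨x, rfl⟩
    exact (inj η x).2
  have hK : ∀ x ∈ D.C η.1.1, (D.s η.1)⁻¹ * x * D.s η.1 ∈ ((D.A v).subtype.comp (inj η)).range := by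
    intro x hx
    exact ⟨⟨x, hx⟩, rfl⟩
  have h1 : (rt (D.s η.1)⁻¹ u : E Γ ((RC η.1.1).ι 0)) ∈
      ((RC η.1.1).toPreRes.ind ((D.A v).subtype.comp (inj η)) (Subtype.val_injective.comp (inj_injective η))).P 0 :=
    (rt_mem_ind_iff (hc := Subtype.val_injective) (hc' := Subtype.val_injective.comp (inj_injective η))
      (rel η)).2 hu
  have h2 := (H v η).cosAug_ind' (D.A v).subtype Subtype.val_injective ((D.A v).subtype.comp (inj η))
    (Subtype.val_injective.comp (inj_injective η)) rfl (Subgroup.range_subtype _) hle h1 (hf.rt _)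
  refine Eq.trans h2 ?_
  rw [cosAug_rt hK (RC η.1.1).w hf, ← Finsupp.mapDomain_comp]
  refine congrArg (fun q => Finsupp.mapDomain q _) (funext fun q => ?_)
  obtain ⟨g, rfl⟩ := QuotientGroup.mk_surjective q
  rfl

/-- the boundary of the augmentations -/
lemma cosAug_tf (v : D.Ve) {x : E Γ (Σ e, (RC e).ι 0)}
    (hx : x ∈ (D.XX fun e => (RC e).toPreRes).P 0) (hf : FS x) :
    cosAug (D.A v) (RA v).w (pe v (tf (RC := fun e => (RC e).toPreRes) (RA := fun v => (RA v).toPreRes) H 0 x)) =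
      D.bd (fun e => cosAug (D.C e) (RC e).w (pe e x)) v := by
  have hx' : ∀ e, pe e x ∈ Singer.ind (D.C e).subtype Subtype.val_injective ((RC e).P 0) := mem_dsum.1 hx
  have h1 : ∀ η : D.En v, FS ((G (RC := fun e => (RC e).toPreRes) (RA := fun v => (RA v).toPreRes) H v η).f 0
      (pe η.1.1 x)) := fun η =>
    ((G (RC := fun e => (RC e).toPreRes) (RA := fun v => (RA v).toPreRes) H v η).mat 0).fs
      (hf.pe (ι := fun e => (RC e).ι 0) η.1.1)
  have h2 := congrArg (cosAug (D.A v) (RA v).w)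
    (pe_tf (RC := fun e => (RC e).toPreRes) (RA := fun v => (RA v).toPreRes) H 0 v x)
  refine h2.trans ?_
  refine (cosAug_sum _ _ fun η _ => (h1 η).smul _).trans ?_
  unfold bd
  refine Finset.sum_congr rfl fun η _ => ?_
  refine (cosAug_smul _ _ _ (h1 η)).trans ?_
  exact congrArg (sgn η.1.2 • ·) (cosAug_G H v η (hx' η.1.1) (hf.pe (ι := fun e => (RC e).ι 0) η.1.1))

/-- **the mapping cone is a resolution** -/
theorem exists_res : ∃ R : Res.{0} Γ,
    R.toPreRes = (map (RC := fun e => (RC e).toPreRes) (RA := fun v => (RA v).toPreRes) H).cone := by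
  classical
  refine ZMap.exists_coneRes _ (PreRes.sig_ex fun e => PreRes.ind_ex _ _ (RC e))
    (PreRes.sig_ex fun v => PreRes.ind_ex _ _ (RA v)) ?_ ?_ ?_
  · intro x hx hfx hy
    obtain ⟨y, hy1, hy2, hy3⟩ := hy
    have hx' : ∀ e, pe (ι := fun e => (RC e).ι 0) e x ∈
      Singer.ind (D.C e).subtype Subtype.val_injective ((RC e).P 0) := mem_dsum.1 hx
    have hy' : ∀ v, pe (ι := fun v => (RA v).ι 1) v y ∈
      Singer.ind (D.A v).subtype Subtype.val_injective ((RA v).P 1) := mem_dsum.1 hy1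
    have h1 : ∀ e, cosAug (D.C e) (RC e).w (pe (ι := fun e => (RC e).ι 0) e x) = 0 := by
      refine D.eq_zero (fun e => cosAug (D.C e) (RC e).w (pe (ι := fun e => (RC e).ι 0) e x)) fun v => ?_
      rw [← cosAug_tf H v hx hfx]
      have h2 : (tf (RC := fun e => (RC e).toPreRes) (RA := fun v => (RA v).toPreRes) H 0 x :
        E Γ (Σ v, (RA v).ι 0)) = (D.YY fun v => (RA v).toPreRes).d 0 y := hy3.symm
      have h3 := PreRes.pe_sig_d (fun v => (RA v).toPreRes.ind (D.A v).subtype Subtype.val_injective) 0 v y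
      refine (congrArg (fun z : E Γ (Σ v, (RA v).ι 0) => cosAug (D.A v) (RA v).w (pe v z)) h2).trans ?_
      refine (congrArg (cosAug (D.A v) (RA v).w) h3).trans ?_
      exact PreRes.cosAug_d' (D.A v).subtype Subtype.val_injective (RA v).toPreRes (Subgroup.range_subtype _)
        (hy' v) (hy2.pe (ι := fun v => (RA v).ι 1) v)
    have h4 : ∀ e, ∃ x' : E Γ ((RC e).ι 1), x' ∈ Singer.ind (D.C e).subtype Subtype.val_injective ((RC e).P 1) ∧
        FS x' ∧ ((RC e).toPreRes.ind (D.C e).subtype Subtype.val_injective).d 0 x' =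
          pe (ι := fun e => (RC e).ι 0) e x := by
      intro e
      obtain ⟨x', h5, h6, h7⟩ := PreRes.ind_ex_zero' (D.C e).subtype Subtype.val_injective (RC e)
        (Subgroup.range_subtype _) (hx' e) (hfx.pe (ι := fun e => (RC e).ι 0) e) (h1 e)
      exact ⟨x', h5, h6, h7⟩
    choose z hz1 hz2 hz3 using h4
    refine ⟨(∑ e, ie e (z e) : E Γ (Σ e, (RC e).ι 1)), ?_, ?_, ?_⟩
    · refine mem_dsum.2 fun e => ?_
      refine Set.mem_of_eq_of_mem (pe_sum_ie (ι := fun e => (RC e).ι 1) z e) (hz1 e)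
    · exact FS.sum fun e _ => (hz2 e).ie (ι := fun e => (RC e).ι 1) e
    · refine sig_ext (ι := fun e => (RC e).ι 0) fun e => ?_
      have h2 := PreRes.pe_sig_d (fun e => (RC e).toPreRes.ind (D.C e).subtype Subtype.val_injective) 0 e
        (∑ e, ie e (z e) : E Γ (Σ e, (RC e).ι 1))
      refine h2.trans ((congrArg _ (pe_sum_ie (ι := fun e => (RC e).ι 1) z e)).trans (hz3 e))
  · intro y hy hfy hy0
    have hy' : ∀ v, pe (ι := fun v => (RA v).ι 0) v y ∈
      Singer.ind (D.A v).subtype Subtype.val_injective ((RA v).P 0) := mem_dsum.1 hy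
    have h0 := (eps_sig (ι := fun v => (RA v).ι 0) (fun v => (RA v).w) hfy).symm.trans hy0
    have h0' : ∑ v, ((cosAug (D.A v) (RA v).w (pe (ι := fun v => (RA v).ι 0) v y)).sum fun _ c => c) = 0 := by
      rw [← h0]
      exact Finset.sum_congr rfl fun v _ => cosAug_total (D.A v) (RA v).w (hfy.pe (ι := fun v => (RA v).ι 0) v)
    obtain ⟨ξ, hξ⟩ := D.exists_lift _ h0'
    have h1 : ∀ e, ∃ x : E Γ ((RC e).ι 0), x ∈ Singer.ind (D.C e).subtype Subtype.val_injective ((RC e).P 0) ∧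
        FS x ∧ cosAug (D.C e) (RC e).w x = ξ e := by
      intro e
      obtain ⟨x, h5, h6, h7⟩ := PreRes.cosAug_surj' (D.C e).subtype Subtype.val_injective (RC e)
        (Subgroup.range_subtype _) (ξ e)
      exact ⟨x, h5, h6, h7⟩
    choose z hz1 hz2 hz3 using h1
    obtain ⟨x, hx⟩ : ∃ x : E Γ (Σ e, (RC e).ι 0), x = ∑ e, ie e (z e) := ⟨_, rfl⟩
    have hxe : ∀ e, pe e x = z e := by
      intro e
      rw [hx]
      exact pe_sum_ie (ι := fun e => (RC e).ι 0) z e
    have hxf : FS x := by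
      rw [hx]
      exact FS.sum fun e _ => (hz2 e).ie (ι := fun e => (RC e).ι 0) e
    have hxP : x ∈ (D.XX fun e => (RC e).toPreRes).P 0 := by
      refine mem_dsum.2 fun e => ?_
      exact Set.mem_of_eq_of_mem (hxe e) (hz1 e)
    obtain ⟨t, ht⟩ : ∃ t : E Γ (Σ v, (RA v).ι 0),
      t = tf (RC := fun e => (RC e).toPreRes) (RA := fun v => (RA v).toPreRes) H 0 x := ⟨_, rfl⟩
    have htf : FS t := by
      rw [ht]
      exact (tf_mat (RC := fun e => (RC e).toPreRes) (RA := fun v => (RA v).toPreRes) H 0).fs hxf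
    have htP : ∀ v, pe v t ∈ Singer.ind (D.A v).subtype Subtype.val_injective ((RA v).P 0) := by
      have h5 := tf_maps (RC := fun e => (RC e).toPreRes) (RA := fun v => (RA v).toPreRes) H 0 x hxP
      rw [← ht] at h5
      exact mem_dsum.1 h5
    have h2 : ∀ v, ∃ u : E Γ ((RA v).ι 1), u ∈ Singer.ind (D.A v).subtype Subtype.val_injective ((RA v).P 1) ∧
        FS u ∧ ((RA v).toPreRes.ind (D.A v).subtype Subtype.val_injective).d 0 u =
          (pe (ι := fun v => (RA v).ι 0) v y : E Γ ((RA v).ι 0)) - pe v t := by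
      intro v
      have h3 : cosAug (D.A v) (RA v).w ((pe (ι := fun v => (RA v).ι 0) v y : E Γ ((RA v).ι 0)) - pe v t) = 0 := by
        rw [cosAug_sub _ _ (hfy.pe (ι := fun v => (RA v).ι 0) v) (htf.pe v)]
        have h4 := cosAug_tf H v hxP hxf
        have h5 : D.bd (fun e => cosAug (D.C e) (RC e).w (pe e x)) v = D.bd ξ v := by
          refine congrArg (fun q => D.bd q v) (funext fun e => ?_)
          rw [hxe, hz3]
        rw [ht, h4, h5, hξ v, sub_self]
      obtain ⟨u, h5, h6, h7⟩ := PreRes.ind_ex_zero' (D.A v).subtype Subtype.val_injective (RA v)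
        (Subgroup.range_subtype _) (Submodule.sub_mem _ (hy' v) (htP v))
        ((hfy.pe (ι := fun v => (RA v).ι 0) v).sub (htf.pe v)) h3
      exact ⟨u, h5, h6, h7⟩
    choose u hu1 hu2 hu3 using h2
    refine ⟨x, hxP, hxf, (∑ v, ie v (u v) : E Γ (Σ v, (RA v).ι 1)), ?_, ?_, ?_⟩
    · refine mem_dsum.2 fun v => ?_
      exact Set.mem_of_eq_of_mem (pe_sum_ie (ι := fun v => (RA v).ι 1) u v) (hu1 v)
    · exact FS.sum fun v _ => (hu2 v).ie (ι := fun v => (RA v).ι 1) v
    · refine sig_ext (ι := fun v => (RA v).ι 0) fun v => ?_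
      have h5 := PreRes.pe_sig_d (fun v => (RA v).toPreRes.ind (D.A v).subtype Subtype.val_injective) 0 v
        (∑ v, ie v (u v) : E Γ (Σ v, (RA v).ι 1))
      have h6 : (pe (ι := fun v => (RA v).ι 0) v ((D.YY fun v => (RA v).toPreRes).d 0
          (∑ v, ie v (u v) : E Γ (Σ v, (RA v).ι 1)) : E Γ (Σ v, (RA v).ι 0)) : E Γ ((RA v).ι 0)) =
          (pe (ι := fun v => (RA v).ι 0) v y : E Γ ((RA v).ι 0)) - pe v t :=
        h5.trans ((congrArg _ (pe_sum_ie (ι := fun v => (RA v).ι 1) u v)).trans (hu3 v))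
      have h7 : (pe (ι := fun v => (RA v).ι 0) v
          (tf (RC := fun e => (RC e).toPreRes) (RA := fun v => (RA v).toPreRes) H 0 x : E Γ (Σ v, (RA v).ι 0)) :
          E Γ ((RA v).ι 0)) = pe v t := congrArg (pe (ι := fun v => (RA v).ι 0) v) ht.symm
      refine (map_add (pe (ι := fun v => (RA v).ι 0) v : E Γ (Σ v, (RA v).ι 0) →L[ℂ] E Γ ((RA v).ι 0)) _ _).trans ?_
      refine (congrArg₂ (· + ·) h6 h7).trans ?_
      exact sub_add_cancel _ _
  · obtain ⟨v⟩ := D.ne
    obtain ⟨u, hu, hfu, hu1⟩ := (RA v).surj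
    refine ⟨(ie v (icj (D.A v).subtype Subtype.val_injective u) : E Γ (Σ v, (RA v).ι 0)), ?_,
      (fs_icj _ _ hfu).ie (ι := fun v => (RA v).ι 0) v, ?_⟩
    · exact ie_mem_dsum ((icj_mem_ind ((RA v).inv_P 0)).2 hu)
    · refine (eps_ie (ι := fun v => (RA v).ι 0) (fun v => (RA v).w) v (fs_icj _ _ hfu)).trans ?_
      rw [eps_icj _ _ _ hfu, hu1]

end TD

end Singer
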