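import Pool.Agent.Singer.Gen.TD

/-!
# Singer, groups acting on trees: the relations at a vertex

For chain maps `H η : Ind (RC η) → RA`: `hsum H i` is their sum, `NN H i` the module of the families of cycles whose image
is a boundary; `indOp_hsum`, `ind_NN`: induction.
-/

set_option autoImplicit false
set_option linter.unusedSectionVars false
set_option linter.unusedVariables false

open scoped ComplexConjugate InnerProductSpace
open Filter Topology

namespace Singer

section NN
variable {A : Type*} [Group A] {N : Type} [Fintype N] {C : N → Type*} [∀ η, Group (C η)] {inj : ∀ η, C η →* A}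
    {hinj : ∀ η, Function.Injective (inj η)} {RC : ∀ η, PreRes.{0} (C η)} {RA : PreRes.{0} A}
    (H : ∀ η, PreMap ((RC η).ind (inj η) (hinj η)) RA) (i : ℕ)

/-- the sum of the chain maps -/
noncomputable def hsum : E A (Σ η, (RC η).ι i) →L[ℂ] E A (RA.ι i) :=
  ∑ η, ((H η).f i : E A ((RC η).ι i) →L[ℂ] E A (RA.ι i)).comp (pe η)

/-- the sums of cycles whose image is a boundary -/
noncomputable def NN : Submodule ℂ (E A (Σ η, (RC η).ι i)) :=
  (dsum fun η => Singer.ind (inj η) (hinj η) ((RC η).Z i)) ⊓ (RA.B i).comap (hsum H i).toLinearMap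

lemma hsum_apply (x : E A (Σ η, (RC η).ι i)) :
    hsum H i x = ∑ η, ((H η).f i : E A ((RC η).ι i) →L[ℂ] E A (RA.ι i)) (pe η x) := by
  unfold hsum
  rw [sum_apply]
  rfl

/-- the operator `hsum` is a finite matrix -/
lemma mat_hsum : Mat (hsum H i) := Mat.sum fun η _ => Mat.comp ((H η).mat i) (mat_pe η)

lemma mdl_NN : Mdl (NN H i) := by
  have h1 : Mdl ((RA.B i).comap (hsum H i).toLinearMap) :=
    ⟨(RA.inv_B i).comap (mat_hsum H i).equi, (RA.isClosed_B i).preimage (hsum H i).continuous⟩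
  exact (Mdl.dsum fun η => ⟨inv_ind _, isClosed_ind ((RC η).isClosed_Z i)⟩).inf h1

lemma NN_le : NN H i ≤ dsum fun η => Singer.ind (inj η) (hinj η) ((RC η).Z i) := inf_le_left

lemma le_NN : (dsum fun η => Singer.ind (inj η) (hinj η) ((RC η).B i)) ≤ NN H i := by
  intro x hx
  have h1 := mem_dsum.1 hx
  have h2 : ∀ η, pe η x ∈ ((RC η).ind (inj η) (hinj η)).toHC.B i := fun η =>
    (PreRes.ind_B (inj η) (hinj η) (RC η) i).ge (h1 η)
  refine ⟨mem_dsum.2 fun η => ?_, ?_⟩
  · have h3 := ((RC η).ind (inj η) (hinj η)).toHC.B_le_Z i (h2 η)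
    rw [PreRes.toHC_Z] at h3
    exact (PreRes.ind_Z (inj η) (hinj η) (RC η) i).le h3
  · show hsum H i x ∈ RA.B i
    rw [hsum_apply]
    exact Submodule.sum_mem _ fun η _ => (H η).toHMap.map_B i (h2 η)

variable {Γ : Type*} [Group Γ] (j : A →* Γ) (hj : Function.Injective j)

/-- the operator induced from the chain map at `η` -/
noncomputable def hop (η : N) : E Γ ((RC η).ι i) →L[ℂ] E Γ (RA.ι i) :=
  indOp (ι := (RC η).ι i) (κ := RA.ι i) j ((H η).mat i)

lemma mat_hop (η : N) : Mat (hop H i j η) := mat_indOp (ι := (RC η).ι i) (κ := RA.ι i) j ((H η).mat i)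

include hj in
lemma indOp_hsum (x : E Γ (Σ η, (RC η).ι i)) :
    indOp j (mat_hsum H i) x = ∑ η, hop H i j η (pe η x) := by
  have h1 : Equi (indOp j (mat_hsum H i)) := (mat_indOp j (mat_hsum H i)).equi
  have h2 : Mat (∑ η, (hop H i j η).comp (pe η) : E Γ (Σ η, (RC η).ι i) →L[ℂ] E Γ (RA.ι i)) :=
    Mat.sum fun η _ => (mat_hop H i j η).comp (mat_pe η)
  have h3 : indOp j (mat_hsum H i) = ∑ η, (hop H i j η).comp (pe η) := by
    refine equi_ext h1 h2.equi fun ηk => ?_
    obtain ⟨η, k⟩ := ηk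
    rw [indOp_del j hj, hsum_apply, sum_apply]
    rw [Finset.sum_eq_single_of_mem η (Finset.mem_univ η)]
    · rw [Finset.sum_eq_single_of_mem η (Finset.mem_univ η)]
      · rw [ContinuousLinearMap.comp_apply, pe_del_self, pe_del_self]
        exact (indOp_del (ι := (RC η).ι i) (κ := RA.ι i) j hj ((H η).mat i) k).symm
      · intro η' _ hη'
        rw [ContinuousLinearMap.comp_apply, pe_del_ne hη', map_zero]
    · intro η' _ hη'
      rw [pe_del_ne hη']
      exact map_zero ((H η').f i)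
  rw [h3, sum_apply]
  rfl

lemma ind_NN : Singer.ind j hj (NN H i) =
    (dsum fun η => Singer.ind (j.comp (inj η)) (hj.comp (hinj η)) ((RC η).Z i)) ⊓
      (Singer.ind j hj (RA.B i)).comap (indOp j (mat_hsum H i)).toLinearMap := by
  have h1 : (dsum fun η => Singer.ind (j.comp (inj η)) (hj.comp (hinj η)) ((RC η).Z i)) =
      Singer.ind j hj (dsum fun η => Singer.ind (inj η) (hinj η) ((RC η).Z i)) := by
    rw [ind_dsum]
    exact congrArg dsum (funext fun η => (ind_ind (inj η) (hinj η) j hj ((RC η).Z i)).symm)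
  rw [h1]
  ext x
  constructor
  · intro hx
    refine ⟨mem_ind.2 fun g => (mem_ind.1 hx g).1, ?_⟩
    show indOp j (mat_hsum H i) x ∈ Singer.ind j hj (RA.B i)
    refine mem_ind.2 fun g => ?_
    rw [(indRel_indOp j hj (mat_hsum H i)).rsj_lam]
    exact (mem_ind.1 hx g).2
  · rintro ⟨hx1, hx2⟩
    refine mem_ind.2 fun g => ⟨mem_ind.1 hx1 g, ?_⟩
    have h2 : indOp j (mat_hsum H i) x ∈ Singer.ind j hj (RA.B i) := hx2
    have h3 := mem_ind.1 h2 g
    rw [(indRel_indOp j hj (mat_hsum H i)).rsj_lam] at h3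
    exact h3

end NN

end Singer
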